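import Pool.Agent.Lib.MP_d439b2_co.L4.Spec1

/-! Four connected sets give an induced minor `C_4`. -/

set_option autoImplicit false

namespace Pool.Agent.MPd439b2.LK

open Pool.Agent.MPd439b2

theorem a0 : S_A0 := by
  intro V G T0 T1 T2 T3 c0 c1 c2 c3 d01 d02 d03 d12 d13 d23 t01 t12 t23 t03 n02 n13
  refine ⟨![T0, T1, T2, T3], fun _ => Set.subset_univ _, ?_, ?_, ?_⟩
  · intro w
    fin_cases w
    · exact c0
    · exact c1
    · exact c2
    · exact c3
  · intro w w' hw
    fin_cases w <;> fin_cases w' <;> first | exact absurd rfl hw | skip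
    · exact d01
    · exact d02
    · exact d03
    · exact d01.symm
    · exact d12
    · exact d13
    · exact d02.symm
    · exact d12.symm
    · exact d23
    · exact d03.symm
    · exact d13.symm
    · exact d23.symm
  · intro w w' hw
    fin_cases w <;> fin_cases w' <;> first | exact absurd rfl hw | skip
    · exact ⟨fun _ => t01, fun _ => by simp [cyc4]⟩
    · exact ⟨fun h => absurd h (by simp [cyc4]), fun h => absurd h n02⟩
    · exact ⟨fun _ => t03, fun _ => by simp [cyc4]⟩
    · exact ⟨fun _ => t01.symm, fun _ => by simp [cyc4]⟩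
    · exact ⟨fun _ => t12, fun _ => by simp [cyc4]⟩
    · exact ⟨fun h => absurd h (by simp [cyc4]), fun h => absurd h n13⟩
    · exact ⟨fun h => absurd h (by simp [cyc4]), fun h => absurd h.symm n02⟩
    · exact ⟨fun _ => t12.symm, fun _ => by simp [cyc4]⟩
    · exact ⟨fun _ => t23, fun _ => by simp [cyc4]⟩
    · exact ⟨fun _ => t03.symm, fun _ => by simp [cyc4]⟩
    · exact ⟨fun h => absurd h (by simp [cyc4]), fun h => absurd h.symm n13⟩
    · exact ⟨fun _ => t23.symm, fun _ => by simp [cyc4]⟩

end Pool.Agent.MPd439b2.LK
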