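import Pool.Agent.Lib.MP_d439b2_co.L4.Spec1

/-!
# L4, A1: rules for the rank of the adjacency matrix
-/

set_option autoImplicit false

namespace Pool.Agent.MPd439b2.LK

open Pool.Agent.MPd439b2

private theorem A1_span {V : Type} [Finite V] (s : Set (V → ZMod 2)) (n : ℕ) (h : s.ncard ≤ n) :
    Module.finrank (ZMod 2) (Submodule.span (ZMod 2) s) ≤ n := by
  classical
  have : Fintype V := Fintype.ofFinite V
  have : Fintype s := Fintype.ofFinite s
  refine (finrank_span_le_card s).trans ?_
  rw [← Set.ncard_eq_toFinset_card']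
  exact h

private theorem A1_mono {V : Type} [Finite V] {s t : Set (V → ZMod 2)} (h : s ⊆ t) :
    Module.finrank (ZMod 2) (Submodule.span (ZMod 2) s) ≤
      Module.finrank (ZMod 2) (Submodule.span (ZMod 2) t) :=
  Submodule.finrank_mono (Submodule.span_mono h)

private theorem A1_zero {V : Type} (s t : Set (V → ZMod 2)) (h : s ⊆ insert 0 t)
    (h' : t ⊆ insert 0 s) : Submodule.span (ZMod 2) s = Submodule.span (ZMod 2) t := by
  apply le_antisymm
  · refine (Submodule.span_mono h).trans ?_
    rw [Submodule.span_insert_zero]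
  · refine (Submodule.span_mono h').trans ?_
    rw [Submodule.span_insert_zero]

open Classical in
private noncomputable def A1_mat {V : Type} (G : SimpleGraph V) (A B : Set V) : Matrix V V (ZMod 2) :=
  Matrix.of fun x y => if x ∈ A ∧ y ∈ B ∧ G.Adj x y then 1 else 0

private theorem A1_rk {V : Type} [Fintype V] (G : SimpleGraph V) (A B : Set V) :
    rk G A B = (A1_mat G A B).rank := by
  classical
  rw [Matrix.rank_eq_finrank_span_row]
  unfold rk
  rw [A1_zero (row G B '' A) (Set.range (A1_mat G A B).row)]
  · rintro _ ⟨x, hx, rfl⟩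
    refine Or.inr ⟨x, ?_⟩
    funext y
    by_cases h : y ∈ B ∧ G.Adj x y
    · simp [A1_mat, row, Matrix.row, hx, h]
    · simp only [A1_mat, row, Matrix.row, Matrix.of_apply, hx, true_and]
  · rintro _ ⟨x, rfl⟩
    by_cases hx : x ∈ A
    · refine Or.inr ⟨x, hx, ?_⟩
      funext y
      simp only [A1_mat, row, Matrix.row, Matrix.of_apply, hx, true_and]
    · refine Or.inl ?_
      funext y
      simp only [A1_mat, Matrix.row, Matrix.of_apply, hx, false_and, if_false, Pi.zero_apply]

private theorem A1_symm {V : Type} [Finite V] (G : SimpleGraph V) (A B : Set V) :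
    rk G A B = rk G B A := by
  classical
  have : Fintype V := Fintype.ofFinite V
  rw [A1_rk, A1_rk, ← Matrix.rank_transpose]
  congr 1
  ext x y
  simp only [A1_mat, Matrix.transpose_apply, Matrix.of_apply]
  refine if_congr ?_ rfl rfl
  rw [G.adj_comm]
  tauto

private theorem A1_left {V : Type} [Finite V] (G : SimpleGraph V) {A A' : Set V} (B : Set V)
    (h : A ⊆ A') : rk G A B ≤ rk G A' B :=
  A1_mono (Set.image_mono h)

private theorem A1_six {V : Type} [Finite V] (G : SimpleGraph V) (A B : Set V) (T : Set (Set V))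
    (h : ∀ a ∈ A, {b | b ∈ B ∧ G.Adj a b} ∈ T ∨ ∀ b ∈ B, ¬ G.Adj a b) : rk G A B ≤ T.ncard := by
  classical
  have h1 : row G B '' A ⊆ insert 0 ((fun (S : Set V) (y : V) => if y ∈ S then (1 : ZMod 2) else 0) '' T) := by
    rintro _ ⟨a, ha, rfl⟩
    rcases h a ha with h2 | h2
    · refine Or.inr ⟨_, h2, ?_⟩
      funext y
      unfold row
      dsimp only
      by_cases hy : y ∈ B ∧ G.Adj a y
      · have hy' : y ∈ {b | b ∈ B ∧ G.Adj a b} := hy
        rw [if_pos hy', if_pos hy]
      · have hy' : y ∉ {b | b ∈ B ∧ G.Adj a b} := hy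
        rw [if_neg hy', if_neg hy]
    · refine Or.inl ?_
      funext y
      simp only [row, Pi.zero_apply]
      rw [if_neg]
      rintro ⟨h3, h4⟩
      exact h2 y h3 h4
  have h2 := A1_mono h1
  rw [Submodule.span_insert_zero] at h2
  exact h2.trans (A1_span _ _ (Set.ncard_image_le (Set.toFinite T)))

/-- **A1.** -/
theorem a1 : S_A1 := by
  intro V _ G
  refine ⟨A1_symm G, ?_, ?_, ?_, ?_, A1_six G⟩
  · intro A A' B B' hA hB
    refine (A1_left G B hA).trans ?_
    rw [A1_symm G A' B, A1_symm G A' B']
    exact A1_left G A' hB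
  · intro A A' B
    unfold rk
    rw [Set.image_union, Submodule.span_union]
    exact Submodule.finrank_add_le_finrank_add_finrank _ _
  · intro A B
    exact A1_span _ _ (Set.ncard_image_le (Set.toFinite A))
  · intro A B T h
    have h1 := A1_six G A B {B ∩ T} (by
      intro a ha
      rcases h a ha with h2 | h2
      · left
        rw [Set.mem_singleton_iff]
        ext b
        constructor
        · rintro ⟨h3, h4⟩
          exact ⟨h3, (h2 b h3).1 h4⟩
        · rintro ⟨h3, h4⟩
          exact ⟨h3, (h2 b h3).2 h4⟩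
      · exact Or.inr h2)
    rw [Set.ncard_singleton] at h1
    exact h1

end Pool.Agent.MPd439b2.LK
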