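import Pool.Agent.Lib.MP_d439b2_co.L4.Spec1

/-! Splitting a set by components. -/

set_option autoImplicit false

namespace Pool.Agent.MPd439b2.LK

open Pool.Agent.MPd439b2

/-- the part of `V'` in a closed set `U` has at most the cut-rank of `V'` -/
private theorem a11_cr {V : Type} [Finite V] (G : SimpleGraph V) {K V' U : Set V} (hd : Disjoint V' K)
    (hU : ∀ u ∈ Kᶜ, u ∉ nb G U) : cr G (V' ∩ U) ≤ cr G V' := by
  classical
  unfold cr rk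
  have hsub : row G (V' ∩ U)ᶜ '' (V' ∩ U) ⊆ row G V'ᶜ '' V' := by
    rintro _ ⟨x, hx, rfl⟩
    refine ⟨x, hx.1, ?_⟩
    funext y
    unfold row
    have h : (y ∈ V'ᶜ ∧ G.Adj x y) ↔ (y ∈ (V' ∩ U)ᶜ ∧ G.Adj x y) := by
      constructor
      · rintro ⟨h1, h2⟩
        exact ⟨fun h3 => h1 h3.1, h2⟩
      · rintro ⟨h1, h2⟩
        refine ⟨fun h3 => ?_, h2⟩
        have h4 : y ∈ Kᶜ := fun h5 => Set.disjoint_left.1 hd h3 h5
        exact hU y h4 ⟨fun h5 => h1 ⟨h3, h5⟩, x, hx.2, h2⟩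
    by_cases h1 : y ∈ V'ᶜ ∧ G.Adj x y
    · rw [if_pos h1, if_pos (h.1 h1)]
    · rw [if_neg h1, if_neg (fun h2 => h1 (h.2 h2))]
  have : Finite (V → ZMod 2) := Pi.finite
  exact Submodule.finrank_mono (Submodule.span_mono hsub)

theorem a11 (_ : S_A1) : S_A11 := by
  intro V _ G K B V' c hcomp hB hd hcr hBV
  classical
  have hfin : ∀ s : Set V, s.Finite := fun s => Set.toFinite s
  -- closed sets with a small trace
  set 𝒰 : Set (Set V) := {U | (∀ u ∈ Kᶜ, u ∉ nb G U) ∧ (B ∩ (V' ∩ U)).ncard ≤ 2 * c} with h𝒰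
  have hne : 𝒰.Nonempty := by
    refine ⟨∅, ?_, ?_⟩
    · rintro u - ⟨-, a, ha, -⟩
      exact ha
    · rw [Set.inter_empty, Set.inter_empty, Set.ncard_empty]
      exact Nat.zero_le _
  obtain ⟨U, hUmem, hUmax⟩ := (Set.toFinite 𝒰).exists_maximalFor (fun U => U.ncard) 𝒰 hne
  obtain ⟨hU1, hU2⟩ := hUmem
  -- `V'` is not contained in `U`
  obtain ⟨v, hv, hvU⟩ : ∃ v ∈ V', v ∉ U := by
    by_contra hcon
    push Not at hcon
    have h1 : V' ∩ U = V' := Set.inter_eq_left.2 hcon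
    rw [h1] at hU2
    have h2 := Set.ncard_inter_add_ncard_sdiff_eq_ncard B V' (hfin B)
    omega
  have hvK : v ∈ Kᶜ := fun h => Set.disjoint_left.1 hd hv h
  obtain ⟨C, hCK, hvC, hCc, hCn⟩ := exists_comp G hvK
  have hC : IsComp G Kᶜ C := ⟨hCK, hCc, hCn⟩
  have hU' : ∀ u ∈ Kᶜ, u ∉ nb G (U ∪ C) := by
    rintro u hu ⟨h1, a, ha, hau⟩
    rcases ha with ha | ha
    · exact hU1 u hu ⟨fun h => h1 (Or.inl h), a, ha, hau⟩
    · exact hCn u hu ⟨fun h => h1 (Or.inr h), a, ha, hau⟩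
  have hlt : U.ncard < (U ∪ C).ncard :=
    Set.ncard_lt_ncard ⟨Set.subset_union_left, fun h => hvU (h (Or.inr hvC))⟩ (hfin _)
  have hbig : 2 * c < (B ∩ (V' ∩ (U ∪ C))).ncard := by
    by_contra hcon
    push Not at hcon
    have h1 := hUmax (j := U ∪ C) ⟨hU', hcon⟩ hlt.le
    exact absurd h1 (not_le.2 hlt)
  refine ⟨V' ∩ (U ∪ C), (a11_cr G hd hU').trans hcr, hbig, ?_⟩
  have h3 : (B ∩ (V' ∩ (U ∪ C))).ncard ≤ (B ∩ (V' ∩ U)).ncard + (B ∩ C).ncard := by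
    refine le_trans (Set.ncard_le_ncard ?_ (hfin _)) (Set.ncard_union_le _ _)
    rintro x ⟨hx1, hx2, hx3⟩
    rcases hx3 with hx3 | hx3
    · exact Or.inl ⟨hx1, hx2, hx3⟩
    · exact Or.inr ⟨hx1, hx3⟩
  have h4 := Set.ncard_inter_add_ncard_sdiff_eq_ncard B (V' ∩ (U ∪ C)) (hfin B)
  have h5 := hcomp C hC
  omega

end Pool.Agent.MPd439b2.LK
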