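import Pool.Agent.Lib.MP_d439b2_co.L4.Spec1

/-!
# MP_d439b2_co, column `C_4`: cliques suffice (assembly)
-/

set_option autoImplicit false

namespace Pool.Agent.MPd439b2.LK

open Pool.Agent.MPd439b2

theorem a12 (h5 : S_A5) (h6 : S_A6) (h8 : S_A8) (h9 : S_A9) (h10 : S_A10) (h11 : S_A11) :
    S_A12 := by
  intro c n
  rcases Nat.eq_zero_or_pos n with hn | hn
  · refine ⟨0, ?_⟩
    intro V _ G _ hS
    exfalso
    obtain ⟨X, _, h2, _⟩ := hS ∅ (fun x hx => absurd hx (Set.notMem_empty x)) (by rw [hn]; simp)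
    rw [Set.empty_inter, Set.ncard_empty] at h2
    omega
  · refine ⟨2 ^ (8 * (3 * n + 1) + 1), ?_⟩
    intro V _ G hChd hS
    apply h6 V G (8 * (3 * n + 1) + 1) (3 * n + 1) (by omega)
    intro B hB
    obtain ⟨K, hK, hcomp⟩ := h8 V G B hChd
    obtain ⟨hCF, _, hle⟩ := h9 V G K
    have hlam : lam G K K = 0 := by
      have h1 := hCF.2.1 ∅ (Set.empty_subset _)
      rw [Set.diff_empty] at h1
      rw [h1]
      exact hCF.1
    have hAL : ALay (lam G K) n K := by
      apply h5 V K (lam G K) n c hCF hn _ K subset_rfl (by omega)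
      intro B' hB'K hB'n
      have hB'c : CompleteOn G B' := fun x hx y hy hxy => hK x (hB'K hx) y (hB'K hy) hxy
      obtain ⟨X, hX1, hX2, hX3⟩ := hS B' hB'c hB'n
      refine ⟨X ∩ K, Set.inter_subset_right, (hle X).trans hX1, ?_, ?_⟩
      · have h1 : B' ∩ (X ∩ K) = B' ∩ X := by
          ext z
          constructor
          · rintro ⟨h1, h2, _⟩
            exact ⟨h1, h2⟩
          · rintro ⟨h1, h2⟩
            exact ⟨h1, h2, hB'K h1⟩
        rw [h1]
        exact hX2
      · have h1 : B' \ (X ∩ K) = B' \ X := by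
          ext z
          constructor
          · rintro ⟨h1, h2⟩
            exact ⟨h1, fun h3 => h2 ⟨h3, hB'K h1⟩⟩
          · rintro ⟨h1, h2⟩
            exact ⟨h1, fun h3 => h2 h3.1⟩
        rw [h1]
        exact hX3
    by_contra hno
    apply hno
    have hall : ∀ P, cr G P ≤ 3 * n + 1 →
        (B ∩ P).ncard ≤ 2 * (3 * n + 1) ∨ (B \ P).ncard ≤ 2 * (3 * n + 1) := by
      intro P hP
      by_contra h1
      rw [not_or, not_le, not_le] at h1
      exact hno ⟨P, hP, h1.1, h1.2⟩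
    obtain ⟨V', hV1, hV2, hV3⟩ := h10 V G K B n (3 * n + 1) hAL le_rfl (by omega) hall
    exact h11 V G K B V' (3 * n + 1) hcomp (by omega) hV1 hV2 hV3

end Pool.Agent.MPd439b2.LK
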