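import Pool.Agent.Lib.MP_d439b2_co.L4.Spec1

/-!
# L4, A2: the cut-rank is a connectivity function
-/

set_option autoImplicit false

namespace Pool.Agent.MPd439b2.LK

open Pool.Agent.MPd439b2

open Classical in
/-- restriction to `Y` -/
private noncomputable def A2_pi {V : Type} (Y : Set V) : (V → ZMod 2) →ₗ[ZMod 2] (V → ZMod 2) where
  toFun v := fun y => if y ∈ Y then v y else 0
  map_add' v w := by
    funext y
    simp only [Pi.add_apply]
    split_ifs
    · rfl
    · rw [add_zero]
  map_smul' c v := by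
    funext y
    simp only [Pi.smul_apply, smul_eq_mul, RingHom.id_apply]
    split_ifs
    · rfl
    · rw [mul_zero]

/-- the vectors which vanish on `Y` -/
private noncomputable def A2_Z {V : Type} (Y : Set V) : Submodule (ZMod 2) (V → ZMod 2) where
  carrier := {v | ∀ y ∈ Y, v y = 0}
  add_mem' := by
    intro a b ha hb y hy
    rw [Pi.add_apply, ha y hy, hb y hy, add_zero]
  zero_mem' := fun y _ => rfl
  smul_mem' := by
    intro c a ha y hy
    rw [Pi.smul_apply, ha y hy, smul_zero]

private theorem A2_mem {V : Type} {Y : Set V} {v : V → ZMod 2} :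
    v ∈ A2_Z Y ↔ ∀ y ∈ Y, v y = 0 := Iff.rfl

/-- the span of the full rows -/
private noncomputable def A2_W {V : Type} (G : SimpleGraph V) (X : Set V) :
    Submodule (ZMod 2) (V → ZMod 2) :=
  Submodule.span (ZMod 2) (row G Set.univ '' X)

private theorem A2_ker {V : Type} (Y : Set V) : LinearMap.ker (A2_pi Y) = A2_Z Y := by
  classical
  ext v
  rw [LinearMap.mem_ker, A2_mem]
  constructor
  · intro h y hy
    have h1 := congrFun h y
    simp only [A2_pi, LinearMap.coe_mk, AddHom.coe_mk, hy, if_true, Pi.zero_apply] at h1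
    exact h1
  · intro h
    funext y
    simp only [A2_pi, LinearMap.coe_mk, AddHom.coe_mk, Pi.zero_apply]
    split_ifs with hy
    · exact h y hy
    · rfl

private theorem A2_map {V : Type} (G : SimpleGraph V) (X Y : Set V) :
    Submodule.map (A2_pi Y) (A2_W G X ⊔ A2_Z Y) = Submodule.span (ZMod 2) (row G Y '' X) := by
  classical
  rw [Submodule.map_sup]
  have h1 : Submodule.map (A2_pi Y) (A2_Z Y) = ⊥ := by
    rw [← A2_ker, eq_bot_iff]
    rintro _ ⟨v, hv, rfl⟩
    exact hv
  rw [h1, sup_bot_eq]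
  unfold A2_W
  rw [Submodule.map_span, Set.image_image]
  congr 1
  refine Set.image_congr fun x _ => ?_
  funext y
  simp only [A2_pi, LinearMap.coe_mk, AddHom.coe_mk, row, Set.mem_univ, true_and]
  by_cases hy : y ∈ Y
  · simp only [hy, if_true, true_and]
  · simp only [hy, if_false, false_and]

private theorem A2_rn {V : Type} [Finite V] (f : (V → ZMod 2) →ₗ[ZMod 2] (V → ZMod 2))
    (U : Submodule (ZMod 2) (V → ZMod 2)) (h : LinearMap.ker f ≤ U) :
    Module.finrank (ZMod 2) (Submodule.map f U) + Module.finrank (ZMod 2) (LinearMap.ker f) =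
      Module.finrank (ZMod 2) U := by
  have h1 := LinearMap.finrank_range_add_finrank_ker (f.domRestrict U)
  rw [LinearMap.range_domRestrict, LinearMap.ker_domRestrict] at h1
  rw [← h1]
  congr 1
  exact (LinearEquiv.finrank_eq (Submodule.comapSubtypeEquivOfLe h)).symm

private theorem A2_phi {V : Type} [Finite V] (G : SimpleGraph V) (X Y : Set V) :
    rk G X Y + Module.finrank (ZMod 2) (A2_Z Y) =
      Module.finrank (ZMod 2) (A2_W G X ⊔ A2_Z Y : Submodule (ZMod 2) (V → ZMod 2)) := by
  have h1 := A2_rn (A2_pi Y) (A2_W G X ⊔ A2_Z Y) (by rw [A2_ker]; exact le_sup_right)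
  rw [A2_map, A2_ker] at h1
  exact h1

private theorem A2_sup {V : Type} (Y Y' : Set V) : A2_Z Y ⊔ A2_Z Y' = A2_Z (Y ∩ Y') := by
  classical
  apply le_antisymm
  · refine sup_le ?_ ?_
    · intro v hv y hy
      exact hv y hy.1
    · intro v hv y hy
      exact hv y hy.2
  · intro v hv
    rw [Submodule.mem_sup]
    refine ⟨fun y => if y ∈ Y then 0 else v y, ?_, fun y => if y ∈ Y then v y else 0, ?_, ?_⟩
    · intro y hy
      simp only [hy, if_true]
    · intro y hy
      by_cases h : y ∈ Y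
      · simp only [h, if_true]
        exact hv y ⟨h, hy⟩
      · simp only [h, if_false]
    · funext y
      simp only [Pi.add_apply]
      split_ifs
      · rw [zero_add]
      · rw [add_zero]

private theorem A2_inf {V : Type} (Y Y' : Set V) : A2_Z Y ⊓ A2_Z Y' = A2_Z (Y ∪ Y') := by
  ext v
  rw [Submodule.mem_inf, A2_mem, A2_mem, A2_mem]
  constructor
  · rintro ⟨h1, h2⟩ y hy
    rcases hy with h | h
    · exact h1 y h
    · exact h2 y h
  · intro h
    exact ⟨fun y hy => h y (Or.inl hy), fun y hy => h y (Or.inr hy)⟩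

private theorem A2_sub {V : Type} [Finite V] (G : SimpleGraph V) (P Q Y Y' : Set V) :
    rk G (P ∩ Q) (Y ∪ Y') + rk G (P ∪ Q) (Y ∩ Y') ≤ rk G P Y + rk G Q Y' := by
  have e1 := A2_phi G P Y
  have e2 := A2_phi G Q Y'
  have e3 := A2_phi G (P ∩ Q) (Y ∪ Y')
  have e4 := A2_phi G (P ∪ Q) (Y ∩ Y')
  have e5 := Submodule.finrank_sup_add_finrank_inf_eq (A2_Z Y) (A2_Z Y')
  rw [A2_sup, A2_inf] at e5
  have e6 := Submodule.finrank_sup_add_finrank_inf_eq (A2_W G P ⊔ A2_Z Y) (A2_W G Q ⊔ A2_Z Y')
  have e7 : Module.finrank (ZMod 2)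
      (A2_W G (P ∪ Q) ⊔ A2_Z (Y ∩ Y') : Submodule (ZMod 2) (V → ZMod 2)) ≤
      Module.finrank (ZMod 2)
        ((A2_W G P ⊔ A2_Z Y) ⊔ (A2_W G Q ⊔ A2_Z Y') : Submodule (ZMod 2) (V → ZMod 2)) := by
    apply Submodule.finrank_mono
    refine sup_le ?_ ?_
    · unfold A2_W
      rw [Set.image_union, Submodule.span_union]
      exact sup_le (le_sup_left.trans le_sup_left) (le_sup_left.trans le_sup_right)
    · rw [← A2_sup]
      exact sup_le (le_sup_right.trans le_sup_left) (le_sup_right.trans le_sup_right)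
  have e8 : Module.finrank (ZMod 2)
      (A2_W G (P ∩ Q) ⊔ A2_Z (Y ∪ Y') : Submodule (ZMod 2) (V → ZMod 2)) ≤
      Module.finrank (ZMod 2)
        ((A2_W G P ⊔ A2_Z Y) ⊓ (A2_W G Q ⊔ A2_Z Y') : Submodule (ZMod 2) (V → ZMod 2)) := by
    apply Submodule.finrank_mono
    refine sup_le (le_inf ?_ ?_) (le_inf ?_ ?_)
    · exact (Submodule.span_mono (Set.image_mono Set.inter_subset_left)).trans le_sup_left
    · exact (Submodule.span_mono (Set.image_mono Set.inter_subset_right)).trans le_sup_left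
    · rw [← A2_inf]
      exact inf_le_left.trans le_sup_right
    · rw [← A2_inf]
      exact inf_le_right.trans le_sup_right
  omega

/-- **A2.** -/
theorem a2 (h1 : S_A1) : S_A2 := by
  intro V _ G
  obtain ⟨hs, _, _, hc, _, _⟩ := h1 V G
  refine ⟨?_, ?_, ?_, ?_⟩
  · have := hc ∅ (∅ : Set V)ᶜ
    rw [Set.ncard_empty] at this
    exact Nat.le_zero.1 this
  · intro P _
    unfold cr
    rw [← Set.compl_eq_univ_sdiff, compl_compl]
    exact hs _ _
  · intro P _ Q _
    unfold cr
    have h2 := A2_sub G P Q Pᶜ Qᶜ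
    rw [← Set.compl_inter, ← Set.compl_union] at h2
    exact h2
  · intro v _
    have := hc {v} ({v} : Set V)ᶜ
    rw [Set.ncard_singleton] at this
    exact this

end Pool.Agent.MPd439b2.LK
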