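import Pool.Agent.Lib.MP_d439b2_co.L4.Spec1

/-!
# MP_d439b2_co, column `C_4`: few types if the cut-rank is small
-/

set_option autoImplicit false

namespace Pool.Agent.MPd439b2.LK

open Pool.Agent.MPd439b2

theorem a3 : S_A3 := by
  intro V _ G X
  classical
  set f : Set V → (V → ZMod 2) := fun T y => if y ∈ T then 1 else 0 with hf
  have hinj : Function.Injective f := by
    intro S T hST
    ext y
    have h := congrFun hST y
    simp only [hf] at h
    by_cases h1 : y ∈ S <;> by_cases h2 : y ∈ T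
    · exact ⟨fun _ => h2, fun _ => h1⟩
    · rw [if_pos h1, if_neg h2] at h
      exact absurd h (by decide)
    · rw [if_neg h1, if_pos h2] at h
      exact absurd h (by decide)
    · exact ⟨fun h3 => absurd h3 h1, fun h3 => absurd h3 h2⟩
  have hsub : f '' Types G X ⊆
      (Submodule.span (ZMod 2) (row G Xᶜ '' X) : Set (V → ZMod 2)) := by
    rintro _ ⟨T, ⟨_, a, ha, rfl⟩, rfl⟩
    have h1 : f (G.neighborSet a \ X) = row G Xᶜ a := by
      funext y
      simp only [hf, row]
      by_cases h2 : y ∈ Xᶜ ∧ G.Adj a y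
      · rw [if_pos h2, if_pos ⟨h2.2, h2.1⟩]
      · rw [if_neg h2, if_neg (fun h3 => h2 ⟨h3.2, h3.1⟩)]
    rw [h1]
    exact Submodule.subset_span ⟨a, ha, rfl⟩
  have hcard := Module.natCard_eq_pow_finrank (K := ZMod 2)
    (V := Submodule.span (ZMod 2) (row G Xᶜ '' X))
  rw [Nat.card_zmod] at hcard
  have h2 : ((Submodule.span (ZMod 2) (row G Xᶜ '' X) : Set (V → ZMod 2))).encard =
      ((2 ^ cr G X : ℕ) : ℕ∞) := by
    rw [← Set.Finite.cast_ncard_eq (Set.toFinite _), ← Nat.card_coe_set_eq]
    exact congrArg _ hcard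
  rw [← hinj.encard_image, ← h2]
  exact Set.encard_le_encard hsub

end Pool.Agent.MPd439b2.LK
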