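import Pool.Agent.Lib.MP_d439b2_co.L4.Spec1

/-!
# L4, A4: splitting a set of large value of a connectivity function
-/

set_option autoImplicit false

namespace Pool.Agent.MPd439b2.LK

open Pool.Agent.MPd439b2

/-- independent sets -/
private def A4_ind {α : Type} (U : Set α) (f : Set α → ℕ) (B : Set α) : Prop :=
  ∀ W ⊆ U, (B ∩ W).ncard ≤ f W

private theorem A4_max {α : Type} [Finite α] (U : Set α) (f : Set α → ℕ) :
    ∃ B ⊆ U, A4_ind U f B ∧ ∀ B' ⊆ U, A4_ind U f B' → B'.ncard ≤ B.ncard := by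
  have h1 : {B : Set α | B ⊆ U ∧ A4_ind U f B}.Nonempty := by
    refine ⟨∅, Set.empty_subset _, fun W _ => ?_⟩
    rw [Set.empty_inter, Set.ncard_empty]
    exact Nat.zero_le _
  obtain ⟨B, hB, hmax⟩ := Set.exists_max_image _ (fun B : Set α => B.ncard)
    (Set.toFinite {B : Set α | B ⊆ U ∧ A4_ind U f B}) h1
  exact ⟨B, hB.1, hB.2, fun B' h2 h3 => hmax B' ⟨h2, h3⟩⟩

private theorem A4_rank {α : Type} [Finite α] (E : Set α) (f : Set α → ℕ) (hf : CF E f) (U : Set α)
    (hU : U ⊆ E) (B : Set α) (hBU : B ⊆ U) (hB : A4_ind U f B)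
    (hmax : ∀ B' ⊆ U, A4_ind U f B' → B'.ncard ≤ B.ncard) : f U = B.ncard := by
  classical
  obtain ⟨h0, _, hsub, hone⟩ := hf
  -- every element lies in a tight set
  have htight : ∀ e ∈ U, ∃ W ⊆ U, e ∈ W ∧ f W = (B ∩ W).ncard := by
    intro e he
    by_cases heB : e ∈ B
    · refine ⟨{e}, Set.singleton_subset_iff.2 he, rfl, ?_⟩
      have h1 := hB {e} (Set.singleton_subset_iff.2 he)
      have h2 : B ∩ {e} = {e} := Set.inter_eq_right.2 (Set.singleton_subset_iff.2 heB)
      rw [h2, Set.ncard_singleton] at h1 ⊢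
      have h3 := hone e (hU he)
      omega
    · have h1 : ¬ A4_ind U f (insert e B) := by
        intro h
        have h2 := hmax _ (Set.insert_subset he hBU) h
        rw [Set.ncard_insert_of_notMem heB (Set.toFinite B)] at h2
        omega
      unfold A4_ind at h1
      push Not at h1
      obtain ⟨W, hW, hlt⟩ := h1
      have h2 := hB W hW
      refine ⟨W, hW, ?_, ?_⟩
      · by_contra heW
        rw [Set.insert_inter_of_notMem heW] at hlt
        omega
      · have h3 : (insert e B ∩ W).ncard ≤ (B ∩ W).ncard + 1 := by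
          have h4 : insert e B ∩ W ⊆ insert e (B ∩ W) := by
            rintro x ⟨hx | hx, hxW⟩
            · exact Or.inl hx
            · exact Or.inr ⟨hx, hxW⟩
          exact (Set.ncard_le_ncard h4 (Set.toFinite _)).trans (Set.ncard_insert_le _ _)
        omega
  have hunion : ∀ S : Set α, S ⊆ U → ∃ W ⊆ U, S ⊆ W ∧ f W = (B ∩ W).ncard := by
    intro S
    induction S, Set.toFinite S using Set.Finite.induction_on with
    | empty =>
      intro _
      refine ⟨∅, Set.empty_subset _, Set.empty_subset _, ?_⟩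
      rw [h0, Set.inter_empty, Set.ncard_empty]
    | @insert e S _ _ ih =>
      intro hS
      obtain ⟨W, hW, hSW, hWt⟩ := ih ((Set.subset_insert _ _).trans hS)
      obtain ⟨W', hW', heW', hWt'⟩ := htight e (hS (Set.mem_insert _ _))
      refine ⟨W ∪ W', Set.union_subset hW hW', ?_, ?_⟩
      · rw [Set.insert_subset_iff]
        exact ⟨Or.inr heW', hSW.trans Set.subset_union_left⟩
      · have h1 := hsub W (hW.trans hU) W' (hW'.trans hU)
        have h2 := hB (W ∩ W') (Set.inter_subset_left.trans hW)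
        have h3 := hB (W ∪ W') (Set.union_subset hW hW')
        have h4 := Set.ncard_union_add_ncard_inter (B ∩ W) (B ∩ W') (Set.toFinite _) (Set.toFinite _)
        have h5 : (B ∩ W) ∪ (B ∩ W') = B ∩ (W ∪ W') := by rw [Set.inter_union_distrib_left]
        have h6 : (B ∩ W) ∩ (B ∩ W') = B ∩ (W ∩ W') := by
          ext x
          simp only [Set.mem_inter_iff]
          tauto
        rw [h5, h6] at h4
        omega
  obtain ⟨W, hW, hUW, hWt⟩ := hunion U subset_rfl
  have h1 : W = U := Set.Subset.antisymm hW hUW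
  rw [h1] at hWt
  rw [hWt, Set.inter_eq_left.2 hBU]

private theorem A4_half {α : Type} [Finite α] (E : Set α) (f : Set α → ℕ) (hf : CF E f) (U : Set α)
    (hU : U ⊆ E) (B : Set α) (hBU : B ⊆ U) (hB : A4_ind U f B) (P : Set α) (c : ℕ) (hP : P ⊆ E)
    (hc : f P ≤ c) (h : 2 * c < (B \ P).ncard) : f (U ∩ P) < f U := by
  obtain ⟨_, hcomp, hsub, _⟩ := hf
  have h1 : (B \ P).ncard ≤ f (U \ P) := by
    have h2 := hB (U \ P) Set.sdiff_subset
    have h3 : B ∩ (U \ P) = B \ P := by
      ext x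
      constructor
      · rintro ⟨h4, _, h5⟩
        exact ⟨h4, h5⟩
      · rintro ⟨h4, h5⟩
        exact ⟨h4, hBU h4, h5⟩
    rw [h3] at h2
    exact h2
  have h2 : f (E \ (U ∪ P)) = f (U ∪ P) := hcomp _ (Set.union_subset hU hP)
  have h3 : f (E \ (U \ P)) = f (U \ P) := hcomp _ (Set.sdiff_subset.trans hU)
  have h4 : P ∪ (E \ (U ∪ P)) = E \ (U \ P) := by
    ext x
    constructor
    · rintro (h5 | ⟨h5, h6⟩)
      · exact ⟨hP h5, fun h7 => h7.2 h5⟩
      · exact ⟨h5, fun h7 => h6 (Or.inl h7.1)⟩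
    · rintro ⟨h5, h6⟩
      by_cases h7 : x ∈ P
      · exact Or.inl h7
      · refine Or.inr ⟨h5, ?_⟩
        rintro (h8 | h8)
        · exact h6 ⟨h8, h7⟩
        · exact h7 h8
  have h5 := hsub P hP (E \ (U ∪ P)) Set.sdiff_subset
  rw [h4, h3, h2] at h5
  have h6 := hsub U hU P hP
  omega

/-- **A4.** -/
theorem a4 : S_A4 := by
  intro α _ E f hf U hU
  obtain ⟨B, hBU, hB, hmax⟩ := A4_max U f
  refine ⟨B, hBU, (A4_rank E f hf U hU B hBU hB hmax).symm, fun P c hP hc h1 h2 => ⟨?_, ?_⟩⟩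
  · exact A4_half E f hf U hU B hBU hB P c hP hc h2
  · have h3 : U ∩ (E \ P) = U \ P := by
      ext x
      constructor
      · rintro ⟨h4, _, h5⟩
        exact ⟨h4, h5⟩
      · rintro ⟨h4, h5⟩
        exact ⟨h4, hU h4, h5⟩
    have h4 : B \ (E \ P) = B ∩ P := by
      ext x
      constructor
      · rintro ⟨h5, h6⟩
        refine ⟨h5, ?_⟩
        by_contra h7
        exact h6 ⟨hU (hBU h5), h7⟩
      · rintro ⟨h5, h6⟩
        exact ⟨h5, fun h7 => h7.2 h6⟩
    have h5 := A4_half E f hf U hU B hBU hB (E \ P) c Set.sdiff_subset (by rw [hf.2.1 P hP]; exact hc)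
      (by rw [h4]; exact h1)
    rw [h3] at h5
    exact h5

end Pool.Agent.MPd439b2.LK
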