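import Pool.Agent.Lib.MP_d439b2_co.L4.Spec1

/-!
# L4, A5: abstract layout of a connectivity function
-/

set_option autoImplicit false

namespace Pool.Agent.MPd439b2.LK

open Pool.Agent.MPd439b2

/-- **A5.** -/
theorem a5 (h4 : S_A4) : S_A5 := by
  intro α _ E f q c hf hq hcut
  obtain ⟨h0, hcomp, hsub, hone⟩ := hf
  have main : ∀ n : ℕ, ∀ U ⊆ E, U.ncard = n → f U ≤ q → ALay f q U := by
    intro n
    induction n using Nat.strong_induction_on with
    | _ n ih =>
      intro U hU hn hq'
      rcases lt_or_ge n 2 with h1 | h1
      · rcases Nat.lt_or_ge n 1 with h2 | h2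
        · have h3 : U = ∅ := (Set.ncard_eq_zero (Set.toFinite U)).1 (by omega)
          rw [h3]
          exact ALay.empty
        · obtain ⟨v, hv⟩ := Set.ncard_eq_one.1 (show U.ncard = 1 by omega)
          rw [hv] at hq' ⊢
          exact ALay.single v hq'
      · rcases lt_or_eq_of_le hq' with h2 | h2
        · obtain ⟨v, hv⟩ := (Set.ncard_pos (Set.toFinite U)).1 (show 0 < U.ncard by omega)
          have h3 : ({v} : Set α) ∪ (U \ {v}) = U :=
            Set.union_sdiff_cancel (Set.singleton_subset_iff.2 hv)
          have h5 : (U \ {v}).ncard = n - 1 := by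
            rw [Set.ncard_sdiff_singleton_of_mem hv, hn]
          have h6 : f (U \ {v}) ≤ q := by
            have e1 := hsub (E \ U) Set.sdiff_subset {v} (Set.singleton_subset_iff.2 (hU hv))
            have e2 := hcomp U hU
            have e3 := hone v (hU hv)
            have e4 := hcomp (U \ {v}) (Set.sdiff_subset.trans hU)
            have e5 : E \ (U \ {v}) = (E \ U) ∪ {v} := by
              ext x
              constructor
              · rintro ⟨g1, g2⟩
                by_cases g3 : x ∈ U
                · refine Or.inr ?_
                  by_contra g4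
                  exact g2 ⟨g3, g4⟩
                · exact Or.inl ⟨g1, g3⟩
              · rintro (⟨g1, g2⟩ | g1)
                · exact ⟨g1, fun g3 => g2 g3.1⟩
                · rw [Set.mem_singleton_iff] at g1
                  rw [g1]
                  exact ⟨hU hv, fun g3 => g3.2 rfl⟩
            rw [e5] at e4
            omega
          have h7 : f {v} ≤ q := (hone v (hU hv)).trans hq
          have h8 : Disjoint ({v} : Set α) (U \ {v}) := Set.disjoint_sdiff_right
          have h9 := ALay.union (ALay.single v h7)
            (ih (n - 1) (by omega) (U \ {v}) (Set.sdiff_subset.trans hU) h5 h6) h8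
            (by rw [h3]; exact hq')
          rw [h3] at h9
          exact h9
        · obtain ⟨B, hBU, hB, hsplit⟩ := h4 α E f ⟨h0, hcomp, hsub, hone⟩ U hU
          obtain ⟨P, hP, hPc, g1, g2⟩ := hcut B (hBU.trans hU) (hB.trans h2)
          obtain ⟨g3, g4⟩ := hsplit P c hP hPc g1 g2
          have g5 : (U ∩ P) ∪ (U \ P) = U := Set.inter_union_sdiff U P
          have g6 : Disjoint (U ∩ P) (U \ P) :=
            Set.disjoint_sdiff_right.mono_left Set.inter_subset_right
          have g7 : (U ∩ P).ncard < n := by
            rw [← hn]
            refine Set.ncard_lt_ncard ⟨Set.inter_subset_left, fun g => ?_⟩ (Set.toFinite U)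
            have : U ∩ P = U := Set.Subset.antisymm Set.inter_subset_left g
            rw [this] at g3
            exact lt_irrefl _ g3
          have g8 : (U \ P).ncard < n := by
            rw [← hn]
            refine Set.ncard_lt_ncard ⟨Set.sdiff_subset, fun g => ?_⟩ (Set.toFinite U)
            have : U \ P = U := Set.Subset.antisymm Set.sdiff_subset g
            rw [this] at g4
            exact lt_irrefl _ g4
          have g9 := ALay.union
            (ih _ g7 (U ∩ P) (Set.inter_subset_left.trans hU) rfl (by omega))
            (ih _ g8 (U \ P) (Set.sdiff_subset.trans hU) rfl (by omega)) g6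
            (by rw [g5]; exact hq')
          rw [g5] at g9
          exact g9
  exact fun U hU hq' => main _ U hU rfl hq'

end Pool.Agent.MPd439b2.LK
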