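import Pool.Agent.Lib.MP_d439b2_co.L4.Spec1

/-!
# L4, A6: layouts from balanced cuts
-/

set_option autoImplicit false

namespace Pool.Agent.MPd439b2.LK

open Pool.Agent.MPd439b2

private theorem A6_lay {V : Type} [Finite V] (G : SimpleGraph V) (q : ℕ)
    (h : ∀ X : Set V, (Types G X).encard ≤ ((2 ^ cr G X : ℕ) : ℕ∞)) (X : Set V)
    (hX : ALay (cr G) q X) : Lay G (2 ^ q) X := by
  have key : ∀ X : Set V, cr G X ≤ q → (Types G X).encard ≤ ((2 ^ q : ℕ) : ℕ∞) := by
    intro X hX
    refine (h X).trans ?_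
    exact_mod_cast Nat.pow_le_pow_right (by norm_num) hX
  induction hX with
  | empty => exact Lay.empty
  | single v hv => exact Lay.single v (key _ hv)
  | union _ _ hd hq ihA ihB => exact Lay.union ihA ihB hd (key _ hq)

/-- **A6.** -/
theorem a6 (h2 : S_A2) (h3 : S_A3) (h5 : S_A5) : S_A6 := by
  intro V _ G q c hq hcut
  have hf := h2 V G
  refine A6_lay G q (fun X => h3 V G X) Set.univ ?_
  refine h5 V Set.univ (cr G) q c hf hq ?_ Set.univ subset_rfl ?_
  · intro B _ hB
    obtain ⟨P, g1, g2, g3⟩ := hcut B hB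
    exact ⟨P, Set.subset_univ P, g1, g2, g3⟩
  · have e1 := hf.2.1 ∅ (Set.empty_subset _)
    rw [Set.sdiff_empty, hf.1] at e1
    omega

end Pool.Agent.MPd439b2.LK
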