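import Pool.Agent.Lib.MP_d439b2_co.L4.Spec1

/-!
# MP_d439b2_co, column `C_4`: A7, gates in chordal graphs
-/

set_option autoImplicit false

namespace Pool.Agent.MPd439b2.LK

open Pool.Agent.MPd439b2

theorem a7 (h0 : S_A0) : S_A7 := by
  intro V _ G A C hch hC hA hd hnb
  obtain ⟨x, hx, hmax⟩ : ∃ x ∈ C, ∀ y ∈ C,
      {a | a ∈ A ∧ G.Adj y a}.ncard ≤ {a | a ∈ A ∧ G.Adj x a}.ncard :=
    Set.exists_max_image C _ (Set.toFinite C) hC.1
  refine ⟨x, hx, fun a ha => ?_⟩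
  by_contra hxa
  have hxY : x ∈ {y | y ∈ C ∧ ¬ G.Adj y a} := ⟨hx, hxa⟩
  obtain ⟨Z, hZC, hxZ, hZ, hZnb⟩ := exists_comp G hxY
  have hZne : Z ≠ C := by
    intro h
    obtain ⟨_, c, hc, hca⟩ := hnb a ha
    rw [← h] at hc
    exact (hZC hc).2 hca
  obtain ⟨z, hz, p, hp, hzp⟩ := hC.2 Z (fun z hz => (hZC hz).1) hZ.1 hZne
  have hpa : G.Adj p a := by
    by_contra h
    exact hZnb p ⟨hp.1, h⟩ ⟨hp.2, z, hz, hzp⟩
  have hAC : ∀ b ∈ A, b ∉ C := fun b hb hbC => Set.disjoint_left.1 hd hb hbC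
  have hall : ∀ a' ∈ A, G.Adj x a' → G.Adj p a' := by
    intro a' ha' hxa'
    by_contra hpa'
    have hne : a' ≠ a := by
      rintro rfl
      exact hxa hxa'
    apply hch
    refine h0 V G {a'} {a} {p} Z (Conn.singleton G a') (Conn.singleton G a)
      (Conn.singleton G p) hZ ?_ ?_ ?_ ?_ ?_ ?_ ?_ ?_ ?_ ?_ ?_ ?_
    · exact Set.disjoint_singleton.2 hne
    · refine Set.disjoint_singleton.2 ?_
      rintro rfl
      exact hAC _ ha' hp.1
    · refine Set.disjoint_singleton_left.2 fun h => hAC _ ha' (hZC h).1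
    · refine Set.disjoint_singleton.2 ?_
      rintro rfl
      exact hAC _ ha hp.1
    · refine Set.disjoint_singleton_left.2 fun h => hAC _ ha (hZC h).1
    · exact Set.disjoint_singleton_left.2 hp.2
    · exact ⟨a', rfl, a, rfl, hA a' ha' a ha hne⟩
    · exact ⟨a, rfl, p, rfl, hpa.symm⟩
    · exact ⟨p, rfl, z, hz, hzp.symm⟩
    · exact ⟨a', rfl, x, hxZ, hxa'.symm⟩
    · rintro ⟨b, rfl, c, rfl, hbc⟩
      exact hpa' hbc.symm
    · rintro ⟨b, rfl, c, hc, hbc⟩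
      exact (hZC hc).2 hbc.symm
  have hlt : {a' | a' ∈ A ∧ G.Adj x a'}.ncard < {a' | a' ∈ A ∧ G.Adj p a'}.ncard := by
    apply Set.ncard_lt_ncard _ (Set.toFinite _)
    exact ⟨fun a' h => ⟨h.1, hall a' h.1 h.2⟩, fun h => hxa (h ⟨ha, hpa⟩).2⟩
  have := hmax p hp.1
  omega

end Pool.Agent.MPd439b2.LK
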