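import Pool.Agent.Lib.MP_d439b2_co.L4.Spec1

/-!
# MP_d439b2_co, column `C_4`: A8, a centroid clique of a chordal graph
-/

set_option autoImplicit false

namespace Pool.Agent.MPd439b2.LK

open Pool.Agent.MPd439b2

theorem a8 (h7 : S_A7) : S_A8 := by
  intro V _ G B hch
  by_contra hcon
  push Not at hcon
  have key : ∀ n, ∀ K C, CompleteOn G K → IsComp G Kᶜ C → B.ncard < 2 * (B ∩ C).ncard →
      C.ncard = n → False := by
    intro n
    induction n using Nat.strong_induction_on with
    | _ n ih =>
      intro K C hK hC hB hn
      have hA : nb G C ⊆ K := by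
        intro a ha
        by_contra h
        exact hC.2.2 a h ha
      have hAc : CompleteOn G (nb G C) := fun u hu v hv huv => hK u (hA hu) v (hA hv) huv
      obtain ⟨x, hx, hxA⟩ := h7 V G (nb G C) C hch hC.2.1 hAc
        (Set.disjoint_left.2 fun a ha haC => ha.1 haC) (fun a ha => ha)
      have hK' : CompleteOn G (insert x (nb G C)) := by
        intro u hu v hv huv
        rcases hu with rfl | hu
        · rcases hv with rfl | hv
          · exact absurd rfl huv
          · exact hxA v hv
        · rcases hv with rfl | hv
          · exact (hxA u hu).symm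
          · exact hAc u hu v hv huv
      obtain ⟨C', hC', hB'⟩ := hcon (insert x (nb G C)) hK'
      have hne : (C' ∩ C).Nonempty := by
        by_contra h
        rw [Set.not_nonempty_iff_eq_empty] at h
        have h1 : Disjoint (B ∩ C) (B ∩ C') := by
          refine Set.disjoint_left.2 fun y hy hy' => ?_
          have : y ∈ C' ∩ C := ⟨hy'.2, hy.2⟩
          rw [h] at this
          exact this
        have h2 : ((B ∩ C) ∪ (B ∩ C')).ncard = (B ∩ C).ncard + (B ∩ C').ncard :=
          Set.ncard_union_eq h1 (Set.toFinite _) (Set.toFinite _)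
        have h3 : ((B ∩ C) ∪ (B ∩ C')).ncard ≤ B.ncard :=
          Set.ncard_le_ncard (Set.union_subset Set.inter_subset_left Set.inter_subset_left)
            (Set.toFinite _)
        omega
      have hsub : C' ∩ C = C' := hC'.2.1.eq_of_nb Set.inter_subset_left hne (by
        rintro v hv ⟨hv1, c, hc, hcv⟩
        have hvC : v ∉ C := fun h => hv1 ⟨hv, h⟩
        exact hC'.1 hv (Or.inr ⟨hvC, c, hc.2, hcv⟩))
      have hlt : C'.ncard < C.ncard := by
        apply Set.ncard_lt_ncard _ (Set.toFinite _)
        refine ⟨fun y hy => ?_, fun h => ?_⟩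
        · rw [← hsub] at hy
          exact hy.2
        · exact hC'.1 (h hx) (Or.inl rfl)
      exact ih C'.ncard (by omega) _ C' hK' hC' hB' rfl
  obtain ⟨C, hC, hB⟩ := hcon ∅ (fun u hu => absurd hu (Set.notMem_empty u))
  exact key _ ∅ C (fun u hu => absurd hu (Set.notMem_empty u)) hC hB rfl

end Pool.Agent.MPd439b2.LK
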