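import Pool.Agent.Lib.MP_d439b2_co.L4.Spec1

/-!
# MP_d439b2_co, column `C_4`: A9, the connectivity function of a set `K`
-/

set_option autoImplicit false

namespace Pool.Agent.MPd439b2.LK

open Pool.Agent.MPd439b2

theorem a9 (_h1 : S_A1) (h2 : S_A2) : S_A9 := by
  intro V _ G K
  obtain ⟨c0, cc, cs, c1⟩ := h2 V G
  have hatt : ∀ P ⊆ K, ∃ X, X ∩ K = P ∧ cr G X = lam G K P := by
    intro P hP
    exact Nat.sInf_mem (s := {r | ∃ X : Set V, X ∩ K = P ∧ cr G X = r})
      ⟨cr G P, P, Set.inter_eq_left.2 hP, rfl⟩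
  have hle' : ∀ X P, X ∩ K = P → lam G K P ≤ cr G X := fun X P h => Nat.sInf_le ⟨X, h, rfl⟩
  have hle : ∀ X, lam G K (X ∩ K) ≤ cr G X := fun X => hle' X _ rfl
  have hcomp : ∀ X, cr G Xᶜ = cr G X := by
    intro X
    have := cc X (Set.subset_univ X)
    rwa [← Set.compl_eq_univ_sdiff] at this
  have hlec : ∀ P ⊆ K, lam G K (K \ P) ≤ lam G K P := by
    intro P hP
    obtain ⟨X, hX, hr⟩ := hatt P hP
    rw [← hr, ← hcomp X]
    apply hle'
    rw [← hX]
    ext y
    simp only [Set.mem_inter_iff, Set.mem_compl_iff, Set.mem_sdiff]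
    tauto
  refine ⟨⟨?_, ?_, ?_, ?_⟩, hatt, hle⟩
  · have := hle' ∅ ∅ (Set.empty_inter K)
    rw [c0] at this
    omega
  · intro P hP
    apply le_antisymm (hlec P hP)
    have := hlec (K \ P) Set.sdiff_subset
    rwa [Set.sdiff_sdiff_cancel_left hP] at this
  · intro P hP Q hQ
    obtain ⟨X, hX, hr⟩ := hatt P hP
    obtain ⟨Y, hY, hs⟩ := hatt Q hQ
    have h3 : lam G K (P ∩ Q) ≤ cr G (X ∩ Y) := hle' _ _ (by
      rw [← hX, ← hY]
      ext y
      simp only [Set.mem_inter_iff]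
      tauto)
    have h4 : lam G K (P ∪ Q) ≤ cr G (X ∪ Y) := hle' _ _ (by
      rw [← hX, ← hY]
      ext y
      simp only [Set.mem_inter_iff, Set.mem_union]
      tauto)
    have h5 := cs X (Set.subset_univ X) Y (Set.subset_univ Y)
    omega
  · intro v hv
    exact (hle' {v} {v} (Set.inter_eq_left.2 (Set.singleton_subset_iff.2 hv))).trans
      (c1 v (Set.mem_univ v))

end Pool.Agent.MPd439b2.LK
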