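import Pool.Agent.Lib.MP_d439b2_co.L4.Spec2

/-!
# MP_d439b2_co, column `C_4`, B0: the model of `K4:0,1` from six sets
-/

set_option autoImplicit false

namespace Pool.Agent.MPd439b2.LK

open Pool.Agent.MPd439b2

namespace B0Aux

variable {V : Type} {G : SimpleGraph V}

/-- the model of `K4:0,1` from six sets -/
theorem model {P Q R S X Y : Set V} (cP : Conn G P) (cQ : Conn G Q) (cR : Conn G R)
    (cS : Conn G S) (cX : Conn G X) (cY : Conn G Y)
    (dPQ : Disjoint P Q) (dPR : Disjoint P R) (dPS : Disjoint P S) (dQR : Disjoint Q R)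
    (dQS : Disjoint Q S) (dRS : Disjoint R S)
    (dPX : Disjoint P X) (dQX : Disjoint Q X) (dRX : Disjoint R X) (dSX : Disjoint S X)
    (dPY : Disjoint P Y) (dQY : Disjoint Q Y) (dRY : Disjoint R Y) (dSY : Disjoint S Y)
    (dXY : Disjoint X Y)
    (tPQ : Tch G P Q) (tPR : Tch G P R) (tPS : Tch G P S) (tQR : Tch G Q R)
    (tQS : Tch G Q S) (tRS : Tch G R S)
    (tPX : Tch G P X) (tQX : ¬ Tch G Q X) (tRX : ¬ Tch G R X) (tSX : ¬ Tch G S X)
    (tPY : ¬ Tch G P Y) (tQY : Tch G Q Y) (tRY : ¬ Tch G R Y) (tSY : ¬ Tch G S Y)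
    (tXY : ¬ Tch G X Y) : IMS (KA 4 2 ![{0}, {1}]) G Set.univ := by
  have hd : ∀ i j : Fin 4, i ≠ j → Disjoint ((![P, Q, R, S] : Fin 4 → Set V) i)
      ((![P, Q, R, S] : Fin 4 → Set V) j) := by
    intro i j hij
    fin_cases i <;> fin_cases j <;> first
      | exact absurd rfl hij
      | assumption
      | (apply Disjoint.symm; assumption)
  have ht : ∀ i j : Fin 4, i ≠ j → Tch G ((![P, Q, R, S] : Fin 4 → Set V) i)
      ((![P, Q, R, S] : Fin 4 → Set V) j) := by
    intro i j hij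
    fin_cases i <;> fin_cases j <;> first
      | exact absurd rfl hij
      | assumption
      | (apply Tch.symm; assumption)
  have hd' : ∀ (i : Fin 4) (j : Fin 2), Disjoint ((![P, Q, R, S] : Fin 4 → Set V) i)
      ((![X, Y] : Fin 2 → Set V) j) := by
    intro i j
    fin_cases i <;> fin_cases j <;> assumption
  have ht' : ∀ (i : Fin 4) (j : Fin 2), i ∈ (![{0}, {1}] : Fin 2 → Set (Fin 4)) j ↔
      Tch G ((![P, Q, R, S] : Fin 4 → Set V) i) ((![X, Y] : Fin 2 → Set V) j) := by
    intro i j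
    fin_cases i <;> fin_cases j <;> simp <;> assumption
  have hdd : ∀ i j : Fin 2, i ≠ j → Disjoint ((![X, Y] : Fin 2 → Set V) i)
      ((![X, Y] : Fin 2 → Set V) j) := by
    intro i j hij
    fin_cases i <;> fin_cases j <;> first
      | exact absurd rfl hij
      | assumption
      | (apply Disjoint.symm; assumption)
  have htt : ∀ i j : Fin 2, i ≠ j → ¬ Tch G ((![X, Y] : Fin 2 → Set V) i)
      ((![X, Y] : Fin 2 → Set V) j) := by
    intro i j hij
    fin_cases i <;> fin_cases j <;> first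
      | exact absurd rfl hij
      | assumption
      | (intro h; exact tXY h.symm)
  refine ⟨Sum.elim ![P, Q, R, S] ![X, Y], fun _ => Set.subset_univ _, ?_, ?_, ?_⟩
  · rintro (w | w) <;> fin_cases w <;> assumption
  · rintro (w | w) (w' | w') hw
    · exact hd w w' fun h => hw (congrArg _ h)
    · exact hd' w w'
    · exact (hd' w' w).symm
    · exact hdd w w' fun h => hw (congrArg _ h)
  · rintro (w | w) (w' | w') hw
    · have h : w ≠ w' := fun h => hw (congrArg _ h)
      exact iff_of_true h (ht w w' h)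
    · exact ht' w w'
    · exact (ht' w' w).trans tch_comm
    · have h : w ≠ w' := fun h => hw (congrArg _ h)
      exact iff_of_false (fun h => h) (htt w w' h)

end B0Aux

theorem b0 : S_B0 := by
  intro V G P X Y b c d cP cX cY dPX dPY dXY bP cP' dP bX cX' dX bY cY' dY hbc hbd hcd hPb hPc hPd
    tXP hX hYb hY tYP tXY
  have hsing : ∀ {v : V} {A : Set V}, v ∉ A → Disjoint ({v} : Set V) A := fun h =>
    Set.disjoint_singleton_left.2 h
  have htP : ∀ {v : V}, (∃ p ∈ P, G.Adj p v) → Tch G P {v} := by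
    rintro v ⟨p, hp, h⟩
    exact ⟨p, hp, v, rfl, h⟩
  have hno : ∀ {v : V} {A : Set V}, (∀ a ∈ A, ¬ G.Adj a v) → ¬ Tch G {v} A := by
    rintro v A h ⟨a, rfl, x, hx, hax⟩
    exact h x hx hax.symm
  refine B0Aux.model (P := P) (Q := {b}) (R := {c}) (S := {d}) (X := X) (Y := Y) cP
    (Conn.singleton G b) (Conn.singleton G c) (Conn.singleton G d) cX cY
    (hsing bP).symm (hsing cP').symm (hsing dP).symm
    (hsing fun h => hbc.ne h) (hsing fun h => hbd.ne h) (hsing fun h => hcd.ne h)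
    dPX (hsing bX) (hsing cX') (hsing dX) dPY (hsing bY) (hsing cY') (hsing dY) dXY
    (htP hPb) (htP hPc) (htP hPd) ⟨b, rfl, c, rfl, hbc⟩ ⟨b, rfl, d, rfl, hbd⟩
    ⟨c, rfl, d, rfl, hcd⟩ tXP.symm (hno fun x hx => (hX x hx).1) (hno fun x hx => (hX x hx).2.1)
    (hno fun x hx => (hX x hx).2.2) (fun h => tYP h.symm) ?_ (hno fun y hy => (hY y hy).1)
    (hno fun y hy => (hY y hy).2) tXY
  obtain ⟨y, hy, hyb⟩ := hYb
  exact ⟨b, rfl, y, hy, hyb.symm⟩

end Pool.Agent.MPd439b2.LK
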