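import Pool.Agent.Lib.MP_d439b2_co.L4.Spec2

/-!
# MP_d439b2_co, column `C_4`, row `K4:0,1`: two traces on a clique
-/

set_option autoImplicit false

namespace Pool.Agent.MPd439b2.LK

open Pool.Agent.MPd439b2

theorem b1 (h1 : S_A0) (h2 : S_B0) : S_B1 := by
  intro V _ G S u v hG hS hu hv
  by_cases huv : Ms G S u ⊆ Ms G S v
  · exact Or.inl huv
  by_cases hvu : Ms G S v ⊆ Ms G S u
  · exact Or.inr (Or.inl hvu)
  refine Or.inr (Or.inr ?_)
  obtain ⟨s, ⟨hsS, hus⟩, hsv⟩ := Set.not_subset.1 huv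
  obtain ⟨s', ⟨hs'S, hvs'⟩, hs'u⟩ := Set.not_subset.1 hvu
  have hvs : G.Adj v s := by
    by_contra h
    exact hsv ⟨hsS, h⟩
  have hus' : G.Adj u s' := by
    by_contra h
    exact hs'u ⟨hs'S, h⟩
  have hss' : s ≠ s' := by
    rintro rfl
    exact hus hus'
  have hadj : G.Adj s s' := hS s hsS s' hs'S hss'
  have hne : ∀ x y : V, x ∉ S → y ∈ S → x ≠ y := by
    rintro x y hx hy rfl
    exact hx hy
  have huvne : u ≠ v := by
    rintro rfl
    exact hus hvs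
  have hD : ∀ x y : V, x ≠ y → Disjoint ({x} : Set V) {y} :=
    fun x y h => Set.disjoint_singleton.2 h
  have hT : ∀ x y : V, Tch G {x} {y} ↔ G.Adj x y := by
    intro x y
    simp [Tch]
  have hnuv : ¬ G.Adj u v := by
    intro huv'
    exact hG.1 (h1 V G {u} {v} {s} {s'} (Conn.singleton G u) (Conn.singleton G v)
      (Conn.singleton G s) (Conn.singleton G s') (hD _ _ huvne) (hD _ _ (hne u s hu hsS))
      (hD _ _ (hne u s' hu hs'S)) (hD _ _ (hne v s hv hsS)) (hD _ _ (hne v s' hv hs'S))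
      (hD _ _ hss') ((hT _ _).2 huv') ((hT _ _).2 hvs) ((hT _ _).2 hadj) ((hT _ _).2 hus')
      (fun h => hus ((hT _ _).1 h)) (fun h => hvs' ((hT _ _).1 h)))
  refine ⟨hnuv, ?_⟩
  by_contra hc
  push Not at hc
  obtain ⟨a, ⟨⟨haS, hua⟩, ⟨-, hva⟩⟩, b, ⟨⟨hbS, hub⟩, ⟨-, hvb⟩⟩, hab⟩ :=
    (Set.one_lt_ncard (Set.toFinite _)).1 hc
  have has : a ≠ s := by
    rintro rfl
    exact hva hvs
  have hbs : b ≠ s := by
    rintro rfl
    exact hvb hvs
  have has' : a ≠ s' := by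
    rintro rfl
    exact hua hus'
  have hbs' : b ≠ s' := by
    rintro rfl
    exact hub hus'
  refine hG.2 (h2 V G {s} {v} {u} s' a b (Conn.singleton G s) (Conn.singleton G v)
    (Conn.singleton G u) (hD _ _ (hne v s hv hsS).symm) (hD _ _ (hne u s hu hsS).symm)
    (hD _ _ huvne.symm) hss'.symm has hbs (hne v s' hv hs'S).symm (hne v a hv haS).symm
    (hne v b hv hbS).symm (hne u s' hu hs'S).symm (hne u a hu haS).symm (hne u b hu hbS).symm
    (hS s' hs'S a haS has'.symm) (hS s' hs'S b hbS hbs'.symm) (hS a haS b hbS hab)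
    ⟨s, rfl, hadj⟩ ⟨s, rfl, hS s hsS a haS has.symm⟩ ⟨s, rfl, hS s hsS b hbS hbs.symm⟩
    ((hT _ _).2 hvs) ?_ ⟨u, rfl, hus'⟩ ?_ (fun h => hus ((hT _ _).1 h))
    (fun h => hnuv ((hT _ _).1 h).symm))
  · rintro x rfl
    exact ⟨hvs', hva, hvb⟩
  · rintro y rfl
    exact ⟨hua, hub⟩

end Pool.Agent.MPd439b2.LK
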