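import Pool.Agent.Lib.MP_d439b2_co.L4.Spec2

/-!
# MP_d439b2_co, column `C_4`, B2: the rule PAD
-/

set_option autoImplicit false

namespace Pool.Agent.MPd439b2.LK

open Pool.Agent.MPd439b2

theorem b2 (h0 : S_B0) : S_B2 := by
  intro V G p q a a' g g' hcls haa' hqa hpa hpa' hqa' hpq hga hga' hg'a hg'a' hgp hgq hg'p hg'q hgg'
  apply hcls.2
  have hsm : ∀ x y, G.Adj x y → G.Adj y x := fun x y h => h.symm
  have e1 : a ≠ q := fun h => by subst h; exact G.loopless.irrefl _ hqa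
  have e2 : a ≠ p := fun h => by subst h; exact hpq (hsm _ _ hqa)
  have e3 : q ≠ p := fun h => by subst h; exact hpa hqa
  have e4 : a' ≠ a := fun h => by subst h; exact G.loopless.irrefl _ haa'
  have e5 : g ≠ a := fun h => by subst h; exact G.loopless.irrefl _ hga
  have e6 : g' ≠ a := fun h => by subst h; exact G.loopless.irrefl _ hg'a
  have e7 : a' ≠ q := fun h => by subst h; exact hpq hpa'
  have e8 : g ≠ q := fun h => by subst h; exact hqa' hga'
  have e9 : g' ≠ q := fun h => by subst h; exact hqa' hg'a'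
  have e10 : a' ≠ p := fun h => by subst h; exact G.loopless.irrefl _ hpa'
  have e11 : g ≠ p := fun h => by subst h; exact hpa hga
  have e12 : g' ≠ p := fun h => by subst h; exact hpa hg'a
  refine h0 V G {a} {q} {p} a' g g' (Conn.singleton G a) (Conn.singleton G q) (Conn.singleton G p)
    ?_ ?_ ?_ ?_ ?_ ?_ ?_ ?_ ?_ ?_ ?_ ?_ (hsm _ _ hga') (hsm _ _ hg'a') hgg' ⟨a, rfl, haa'⟩
    ⟨a, rfl, hsm _ _ hga⟩ ⟨a, rfl, hsm _ _ hg'a⟩ ⟨q, rfl, a, rfl, hqa⟩ ?_ ⟨p, rfl, hpa'⟩ ?_ ?_ ?_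
  · simpa using e1
  · simpa using e2
  · simpa using e3
  · simpa using e4
  · simpa using e5
  · simpa using e6
  · simpa using e7
  · simpa using e8
  · simpa using e9
  · simpa using e10
  · simpa using e11
  · simpa using e12
  · rintro x rfl
    exact ⟨hqa', fun h => hgq h.symm, fun h => hg'q h.symm⟩
  · rintro y rfl
    exact ⟨fun h => hgp h.symm, fun h => hg'p h.symm⟩
  · rintro ⟨x, rfl, y, rfl, h⟩
    exact hpa h
  · rintro ⟨x, rfl, y, rfl, h⟩
    exact hpq h.symm

end Pool.Agent.MPd439b2.LK
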