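import Pool.Agent.Lib.MP_d439b2_co.L4.Spec2

/-!
# L4, B3: the jump rule
-/

set_option autoImplicit false

namespace Pool.Agent.MPd439b2.LK

open Pool.Agent.MPd439b2

/-- **B3.** -/
theorem b3 (h0 : S_B0) : S_B3 := by
  intro V _ G S C x y v hG hS hC hSC hx hy hvS hvC hv
  by_contra hcon
  push Not at hcon
  obtain ⟨hc1, hc2⟩ := hcon
  obtain ⟨s₁, s₂, hs₁, hs₂, hne⟩ := (Set.one_lt_ncard_iff (Set.toFinite _)).1 hc1
  rw [Set.not_subset] at hc2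
  obtain ⟨t, ⟨hty, htx⟩, htv⟩ := hc2
  obtain ⟨hs₁v, hs₁y, hs₁x⟩ := hs₁
  obtain ⟨hs₂v, hs₂y, hs₂x⟩ := hs₂
  have hxt : G.Adj x t := by
    by_contra h
    exact htx ⟨hty.1, h⟩
  have hxs₁ : G.Adj x s₁ := by
    by_contra h
    exact hs₁x ⟨hs₁y.1, h⟩
  have hxs₂ : G.Adj x s₂ := by
    by_contra h
    exact hs₂x ⟨hs₂y.1, h⟩
  have hvt : G.Adj v t := by
    by_contra h
    exact htv ⟨hty.1, h⟩
  have hts₁ : t ≠ s₁ := fun h => htv (h ▸ hs₁v)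
  have hts₂ : t ≠ s₂ := fun h => htv (h ▸ hs₂v)
  have hSC' : ∀ s ∈ S, s ∉ C := fun s hs hsC => Set.disjoint_left.1 hSC hs hsC
  have hxy : x ≠ y := by
    intro h
    rw [h] at hxt
    exact hty.2 hxt
  obtain ⟨P, hPC, hxP, hP, hnb⟩ := exists_comp G (A := C \ {y}) (v := x) ⟨hx, hxy⟩
  have hyP : y ∉ P := fun h => (hPC h).2 rfl
  have hPC' : ∀ p ∈ P, p ∈ C := fun p hp => (hPC hp).1
  have htch : Tch G {y} P := by
    obtain ⟨b, hb, a, ha, hab⟩ := hC.2 P (fun p hp => hPC' p hp) ⟨x, hxP⟩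
      (fun h => hyP (h ▸ hy))
    by_cases hay : a = y
    · rw [hay] at hab
      exact ⟨y, rfl, b, hb, hab.symm⟩
    · exact absurd ⟨ha.2, b, hb, hab⟩ (hnb a ⟨ha.1, hay⟩)
  refine hG.2 (h0 V G P {y} {v} t s₁ s₂ hP (Conn.singleton G y) (Conn.singleton G v) ?_ ?_ ?_
    (fun h => hSC' t hty.1 (hPC' _ h)) (fun h => hSC' s₁ hs₁y.1 (hPC' _ h))
    (fun h => hSC' s₂ hs₂y.1 (hPC' _ h)) ?_ ?_ ?_ ?_ ?_ ?_ (hS t hty.1 s₁ hs₁y.1 hts₁)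
    (hS t hty.1 s₂ hs₂y.1 hts₂) (hS s₁ hs₁y.1 s₂ hs₂y.1 hne) ⟨x, hxP, hxt⟩ ⟨x, hxP, hxs₁⟩
    ⟨x, hxP, hxs₂⟩ htch ?_ ⟨v, rfl, hvt⟩ ?_ ?_ ?_)
  · exact Set.disjoint_singleton_right.2 hyP
  · exact Set.disjoint_singleton_right.2 fun h => hvC (hPC' _ h)
  · rw [Set.disjoint_singleton]
    intro h
    exact hvC (h ▸ hy)
  · intro h
    rw [Set.mem_singleton_iff] at h
    exact hSC' t hty.1 (h ▸ hy)
  · intro h
    rw [Set.mem_singleton_iff] at h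
    exact hSC' s₁ hs₁y.1 (h ▸ hy)
  · intro h
    rw [Set.mem_singleton_iff] at h
    exact hSC' s₂ hs₂y.1 (h ▸ hy)
  · intro h
    rw [Set.mem_singleton_iff] at h
    exact hvS (h ▸ hty.1)
  · intro h
    rw [Set.mem_singleton_iff] at h
    exact hvS (h ▸ hs₁y.1)
  · intro h
    rw [Set.mem_singleton_iff] at h
    exact hvS (h ▸ hs₂y.1)
  · intro z hz
    rw [Set.mem_singleton_iff] at hz
    rw [hz]
    exact ⟨hty.2, hs₁y.2, hs₂y.2⟩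
  · intro z hz
    rw [Set.mem_singleton_iff] at hz
    rw [hz]
    exact ⟨hs₁v.2, hs₂v.2⟩
  · rintro ⟨z, hz, p, hp, hzp⟩
    rw [Set.mem_singleton_iff] at hz
    rw [hz] at hzp
    exact hv p (hPC' p hp) hzp
  · rintro ⟨z, hz, w, hw, hzw⟩
    rw [Set.mem_singleton_iff] at hz hw
    rw [hz, hw] at hzw
    exact hv y hy hzw.symm

end Pool.Agent.MPd439b2.LK
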