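import Pool.Agent.Lib.MP_d439b2_co.L4.Spec2

/-!
# MP_d439b2_co, column `C_4`, B4: set systems, at most one large kernel
-/

set_option autoImplicit false

namespace Pool.Agent.MPd439b2.LK

open Pool.Agent.MPd439b2

namespace B4Aux

variable {α : Type} [Finite α] {F : Set (Set α)} {k : α} {A B : Set α}

theorem KP.swap (h : KP F k A B) : KP F k B A :=
  ⟨h.2.1, h.1, h.2.2.2.1, h.2.2.1, by rw [Set.inter_comm]; exact h.2.2.2.2⟩

theorem KP.memA (h : KP F k A B) : k ∈ A := by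
  have : k ∈ A ∩ B := by rw [h.2.2.2.2]; rfl
  exact this.1

theorem KP.memB (h : KP F k A B) : k ∈ B := by
  have : k ∈ A ∩ B := by rw [h.2.2.2.2]; rfl
  exact this.2

/-- a member containing `A` without `k` -/
theorem big (hF : LF F) (h : KP F k A B) (hA : 3 ≤ A.ncard) {N : Set α} (hN : N ∈ F)
    (hk : k ∉ N) (hs : A \ {k} ⊆ N) : N ⊆ A \ {k} := by
  have h1 : A \ {k} ⊆ A ∩ N := fun x hx => ⟨hx.1, hs hx⟩
  have h2 : (A \ {k}).ncard = A.ncard - 1 := Set.ncard_sdiff_singleton_of_mem (KP.memA h)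
  have h3 := Set.ncard_le_ncard h1 (Set.toFinite _)
  rcases hF.1 A h.1 N hN with h4 | h4 | h4
  · exact absurd (h4 (KP.memA h)) hk
  · exact fun x hx => ⟨h4 hx, fun hxk => hk (hxk ▸ hx)⟩
  · omega

theorem one (hF : LF F) (h : KP F k A B) (hA : 3 ≤ A.ncard) (hB : 3 ≤ B.ncard) {N : Set α}
    (hN : N ∈ F) (hk : k ∉ N) : N ⊆ A \ {k} ∨ N ⊆ B \ {k} := by
  rcases hF.2 A h.1 B h.2.1 k h.2.2.1 h.2.2.2.1 h.2.2.2.2 N hN hk with h1 | h1 | h1 | h1
  · exact Or.inl h1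
  · exact Or.inr h1
  · exact Or.inl (big hF h hA hN hk h1)
  · exact Or.inr (big hF (KP.swap h) hB hN hk h1)

theorem two {k' : α} {A' B' : Set α} (hF : LF F) (h : KP F k A B) (h' : KP F k' A' B')
    (hA' : 3 ≤ A'.ncard) (hB' : 3 ≤ B'.ncard) (hkk : k ≠ k') (hk : k ∉ A')
    (hs : A' ⊆ A \ {k}) : False := by
  have h1 : k' ∈ A := (hs (KP.memA h')).1
  have h2 : k' ∉ B := by
    intro hb
    have h3 : k' ∈ A ∩ B := ⟨h1, hb⟩
    rw [h.2.2.2.2] at h3
    exact hkk h3.symm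
  rcases one hF h' hA' hB' h.2.1 h2 with h3 | h3
  · exact hk (h3 (KP.memB h)).1
  · have h4 : k ∈ B' := (h3 (KP.memB h)).1
    have h5 : ({k, k'} : Set α) ⊆ A ∩ B' := by
      intro x hx
      rcases hx with rfl | hx
      · exact ⟨KP.memA h, h4⟩
      · rw [Set.mem_singleton_iff] at hx
        subst hx
        exact ⟨h1, KP.memB h'⟩
    have h6 := Set.ncard_le_ncard h5 (Set.toFinite _)
    rw [Set.ncard_pair hkk] at h6
    rcases hF.1 A h.1 B' h'.2.1 with h7 | h7 | h7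
    · exact h'.2.2.1 ((fun x hx => h7 (hs hx).1))
    · exact h.2.2.2.1 (fun x hx => h7 (h3 hx).1)
    · omega

theorem mem {k' : α} {A' B' : Set α} (hF : LF F) (h : KP F k A B) (h' : KP F k' A' B')
    (hA : 3 ≤ A.ncard) (hB : 3 ≤ B.ncard) (hA' : 3 ≤ A'.ncard) (hB' : 3 ≤ B'.ncard)
    (hkk : k ≠ k') : k ∈ A' := by
  by_contra hk
  rcases one hF h hA hB h'.1 hk with h1 | h1
  · exact two hF h h' hA' hB' hkk hk h1
  · exact two hF (KP.swap h) h' hA' hB' hkk hk h1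

end B4Aux

open B4Aux in
theorem b4 : S_B4 := by
  intro α _ F k k' A B A' B' hF h h' hA hB hA' hB'
  by_contra hkk
  have h1 : k ∈ A' := mem hF h h' hA hB hA' hB' hkk
  have h2 : k ∈ B' := mem hF h (KP.swap h') hA hB hB' hA' hkk
  have h3 : k ∈ A' ∩ B' := ⟨h1, h2⟩
  rw [h'.2.2.2.2] at h3
  exact hkk h3

end Pool.Agent.MPd439b2.LK
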