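import Pool.Agent.Lib.MP_d439b2_co.L4.Spec2

/-!
# MP_d439b2_co, column `C_4`, B5: four two-element members with a common element
-/

set_option autoImplicit false

namespace Pool.Agent.MPd439b2.LK

namespace B5

variable {α : Type} [Finite α] {F : Set (Set α)} {o : α} {k : Fin 4 → α}

private theorem one_of (hLF : LF F) (hk : Function.Injective k) (hko : ∀ i, k i ≠ o)
    (hF : ∀ i, ({o, k i} : Set α) ∈ F) {N : Set α} (hN : N ∈ F) (hoN : o ∉ N)
    (hne : N.Nonempty) {i j : Fin 4} (hij : i ≠ j) : k i ∈ N ∨ k j ∈ N := by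
  have hkij : k i ≠ k j := fun h => hij (hk h)
  have h1 : ¬ ({o, k i} : Set α) ⊆ {o, k j} := by
    intro h
    have := h (Set.mem_insert_of_mem o (Set.mem_singleton (k i)))
    rcases this with h | h
    · exact hko i h
    · exact hkij h
  have h2 : ¬ ({o, k j} : Set α) ⊆ {o, k i} := by
    intro h
    have := h (Set.mem_insert_of_mem o (Set.mem_singleton (k j)))
    rcases this with h | h
    · exact hko j h
    · exact hkij h.symm
  have h3 : ({o, k i} : Set α) ∩ {o, k j} = {o} := by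
    ext x
    constructor
    · rintro ⟨hx, hx'⟩
      rcases hx with hx | hx
      · exact hx
      · rcases hx' with hx' | hx'
        · exact hx'
        · exact absurd (hx.symm.trans hx') hkij
    · intro hx
      rw [Set.mem_singleton_iff] at hx
      subst hx
      exact ⟨Set.mem_insert _ _, Set.mem_insert _ _⟩
  obtain ⟨x, hx⟩ := hne
  have key : ∀ l : Fin 4, N ⊆ ({o, k l} : Set α) \ {o} → k l ∈ N := by
    intro l hl
    have := hl hx
    rcases this with ⟨hx1 | hx1, hx2⟩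
    · exact absurd hx1 hx2
    · have : x = k l := hx1
      rw [← this]
      exact hx
  have key' : ∀ l : Fin 4, ({o, k l} : Set α) \ {o} ⊆ N → k l ∈ N := by
    intro l hl
    exact hl ⟨Set.mem_insert_of_mem o (Set.mem_singleton (k l)), hko l⟩
  rcases hLF.2 _ (hF i) _ (hF j) o h1 h2 h3 N hN hoN with h | h | h | h
  · exact Or.inl (key i h)
  · exact Or.inr (key j h)
  · exact Or.inl (key' i h)
  · exact Or.inr (key' j h)

private theorem all_but (hLF : LF F) (hk : Function.Injective k) (hko : ∀ i, k i ≠ o)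
    (hF : ∀ i, ({o, k i} : Set α) ∈ F) {N : Set α} (hN : N ∈ F) (hoN : o ∉ N)
    (hne : N.Nonempty) : ∃ i₀ : Fin 4, ∀ i, i ≠ i₀ → k i ∈ N := by
  by_cases h : ∃ i₀, k i₀ ∉ N
  · obtain ⟨i₀, h0⟩ := h
    refine ⟨i₀, fun i hi => ?_⟩
    rcases one_of hLF hk hko hF hN hoN hne hi with h | h
    · exact h
    · exact absurd h h0
  · refine ⟨0, fun i _ => ?_⟩
    by_contra hi
    exact h ⟨i, hi⟩

private theorem two_le {A : Set α} {x y : α} (hx : x ∈ A) (hy : y ∈ A) (hxy : x ≠ y) :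
    ¬ A.ncard ≤ 1 := by
  intro h
  exact hxy ((Set.ncard_le_one (Set.toFinite A)).1 h x hx y hy)

/-- the mixed case -/
private theorem mixed (hLF : LF F) (hk : Function.Injective k) (hko : ∀ i, k i ≠ o)
    (hF : ∀ i, ({o, k i} : Set α) ∈ F) {M M' : Set α} (hM : M ∈ F) (hM' : M' ∈ F)
    (ho : o ∈ M) (ho' : o ∉ M') : M \ {o} ⊆ M' \ {o} ∨ M' \ {o} ⊆ M \ {o} ∨
      Disjoint (M \ {o}) (M' \ {o}) := by
  by_contra hcon
  have hc1 : ¬ M \ {o} ⊆ M' \ {o} := fun h => hcon (Or.inl h)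
  have hc2 : ¬ M' \ {o} ⊆ M \ {o} := fun h => hcon (Or.inr (Or.inl h))
  have hc3 : ¬ Disjoint (M \ {o}) (M' \ {o}) := fun h => hcon (Or.inr (Or.inr h))
  obtain ⟨m, ⟨hmM, hmo⟩, ⟨hmM', _⟩⟩ := Set.not_disjoint_iff.1 hc3
  have hmo' : m ≠ o := hmo
  have hn1 : ¬ M ⊆ M' := fun h => ho' (h ho)
  have hn2 : ¬ M' ⊆ M := fun h => hc2 (fun x hx => ⟨h hx.1, hx.2⟩)
  have hcard : (M ∩ M').ncard ≤ 1 := by
    rcases hLF.1 M hM M' hM' with h | h | h
    · exact absurd h hn1
    · exact absurd h hn2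
    · exact h
  have hcap : M ∩ M' = {m} := by
    ext x
    constructor
    · intro hx
      exact (Set.ncard_le_one (Set.toFinite _)).1 hcard x hx m ⟨hmM, hmM'⟩
    · intro hx
      rw [Set.mem_singleton_iff] at hx
      subst hx
      exact ⟨hmM, hmM'⟩
  obtain ⟨i₀, hi₀⟩ := all_but hLF hk hko hF hM' ho' ⟨m, hmM'⟩
  obtain ⟨j₁, hj₁⟩ : ∃ j₁ : Fin 4, ∀ i, i ≠ j₁ → k i ≠ m := by
    by_cases h : ∃ j, k j = m
    · obtain ⟨j, hj⟩ := h
      exact ⟨j, fun i hi h => hi (hk (h.trans hj.symm))⟩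
    · exact ⟨0, fun i _ hi => h ⟨i, hi⟩⟩
  have pick : ∀ a b c : Fin 4, ∃ j : Fin 4, j ≠ a ∧ j ≠ b ∧ j ≠ c := by decide
  have hall : ∀ i, k i ≠ m → k i ∈ M := by
    intro i him
    have hmi : m ∉ ({o, k i} : Set α) := by
      rintro (h | h)
      · exact hmo' h
      · exact him h.symm
    rcases hLF.2 M hM M' hM' m hn1 hn2 hcap _ (hF i) hmi with h | h | h | h
    · exact (h (Set.mem_insert_of_mem o (Set.mem_singleton (k i)))).1
    · exact absurd (h (Set.mem_insert o _)).1 ho'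
    · by_contra hiM
      apply hc1
      rintro x ⟨hx, hxo⟩
      by_cases hxm : x = m
      · subst hxm
        exact ⟨hmM', hxo⟩
      · rcases h ⟨hx, hxm⟩ with h' | h'
        · exact absurd h' hxo
        · have : x = k i := h'
          subst this
          exact absurd hx hiM
    · obtain ⟨j, hj0, hj1, hji⟩ := pick i₀ j₁ i
      rcases h ⟨hi₀ j hj0, hj₁ j hj1⟩ with h' | h'
      · exact absurd h' (hko j)
      · exact absurd (hk h') hji
  obtain ⟨j, hj0, hj1, -⟩ := pick i₀ j₁ 0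
  have : k j ∈ M ∩ M' := ⟨hall j (hj₁ j hj1), hi₀ j hj0⟩
  rw [hcap] at this
  exact hj₁ j hj1 this

end B5

theorem b5 : S_B5 := by
  intro α _ F o k hLF hk hko hF A hA B hB
  by_cases hoA : o ∈ A
  · by_cases hoB : o ∈ B
    · rcases hLF.1 A hA B hB with h | h | h
      · exact Or.inl (fun x hx => ⟨h hx.1, hx.2⟩)
      · exact Or.inr (Or.inl (fun x hx => ⟨h hx.1, hx.2⟩))
      · refine Or.inr (Or.inr (Set.disjoint_left.2 ?_))
        rintro x ⟨hxA, hxo⟩ ⟨hxB, _⟩
        exact hxo ((Set.ncard_le_one (Set.toFinite _)).1 h x ⟨hxA, hxB⟩ o ⟨hoA, hoB⟩)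
    · exact B5.mixed hLF hk hko hF hA hB hoA hoB
  · by_cases hoB : o ∈ B
    · rcases B5.mixed hLF hk hko hF hB hA hoB hoA with h | h | h
      · exact Or.inr (Or.inl h)
      · exact Or.inl h
      · exact Or.inr (Or.inr h.symm)
    · rcases Set.eq_empty_or_nonempty A with hAe | hAe
      · left
        rintro x ⟨hx, _⟩
        rw [hAe] at hx
        exact absurd hx (Set.notMem_empty x)
      rcases Set.eq_empty_or_nonempty B with hBe | hBe
      · right; left
        rintro x ⟨hx, _⟩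
        rw [hBe] at hx
        exact absurd hx (Set.notMem_empty x)
      obtain ⟨i₀, hi₀⟩ := B5.all_but hLF hk hko hF hA hoA hAe
      obtain ⟨j₀, hj₀⟩ := B5.all_but hLF hk hko hF hB hoB hBe
      have pick : ∀ a b : Fin 4, ∃ i j : Fin 4, i ≠ j ∧ i ≠ a ∧ i ≠ b ∧ j ≠ a ∧ j ≠ b := by
        decide
      obtain ⟨i, j, hij, h1, h2, h3, h4⟩ := pick i₀ j₀
      have hcard : ¬ (A ∩ B).ncard ≤ 1 :=
        B5.two_le (x := k i) (y := k j) ⟨hi₀ i h1, hj₀ i h2⟩ ⟨hi₀ j h3, hj₀ j h4⟩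
          (fun h => hij (hk h))
      rcases hLF.1 A hA B hB with h | h | h
      · exact Or.inl (fun x hx => ⟨h hx.1, hx.2⟩)
      · exact Or.inr (Or.inl (fun x hx => ⟨h hx.1, hx.2⟩))
      · exact absurd h hcard

end Pool.Agent.MPd439b2.LK
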