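import Pool.Agent.Lib.MP_d439b2_co.L4.Spec2

/-!
# MP_d439b2_co, column `C_4`, B6: disjoint two-element members
-/

set_option autoImplicit false

namespace Pool.Agent.MPd439b2.LK

namespace B6

variable {α : Type} [Finite α] {F : Set (Set α)}

private theorem sub (hLF : LF F)
    (hE : ∀ A ∈ F, ∀ B ∈ F, A.ncard = 2 → B.ncard = 2 → A = B ∨ Disjoint A B)
    {k y k' y' : α} {M : Set α} (hky : k ≠ y)
    (hd : Disjoint ({k, y} : Set α) {k', y'}) (hK : KP F k {k, y} M)
    (hF : ({k', y'} : Set α) ∈ F) : ({k', y'} : Set α) ⊆ M := by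
  obtain ⟨hA, hM, hn1, hn2, hcap⟩ := hK
  have hkn : k ∉ ({k', y'} : Set α) := Set.disjoint_left.1 hd (Set.mem_insert _ _)
  have hyn : y ∉ ({k', y'} : Set α) :=
    Set.disjoint_left.1 hd (Set.mem_insert_of_mem _ (Set.mem_singleton _))
  have hkM : k ∈ M := by
    have : k ∈ ({k, y} : Set α) ∩ M := by rw [hcap]; exact Set.mem_singleton _
    exact this.2
  rcases hLF.2 _ hA M hM k hn1 hn2 hcap _ hF hkn with h | h | h | h
  · have h1 := (h (Set.mem_insert k' _)).1
    exact absurd (Set.mem_insert k' _) (Set.disjoint_left.1 hd h1)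
  · exact fun x hx => (h hx).1
  · exact absurd (h ⟨Set.mem_insert_of_mem _ (Set.mem_singleton _), hky.symm⟩) hyn
  · -- `M \ {k} ⊆ {k', y'}`
    obtain ⟨w, hwM, hwn⟩ := Set.not_subset.1 hn2
    have hwk : w ≠ k := fun h => hwn (by rw [h]; exact Set.mem_insert _ _)
    have hw := h ⟨hwM, hwk⟩
    by_contra hcon
    obtain ⟨v, hv, hvM⟩ := Set.not_subset.1 hcon
    have hvw : v ≠ w := fun e => hvM (by rw [e]; exact hwM)
    have hMeq : M = {k, w} := by
      ext x
      constructor
      · intro hx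
        by_cases hxk : x = k
        · exact Or.inl hxk
        · right
          have hx' := h ⟨hx, hxk⟩
          have hxv : x ≠ v := fun e => hvM (by rw [← e]; exact hx)
          simp only [Set.mem_insert_iff, Set.mem_singleton_iff] at hx' hw hv ⊢
          rcases hx' with hx' | hx' <;> rcases hw with hw | hw <;> rcases hv with hv | hv <;>
            first
            | exact hx'.trans hw.symm
            | exact absurd (hx'.trans hv.symm) hxv
            | exact absurd (hv.trans hw.symm) hvw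
      · rintro (hx | hx)
        · rw [hx]; exact hkM
        · rw [Set.mem_singleton_iff] at hx
          rw [hx]; exact hwM
    have hc1 : ({k, y} : Set α).ncard = 2 := Set.ncard_pair hky
    have hc2 : M.ncard = 2 := by rw [hMeq]; exact Set.ncard_pair hwk.symm
    rcases hE _ hA M hM hc1 hc2 with h' | h'
    · exact hn1 (h' ▸ subset_rfl)
    · exact Set.disjoint_left.1 h' (Set.mem_insert _ _) hkM

end B6

theorem b6 : S_B6 := by
  intro α _ F k y k' y' M M' hLF hE hky hky' hd hK hK'
  have h1 : ({k', y'} : Set α) ⊆ M := B6.sub hLF hE hky hd hK hK'.1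
  have h2 : ({k, y} : Set α) ⊆ M' := B6.sub hLF hE hky' hd.symm hK' hK.1
  have hkM : k ∈ M := by
    have : k ∈ ({k, y} : Set α) ∩ M := by rw [hK.2.2.2.2]; exact Set.mem_singleton _
    exact this.2
  have hkM' : k' ∈ M' := by
    have : k' ∈ ({k', y'} : Set α) ∩ M' := by rw [hK'.2.2.2.2]; exact Set.mem_singleton _
    exact this.2
  have hkk : k ≠ k' := by
    intro h
    exact Set.disjoint_left.1 hd (Set.mem_insert k _) (by rw [h]; exact Set.mem_insert _ _)
  rcases hLF.1 M hK.2.1 M' hK'.2.1 with h | h | h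
  · have h3 : y' ∈ ({k', y'} : Set α) ∩ M' :=
      ⟨Set.mem_insert_of_mem _ (Set.mem_singleton _),
        h (h1 (Set.mem_insert_of_mem _ (Set.mem_singleton _)))⟩
    rw [hK'.2.2.2.2] at h3
    exact hky' h3.symm
  · have h3 : y ∈ ({k, y} : Set α) ∩ M :=
      ⟨Set.mem_insert_of_mem _ (Set.mem_singleton _),
        h (h2 (Set.mem_insert_of_mem _ (Set.mem_singleton _)))⟩
    rw [hK.2.2.2.2] at h3
    exact hky h3.symm
  · exact hkk ((Set.ncard_le_one (Set.toFinite _)).1 h k ⟨hkM, h2 (Set.mem_insert _ _)⟩ k'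
      ⟨h1 (Set.mem_insert _ _), hkM'⟩)

end Pool.Agent.MPd439b2.LK
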