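import Pool.Agent.Lib.MP_d439b2_co.L4.Spec2

/-!
# MP_d439b2_co, column `C_4`: set systems, nine elements suffice
-/

set_option autoImplicit false

namespace Pool.Agent.MPd439b2.LK

open Pool.Agent.MPd439b2

private theorem b7_lam {α : Type} [Finite α] {F : Set (Set α)} (hF : LF F) (Z : Set α)
    (hZ : ∀ k A B, KP F k A B → k ∈ Z) : Lam F Z := by
  intro A hA B hB
  by_cases h1 : A ⊆ B
  · exact Or.inl (Set.sdiff_subset_sdiff_left h1)
  by_cases h2 : B ⊆ A
  · exact Or.inr (Or.inl (Set.sdiff_subset_sdiff_left h2))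
  refine Or.inr (Or.inr ?_)
  rcases hF.1 A hA B hB with h | h | h
  · exact absurd h h1
  · exact absurd h h2
  · rw [Set.disjoint_left]
    rintro x ⟨hxA, hxZ⟩ ⟨hxB, _⟩
    have h3 : A ∩ B = {x} := by
      apply Set.Subset.antisymm
      · intro z hz
        exact (Set.ncard_le_one (Set.toFinite _)).1 h z hz x ⟨hxA, hxB⟩
      · rintro z rfl
        exact ⟨hxA, hxB⟩
    exact hxZ (hZ x A B ⟨hA, hB, h1, h2, h3⟩)

private theorem b7_symm {α : Type} {F : Set (Set α)} {k : α} {A B : Set α} (h : KP F k A B) :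
    KP F k B A :=
  ⟨h.2.1, h.1, h.2.2.2.1, h.2.2.1, by rw [Set.inter_comm]; exact h.2.2.2.2⟩

private theorem b7_two {α : Type} [Finite α] {F : Set (Set α)} {k : α} {A B : Set α}
    (h : KP F k A B) : ∃ a, a ≠ k ∧ {k, a} ⊆ A := by
  obtain ⟨a, ha, haB⟩ := Set.not_subset.1 h.2.2.1
  have hk : k ∈ A ∩ B := by rw [h.2.2.2.2]; rfl
  refine ⟨a, ?_, ?_⟩
  · rintro rfl
    exact haB hk.2
  · intro z hz
    rcases hz with rfl | rfl
    · exact hk.1
    · exact ha

private theorem b7_pair {α : Type} [Finite α] {F : Set (Set α)} {k : α} {A B : Set α}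
    (h : KP F k A B) (h2 : A.ncard < 3) : ∃ y, y ≠ k ∧ A = {k, y} := by
  obtain ⟨a, hak, haA⟩ := b7_two h
  refine ⟨a, hak, ?_⟩
  symm
  apply Set.eq_of_subset_of_ncard_le haA _ (Set.toFinite _)
  rw [Set.ncard_pair hak.symm]
  omega

private theorem b7_small {α : Type} [Finite α] {F : Set (Set α)} {k : α} {A B : Set α}
    (h : KP F k A B) (hb : ¬ (3 ≤ A.ncard ∧ 3 ≤ B.ncard)) :
    ∃ y M, y ≠ k ∧ KP F k {k, y} M := by
  by_cases hA : 3 ≤ A.ncard
  · have hB : B.ncard < 3 := by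
      by_contra hcon
      exact hb ⟨hA, by omega⟩
    obtain ⟨y, hy, rfl⟩ := b7_pair (b7_symm h) hB
    exact ⟨y, A, hy, b7_symm h⟩
  · obtain ⟨y, hy, rfl⟩ := b7_pair h (by omega)
    exact ⟨y, B, hy, h⟩

/-- four different elements -/
private theorem b7_four {α : Type} [Finite α] (P : Set α) (h : 3 < P.ncard) :
    ∃ k : Fin 4 → α, Function.Injective k ∧ ∀ i, k i ∈ P := by
  classical
  obtain ⟨t, ht, htc⟩ := Set.exists_subset_card_eq (s := P) (n := 4) (by omega)
  have htf : t.Finite := Set.toFinite t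
  have hcard : Fintype.card (htf.toFinset) = 4 := by
    rw [Fintype.card_coe, ← Set.ncard_eq_toFinset_card t htf, htc]
  let e := (Fintype.equivFinOfCardEq hcard).symm
  refine ⟨fun i => (e i : α), ?_, ?_⟩
  · intro i j hij
    exact e.injective (Subtype.ext hij)
  · intro i
    exact ht (htf.mem_toFinset.1 (e i).2)

theorem b7 (h4 : S_B4) (h5 : S_B5) (h6 : S_B6) : S_B7 := by
  intro α _ F hF
  -- the large kernels
  set Z₀ : Set α := {k | ∃ A B, KP F k A B ∧ 3 ≤ A.ncard ∧ 3 ≤ B.ncard} with hZ₀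
  have hZ₀c : Z₀.ncard ≤ 1 := by
    rw [Set.ncard_le_one (Set.toFinite _)]
    rintro k ⟨A, B, h, hA, hB⟩ k' ⟨A', B', h', hA', hB'⟩
    exact h4 α F k k' A B A' B' hF h h' hA hB hA' hB'
  have hsm : ∀ k A B, KP F k A B → k ∉ Z₀ → ∃ y M, y ≠ k ∧ KP F k {k, y} M := by
    intro k A B h hk
    apply b7_small h
    rintro ⟨hA, hB⟩
    exact hk ⟨A, B, h, hA, hB⟩
  -- case 1
  by_cases hc1 : ∃ (o : α) (k : Fin 4 → α), Function.Injective k ∧ (∀ i, k i ≠ o) ∧ ∀ i, {o, k i} ∈ F
  · obtain ⟨o, k, hk, hko, hkF⟩ := hc1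
    exact ⟨{o}, by rw [Set.ncard_singleton]; norm_num, h5 α F o k hF hk hko hkF⟩
  -- the partners
  have hP : ∀ v : α, ({w | w ≠ v ∧ {v, w} ∈ F} : Set α).ncard ≤ 3 := by
    intro v
    by_contra hcon
    obtain ⟨k, hk, hkP⟩ := b7_four _ (not_le.1 hcon)
    exact hc1 ⟨v, k, hk, fun i => (hkP i).1, fun i => (hkP i).2⟩
  by_cases hc2 : ∃ o y y' : α, y ≠ o ∧ y' ≠ o ∧ y ≠ y' ∧ {o, y} ∈ F ∧ {o, y'} ∈ F
  · obtain ⟨o, y, y', hyo, hyo', hyy, hy, hy'⟩ := hc2
    have hA : ({o, y} : Set α) ∩ {o, y'} = {o} := by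
      ext z
      simp only [Set.mem_inter_iff, Set.mem_insert_iff, Set.mem_singleton_iff]
      constructor
      · rintro ⟨h1 | h1, h2 | h2⟩
        · exact h1
        · exact h1
        · exact h2
        · exact absurd (h1.symm.trans h2) hyy
      · intro h
        exact ⟨Or.inl h, Or.inl h⟩
    have hn1 : ¬ ({o, y} : Set α) ⊆ {o, y'} := by
      intro h
      have : y ∈ ({o, y'} : Set α) := h (by simp)
      rcases this with h | h
      · exact hyo h
      · exact hyy h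
    have hn2 : ¬ ({o, y'} : Set α) ⊆ {o, y} := by
      intro h
      have : y' ∈ ({o, y} : Set α) := h (by simp)
      rcases this with h | h
      · exact hyo' h
      · exact hyy h.symm
    set U : Set α := {o} ∪ {w | w ≠ o ∧ {o, w} ∈ F} ∪ ({w | w ≠ y ∧ {y, w} ∈ F} \ {o}) ∪
      ({w | w ≠ y' ∧ {y', w} ∈ F} \ {o}) with hU
    have hUc : U.ncard ≤ 8 := by
      have k1 := hP o
      have k2 : (({w | w ≠ y ∧ {y, w} ∈ F} : Set α) \ {o}).ncard ≤ 2 := by
        have ho : o ∈ ({w | w ≠ y ∧ {y, w} ∈ F} : Set α) :=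
          ⟨hyo.symm, by rw [Set.pair_comm]; exact hy⟩
        rw [Set.ncard_sdiff_singleton_of_mem ho]
        have := hP y
        omega
      have k3 : (({w | w ≠ y' ∧ {y', w} ∈ F} : Set α) \ {o}).ncard ≤ 2 := by
        have ho : o ∈ ({w | w ≠ y' ∧ {y', w} ∈ F} : Set α) :=
          ⟨hyo'.symm, by rw [Set.pair_comm]; exact hy'⟩
        rw [Set.ncard_sdiff_singleton_of_mem ho]
        have := hP y'
        omega
      have k4 : ({o} : Set α).ncard = 1 := Set.ncard_singleton o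
      have u1 := Set.ncard_union_le ({o} : Set α) {w | w ≠ o ∧ {o, w} ∈ F}
      have u2 := Set.ncard_union_le (({o} : Set α) ∪ {w | w ≠ o ∧ {o, w} ∈ F})
        (({w | w ≠ y ∧ {y, w} ∈ F} : Set α) \ {o})
      have u3 := Set.ncard_union_le (({o} : Set α) ∪ {w | w ≠ o ∧ {o, w} ∈ F} ∪
        (({w | w ≠ y ∧ {y, w} ∈ F} : Set α) \ {o})) (({w | w ≠ y' ∧ {y', w} ∈ F} : Set α) \ {o})
      rw [hU]
      omega
    have hEU : ∀ a b : α, b ≠ a → {a, b} ∈ F → a ∈ U := by
      intro a b hab hF'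
      by_cases hao : a = o
      · rw [hao]
        exact Or.inl (Or.inl (Or.inl rfl))
      by_cases hbo : b = o
      · rw [hbo, Set.pair_comm] at hF'
        exact Or.inl (Or.inl (Or.inr ⟨hao, hF'⟩))
      have hoM : o ∉ ({a, b} : Set α) := by
        rintro (h | h)
        · exact hao h.symm
        · exact hbo h.symm
      have hnot : ∀ z : α, ¬ ({a, b} : Set α) ⊆ {o, z} \ {o} := by
        intro z h
        have ha : a ∈ ({o, z} : Set α) \ {o} := h (by simp)
        have hb : b ∈ ({o, z} : Set α) \ {o} := h (by simp)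
        have ha' : a = z := ha.1.resolve_left hao
        have hb' : b = z := hb.1.resolve_left hbo
        exact hab (hb'.trans ha'.symm)
      rcases hF.2 _ hy _ hy' o hn1 hn2 hA _ hF' hoM with h | h | h | h
      · exact absurd h (hnot y)
      · exact absurd h (hnot y')
      · have hyM : y ∈ ({a, b} : Set α) := h ⟨by simp, hyo⟩
        rcases hyM with h | h
        · subst h
          exact Or.inl (Or.inl (Or.inr ⟨hyo, hy⟩))
        · have h' : y = b := h
          subst h'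
          rw [Set.pair_comm] at hF'
          exact Or.inl (Or.inr ⟨⟨hab.symm, hF'⟩, hao⟩)
      · have hyM : y' ∈ ({a, b} : Set α) := h ⟨by simp, hyo'⟩
        rcases hyM with h | h
        · subst h
          exact Or.inl (Or.inl (Or.inr ⟨hyo', hy'⟩))
        · have h' : y' = b := h
          subst h'
          rw [Set.pair_comm] at hF'
          exact Or.inr ⟨⟨hab.symm, hF'⟩, hao⟩
    refine ⟨Z₀ ∪ U, ?_, ?_⟩
    · have := Set.ncard_union_le Z₀ U
      omega
    · apply b7_lam hF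
      intro k A B hK
      by_cases hk : k ∈ Z₀
      · exact Or.inl hk
      · obtain ⟨w, M, hw, hKP⟩ := hsm k A B hK hk
        exact Or.inr (hEU k w hw hKP.1)
  · -- case 3
    have hdis : ∀ A ∈ F, ∀ B ∈ F, A.ncard = 2 → B.ncard = 2 → A = B ∨ Disjoint A B := by
      intro A hA B hB hA2 hB2
      by_cases hd : Disjoint A B
      · exact Or.inr hd
      · left
        obtain ⟨o, hoA, hoB⟩ := Set.not_disjoint_iff.1 hd
        have key : ∀ C : Set α, C.ncard = 2 → o ∈ C → ∃ w, w ≠ o ∧ C = {o, w} := by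
          intro C hC ho
          obtain ⟨x, y, hxy, rfl⟩ := Set.ncard_eq_two.1 hC
          rcases ho with h | h
          · subst h
            exact ⟨y, hxy.symm, rfl⟩
          · have h' : o = y := h
            subst h'
            exact ⟨x, hxy, Set.pair_comm _ _⟩
        obtain ⟨w, hw, rfl⟩ := key A hA2 hoA
        obtain ⟨w', hw', rfl⟩ := key B hB2 hoB
        by_cases hww : w = w'
        · rw [hww]
        · exact absurd ⟨o, w, w', hw, hw', hww, hA, hB⟩ hc2
    by_cases hk1 : ∃ k₁ y₁ M₁, k₁ ∉ Z₀ ∧ y₁ ≠ k₁ ∧ KP F k₁ {k₁, y₁} M₁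
    · obtain ⟨k₁, y₁, M₁, _, hy₁, hKP₁⟩ := hk1
      refine ⟨Z₀ ∪ {k₁, y₁}, ?_, ?_⟩
      · have u := Set.ncard_union_le Z₀ {k₁, y₁}
        have u2 : ({k₁, y₁} : Set α).ncard = 2 := Set.ncard_pair hy₁.symm
        omega
      · apply b7_lam hF
        intro k A B hK
        by_cases hk : k ∈ Z₀
        · exact Or.inl hk
        · obtain ⟨w, M, hw, hKP⟩ := hsm k A B hK hk
          right
          rcases hdis _ hKP₁.1 _ hKP.1 (Set.ncard_pair hy₁.symm) (Set.ncard_pair hw.symm) with h | h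
          · rw [h]
            exact Or.inl rfl
          · exact absurd hKP (h6 α F k₁ y₁ k w M₁ M hF hdis hy₁.symm hw.symm h hKP₁)
    · refine ⟨Z₀, by omega, ?_⟩
      apply b7_lam hF
      intro k A B hK
      by_contra hk
      obtain ⟨w, M, hw, hKP⟩ := hsm k A B hK hk
      exact hk1 ⟨k, w, M, hk, hw, hKP⟩

end Pool.Agent.MPd439b2.LK
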