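import Pool.Agent.Lib.MP_d439b2_co.L4.Spec3

/-!
# L4/C1: chains in laminar families
-/

set_option autoImplicit false

namespace Pool.Agent.MPd439b2.LK

open Pool.Agent.MPd439b2

namespace C1Aux

theorem cons_bad {α : Type} {k : ℕ} {F : Set (Set α)} (B : Set α) (hB : B ∈ F) (hBn : B.Nonempty)
    (g : Fin (k + 1) → Set α) (hg : ∀ i, g i ∈ F ∧ (g i).Nonempty)
    (hd : ∀ i j, i ≠ j → Disjoint (g i) (g j)) (hBg : ∀ i, Disjoint B (g i)) :
    ∃ g : Fin (k + 1 + 1) → Set α, (∀ i, g i ∈ F ∧ (g i).Nonempty) ∧
      ∀ i j, i ≠ j → Disjoint (g i) (g j) := by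
  refine ⟨Fin.cons B g, ?_, ?_⟩
  · intro i
    refine Fin.cases ?_ ?_ i
    · rw [Fin.cons_zero]
      exact ⟨hB, hBn⟩
    · intro i
      rw [Fin.cons_succ]
      exact hg i
  · intro i j
    refine Fin.cases ?_ ?_ i
    · refine Fin.cases ?_ ?_ j
      · intro h
        exact absurd rfl h
      · intro j _
        rw [Fin.cons_zero, Fin.cons_succ]
        exact hBg j
    · intro i
      refine Fin.cases ?_ ?_ j
      · intro _
        rw [Fin.cons_zero, Fin.cons_succ]
        exact (hBg i).symm
      · intro j h
        rw [Fin.cons_succ, Fin.cons_succ]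
        exact hd i j (fun h' => h (congrArg Fin.succ h'))

theorem main {α : Type} [Finite α] (k : ℕ) : ∀ (W : Set α) (F : Set (Set α)),
    (∀ A ∈ F, A ⊆ W) → (∀ A ∈ F, ∀ B ∈ F, A ⊆ B ∨ B ⊆ A ∨ Disjoint A B) →
    (¬ ∃ g : Fin (k + 1) → Set α, (∀ i, g i ∈ F ∧ (g i).Nonempty) ∧
      ∀ i j, i ≠ j → Disjoint (g i) (g j)) →
    ∃ W' ⊆ W, W.ncard ≤ 2 ^ k * W'.ncard ∧
      ∀ A ∈ F, ∀ B ∈ F, A ∩ W' ⊆ B ∩ W' ∨ B ∩ W' ⊆ A ∩ W' := by
  induction k with
  | zero =>
    intro W F _ _ hno
    refine ⟨W, subset_rfl, by simp, ?_⟩
    intro A hA B _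
    left
    have hAe : A = ∅ := by
      by_contra hne
      apply hno
      refine ⟨fun _ => A, fun _ => ⟨hA, Set.nonempty_iff_ne_empty.2 hne⟩, ?_⟩
      intro i j hij
      exact absurd (Subsingleton.elim (α := Fin 1) i j) hij
    rw [hAe, Set.empty_inter]
    exact Set.empty_subset _
  | succ k ih =>
    intro W F hW hlam hno
    by_cases hP : ∃ A ∈ F, A.Nonempty ∧ ∃ B ∈ F, B.Nonempty ∧ Disjoint A B
    · obtain ⟨A₀, hA₀, hA₀n, B₁, hB₁, hB₁n, hdis₁⟩ := hP
      have hfin : ({A | A ∈ F ∧ A.Nonempty ∧ ∃ B ∈ F, B.Nonempty ∧ Disjoint A B} :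
          Set (Set α)).Finite := Set.toFinite _
      obtain ⟨m₀, hm₀⟩ := hfin.exists_maximal ⟨A₀, hA₀, hA₀n, B₁, hB₁, hB₁n, hdis₁⟩
      obtain ⟨⟨hmF, hmn, B₀, hB₀, hB₀n, hdis⟩, hmax⟩ := hm₀
      have hmW : m₀ ⊆ W := hW m₀ hmF
      have hk : k ≠ 0 := by
        rintro rfl
        apply hno
        apply cons_bad m₀ hmF hmn (fun _ : Fin 1 => B₀) (fun _ => ⟨hB₀, hB₀n⟩)
        · intro i j hij
          exact absurd (Subsingleton.elim (α := Fin 1) i j) hij
        · intro _
          exact hdis
      have hno₁ : ¬ ∃ g : Fin (k + 1) → Set α,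
          (∀ i, g i ∈ {T | ∃ A ∈ F, T = A ∩ m₀} ∧ (g i).Nonempty) ∧
          ∀ i j, i ≠ j → Disjoint (g i) (g j) := by
        rintro ⟨g, hg, hd⟩
        apply hno
        have hsub : ∀ i, g i ⊆ m₀ := by
          intro i
          obtain ⟨⟨A, hA, hgA⟩, -⟩ := hg i
          rw [hgA]
          exact Set.inter_subset_right
        refine cons_bad B₀ hB₀ hB₀n g ?_ hd (fun i => (hdis.mono_left (hsub i)).symm)
        intro i
        obtain ⟨⟨A, hA, hgA⟩, hn⟩ := hg i
        refine ⟨?_, hn⟩
        rcases hlam A hA m₀ hmF with h | h | h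
        · rw [hgA, Set.inter_eq_left.2 h]
          exact hA
        · rw [hgA, Set.inter_eq_right.2 h]
          exact hmF
        · rw [hgA, Set.disjoint_iff_inter_eq_empty.1 h] at hn
          exact absurd hn Set.not_nonempty_empty
      have hno₂ : ¬ ∃ g : Fin (k + 1) → Set α,
          (∀ i, g i ∈ {T | ∃ A ∈ F, T = A \ m₀} ∧ (g i).Nonempty) ∧
          ∀ i j, i ≠ j → Disjoint (g i) (g j) := by
        rintro ⟨g, hg, hd⟩
        choose A hA using fun i => (hg i).1
        by_cases hall : ∀ i, Disjoint (A i) m₀
        · apply hno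
          have hgA : ∀ i, g i = A i := fun i => by
            rw [(hA i).2]
            exact (hall i).sdiff_eq_left
          refine cons_bad m₀ hmF hmn g ?_ hd ?_
          · intro i
            refine ⟨?_, (hg i).2⟩
            rw [hgA i]
            exact (hA i).1
          · intro i
            rw [hgA i]
            exact (hall i).symm
        · push Not at hall
          obtain ⟨i₀, hi₀⟩ := hall
          have key : ∀ i, ¬ Disjoint (A i) m₀ → m₀ ⊆ A i := by
            intro i hi
            rcases hlam (A i) (hA i).1 m₀ hmF with h | h | h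
            · have h1 := (hg i).2
              rw [(hA i).2, Set.sdiff_eq_empty.2 h] at h1
              exact absurd h1 Set.not_nonempty_empty
            · exact h
            · exact absurd h hi
          have hmi := key i₀ hi₀
          have hnt : Nontrivial (Fin (k + 1)) := by
            rw [Fin.nontrivial_iff_two_le]
            omega
          obtain ⟨j, hj⟩ := exists_ne i₀
          have hjm : Disjoint (A j) m₀ := by
            by_contra hj'
            have hmj := key j hj'
            have hdj := hd i₀ j hj.symm
            rw [(hA i₀).2, (hA j).2] at hdj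
            rcases hlam (A i₀) (hA i₀).1 (A j) (hA j).1 with h | h | h
            · have h1 : A i₀ \ m₀ ⊆ A j \ m₀ := Set.sdiff_subset_sdiff_left h
              have h2 := (hg i₀).2
              rw [(hA i₀).2] at h2
              obtain ⟨t, ht⟩ := h2
              exact Set.disjoint_left.1 hdj ht (h1 ht)
            · have h1 : A j \ m₀ ⊆ A i₀ \ m₀ := Set.sdiff_subset_sdiff_left h
              have h2 := (hg j).2
              rw [(hA j).2] at h2
              obtain ⟨t, ht⟩ := h2
              exact Set.disjoint_left.1 hdj (h1 ht) ht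
            · obtain ⟨t, ht⟩ := hmn
              exact Set.disjoint_left.1 h (hmi ht) (hmj ht)
          have hgj : g j = A j := by
            rw [(hA j).2]
            exact hjm.sdiff_eq_left
          have hij : Disjoint (A i₀) (A j) := by
            rw [Set.disjoint_left]
            intro t ht ht'
            by_cases htm : t ∈ m₀
            · exact Set.disjoint_left.1 hjm ht' htm
            · have hdj := hd i₀ j hj.symm
              rw [(hA i₀).2, hgj] at hdj
              exact Set.disjoint_left.1 hdj ⟨ht, htm⟩ ht'
          have hAjn : (A j).Nonempty := by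
            rw [← hgj]
            exact (hg j).2
          have hle : A i₀ ⊆ m₀ := hmax ⟨(hA i₀).1, hmn.mono hmi, A j, (hA j).1, hAjn, hij⟩ hmi
          have h1 := (hg i₀).2
          rw [(hA i₀).2, Set.sdiff_eq_empty.2 hle] at h1
          exact Set.not_nonempty_empty h1
      have hcard : W.ncard = m₀.ncard + (W \ m₀).ncard := by
        rw [add_comm]
        exact (Set.ncard_sdiff_add_ncard_of_subset hmW).symm
      rcases le_total m₀.ncard (W \ m₀).ncard with hle | hle
      · obtain ⟨W', hW', hc, hch⟩ := ih (W \ m₀) {T | ∃ A ∈ F, T = A \ m₀}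
          (by
            rintro T ⟨A, hA, rfl⟩
            exact Set.sdiff_subset_sdiff_left (hW A hA))
          (by
            rintro S ⟨A, hA, rfl⟩ T ⟨B, hB, rfl⟩
            rcases hlam A hA B hB with h | h | h
            · left
              exact Set.sdiff_subset_sdiff_left h
            · right; left
              exact Set.sdiff_subset_sdiff_left h
            · right; right
              exact h.mono Set.sdiff_subset Set.sdiff_subset)
          hno₂
        refine ⟨W', hW'.trans Set.sdiff_subset, ?_, ?_⟩
        · rw [hcard, pow_succ]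
          nlinarith
        · have he : ∀ A : Set α, A ∩ W' = (A \ m₀) ∩ W' := by
            intro A
            ext t
            constructor
            · rintro ⟨h1, h2⟩
              exact ⟨⟨h1, (hW' h2).2⟩, h2⟩
            · rintro ⟨⟨h1, -⟩, h2⟩
              exact ⟨h1, h2⟩
          intro A hA B hB
          rw [he A, he B]
          exact hch _ ⟨A, hA, rfl⟩ _ ⟨B, hB, rfl⟩
      · obtain ⟨W', hW', hc, hch⟩ := ih m₀ {T | ∃ A ∈ F, T = A ∩ m₀}
          (by
            rintro T ⟨A, hA, rfl⟩
            exact Set.inter_subset_right)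
          (by
            rintro S ⟨A, hA, rfl⟩ T ⟨B, hB, rfl⟩
            rcases hlam A hA B hB with h | h | h
            · left
              exact Set.inter_subset_inter_left _ h
            · right; left
              exact Set.inter_subset_inter_left _ h
            · right; right
              exact h.mono Set.inter_subset_left Set.inter_subset_left)
          hno₁
        refine ⟨W', hW'.trans hmW, ?_, ?_⟩
        · rw [hcard, pow_succ]
          nlinarith
        · have he : ∀ A : Set α, A ∩ W' = (A ∩ m₀) ∩ W' := by
            intro A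
            ext t
            constructor
            · rintro ⟨h1, h2⟩
              exact ⟨⟨h1, hW' h2⟩, h2⟩
            · rintro ⟨⟨h1, -⟩, h2⟩
              exact ⟨h1, h2⟩
          intro A hA B hB
          rw [he A, he B]
          exact hch _ ⟨A, hA, rfl⟩ _ ⟨B, hB, rfl⟩
    · refine ⟨W, subset_rfl, ?_, ?_⟩
      · exact Nat.le_mul_of_pos_left _ (by positivity)
      · intro A hA B hB
        rcases hlam A hA B hB with h | h | h
        · left
          exact Set.inter_subset_inter_left _ h
        · right
          exact Set.inter_subset_inter_left _ h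
        · rcases A.eq_empty_or_nonempty with hAe | hAn
          · left
            rw [hAe, Set.empty_inter]
            exact Set.empty_subset _
          · rcases B.eq_empty_or_nonempty with hBe | hBn
            · right
              rw [hBe, Set.empty_inter]
              exact Set.empty_subset _
            · exact absurd ⟨A, hA, hAn, B, hB, hBn, h⟩ hP

end C1Aux

theorem c1 : S_C1 := by
  intro α _ k W F hW hlam hno
  exact C1Aux.main k W F hW hlam hno

end Pool.Agent.MPd439b2.LK
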