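import Pool.Agent.Lib.MP_d439b2_co.L4.Spec3

/-!
# MP_d439b2_co, column `C_4`, C10: the clique `QQ` and the deep pieces
-/

set_option autoImplicit false

namespace Pool.Agent.MPd439b2.LK

open Pool.Agent.MPd439b2

namespace C10Aux

variable {V : Type} {G : SimpleGraph V} {S : Set V} {n m : ℕ} {s : ℕ → V} {l : V → ℕ}

/-- components of the graph of the vertices of level at least `m + 4` have small range -/
theorem range [Finite V] (h9 : S_C9) (hF : Fr7 G S n m s l) {C : Set V}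
    (hC : IsComp G {v | v ∉ S ∧ m + 4 ≤ l v} C) :
    ∃ lo, m + 4 ≤ lo ∧ (∀ c ∈ C, lo ≤ l c) ∧ (∃ c ∈ C, l c = lo) ∧ ∀ c ∈ C, l c < lo + m + 4 := by
  obtain ⟨h1, h2, h3, h4, h5⟩ := hF
  obtain ⟨c₀, hc₀, hmin⟩ := Set.exists_min_image C l (Set.toFinite C) hC.2.1.1
  have hlo : m + 4 ≤ l c₀ := (hC.1 hc₀).2
  refine ⟨l c₀, hlo, hmin, ⟨c₀, hc₀, rfl⟩, fun c hc => ?_⟩
  exact h9 V G S C n m (m + 4) (l c₀) (l c) s l h1 h2 h3 h4 (by omega) hC hmin
    ⟨c₀, hc₀, rfl⟩ ⟨c, hc, rfl⟩ hlo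

/-- the vertex `u₀` is adjacent to all vertices of `QQ` outside `S` -/
theorem adj_u₀ (h0 : S_B0) (hF : Fr7 G S n m s l) {u₀ q v : V} {D : Set V}
    (hu : u₀ ∉ S) (hu1 : m + 4 < l u₀) (hu2 : l u₀ < m + 4 + m + 1)
    (hq : q ∉ S) (hq1 : l q < m + 4) (hD : D ∈ Dp G S l (m + 4) (m + 4)) (hv : v ∈ D)
    (hvq : G.Adj v q) : G.Adj u₀ q := by
  obtain ⟨⟨_, hno⟩, hS, ⟨hs1, hs2, hs3, hs4⟩, h4, h5⟩ := hF
  by_contra huq
  apply hno
  have hvS : v ∉ S := (hD.1.1 hv).1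
  have hlv : m + 4 + (m + 4) ≤ l v := hD.2 v hv
  have hlvn : l v ≤ n := (hs4 v hvS).1
  have hb : s (l v) ∈ S := hs1 _ (by omega) hlvn
  have hc : s (m + 4) ∈ S := hs1 _ (by omega) (by omega)
  have hd : s (m + 4 + 1) ∈ S := hs1 _ (by omega) (by omega)
  have hbc : s (l v) ≠ s (m + 4) := fun h => by
    have := hs2 _ _ (by omega) hlvn (by omega) (by omega) h
    omega
  have hbd : s (l v) ≠ s (m + 4 + 1) := fun h => by
    have := hs2 _ _ (by omega) hlvn (by omega) (by omega) h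
    omega
  have hcd : s (m + 4) ≠ s (m + 4 + 1) := fun h => by
    have := hs2 _ _ (by omega) (by omega) (by omega) (by omega) h
    omega
  have hne : ∀ {x y : V}, x ∉ S → y ∈ S → y ≠ x := fun hx hy h => hx (h ▸ hy)
  have huD : u₀ ∉ D := fun h => by
    have := hD.2 u₀ h
    omega
  have huv : ¬ G.Adj v u₀ := fun h => hD.1.2.2 u₀ ⟨hu, by omega⟩ ⟨huD, v, hv, h⟩
  refine h0 V G {q} {v} {u₀} (s (l v)) (s (m + 4)) (s (m + 4 + 1)) (Conn.singleton G q)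
    (Conn.singleton G v) (Conn.singleton G u₀) ?_ ?_ ?_ (hne hq hb) (hne hq hc) (hne hq hd)
    (hne hvS hb) (hne hvS hc) (hne hvS hd) (hne hu hb) (hne hu hc) (hne hu hd)
    (hS _ hb _ hc hbc) (hS _ hb _ hd hbd) (hS _ hc _ hd hcd)
    ⟨q, rfl, ((hs4 q hq).2 _ (by omega) hlvn).2 (by omega)⟩
    ⟨q, rfl, ((hs4 q hq).2 _ (by omega) (by omega)).2 (by omega)⟩
    ⟨q, rfl, ((hs4 q hq).2 _ (by omega) (by omega)).2 (by omega)⟩
    ⟨v, rfl, q, rfl, hvq⟩ ?_ ⟨u₀, rfl, ((hs4 u₀ hu).2 _ (by omega) hlvn).2 (by omega)⟩ ?_ ?_ ?_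
  · rw [Set.disjoint_singleton]
    rintro rfl
    omega
  · rw [Set.disjoint_singleton]
    rintro rfl
    omega
  · rw [Set.disjoint_singleton]
    rintro rfl
    exact huD hv
  · rintro x rfl
    refine ⟨fun h => ?_, fun h => ?_, fun h => ?_⟩
    · have := ((hs4 x hvS).2 _ (by omega) hlvn).1 h
      omega
    · have := ((hs4 x hvS).2 _ (by omega) (by omega)).1 h
      omega
    · have := ((hs4 x hvS).2 _ (by omega) (by omega)).1 h
      omega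
  · rintro x rfl
    refine ⟨fun h => ?_, fun h => ?_⟩
    · have := ((hs4 x hu).2 _ (by omega) (by omega)).1 h
      omega
    · have := ((hs4 x hu).2 _ (by omega) (by omega)).1 h
      omega
  · rintro ⟨x, rfl, y, rfl, h⟩
    exact huq h
  · rintro ⟨x, rfl, y, rfl, h⟩
    exact huv h

/-- `QQ` is a clique -/
theorem complete (hA0 : S_A0) (h0 : S_B0) [Finite V] (h5 : S_C5) (hF : Fr7 G S n m s l) :
    CompleteOn G (QQ G S n s l (m + 4) (m + 4)) := by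
  have hF' := hF
  obtain ⟨⟨hch, hno⟩, hS, hL, hU, hn⟩ := hF
  obtain ⟨u₀, hu, hu1, hu2⟩ := h5 V G S n m s l hS hL hU (by omega) (m + 4) (by omega)
  obtain ⟨hs1, hs2, hs3, hs4⟩ := hL
  have hadj : ∀ q, q ∉ S → l q < m + 4 → (∃ D ∈ Dp G S l (m + 4) (m + 4), q ∈ nb G D) →
      G.Adj u₀ q := by
    rintro q hq hq1 ⟨D, hD, -, v, hv, hvq⟩
    exact adj_u₀ h0 hF' hu hu1 hu2 hq hq1 hD hv hvq
  have hqs : ∀ q, q ∉ S → l q < m + 4 → ∀ i, m + 4 ≤ i → i ≤ n → G.Adj q (s i) := fun q hq hq1 i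
    h1 h2 => ((hs4 q hq).2 i (by omega) h2).2 (by omega)
  rintro x (⟨i, hi1, hi2, rfl⟩ | ⟨hx, hx1, hx2⟩) y (⟨j, hj1, hj2, rfl⟩ | ⟨hy, hy1, hy2⟩) hxy
  · exact hS _ (hs1 i (by omega) hi2) _ (hs1 j (by omega) hj2) hxy
  · exact (hqs y hy hy1 i hi1 hi2).symm
  · exact hqs x hx hx1 j hj1 hj2
  · by_contra hno'
    apply hch
    have hsa : s (m + 4) ∈ S := hs1 _ (by omega) (by omega)
    have hne : ∀ {x : V}, x ∉ S → x ≠ s (m + 4) := fun hx h => hx (h ▸ hsa)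
    refine hA0 V G {u₀} {x} {s (m + 4)} {y} (Conn.singleton G _) (Conn.singleton G _)
      (Conn.singleton G _) (Conn.singleton G _) ?_ ?_ ?_ ?_ ?_ ?_
      ⟨u₀, rfl, x, rfl, hadj x hx hx1 hx2⟩
      ⟨x, rfl, s (m + 4), rfl, hqs x hx hx1 _ le_rfl (by omega)⟩
      ⟨s (m + 4), rfl, y, rfl, (hqs y hy hy1 _ le_rfl (by omega)).symm⟩
      ⟨u₀, rfl, y, rfl, hadj y hy hy1 hy2⟩ ?_ ?_
    · rw [Set.disjoint_singleton]
      rintro rfl
      omega
    · rw [Set.disjoint_singleton]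
      exact hne hu
    · rw [Set.disjoint_singleton]
      rintro rfl
      omega
    · rw [Set.disjoint_singleton]
      exact hne hx
    · rw [Set.disjoint_singleton]
      exact hxy
    · rw [Set.disjoint_singleton]
      exact (hne hy).symm
    · rintro ⟨a, rfl, b, rfl, h⟩
      have := ((hs4 a hu).2 _ (by omega) (by omega)).1 h
      omega
    · rintro ⟨a, rfl, b, rfl, h⟩
      exact hno' h

/-- a deep piece is disjoint from `QQ` -/
theorem notMem_QQ {D : Set V} (hs1 : ∀ i, 1 ≤ i → i ≤ n → s i ∈ S)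
    (hD : D ∈ Dp G S l (m + 4) (m + 4)) {v : V} (hv : v ∈ D) :
    v ∉ QQ G S n s l (m + 4) (m + 4) := by
  rintro (⟨i, hi1, hi2, rfl⟩ | ⟨_, h2, _⟩)
  · exact (hD.1.1 hv).1 (hs1 i (by omega) hi2)
  · have := hD.2 v hv
    omega

theorem deepComp (hF : Fr7 G S n m s l) {D : Set V} (hD : D ∈ Dp G S l (m + 4) (m + 4)) :
    IsComp G (QQ G S n s l (m + 4) (m + 4))ᶜ D := by
  obtain ⟨_, hS, ⟨hs1, hs2, hs3, hs4⟩, hU, hn⟩ := hF
  refine ⟨fun v hv => notMem_QQ hs1 hD hv, hD.1.2.1, fun u hu hun => hu ?_⟩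
  by_cases huS : u ∈ S
  · left
    obtain ⟨i, hi1, hi2, rfl⟩ := hs3 u huS
    obtain ⟨_, w, hw, hwu⟩ := hun
    have h1 := ((hs4 w (hD.1.1 hw).1).2 i hi1 hi2).1 hwu
    have h2 := hD.2 w hw
    exact ⟨i, by omega, hi2, rfl⟩
  · right
    refine ⟨huS, ?_, D, hD, hun⟩
    by_contra hl
    exact hD.1.2.2 u ⟨huS, by omega⟩ hun

theorem mem_trace (hF : Fr7 G S n m s l) {v : V} (hv : v ∉ S) {i : ℕ} (hi : m + 4 ≤ i)
    (hi' : i ≤ l v) : s i ∈ Ms G (QQ G S n s l (m + 4) (m + 4)) v := by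
  obtain ⟨_, hS, ⟨hs1, hs2, hs3, hs4⟩, hU, hn⟩ := hF
  have hln : l v ≤ n := (hs4 v hv).1
  refine ⟨Or.inl ⟨i, hi, by omega, rfl⟩, fun h => ?_⟩
  have := ((hs4 v hv).2 i (by omega) (by omega)).1 h
  omega

theorem chain [Finite V] (h1 : S_B1) (hF : Fr7 G S n m s l)
    (hQ : CompleteOn G (QQ G S n s l (m + 4) (m + 4))) {D D' : Set V}
    (hD : D ∈ Dp G S l (m + 4) (m + 4)) (hD' : D' ∈ Dp G S l (m + 4) (m + 4)) {v w : V}
    (hv : v ∈ D) (hw : w ∈ D') :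
    Ms G (QQ G S n s l (m + 4) (m + 4)) v ⊆ Ms G (QQ G S n s l (m + 4) (m + 4)) w ∨
    Ms G (QQ G S n s l (m + 4) (m + 4)) w ⊆ Ms G (QQ G S n s l (m + 4) (m + 4)) v := by
  have hs1 := hF.2.2.1.1
  have hs2 := hF.2.2.1.2.1
  have hs4 := hF.2.2.1.2.2.2
  have hn := hF.2.2.2.2
  rcases h1 V G _ v w hF.1 hQ (notMem_QQ hs1 hD hv) (notMem_QQ hs1 hD' hw) with h | h | ⟨-, h⟩
  · exact Or.inl h
  · exact Or.inr h
  · exfalso
    have hvS := (hD.1.1 hv).1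
    have hwS := (hD'.1.1 hw).1
    have hlv := hD.2 v hv
    have hlw := hD'.2 w hw
    have e1 : ({s (m + 4), s (m + 4 + 1)} : Set V) ⊆
        Ms G (QQ G S n s l (m + 4) (m + 4)) v ∩ Ms G (QQ G S n s l (m + 4) (m + 4)) w := by
      rintro x (rfl | rfl)
      · exact ⟨mem_trace hF hvS le_rfl (by omega), mem_trace hF hwS le_rfl (by omega)⟩
      · exact ⟨mem_trace hF hvS (by omega) (by omega), mem_trace hF hwS (by omega) (by omega)⟩
    have e2 := Set.ncard_le_ncard e1 (Set.toFinite _)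
    rw [Set.ncard_pair] at e2
    · omega
    · intro h'
      have := hs2 _ _ (by omega) (by omega) (by omega) (by omega) h'
      omega

end C10Aux

theorem c10 (hA0 : S_A0) (h0 : S_B0) (h1 : S_B1) (h5 : S_C5) (h9 : S_C9) : S_C10 := by
  intro V _ G S n m s l hF
  have hQ := C10Aux.complete hA0 h0 h5 hF
  have hs4 := hF.2.2.1.2.2.2
  refine ⟨hQ, fun D hD => C10Aux.deepComp hF hD,
    fun D hD D' hD' v hv w hw => C10Aux.chain h1 hF hQ hD hD' hv hw, ?_, ?_⟩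
  · intro v hv hvD
    by_cases hl : l v < m + 4
    · omega
    obtain ⟨D, hDs, hvD', hconn, hnb⟩ := exists_comp G (A := {v | v ∉ S ∧ m + 4 ≤ l v})
      (v := v) ⟨hv, by omega⟩
    have hcomp : IsComp G {v | v ∉ S ∧ m + 4 ≤ l v} D := ⟨hDs, hconn, hnb⟩
    obtain ⟨lo, hlo1, hlo2, -, hlo4⟩ := C10Aux.range h9 hF hcomp
    have hnd : ¬ ∀ w ∈ D, m + 4 + (m + 4) ≤ l w := fun h => hvD D ⟨hcomp, h⟩ hvD'
    push Not at hnd
    obtain ⟨w, hw, hlw⟩ := hnd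
    have e1 := hlo2 w hw
    have e2 := hlo4 v hvD'
    omega
  · intro t ht htn
    obtain ⟨v, hv, hv1, hv2⟩ := h5 V G S n m s l hF.2.1 hF.2.2.1 hF.2.2.2.1
      (by have := hF.2.2.2.2; omega) t htn
    obtain ⟨D, hDs, hvD, hconn, hnb⟩ := exists_comp G (A := {v | v ∉ S ∧ m + 4 ≤ l v})
      (v := v) ⟨hv, by omega⟩
    have hcomp : IsComp G {v | v ∉ S ∧ m + 4 ≤ l v} D := ⟨hDs, hconn, hnb⟩
    obtain ⟨lo, hlo1, hlo2, -, hlo4⟩ := C10Aux.range h9 hF hcomp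
    have e1 := hlo4 v hvD
    have e1' := hlo2 v hvD
    have hD : D ∈ Dp G S l (m + 4) (m + 4) := ⟨hcomp, fun w hw => by
      have := hlo2 w hw
      omega⟩
    obtain ⟨y, hy, hmax⟩ := Set.exists_max_image D
      (fun v => (Ms G (QQ G S n s l (m + 4) (m + 4)) v).ncard) (Set.toFinite D) ⟨v, hvD⟩
    have hyS := (hD.1.1 hy).1
    have htop : ∀ w ∈ D, Ms G (QQ G S n s l (m + 4) (m + 4)) w ⊆
        Ms G (QQ G S n s l (m + 4) (m + 4)) y := by
      intro w hw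
      rcases C10Aux.chain h1 hF hQ hD hD hw hy with h | h
      · exact h
      · have := Set.eq_of_subset_of_ncard_le h (hmax w hw) (Set.toFinite _)
        rw [this]
    refine ⟨D, y, ⟨hD, hy, htop⟩, ?_, ?_⟩
    · have hmem := htop v hvD (C10Aux.mem_trace hF hv (by omega) le_rfl)
      by_contra hcon
      apply hmem.2
      have := (hs4 v hv).1
      exact ((hs4 y hyS).2 (l v) (by omega) this).2 (by omega)
    · have e2 := hlo4 y hy
      omega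

end Pool.Agent.MPd439b2.LK
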