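import Pool.Agent.Lib.MP_d439b2_co.L4.Spec3

/-!
# MP_d439b2_co, L4, C11: low and high pieces
-/

set_option autoImplicit false

namespace Pool.Agent.MPd439b2.LK

open Pool.Agent.MPd439b2

private theorem c11_sub {V : Type} {G : SimpleGraph V} {X D D' : Set V} (h : IsComp G X D)
    (h' : IsComp G X D') {z : V} (hz : z ∈ D) (hz' : z ∈ D') : D ⊆ D' := by
  have h1 : D ∩ D' = D := h.2.1.eq_of_nb Set.inter_subset_left ⟨z, hz, hz'⟩ (by
    rintro v hv ⟨hv1, a, ha, hav⟩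
    exact h'.2.2 v (h.1 hv) ⟨fun hvD => hv1 ⟨hv, hvD⟩, a, ha.2, hav⟩)
  exact Set.inter_eq_left.1 h1

private theorem c11_max {α : Type} (P : α → Prop) (f : α → ℕ) (N : ℕ) (hN : ∀ x, P x → f x ≤ N)
    (h : ∃ x, P x) : ∃ x, P x ∧ ∀ y, P y → f y ≤ f x := by
  classical
  have h' : ∃ n, ∃ x, P x ∧ N - f x = n := by
    obtain ⟨x, hx⟩ := h
    exact ⟨_, x, hx, rfl⟩
  obtain ⟨x, hx, hfx⟩ := Nat.find_spec h'
  refine ⟨x, hx, fun y hy => ?_⟩
  have h1 : Nat.find h' ≤ N - f y := Nat.find_min' h' ⟨y, hy, rfl⟩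
  have h2 := hN x hx
  have h3 := hN y hy
  omega

theorem c11 (h7 : S_A7) (h3 : S_B3) (h10 : S_C10) : S_C11 := by
  intro V _ G S n m s l D y hFr hTop D' hD'
  obtain ⟨hQ, hcomp, hchain, -, -⟩ := h10 V G S n m s l hFr
  obtain ⟨hD, hyD, hytop⟩ := hTop
  obtain ⟨Q, hQdef⟩ : ∃ Q, Q = QQ G S n s l (m + 4) (m + 4) := ⟨_, rfl⟩
  rw [← hQdef] at hQ hcomp hchain hytop ⊢
  by_cases hDD : D' = D
  · left
    rw [hDD]
    exact hytop
  have hcD := hcomp D hD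
  have hcD' := hcomp D' hD'
  have hyD' : y ∉ D' := by
    intro hy'
    exact hDD (Set.Subset.antisymm (c11_sub hcD' hcD hy' hyD) (c11_sub hcD hcD' hyD hy'))
  have hyQ : y ∉ Q := hcD.1 hyD
  have hynadj : ∀ c ∈ D', ¬ G.Adj y c := fun c hc hadj =>
    hcD'.2.2 y hyQ ⟨hyD', c, hc, hadj.symm⟩
  have hnbQ : nb G D' ⊆ Q := by
    intro u hu
    by_contra huQ
    exact hcD'.2.2 u huQ hu
  have hDQ : ∀ c ∈ D', c ∉ Q := fun c hc => hcD'.1 hc
  obtain ⟨x', hx', hx'adj⟩ := h7 V G (nb G D') D' hFr.1.1 hcD'.2.1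
    (fun u hu v hv huv => hQ u (hnbQ hu) v (hnbQ hv) huv)
    (Set.disjoint_left.2 fun u hu hu' => hu.1 hu') (fun a ha => ha)
  have hxmin : ∀ v ∈ D', Ms G Q x' ⊆ Ms G Q v := by
    intro v hv c hc
    refine ⟨hc.1, fun hvc => hc.2 (hx'adj c ⟨fun hcD => hDQ c hcD hc.1, v, hv, hvc⟩)⟩
  obtain ⟨y', hy', hy'max⟩ := c11_max (fun v => v ∈ D') (fun v => (Ms G Q v).ncard) Q.ncard
    (fun v _ => Set.ncard_le_ncard (fun c hc => hc.1) (Set.toFinite Q)) hcD'.2.1.1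
  have hy'top : ∀ v ∈ D', Ms G Q v ⊆ Ms G Q y' := by
    intro v hv
    rcases hchain D' hD' D' hD' v hv y' hy' with h | h
    · exact h
    · exact (Set.eq_of_subset_of_ncard_le h (hy'max v hv) (Set.toFinite _)).symm.subset
  by_cases h1 : Ms G Q y ⊆ Ms G Q x'
  · right
    intro v hv
    have : Ms G Q y \ Ms G Q v = ∅ := Set.sdiff_eq_empty.2 (h1.trans (hxmin v hv))
    rw [this, Set.ncard_empty]
    exact Nat.zero_le _
  have h1' : Ms G Q x' ⊆ Ms G Q y := (hchain D hD D' hD' y hyD x' hx').resolve_left h1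
  by_cases h2 : Ms G Q y' ⊆ Ms G Q y
  · left
    exact fun v hv => (hy'top v hv).trans h2
  have h2' : Ms G Q y ⊆ Ms G Q y' := (hchain D' hD' D hD y' hy' y hyD).resolve_left h2
  rcases h3 V G Q D' x' y' y hFr.1 hQ hcD'.2.1
    (Set.disjoint_left.2 fun u hu hu' => hDQ u hu' hu) hx' hy' hyQ hyD' hynadj with h | h
  · right
    intro v hv
    refine (Set.ncard_le_ncard (fun c hc => ?_) (Set.toFinite _)).trans h
    exact ⟨hc.1, h2' hc.1, fun hcx => hc.2 (hxmin v hv hcx)⟩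
  · left
    intro v hv c hc
    by_cases hcx : c ∈ Ms G Q x'
    · exact h1' hcx
    · exact h ⟨hy'top v hv hc, hcx⟩

end Pool.Agent.MPd439b2.LK
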