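import Pool.Agent.Lib.MP_d439b2_co.L4.Spec3

/-!
# MP_d439b2_co, column `C_4`: the window between two tops (S_C12)
-/

set_option autoImplicit false

namespace Pool.Agent.MPd439b2.LK

open Pool.Agent.MPd439b2

namespace C12

theorem ncard_seq {V : Type} [Finite V] (s : ℕ → V) (p q : ℕ)
    (hinj : ∀ i j, p ≤ i → i < q → p ≤ j → j < q → s i = s j → i = j) :
    (s '' Set.Ico p q).ncard = q - p := by
  have h1 : Set.InjOn s (Set.Ico p q) := by
    intro i hi j hj h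
    exact hinj i j hi.1 hi.2 hj.1 hj.2 h
  rw [Set.InjOn.ncard_image h1, ← Finset.coe_Ico, Set.ncard_coe_finset, Nat.card_Ico]

theorem pick {V : Type} [Finite V] (s : ℕ → V) (p q : ℕ)
    (hinj : ∀ i j, p ≤ i → i < q → p ≤ j → j < q → s i = s j → i = j) (Z : Set V)
    (hZ : Z.ncard < q - p) : ∃ j, p ≤ j ∧ j < q ∧ s j ∉ Z := by
  by_contra hcon
  push Not at hcon
  have h1 : s '' Set.Ico p q ⊆ Z := by
    rintro _ ⟨j, hj, rfl⟩
    exact hcon j hj.1 hj.2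
  have h2 := Set.ncard_le_ncard h1 (Set.toFinite _)
  rw [ncard_seq s p q hinj] at h2
  omega

theorem count {V : Type} [Finite V] (s : ℕ → V) (p q : ℕ)
    (hinj : ∀ i j, p ≤ i → i < q → p ≤ j → j < q → s i = s j → i = j) (Z Y : Set V)
    (h : ∀ j, p ≤ j → j < q → s j ∉ Z → s j ∈ Y) : q - p ≤ Z.ncard + Y.ncard := by
  have h1 : s '' Set.Ico p q ⊆ Z ∪ Y := by
    rintro _ ⟨j, hj, rfl⟩
    by_cases hz : s j ∈ Z
    · exact Or.inl hz
    · exact Or.inr (h j hj.1 hj.2 hz)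
  have h2 := Set.ncard_le_ncard h1 (Set.toFinite _)
  rw [ncard_seq s p q hinj] at h2
  exact h2.trans (Set.ncard_union_le Z Y)

theorem few_values {α β : Type} (A : Set α) (ψ : α → β) (φ : α → ℕ) (N : ℕ)
    (h1 : ∀ v ∈ A, φ v < N) (h2 : ∀ v ∈ A, ∀ v' ∈ A, φ v = φ v' → ψ v = ψ v') :
    (ψ '' A).ncard ≤ N := by
  classical
  have h3 : ∀ t : β, t ∈ ψ '' A → ∃ v, v ∈ A ∧ ψ v = t := fun t ht => ht
  let f : β → ℕ := fun t => if ht : t ∈ ψ '' A then φ (h3 t ht).choose else 0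
  have hf : ∀ t (ht : t ∈ ψ '' A), f t = φ (h3 t ht).choose := by
    intro t ht
    simp only [f, dif_pos ht]
  have h4 : (ψ '' A).ncard ≤ (Set.Iio N).ncard := by
    refine Set.ncard_le_ncard_of_injOn f ?_ ?_ (Set.finite_Iio N)
    · intro t ht
      rw [hf t ht]
      exact h1 _ (h3 t ht).choose_spec.1
    · intro t ht t' ht' htt
      rw [hf t ht, hf t' ht'] at htt
      have h5 := h2 _ (h3 t ht).choose_spec.1 _ (h3 t' ht').choose_spec.1 htt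
      rw [(h3 t ht).choose_spec.2, (h3 t' ht').choose_spec.2] at h5
      exact h5
  refine h4.trans ?_
  rw [← Finset.coe_Iio, Set.ncard_coe_finset, Nat.card_Iio]

/-- four different members of a family -/
theorem four {α : Type} [Finite α] (F : Set (Set α)) (h : 4 ≤ F.ncard) :
    ∃ g : Fin 4 → Set α, (∀ i, g i ∈ F) ∧ Function.Injective g := by
  classical
  have : Finite F := inferInstance
  have : Fintype F := Fintype.ofFinite F
  have h1 : Fintype.card (Fin 4) ≤ Fintype.card F := by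
    rw [Fintype.card_fin, ← Nat.card_eq_fintype_card, Nat.card_coe_set_eq]
    exact h
  obtain ⟨e⟩ := Function.Embedding.nonempty_of_card_le h1
  exact ⟨fun i => (e i).1, fun i => (e i).2, fun i j hij => e.injective (Subtype.ext hij)⟩

/-- members of `𝒢` lie in maximal ones -/
theorem exists_max {α : Type} [Finite α] (𝒢 : Set (Set α)) (T : Set α) (hT : T ∈ 𝒢) :
    ∃ T' ∈ 𝒢, T ⊆ T' ∧ ∀ T'' ∈ 𝒢, T' ⊆ T'' → T'' = T' := by
  obtain ⟨T', h1, h2⟩ := (Set.toFinite 𝒢).exists_le_maximal hT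
  exact ⟨T', h2.1, h1, fun T'' h3 h4 => Set.Subset.antisymm (h2.2 h3 h4) h4⟩

end C12

open C12

theorem c12 (hA1 : S_A1) (hC10 : S_C10) (hC11 : S_C11) : S_C12 := by
  intro V _ G S Z n m s l D₀ D₁ y₀ y₁ hFr hT₀ hT₁ hZ hLam hl₀ hl₁
  obtain ⟨hQc, hComp, hChain, hLow, -⟩ := hC10 V G S n m s l hFr
  have hH₀ := hC11 V G S n m s l D₀ y₀ hFr hT₀
  have hH₁ := hC11 V G S n m s l D₁ y₁ hFr hT₁
  obtain ⟨hCls, hSc, hLev, hUnb, hn⟩ := hFr
  obtain ⟨hs1, hs2, hs3, hs4⟩ := hLev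
  obtain ⟨hA1s, hA1m, hA1u, hA1c, hA1t, hA1f⟩ := hA1 V G
  set Q : Set V := QQ G S n s l (m + 4) (m + 4) with hQ
  set PP : Set (Set V) := Dp G S l (m + 4) (m + 4) with hPP
  -- elementary facts
  have hsQ : ∀ j, m + 4 ≤ j → j ≤ n → s j ∈ Q := fun j h1 h2 => Or.inl ⟨j, h1, h2, rfl⟩
  have hDQ : ∀ D ∈ PP, ∀ v ∈ D, v ∉ Q := fun D hD v hv => (hComp D hD).1 hv
  have hDS : ∀ D ∈ PP, ∀ v ∈ D, v ∉ S := fun D hD v hv => (hD.1.1 hv).1
  have hQZ : ∀ v, v ∉ Q → v ∉ Q \ Z := fun v hv h => hv h.1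
  have hMsZ : ∀ v, Ms G (Q \ Z) v = Ms G Q v \ Z := by
    intro v
    ext b
    simp only [Ms, Set.mem_setOf_eq, Set.mem_diff]
    tauto
  have hy₀D : D₀ ∈ PP ∧ y₀ ∈ D₀ := ⟨hT₀.1, hT₀.2.1⟩
  have hy₁D : D₁ ∈ PP ∧ y₁ ∈ D₁ := ⟨hT₁.1, hT₁.2.1⟩
  have hy₀S := hDS D₀ hy₀D.1 y₀ hy₀D.2
  have hy₁S := hDS D₁ hy₁D.1 y₁ hy₁D.2
  have hy₀Q := hDQ D₀ hy₀D.1 y₀ hy₀D.2
  have hy₁Q := hDQ D₁ hy₁D.1 y₁ hy₁D.2
  have hy₀n := (hs4 y₀ hy₀S).1
  have hy₁n := (hs4 y₁ hy₁S).1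
  have hsM : ∀ v, v ∉ S → ∀ j, m + 4 ≤ j → j ≤ n → (s j ∈ Ms G Q v ↔ j ≤ l v) := by
    intro v hv j h1 h2
    have h3 := (hs4 v hv).2 j (by omega) h2
    constructor
    · intro h4
      by_contra h5
      exact h4.2 (h3.mpr (by omega))
    · intro h4
      exact ⟨hsQ j h1 h2, fun h5 => by have := h3.mp h5; omega⟩
  have hinj : ∀ p q, 1 ≤ p → q ≤ n + 1 →
      ∀ i j, p ≤ i → i < q → p ≤ j → j < q → s i = s j → i = j := by
    intro p q hp hq i j h1 h2 h3 h4 h5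
    exact hs2 i j (by omega) (by omega) (by omega) (by omega) h5
  have hM01 : Ms G Q y₀ ⊆ Ms G Q y₁ := by
    rcases hChain D₀ hy₀D.1 D₁ hy₁D.1 y₀ hy₀D.2 y₁ hy₁D.2 with h | h
    · exact h
    · exfalso
      have h1 : s (l y₁) ∈ Ms G Q y₁ := (hsM y₁ hy₁S (l y₁) (by omega) hy₁n).mpr le_rfl
      have h2 := (hsM y₀ hy₀S (l y₁) (by omega) hy₁n).mp (h h1)
      omega
  -- vertices outside `Q` and outside the deep pieces
  have hgs : ∀ g, g ∉ Q → (∀ D ∈ PP, g ∉ D) → ∀ j, 3 * (m + 4) ≤ j → j ≤ n → s j ∉ Ms G Q g := by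
    intro g hg hgD j hj1 hj2 hj3
    by_cases hgS : g ∈ S
    · apply hj3.2
      apply hSc g hgS (s j) (hs1 j (by omega) hj2)
      intro h1
      exact hg (h1 ▸ hsQ j (by omega) hj2)
    · have h1 := hLow g hgS hgD
      have h2 := (hsM g hgS j (by omega) hj2).mp hj3
      omega
  set W : Set V := (Ms G Q y₁ \ Ms G Q y₀) \ Z with hW
  set 𝒢 : Set (Set V) := {T | T.Nonempty ∧ T ⊆ W ∧ ∃ g, g ∉ Q ∧ (∀ D ∈ PP, g ∉ D) ∧
    T = Ms G Q g \ Z} with h𝒢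
  set 𝒱 : Set (Set V) := {T | T ∈ 𝒢 ∧ ∀ T' ∈ 𝒢, T ⊆ T' → T' = T} with h𝒱
  have h𝒱d : ∀ T ∈ 𝒱, ∀ T' ∈ 𝒱, T ≠ T' → Disjoint T T' := by
    intro T hT T' hT' hne
    obtain ⟨g, hg1, hg2, hg3⟩ := hT.1.2.2
    obtain ⟨g', hg1', hg2', hg3'⟩ := hT'.1.2.2
    have h1 := hLam g (hQZ g hg1) g' (hQZ g' hg1')
    rw [hMsZ, hMsZ, ← hg3, ← hg3'] at h1
    rcases h1 with h1 | h1 | h1
    · exact absurd (hT.2 T' hT'.1 h1).symm hne
    · exact absurd (hT'.2 T hT.1 h1) hne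
    · exact h1
  by_cases h4 : 4 ≤ 𝒱.ncard
  · obtain ⟨T, hT, hTi⟩ := four 𝒱 h4
    choose g hg1 hg2 hg3 using fun i => (hT i).1.2.2
    refine ⟨g, fun i => ⟨hg1 i, ?_, ?_⟩, fun i j hij => ?_⟩
    · rw [hMsZ, ← hg3 i]
      exact (hT i).1.1
    · rw [hMsZ, ← hg3 i]
      exact (hT i).1.2.1.trans (fun x hx => hx.1)
    · rw [hMsZ, hMsZ, ← hg3 i, ← hg3 j]
      exact h𝒱d _ (hT i) _ (hT j) (fun h => hij (hTi h))
  · exfalso
    have h3 : 𝒱.ncard ≤ 3 := by omega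
    set W' : Set V := W \ ⋃₀ 𝒱 with hW'
    have hWQ : W ⊆ Q := fun x hx => hx.1.1.1
    -- a vertex of the common part
    obtain ⟨j₀, hj1, hj2, hj3⟩ := pick s (3 * (m + 4)) (3 * (m + 4) + 11)
      (hinj _ _ (by omega) (by omega)) Z (by omega)
    have hj₀0 : s j₀ ∈ Ms G Q y₀ := (hsM y₀ hy₀S j₀ (by omega) (by omega)).mpr (by omega)
    -- (1)
    have h1 : ∀ g, g ∉ Q → (∀ D ∈ PP, g ∉ D) → ∀ w ∈ W', G.Adj g w := by
      intro g hg hgD w hw
      by_contra hgw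
      have hwM : w ∈ Ms G Q g := ⟨hWQ hw.1, hgw⟩
      have hwZ : w ∈ Ms G Q g \ Z := ⟨hwM, hw.1.2⟩
      have hjg := hgs g hg hgD j₀ hj1 (by omega)
      have ha : Ms G Q g \ Z ⊆ Ms G Q y₁ \ Z := by
        have h5 := hLam g (hQZ g hg) y₁ (hQZ y₁ hy₁Q)
        rw [hMsZ, hMsZ] at h5
        rcases h5 with h5 | h5 | h5
        · exact h5
        · exact absurd (h5 ⟨hM01 hj₀0, hj3⟩).1 hjg
        · exact absurd (Set.disjoint_left.mp h5 hwZ ⟨hw.1.1.1, hw.1.2⟩) id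
      have hb : Disjoint (Ms G Q g \ Z) (Ms G Q y₀ \ Z) := by
        have h5 := hLam g (hQZ g hg) y₀ (hQZ y₀ hy₀Q)
        rw [hMsZ, hMsZ] at h5
        rcases h5 with h5 | h5 | h5
        · exact absurd (h5 hwZ).1 hw.1.1.2
        · exact absurd (h5 ⟨hj₀0, hj3⟩).1 hjg
        · exact h5
      have hc : Ms G Q g \ Z ∈ 𝒢 := by
        refine ⟨⟨w, hwZ⟩, fun x hx => ⟨⟨(ha hx).1, fun h5 => ?_⟩, hx.2⟩, g, hg, hgD, rfl⟩
        exact Set.disjoint_left.mp hb hx ⟨h5, hx.2⟩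
      obtain ⟨T', hT', hsub, hmax⟩ := exists_max 𝒢 _ hc
      exact hw.2 ⟨T', ⟨hT', hmax⟩, hsub hwZ⟩
    -- (2)
    have h2 : ∀ y, ∃ e, ∀ D ∈ PP, ∀ v ∈ D, (Ms G Q y \ Ms G Q v).ncard ≤ 1 →
        Ms G Q y \ {e} ⊆ Ms G Q v := by
      intro y
      by_cases hex : ∃ D ∈ PP, ∃ v ∈ D, (Ms G Q y \ Ms G Q v).ncard ≤ 1 ∧
          (Ms G Q y \ Ms G Q v).Nonempty
      · obtain ⟨D, hD, v, hv, hv1, e, he⟩ := hex
        refine ⟨e, fun D' hD' v' hv' hv1' x hx => ?_⟩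
        by_contra hxv
        have h5 : ∀ u, (Ms G Q y \ Ms G Q u).ncard ≤ 1 → ∀ a ∈ Ms G Q y \ Ms G Q u,
            ∀ b ∈ Ms G Q y \ Ms G Q u, a = b := by
          intro u hu a ha b hb
          exact (Set.ncard_le_one (Set.toFinite _)).mp hu a ha b hb
        have hxe : x ≠ e := hx.2
        rcases hChain D hD D' hD' v hv v' hv' with h6 | h6
        · exact hxe (h5 v hv1 x ⟨hx.1, fun h => hxv (h6 h)⟩ e he)
        · exact hxe (h5 v' hv1' x ⟨hx.1, hxv⟩ e ⟨he.1, fun h => he.2 (h6 h)⟩)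
      · push Not at hex
        refine ⟨y, fun D hD v hv hv1 x hx => ?_⟩
        by_contra hxv
        have h5 := hex D hD v hv hv1
        rw [Set.eq_empty_iff_forall_notMem] at h5
        exact h5 x ⟨hx.1, hxv⟩
    obtain ⟨e₀, he₀⟩ := h2 y₀
    obtain ⟨e₁, he₁⟩ := h2 y₁
    set 𝒟 : Set (Set V) := {D | D ∈ PP ∧ (∀ v ∈ D, (Ms G Q y₀ \ Ms G Q v).ncard ≤ 1) ∧
      ¬ ∀ v ∈ D, (Ms G Q y₁ \ Ms G Q v).ncard ≤ 1} with h𝒟
    set X : Set V := W' ∪ ⋃₀ 𝒟 with hX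
    have h𝒟0 : ∀ v ∈ ⋃₀ 𝒟, Ms G Q y₀ \ {e₀} ⊆ Ms G Q v := by
      rintro v ⟨D, hD, hv⟩
      exact he₀ D hD.1 v hv (hD.2.1 v hv)
    have h𝒟1 : ∀ v ∈ ⋃₀ 𝒟, Ms G Q v ⊆ Ms G Q y₁ := by
      rintro v ⟨D, hD, hv⟩
      rcases hH₁ D hD.1 with h5 | h5
      · exact h5 v hv
      · exact absurd h5 hD.2.2
    have h𝒟Q : ∀ v ∈ ⋃₀ 𝒟, v ∉ Q := by
      rintro v ⟨D, hD, hv⟩
      exact hDQ D hD.1 v hv
    -- (3)
    have hr1 : rk G (W' \ {e₁}) Xᶜ ≤ 1 := by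
      refine hA1t (W' \ {e₁}) Xᶜ {b | b ∈ Q ∨ (∀ D ∈ PP, b ∉ D) ∨ Ms G Q b ⊆ Ms G Q y₀} ?_
      intro a ha
      left
      intro b hb
      have haQ : a ∈ Q := hWQ ha.1.1
      constructor
      · intro hab
        by_cases hbQ : b ∈ Q
        · exact Or.inl hbQ
        by_cases hbD : ∀ D ∈ PP, b ∉ D
        · exact Or.inr (Or.inl hbD)
        right; right
        push Not at hbD
        obtain ⟨D, hD, hbD⟩ := hbD
        by_cases hD1 : ∀ v ∈ D, (Ms G Q y₁ \ Ms G Q v).ncard ≤ 1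
        · exfalso
          exact (he₁ D hD b hbD (hD1 b hbD) ⟨ha.1.1.1.1, ha.2⟩).2 hab.symm
        · have hD0 : ¬ ∀ v ∈ D, (Ms G Q y₀ \ Ms G Q v).ncard ≤ 1 := by
            intro h5
            exact hb (Or.inr ⟨D, ⟨hD, h5, hD1⟩, hbD⟩)
          rcases hH₀ D hD with h5 | h5
          · exact h5 b hbD
          · exact absurd h5 hD0
      · rintro (hbQ | hbD | hbM)
        · apply hQc a haQ b hbQ
          intro h5
          exact hb (Or.inl (h5 ▸ ha.1))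
        · by_cases hbQ : b ∈ Q
          · apply hQc a haQ b hbQ
            intro h5
            exact hb (Or.inl (h5 ▸ ha.1))
          · exact (h1 b hbQ hbD a ha.1).symm
        · by_contra hab
          have h5 : a ∈ Ms G Q b := ⟨haQ, fun h => hab h.symm⟩
          exact ha.1.1.1.2 (hbM h5)
    have hr2 : rk G {e₁} Xᶜ ≤ 1 := (hA1c {e₁} Xᶜ).trans (by rw [Set.ncard_singleton])
    -- (4)
    have hVM : ∀ v ∈ ⋃₀ 𝒟, ∀ T ∈ 𝒱, ∀ b ∈ T, b ∈ Ms G Q v → T ⊆ Ms G Q v := by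
      intro v hv T hT b hbT hbv
      obtain ⟨⟨hTne, hTW, g, hg, hgD, hgT⟩, -⟩ := hT
      have h5 := hLam v (hQZ v (h𝒟Q v hv)) g (hQZ g hg)
      rw [hMsZ, hMsZ, ← hgT] at h5
      rcases h5 with h5 | h5 | h5
      · exfalso
        obtain ⟨j, hja, hjb, hjc⟩ := pick s (3 * (m + 4)) (3 * (m + 4) + 11)
          (hinj _ _ (by omega) (by omega)) (insert e₀ Z)
          (by have := Set.ncard_insert_le e₀ Z; omega)
        have h6 : s j ∈ Ms G Q y₀ := (hsM y₀ hy₀S j (by omega) (by omega)).mpr (by omega)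
        have h7 : s j ∈ Ms G Q v := h𝒟0 v hv ⟨h6, fun h => hjc (Or.inl h)⟩
        exact (hTW (h5 ⟨h7, fun h => hjc (Or.inr h)⟩)).1.2 h6
      · exact fun x hx => (h5 hx).1
      · exact absurd hbT (Set.disjoint_left.mp h5 ⟨hbv, (hTW hbT).2⟩)
    have hr3 : rk G (⋃₀ 𝒟) Xᶜ ≤ 14 := by
      have h5 : ((fun v => (Q \ W') \ Ms G Q v) '' ⋃₀ 𝒟).ncard ≤ 14 := by
        refine few_values _ _ (fun v => (({e₀} ∩ Ms G Q v).ncard +
          {T | T ∈ 𝒱 ∧ T ⊆ Ms G Q v}.ncard) + (Z ∩ Ms G Q v).ncard) 14 ?_ ?_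
        · intro v _
          have ha : ({e₀} ∩ Ms G Q v).ncard ≤ 1 := by
            refine (Set.ncard_le_ncard Set.inter_subset_left (Set.toFinite _)).trans ?_
            rw [Set.ncard_singleton]
          have hb : {T | T ∈ 𝒱 ∧ T ⊆ Ms G Q v}.ncard ≤ 3 :=
            (Set.ncard_le_ncard (fun T hT => hT.1) (Set.toFinite _)).trans h3
          have hc : (Z ∩ Ms G Q v).ncard ≤ 9 :=
            (Set.ncard_le_ncard Set.inter_subset_left (Set.toFinite _)).trans hZ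
          show (({e₀} ∩ Ms G Q v).ncard +
            {T | T ∈ 𝒱 ∧ T ⊆ Ms G Q v}.ncard) + (Z ∩ Ms G Q v).ncard < 14
          omega
        · have key : ∀ v ∈ ⋃₀ 𝒟, ∀ v' ∈ ⋃₀ 𝒟, Ms G Q v ⊆ Ms G Q v' →
              (({e₀} ∩ Ms G Q v).ncard + {T | T ∈ 𝒱 ∧ T ⊆ Ms G Q v}.ncard) +
                (Z ∩ Ms G Q v).ncard =
              (({e₀} ∩ Ms G Q v').ncard + {T | T ∈ 𝒱 ∧ T ⊆ Ms G Q v'}.ncard) +
                (Z ∩ Ms G Q v').ncard → (Q \ W') \ Ms G Q v = (Q \ W') \ Ms G Q v' := by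
            intro v hv v' hv' hsub heq
            have a1 : {e₀} ∩ Ms G Q v ⊆ {e₀} ∩ Ms G Q v' := fun x hx => ⟨hx.1, hsub hx.2⟩
            have a2 : {T | T ∈ 𝒱 ∧ T ⊆ Ms G Q v} ⊆ {T | T ∈ 𝒱 ∧ T ⊆ Ms G Q v'} :=
              fun T hT => ⟨hT.1, hT.2.trans hsub⟩
            have a3 : Z ∩ Ms G Q v ⊆ Z ∩ Ms G Q v' := fun x hx => ⟨hx.1, hsub hx.2⟩
            have b1 := Set.ncard_le_ncard a1 (Set.toFinite _)
            have b2 := Set.ncard_le_ncard a2 (Set.toFinite _)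
            have b3 := Set.ncard_le_ncard a3 (Set.toFinite _)
            have c1 := Set.eq_of_subset_of_ncard_le a1 (by omega) (Set.toFinite _)
            have c2 := Set.eq_of_subset_of_ncard_le a2 (by omega) (Set.toFinite _)
            have c3 := Set.eq_of_subset_of_ncard_le a3 (by omega) (Set.toFinite _)
            have d : ∀ b ∈ Ms G Q v', b ∉ W' → b ∈ Ms G Q v := by
              intro b hb hbW
              by_cases hbZ : b ∈ Z
              · have : b ∈ Z ∩ Ms G Q v' := ⟨hbZ, hb⟩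
                rw [← c3] at this
                exact this.2
              by_cases hb0 : b ∈ Ms G Q y₀
              · by_cases hbe : b = e₀
                · have : b ∈ {e₀} ∩ Ms G Q v' := ⟨hbe, hb⟩
                  rw [← c1] at this
                  exact this.2
                · exact h𝒟0 v hv ⟨hb0, hbe⟩
              · have hbW1 : b ∈ W := ⟨⟨h𝒟1 v' hv' hb, hb0⟩, hbZ⟩
                have hbT : b ∈ ⋃₀ 𝒱 := by
                  by_contra h6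
                  exact hbW ⟨hbW1, h6⟩
                obtain ⟨T, hT, hbT⟩ := hbT
                have : T ∈ {T | T ∈ 𝒱 ∧ T ⊆ Ms G Q v'} := ⟨hT, hVM v' hv' T hT b hbT hb⟩
                rw [← c2] at this
                exact this.2 hbT
            ext b
            constructor
            · rintro ⟨hb1, hb2⟩
              exact ⟨hb1, fun h => hb2 (d b h hb1.2)⟩
            · rintro ⟨hb1, hb2⟩
              exact ⟨hb1, fun h => hb2 (hsub h)⟩
          intro v hv v' hv' heq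
          obtain ⟨D, hD, hvD⟩ := id hv
          obtain ⟨D', hD', hvD'⟩ := id hv'
          rcases hChain D hD.1 D' hD'.1 v hvD v' hvD' with h6 | h6
          · exact key v hv v' hv' h6 heq
          · exact (key v' hv' v hv h6 heq.symm).symm
      refine (hA1f (⋃₀ 𝒟) Xᶜ _ ?_).trans h5
      intro v hv
      left
      refine ⟨v, hv, ?_⟩
      obtain ⟨D, hD, hvD⟩ := hv
      ext b
      constructor
      · rintro ⟨⟨hbQ, hbW⟩, hbM⟩
        refine ⟨fun h6 => ?_, ?_⟩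
        · rcases h6 with h6 | ⟨D', hD', hb⟩
          · exact hbW h6
          · exact hDQ D' hD'.1 b hb hbQ
        · by_contra h6
          exact hbM ⟨hbQ, h6⟩
      · rintro ⟨hbX, hbv⟩
        have hbQ : b ∈ Q := by
          by_contra h6
          have h7 := (hComp D hD.1).2.2 b h6
          by_cases h8 : b ∈ D
          · exact hbX (Or.inr ⟨D, hD, h8⟩)
          · exact h7 ⟨h8, v, hvD, hbv⟩
        exact ⟨⟨hbQ, fun h6 => hbX (Or.inl h6)⟩, fun h6 => h6.2 hbv⟩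
    -- (5)
    have hcr : cr G X ≤ 16 := by
      have h5 : rk G X Xᶜ ≤ rk G W' Xᶜ + rk G (⋃₀ 𝒟) Xᶜ := hA1u W' (⋃₀ 𝒟) Xᶜ
      have h6 : rk G W' Xᶜ ≤ rk G (W' \ {e₁} ∪ {e₁}) Xᶜ := by
        apply hA1m _ _ _ _ _ le_rfl
        intro x hx
        by_cases h7 : x = e₁
        · exact Or.inr h7
        · exact Or.inl ⟨hx, h7⟩
      have h7 := hA1u (W' \ {e₁}) {e₁} Xᶜ
      show rk G X Xᶜ ≤ 16
      omega
    have hSX : m < (S ∩ X).ncard := by
      have h5 := count s (l y₀ + 1) (l y₁ + 1) (hinj _ _ (by omega) (by omega)) Z (S ∩ X) (by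
        intro j hja hjb hjz
        refine ⟨hs1 j (by omega) (by omega), Or.inl ⟨⟨⟨?_, ?_⟩, hjz⟩, ?_⟩⟩
        · exact (hsM y₁ hy₁S j (by omega) (by omega)).mpr (by omega)
        · intro h6
          have := (hsM y₀ hy₀S j (by omega) (by omega)).mp h6
          omega
        · rintro ⟨T, hT, hjT⟩
          obtain ⟨⟨-, -, g, hg, hgD, hgT⟩, -⟩ := hT
          rw [hgT] at hjT
          exact hgs g hg hgD j (by omega) (by omega) hjT.1)
      omega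
    have hSX' : m < (S \ X).ncard := by
      have h5 := count s 1 (l y₀ + 1) (hinj _ _ (by omega) (by omega)) ∅ (S \ X) (by
        intro j hja hjb _
        refine ⟨hs1 j (by omega) (by omega), ?_⟩
        rintro (h6 | ⟨D, hD, hjD⟩)
        · have h7 : s j ∈ Q := hWQ h6.1
          apply h6.1.1.2
          refine ⟨h7, fun h8 => ?_⟩
          have := ((hs4 y₀ hy₀S).2 j (by omega) (by omega)).mp h8
          omega
        · exact hDS D hD.1 (s j) hjD (hs1 j (by omega) (by omega)))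
      rw [Set.ncard_empty] at h5
      omega
    rcases hUnb X hcr with h5 | h5 <;> omega

end Pool.Agent.MPd439b2.LK
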