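import Pool.Agent.Lib.MP_d439b2_co.L4.Spec3

/-!
# MP_d439b2_co, column `C_4`: C13, cliques with chain traces
-/

set_option autoImplicit false

namespace Pool.Agent.MPd439b2.LK

open Pool.Agent.MPd439b2

/-- counting the elements `s j` with `a ≤ j ≤ b` -/
theorem c13_count {V : Type} [Finite V] {s : ℕ → V} {n a b : ℕ} {T Z : Set V} (ha : 1 ≤ a)
    (hb : b ≤ n) (hs : ∀ i j, 1 ≤ i → i ≤ n → 1 ≤ j → j ≤ n → s i = s j → i = j)
    (hZ : Z.ncard ≤ 9) (h : ∀ j, a ≤ j → j ≤ b → s j ∉ Z → s j ∈ T) :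
    b + 1 - a ≤ T.ncard + 9 := by
  have h1 : (s '' (Set.Icc a b)).ncard = b + 1 - a := by
    rw [Set.InjOn.ncard_image]
    · rw [← Finset.coe_Icc, Set.ncard_coe_finset, Nat.card_Icc]
    · intro i hi j hj hij
      exact hs i j (ha.trans hi.1) (hi.2.trans hb) (ha.trans hj.1) (hj.2.trans hb) hij
  have h2 : s '' (Set.Icc a b) ⊆ T ∪ Z := by
    rintro x ⟨j, hj, rfl⟩
    by_cases hjZ : s j ∈ Z
    · exact Or.inr hjZ
    · exact Or.inl (h j hj.1 hj.2 hjZ)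
  have h3 := Set.ncard_le_ncard h2 (Set.toFinite _)
  have h4 := Set.ncard_union_le T Z
  omega

theorem c13 (h1 : S_B8) (h2 : S_C4) (h3 : S_C10) (h4 : S_C12) (h5 : S_T7) : S_C13 := by
  intro V _ G S m hcls hS hch hn hunb
  have hne : S.Nonempty := by
    rw [← Set.ncard_pos (Set.toFinite S)]
    omega
  obtain ⟨s, l, hlev⟩ := h2 V G S hS hne hch
  set n := S.ncard with hndef
  have hfr : Fr7 G S n m s l := ⟨hcls, hS, hlev, hunb, hn⟩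
  obtain ⟨hQ, hcomp, -, -, htop⟩ := h3 V G S n m s l hfr
  obtain ⟨Z, hZ, hlam⟩ := h1 V G (QQ G S n s l (m + 4) (m + 4)) hcls hQ
  obtain ⟨D₀, y₀, hy₀, hl₀, hl₀'⟩ := htop (3 * (m + 4) + 10) (by omega) (by omega)
  obtain ⟨D₁, y₁, hy₁, hl₁, hl₁'⟩ := htop (7 * (m + 4) + 20) (by omega) (by omega)
  obtain ⟨D₂, y₂, hy₂, hl₂, hl₂'⟩ := htop (11 * (m + 4) + 30) (by omega) (by omega)
  obtain ⟨k, hk, hkd⟩ := h4 V G S Z n m s l D₀ D₁ y₀ y₁ hfr hy₀ hy₁ hZ hlam (by omega) (by omega)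
  obtain ⟨g, hg, hgd⟩ := h4 V G S Z n m s l D₁ D₂ y₁ y₂ hfr hy₁ hy₂ hZ hlam (by omega) (by omega)
  set Q := QQ G S n s l (m + 4) (m + 4) with hQdef
  have hyQ : y₁ ∉ Q := (hcomp D₁ hy₁.1).1 hy₁.2.1
  have hyS : y₁ ∉ S := ((hy₁.1.1).1 hy₁.2.1).1
  have hyS2 : y₂ ∉ S := ((hy₂.1.1).1 hy₂.2.1).1
  have hsub : ∀ v, v ∉ Q → v ∉ Q \ Z := fun v hv h' => hv h'.1
  have hT : TSet G (Q \ Z) (Ms G (Q \ Z) y₁) k g := by
    refine ⟨hcls, fun u hu v hv huv => hQ u hu.1 v hv.1 huv, hlam, fun x hx => hx.1, ?_, ?_, ?_,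
      hkd, hgd⟩
    · intro v hv
      rcases hlam v hv y₁ (hsub y₁ hyQ) with h | h | h
      · exact Or.inl h
      · exact Or.inr (Or.inr h)
      · exact Or.inr (Or.inl fun x hx => ⟨hx.1, fun hx' => Set.disjoint_left.1 h hx hx'⟩)
    · intro i
      refine ⟨hsub _ (hk i).1, (hk i).2.1, fun x hx => ⟨hx.1, ?_⟩⟩
      exact ((hk i).2.2 hx).1.2
    · intro i
      refine ⟨hsub _ (hg i).1, (hg i).2.1, fun x hx => ⟨hx.1, fun hx' => ?_⟩⟩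
      exact ((hg i).2.2 hx).2 ⟨hx.1.1, hx'.2⟩
  obtain ⟨X, hX, hcr⟩ := h5 V G (Q \ Z) (Ms G (Q \ Z) y₁) k g hT
  obtain ⟨hv1, hinj, -, hlv⟩ := hlev
  have hln := (hlv y₁ hyS).1
  have hln2 := (hlv y₂ hyS2).1
  have hsQ : ∀ j, m + 4 ≤ j → j ≤ n → s j ∈ Q := fun j hj hj' => Or.inl ⟨j, hj, hj', rfl⟩
  have c1 : l y₁ + 1 - (m + 4) ≤ (S ∩ X).ncard + 9 := by
    refine c13_count (by omega) hln hinj hZ fun j hj hj' hjZ => ⟨hv1 j (by omega) (by omega), ?_⟩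
    have h6 : s j ∈ Ms G (Q \ Z) y₁ := by
      refine ⟨⟨hsQ j hj (by omega), hjZ⟩, fun hadj => ?_⟩
      have := ((hlv y₁ hyS).2 j (by omega) (by omega)).1 hadj
      omega
    rw [← hX] at h6
    exact h6.1
  have c2 : n + 1 - (l y₁ + 1) ≤ (S \ X).ncard + 9 := by
    refine c13_count (by omega) le_rfl hinj hZ fun j hj hj' hjZ =>
      ⟨hv1 j (by omega) (by omega), fun hjX => ?_⟩
    have h6 : s j ∈ Ms G (Q \ Z) y₁ := by
      rw [← hX]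
      exact ⟨hjX, hsQ j (by omega) (by omega), hjZ⟩
    exact h6.2 (((hlv y₁ hyS).2 j (by omega) (by omega)).2 (by omega))
  rcases hunb X (hcr.trans (by norm_num)) with h6 | h6
  · omega
  · omega

end Pool.Agent.MPd439b2.LK
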