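import Pool.Agent.Lib.MP_d439b2_co.L4.Spec3

set_option autoImplicit false

namespace Pool.Agent.MPd439b2.LK

open Pool.Agent.MPd439b2

theorem c14 (h1 : S_C3) (h2 : S_C13) : S_C14 := by
  intro m
  obtain ⟨n₁, hn⟩ := h1 m (20 * m + 200)
  refine ⟨n₁, ?_⟩
  intro V _ G S hG hS hcard hU
  obtain ⟨S', hS', hc', hch⟩ := hn V G S hG hS hcard hU
  refine h2 V G S' m hG ?_ hch hc' ?_
  · intro a ha b hb hab
    exact hS a (hS' ha) b (hS' hb) hab
  · intro X hX
    rcases hU X hX with h | h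
    · exact Or.inl ((Set.ncard_le_ncard (Set.inter_subset_inter_left X hS') (Set.toFinite _)).trans h)
    · exact Or.inr ((Set.ncard_le_ncard (Set.sdiff_subset_sdiff_left hS') (Set.toFinite _)).trans h)

end Pool.Agent.MPd439b2.LK
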