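import Pool.Agent.Lib.MP_d439b2_co.L4.Spec3

/-!
# MP_d439b2_co, L4, C2: a balanced block
-/

set_option autoImplicit false

namespace Pool.Agent.MPd439b2.LK

open Pool.Agent.MPd439b2

private theorem c2_min {α : Type} (P : α → Prop) (f : α → ℕ) (h : ∃ x, P x) :
    ∃ x, P x ∧ ∀ y, P y → f x ≤ f y := by
  classical
  have h' : ∃ n, ∃ x, P x ∧ f x = n := by
    obtain ⟨x, hx⟩ := h
    exact ⟨_, x, hx, rfl⟩
  obtain ⟨x, hx, hfx⟩ := Nat.find_spec h'
  exact ⟨x, hx, fun y hy => by rw [hfx]; exact Nat.find_min' h' ⟨y, hy, rfl⟩⟩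

private theorem c2_pre {V : Type} [Finite V] (S : Set V) (F : Set (Set V)) (m m' : ℕ)
    (hFS : ∀ A ∈ F, A ⊆ S) (hSF : S ∈ F)
    (hlam : ∀ A ∈ F, ∀ B ∈ F, A ⊆ B ∨ B ⊆ A ∨ Disjoint A B) (hmm : m ≤ m')
    (hcard : 4 * m' + 2 ≤ S.ncard)
    (hR : ∀ M ∈ F, ∀ R ⊆ M, (∀ A ∈ F, A ⊆ M → A ≠ M → Disjoint A R) → R.ncard ≤ m) :
    ∃ N ⊆ S, m' < N.ncard ∧ m' < (S \ N).ncard ∧
      ∀ A ∈ F, A ⊆ N ∨ A ⊆ S \ N ∨ N ⊆ A := by
  have hfin : ∀ A : Set V, A.Finite := fun A => Set.toFinite A
  obtain ⟨M, ⟨hMF, hMc⟩, hMmin⟩ := c2_min (fun A : Set V => A ∈ F ∧ S.ncard ≤ A.ncard + m')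
    Set.ncard ⟨S, hSF, by omega⟩
  by_cases hcase : ∃ A ∈ F, A ⊆ M ∧ A ≠ M ∧ m' < A.ncard
  · obtain ⟨A, hAF, hAM, hne, hAc⟩ := hcase
    refine ⟨A, hFS A hAF, hAc, ?_, ?_⟩
    · have h1 : A.ncard < M.ncard := Set.ncard_lt_ncard (hAM.ssubset_of_ne hne) (hfin M)
      have h2 : ¬ S.ncard ≤ A.ncard + m' := fun h => by
        have := hMmin A ⟨hAF, h⟩
        omega
      have h3 := Set.ncard_sdiff_add_ncard_of_subset (hFS A hAF) (hfin S)
      omega
    · intro B hB
      rcases hlam B hB A hAF with h | h | h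
      · exact Or.inl h
      · exact Or.inr (Or.inr h)
      · exact Or.inr (Or.inl fun x hx => ⟨hFS B hB hx, fun hxA => Set.disjoint_left.1 h hx hxA⟩)
  · push Not at hcase
    obtain ⟨U, hU⟩ : ∃ U : Set V, U = {x | ∃ A ∈ F, A ⊆ M ∧ A ≠ M ∧ x ∈ A} := ⟨_, rfl⟩
    have hUM : U ⊆ M := by
      rw [hU]
      rintro x ⟨A, -, hAM, -, hx⟩
      exact hAM hx
    have hRc : (M \ U).ncard ≤ m := by
      apply hR M hMF _ Set.sdiff_subset
      intro A hAF hAM hne
      rw [Set.disjoint_left]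
      intro x hx hx'
      apply hx'.2
      rw [hU]
      exact ⟨A, hAF, hAM, hne, hx⟩
    have hUc := Set.ncard_sdiff_add_ncard_of_subset hUM (hfin M)
    obtain ⟨N, ⟨hNU, hNb, hNc⟩, hNmin⟩ := c2_min (fun N : Set V => N ⊆ U ∧
      (∀ A ∈ F, A ⊆ M → A ≠ M → A ⊆ N ∨ Disjoint A N) ∧ m' < N.ncard) Set.ncard
      ⟨U, subset_rfl, fun A hAF hAM hne => Or.inl (by
        rw [hU]
        exact fun x hx => ⟨A, hAF, hAM, hne, hx⟩), by omega⟩
    have hNS : N ⊆ S := hNU.trans (hUM.trans (hFS M hMF))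
    have hNle : N.ncard ≤ 2 * m' := by
      obtain ⟨x, hx⟩ : N.Nonempty := by
        rw [← Set.ncard_pos (hfin N)]
        omega
      have hxU : x ∈ U := hNU hx
      rw [hU] at hxU
      obtain ⟨A, ⟨hAF, hAM, hne, hxA⟩, hAmax⟩ := c2_min (fun A : Set V => A ∈ F ∧ A ⊆ M ∧ A ≠ M ∧
        x ∈ A) (fun A => S.ncard - A.ncard) hxU
      have hAN : A ⊆ N := by
        rcases hNb A hAF hAM hne with h | h
        · exact h
        · exact absurd hx (Set.disjoint_left.1 h hxA)
      have hNA : (N \ A).ncard ≤ m' := by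
        by_contra hgt
        rw [not_le] at hgt
        have h1 := hNmin (N \ A) ⟨Set.sdiff_subset.trans hNU, fun B hBF hBM hBne => ?_, hgt⟩
        · have h2 : (N \ A).ncard < N.ncard := Set.ncard_lt_ncard
            ⟨Set.sdiff_subset, fun h => (h hx).2 hxA⟩ (hfin N)
          omega
        · rcases hlam B hBF A hAF with h | h | h
          · exact Or.inr (Set.disjoint_left.2 fun y hy hy' => hy'.2 (h hy))
          · have h2 := hAmax B ⟨hBF, hBM, hBne, h hxA⟩
            have h3 := Set.ncard_le_ncard (hFS B hBF) (hfin S)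
            have h4 := Set.ncard_le_ncard (hFS A hAF) (hfin S)
            have h5 : B.ncard ≤ A.ncard := by omega
            have h6 : A = B := Set.eq_of_subset_of_ncard_le h h5 (hfin B)
            rw [← h6]
            exact Or.inr (Set.disjoint_left.2 fun y hy hy' => hy'.2 hy)
          · rcases hNb B hBF hBM hBne with h2 | h2
            · exact Or.inl fun y hy => ⟨h2 hy, fun hyA => Set.disjoint_left.1 h hy hyA⟩
            · exact Or.inr (Set.disjoint_left.2 fun y hy hy' => Set.disjoint_left.1 h2 hy hy'.1)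
      have h1 := Set.ncard_sdiff_add_ncard_of_subset hAN (hfin N)
      have h2 := hcase A hAF hAM hne
      omega
    refine ⟨N, hNS, hNc, ?_, ?_⟩
    · have h3 := Set.ncard_sdiff_add_ncard_of_subset hNS (hfin S)
      omega
    · intro B hB
      rcases hlam B hB M hMF with h | h | h
      · by_cases hBM : B = M
        · exact Or.inr (Or.inr (by rw [hBM]; exact hNU.trans hUM))
        · rcases hNb B hB h hBM with h2 | h2
          · exact Or.inl h2
          · exact Or.inr (Or.inl fun x hx => ⟨hFS B hB hx, Set.disjoint_left.1 h2 hx⟩)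
      · exact Or.inr (Or.inr ((hNU.trans hUM).trans h))
      · exact Or.inr (Or.inl fun x hx => ⟨hFS B hB hx, fun hxN =>
          Set.disjoint_left.1 h hx (hUM (hNU hxN))⟩)

theorem c2 (h1 : S_A1) : S_C2 := by
  intro V _ G S m m' hS hLam hUnb hmm hcard
  have hMsS : ∀ v, Ms G S v ⊆ S := fun v x hx => hx.1
  obtain ⟨N, hNS, hN1, hN2, hN⟩ := c2_pre S {A | A = S ∨ ∃ v, v ∉ S ∧ A = Ms G S v} m m'
    (by
      rintro A (rfl | ⟨v, -, rfl⟩)
      · exact subset_rfl
      · exact hMsS v) (Or.inl rfl) (by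
      rintro A (rfl | ⟨u, hu, rfl⟩) B (rfl | ⟨v, hv, rfl⟩)
      · exact Or.inl subset_rfl
      · exact Or.inr (Or.inl (hMsS v))
      · exact Or.inl (hMsS u)
      · exact hLam u hu v hv) hmm hcard (by
      intro M hM R hRM hR
      have hMS : M ⊆ S := by
        rcases hM with rfl | ⟨v, -, rfl⟩
        · exact subset_rfl
        · exact hMsS v
      -- vertices outside S see all or nothing of R
      have hall : ∀ v, v ∉ S → (∀ r ∈ R, G.Adj v r) ∨ ∀ r ∈ R, ¬ G.Adj v r := by
        intro v hv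
        have hlam : Ms G S v ⊆ M ∨ M ⊆ Ms G S v ∨ Disjoint (Ms G S v) M := by
          rcases hM with rfl | ⟨u, hu, rfl⟩
          · exact Or.inl (hMsS v)
          · exact hLam v hv u hu
        have hnone : M ⊆ Ms G S v → (∀ r ∈ R, G.Adj v r) ∨ ∀ r ∈ R, ¬ G.Adj v r :=
          fun h => Or.inr fun r hr => (h (hRM hr)).2
        have hdis : Disjoint (Ms G S v) R → (∀ r ∈ R, G.Adj v r) ∨ ∀ r ∈ R, ¬ G.Adj v r := by
          intro h
          refine Or.inl fun r hr => ?_
          by_contra hno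
          exact Set.disjoint_left.1 h ⟨hMS (hRM hr), hno⟩ hr
        rcases hlam with h | h | h
        · by_cases he : Ms G S v = M
          · exact hnone he.symm.subset
          · exact hdis (hR _ (Or.inr ⟨v, hv, rfl⟩) h he)
        · exact hnone h
        · exact hdis (h.mono_right hRM)
      by_contra hgt
      rw [not_le] at hgt
      obtain ⟨R', hR'R, hR'c⟩ := Set.exists_subset_card_eq (s := R) (n := m + 1) hgt
      have hR'S : R' ⊆ S := hR'R.trans (hRM.trans hMS)
      have hcr : cr G R' ≤ 1 := by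
        refine (h1 V G).2.2.2.2.1 R' R'ᶜ {b | b ∈ S ∨ ∃ r ∈ R', G.Adj r b} fun a ha =>
          Or.inl fun b hb => ?_
        by_cases hbS : b ∈ S
        · have hab : a ≠ b := by
            rintro rfl
            exact hb ha
          exact iff_of_true (hS a (hR'S ha) b hbS hab) (Or.inl hbS)
        · constructor
          · exact fun h => Or.inr ⟨a, ha, h⟩
          · rintro (h | ⟨r, hr, h⟩)
            · exact absurd h hbS
            · rcases hall b hbS with h2 | h2
              · exact (h2 a (hR'R ha)).symm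
              · exact absurd h.symm (h2 r (hR'R hr))
      rcases hUnb R' (hcr.trans (by norm_num)) with h | h
      · rw [Set.inter_eq_right.2 hR'S] at h
        omega
      · have h3 := Set.ncard_sdiff_add_ncard_of_subset hR'S (Set.toFinite S)
        omega)
  exact ⟨N, hNS, hN1, hN2, fun v hv => hN _ (Or.inr ⟨v, hv, rfl⟩)⟩

end Pool.Agent.MPd439b2.LK
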