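import Pool.Agent.Lib.MP_d439b2_co.L4.Spec3

/-!
# MP_d439b2_co, column `C_4`, C3: from cliques to cliques with chain traces
-/

set_option autoImplicit false

namespace Pool.Agent.MPd439b2.LK

open Pool.Agent.MPd439b2

namespace C3Aux

variable {V : Type} {G : SimpleGraph V} {S N W W' : Set V}

/-- four vertices with disjoint nonempty traces inside `W` -/
def Four (G : SimpleGraph V) (S W : Set V) : Prop :=
  ∃ g : Fin 4 → V, (∀ i, g i ∉ S ∧ (Ms G S (g i)).Nonempty ∧ Ms G S (g i) ⊆ W) ∧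
    ∀ i j, i ≠ j → Disjoint (Ms G S (g i)) (Ms G S (g j))

theorem mem_Ms {v c : V} : c ∈ Ms G S v ↔ c ∈ S ∧ ¬ G.Adj v c := Iff.rfl

/-- no five disjoint nonempty members -/
theorem noFive (hfour : ¬ Four G S W)
    (hst : ∀ v, v ∉ S → ∀ v', v' ∉ S → (Ms G S v ∩ W).Nonempty → ¬ Ms G S v ⊆ W →
      (Ms G S v' ∩ W).Nonempty → ¬ Ms G S v' ⊆ W → ¬ Disjoint (Ms G S v ∩ W) (Ms G S v' ∩ W)) :
    ¬ ∃ g : Fin (4 + 1) → Set V, (∀ i, g i ∈ {A | ∃ v, v ∉ S ∧ A = Ms G S v ∩ W} ∧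
      (g i).Nonempty) ∧ ∀ i j, i ≠ j → Disjoint (g i) (g j) := by
  rintro ⟨g, hg, hd⟩
  choose hg1 hg2 using hg
  choose v hv hgv using hg1
  have key : ∃ i₀ : Fin 5, ∀ j, j ≠ i₀ → Ms G S (v j) ⊆ W := by
    by_contra hcon
    push Not at hcon
    obtain ⟨i, _, hi⟩ := hcon 0
    obtain ⟨j, hji, hj⟩ := hcon i
    refine hst (v j) (hv j) (v i) (hv i) ?_ hj ?_ hi ?_
    · rw [← hgv j]; exact hg2 j
    · rw [← hgv i]; exact hg2 i
    · rw [← hgv j, ← hgv i]; exact hd j i hji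
  obtain ⟨i₀, hi₀⟩ := key
  have h1 : ∀ j : Fin 4, Ms G S (v (i₀.succAbove j)) = g (i₀.succAbove j) := by
    intro j
    rw [hgv (i₀.succAbove j)]
    exact (Set.inter_eq_left.2 (hi₀ _ (Fin.succAbove_ne i₀ j))).symm
  apply hfour
  refine ⟨fun j => v (i₀.succAbove j), fun j => ⟨hv _, ?_, ?_⟩, fun i j hij => ?_⟩
  · rw [h1 j]; exact hg2 _
  · exact hi₀ _ (Fin.succAbove_ne i₀ j)
  · rw [h1 i, h1 j]
    apply hd
    intro h
    exact hij (Fin.succAbove_right_injective h)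

/-- the final step -/
theorem fin (h1 : S_C1) [Finite V] {n₂ : ℕ} (hS : CompleteOn G S) (hL : LamOn G S) (hW : W ⊆ S)
    (hn : 16 * n₂ < W.ncard) (hfour : ¬ Four G S W)
    (hst : ∀ v, v ∉ S → ∀ v', v' ∉ S → (Ms G S v ∩ W).Nonempty → ¬ Ms G S v ⊆ W →
      (Ms G S v' ∩ W).Nonempty → ¬ Ms G S v' ⊆ W → ¬ Disjoint (Ms G S v ∩ W) (Ms G S v' ∩ W)) :
    ∃ S' ⊆ S, n₂ ≤ S'.ncard ∧ ChainOn G S' := by
  obtain ⟨W', hW', hc, hch⟩ := h1 V 4 W {A | ∃ v, v ∉ S ∧ A = Ms G S v ∩ W}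
    (by rintro A ⟨v, _, rfl⟩; exact Set.inter_subset_right)
    (by
      rintro A ⟨v, hv, rfl⟩ B ⟨v', hv', rfl⟩
      rcases hL v hv v' hv' with h | h | h
      · exact Or.inl (Set.inter_subset_inter_left _ h)
      · exact Or.inr (Or.inl (Set.inter_subset_inter_left _ h))
      · exact Or.inr (Or.inr (h.mono Set.inter_subset_left Set.inter_subset_left)))
    (noFive hfour hst)
  refine ⟨W', hW'.trans hW, by omega, ?_⟩
  have h2 : ∀ u, u ∉ W' → Ms G W' u = ∅ ∨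
      ∃ A ∈ {A | ∃ v, v ∉ S ∧ A = Ms G S v ∩ W}, Ms G W' u = A ∩ W' := by
    intro u hu
    by_cases huS : u ∈ S
    · left
      apply Set.eq_empty_of_forall_notMem
      rintro c ⟨hc1, hc2⟩
      apply hc2
      apply hS u huS c (hW (hW' hc1))
      rintro rfl
      exact hu hc1
    · right
      refine ⟨Ms G S u ∩ W, ⟨u, huS, rfl⟩, ?_⟩
      ext c
      constructor
      · rintro ⟨hc1, hc2⟩
        exact ⟨⟨⟨hW (hW' hc1), hc2⟩, hW' hc1⟩, hc1⟩
      · rintro ⟨⟨⟨_, hc2⟩, _⟩, hc1⟩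
        exact ⟨hc1, hc2⟩
  intro u hu v hv
  rcases h2 u hu with h | ⟨A, hA, h⟩
  · left; rw [h]; exact Set.empty_subset _
  rcases h2 v hv with h' | ⟨B, hB, h'⟩
  · right; rw [h']; exact Set.empty_subset _
  rw [h, h']
  exact hch A hA B hB

end C3Aux

open C3Aux in
theorem c3 (hB8 : S_B8) (hC1 : S_C1) (hC2 : S_C2) (hT7 : S_T7) : S_C3 := by
  intro m n₂
  refine ⟨4 * max m (16 * n₂) + 11, ?_⟩
  intro V _ G S hG hS hn hU
  set m' := max m (16 * n₂) with hm'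
  have hmm' : m ≤ m' := le_max_left _ _
  have hnm' : 16 * n₂ ≤ m' := le_max_right _ _
  obtain ⟨Z, hZ, hL⟩ := hB8 V G S hG hS
  have hS₁ : CompleteOn G (S \ Z) := fun a ha b hb hab => hS a ha.1 b hb.1 hab
  have hU₁ : Unb G (S \ Z) m := by
    intro X hX
    rcases hU X hX with h | h
    · left
      exact (Set.ncard_le_ncard (Set.inter_subset_inter_left _ Set.sdiff_subset)
        (Set.toFinite _)).trans h
    · right
      exact (Set.ncard_le_ncard (Set.sdiff_subset_sdiff_left Set.sdiff_subset)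
        (Set.toFinite _)).trans h
  have hcard : 4 * m' + 2 ≤ (S \ Z).ncard := by
    have h1 : S.ncard ≤ (S \ Z).ncard + Z.ncard := by
      have h2 : S ⊆ (S \ Z) ∪ Z := by
        intro x hx
        by_cases hxZ : x ∈ Z
        · exact Or.inr hxZ
        · exact Or.inl ⟨hx, hxZ⟩
      exact (Set.ncard_le_ncard h2 (Set.toFinite _)).trans (Set.ncard_union_le _ _)
    omega
  set S₁ := S \ Z with hS₁def
  obtain ⟨N, hN, hN1, hN2, hbl⟩ := hC2 V G S₁ m m' hS₁ hL hU₁ hmm' hcard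
  have hNne : N.Nonempty := by
    apply Set.nonempty_of_ncard_ne_zero
    omega
  have hnot : ¬ (Four G S₁ N ∧ Four G S₁ (S₁ \ N)) := by
    rintro ⟨⟨k, hk1, hk2⟩, ⟨n, hn1, hn2⟩⟩
    obtain ⟨X, hX1, hX2⟩ := hT7 V G S₁ N k n ⟨hG, hS₁, hL, hN, hbl, hk1, hn1, hk2, hn2⟩
    rcases hU₁ X (hX2.trans (by norm_num)) with h | h
    · rw [Set.inter_comm, hX1] at h
      omega
    · have h3 : S₁ \ X = S₁ \ N := by
        rw [← hX1]
        ext x
        simp only [Set.mem_sdiff, Set.mem_inter_iff, not_and]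
        tauto
      rw [h3] at h
      omega
  have hres : ∃ S' ⊆ S₁, n₂ ≤ S'.ncard ∧ ChainOn G S' := by
    by_cases hf : Four G S₁ N
    · -- the side `S₁ \ N`
      apply fin hC1 hS₁ hL (W := S₁ \ N) Set.sdiff_subset (by omega) (fun h => hnot ⟨hf, h⟩)
      intro v hv v' hv' h1 h2 h3 h4
      have hNv : ∀ w, w ∉ S₁ → (Ms G S₁ w ∩ (S₁ \ N)).Nonempty → ¬ Ms G S₁ w ⊆ S₁ \ N →
          N ⊆ Ms G S₁ w := by
        intro w hw h5 h6
        rcases hbl w hw with h | h | h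
        · obtain ⟨x, hx1, hx2⟩ := h5
          exact absurd (h hx1) hx2.2
        · exact absurd h h6
        · exact h
      have h5 := hNv v hv h1 h2
      have h6 := hNv v' hv' h3 h4
      rcases hL v hv v' hv' with h | h | h
      · obtain ⟨x, hx1, hx2⟩ := h1
        exact Set.not_disjoint_iff.2 ⟨x, ⟨hx1, hx2⟩, ⟨h hx1, hx2⟩⟩
      · obtain ⟨x, hx1, hx2⟩ := h3
        exact Set.not_disjoint_iff.2 ⟨x, ⟨h hx1, hx2⟩, ⟨hx1, hx2⟩⟩
      · obtain ⟨x, hx⟩ := hNne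
        exact absurd h (Set.not_disjoint_iff.2 ⟨x, h5 hx, h6 hx⟩)
    · apply fin hC1 hS₁ hL (W := N) hN (by omega) hf
      intro v hv v' hv' h1 h2 h3 h4
      have hNv : ∀ w, w ∉ S₁ → (Ms G S₁ w ∩ N).Nonempty → ¬ Ms G S₁ w ⊆ N →
          N ⊆ Ms G S₁ w := by
        intro w hw h5 h6
        rcases hbl w hw with h | h | h
        · exact absurd h h6
        · obtain ⟨x, hx1, hx2⟩ := h5
          exact absurd hx2 (h hx1).2
        · exact h
      obtain ⟨x, hx⟩ := hNne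
      exact Set.not_disjoint_iff.2 ⟨x, ⟨hNv v hv h1 h2 hx, hx⟩, ⟨hNv v' hv' h3 h4 hx, hx⟩⟩
  obtain ⟨S', h1, h2, h3⟩ := hres
  exact ⟨S', h1.trans Set.sdiff_subset, h2, h3⟩

end Pool.Agent.MPd439b2.LK
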