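import Pool.Agent.Lib.MP_d439b2_co.L4.Spec3

/-!
# MP_d439b2_co, column `C_4`, row `K4:0,1`: there are vertices in every window of levels
-/

set_option autoImplicit false

namespace Pool.Agent.MPd439b2.LK

open Pool.Agent.MPd439b2

theorem c5 (h1 : S_A1) : S_C5 := by
  intro V _ G S n m s l hS hL hU hn a ha
  obtain ⟨L1, L2, L3, L4⟩ := hL
  by_contra hc
  push Not at hc
  have hc' : ∀ v, v ∉ S → l v ≤ a ∨ a + m + 1 ≤ l v := by
    intro v hv
    by_cases h : a < l v
    · exact Or.inr (hc v hv h)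
    · exact Or.inl (not_lt.1 h)
  set R : Set V := s '' (Set.Ioc a (a + m + 1)) with hR
  have hRS : R ⊆ S := by
    rintro _ ⟨i, ⟨hi1, hi2⟩, rfl⟩
    exact L1 i (by omega) (by omega)
  have hinj : Set.InjOn s (Set.Ioc a (a + m + 1)) := by
    rintro i ⟨hi1, hi2⟩ j ⟨hj1, hj2⟩ hij
    exact L2 i j (by omega) (by omega) (by omega) (by omega) hij
  have hRc : R.ncard = m + 1 := by
    rw [hR, hinj.ncard_image, ← Finset.coe_Ioc, Set.ncard_coe_finset, Nat.card_Ioc]
    omega
  have hSc : S.ncard = n := by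
    have h2 : S = s '' Set.Icc 1 n := by
      ext v
      constructor
      · intro hv
        obtain ⟨i, h3, h4, rfl⟩ := L3 v hv
        exact ⟨i, ⟨h3, h4⟩, rfl⟩
      · rintro ⟨i, ⟨h3, h4⟩, rfl⟩
        exact L1 i h3 h4
    have hinj2 : Set.InjOn s (Set.Icc 1 n) := by
      rintro i ⟨hi1, hi2⟩ j ⟨hj1, hj2⟩ hij
      exact L2 i j hi1 hi2 hj1 hj2 hij
    rw [h2, hinj2.ncard_image, ← Finset.coe_Icc, Set.ncard_coe_finset, Nat.card_Icc]
    omega
  have hcr : cr G R ≤ 1 := by
    refine (h1 V G).2.2.2.2.1 R Rᶜ {b | b ∈ S ∨ l b ≤ a} ?_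
    intro x hx
    left
    intro b hb
    have hb' : b ∉ R := hb
    by_cases hbS : b ∈ S
    · have hne : x ≠ b := by
        rintro rfl
        exact hb' hx
      exact ⟨fun _ => Or.inl hbS, fun _ => hS x (hRS hx) b hbS hne⟩
    · obtain ⟨i, ⟨hi1, hi2⟩, rfl⟩ := hx
      have h5 := (L4 b hbS).2 i (by omega) (by omega)
      rw [SimpleGraph.adj_comm, h5]
      constructor
      · intro h6
        rcases hc' b hbS with h7 | h7
        · exact Or.inr h7
        · omega
      · rintro (h6 | h6)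
        · exact absurd h6 hbS
        · omega
  have h8 := hU R (by omega)
  rw [Set.inter_eq_self_of_subset_right hRS, hRc, Set.ncard_sdiff hRS (Set.toFinite _), hRc,
    hSc] at h8
  omega

end Pool.Agent.MPd439b2.LK
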