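import Pool.Agent.Lib.MP_d439b2_co.L4.Spec3

/-!
# L4/C6: neighbourhoods in connected sets are connected
-/

set_option autoImplicit false

namespace Pool.Agent.MPd439b2.LK

open Pool.Agent.MPd439b2

theorem c6 (h0 : S_A0) : S_C6 := by
  intro V _ G C e hG hC he
  obtain ⟨heC, c₀, hc₀, hc₀e⟩ := he
  have hNne : ({c | c ∈ C ∧ G.Adj e c} : Set V).Nonempty := ⟨c₀, hc₀, hc₀e.symm⟩
  by_contra hnot
  obtain ⟨Y, hYN, hY, hYne, hYnb⟩ := exists_comp_of_not_conn hNne hnot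
  obtain ⟨z, hz, hzY⟩ : ∃ z ∈ ({c | c ∈ C ∧ G.Adj e c} : Set V), z ∉ Y := by
    by_contra h
    push Not at h
    exact hYne (Set.Subset.antisymm hYN h)
  obtain ⟨W, hWC, hzW, hW, hWnb⟩ := exists_comp G (A := C \ Y) (v := z) ⟨hz.1, hzY⟩
  obtain ⟨y₀, hy₀⟩ := hY.1
  have hWneC : W ≠ C := by
    intro h
    have h1 : y₀ ∈ W := by
      rw [h]
      exact (hYN hy₀).1
    exact (hWC h1).2 hy₀
  obtain ⟨p, hp, a, ha, hpa⟩ := hC.2 W (fun t ht => (hWC ht).1) ⟨z, hzW⟩ hWneC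
  have haY : a ∈ Y := by
    by_contra h
    exact hWnb a ⟨ha.1, h⟩ ⟨ha.2, p, hp, hpa⟩
  have hpN : p ∉ ({c | c ∈ C ∧ G.Adj e c} : Set V) := by
    intro h
    exact hYnb p h ⟨(hWC hp).2, a, haY, hpa.symm⟩
  obtain ⟨Z, hZW, hpZ, hZ, hZnb⟩ := exists_comp G (A := W \ {c | c ∈ C ∧ G.Adj e c}) (v := p)
    ⟨hp, hpN⟩
  have hZneW : Z ≠ W := by
    intro h
    have h1 : z ∈ Z := by
      rw [h]
      exact hzW
    exact (hZW h1).2 hz
  obtain ⟨b, hb, z', hz', hbz'⟩ := hW.2 Z (fun t ht => (hZW ht).1) ⟨p, hpZ⟩ hZneW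
  have hz'N : z' ∈ ({c | c ∈ C ∧ G.Adj e c} : Set V) := by
    by_contra h
    exact hZnb z' ⟨hz'.1, h⟩ ⟨hz'.2, b, hb, hbz'⟩
  have hz'Y : z' ∉ Y := (hWC hz'.1).2
  apply hG
  apply h0 V G {e} Y Z {z'} (Conn.singleton G e) hY hZ (Conn.singleton G z')
  · rw [Set.disjoint_singleton_left]
    exact fun h => heC (hYN h).1
  · rw [Set.disjoint_singleton_left]
    exact fun h => heC (hWC (hZW h).1).1
  · rw [Set.disjoint_singleton_left, Set.mem_singleton_iff]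
    rintro rfl
    exact heC hz'N.1
  · rw [Set.disjoint_left]
    exact fun t ht ht' => (hWC (hZW ht').1).2 ht
  · rw [Set.disjoint_singleton_right]
    exact hz'Y
  · rw [Set.disjoint_singleton_right]
    exact hz'.2
  · exact ⟨e, rfl, y₀, hy₀, (hYN hy₀).2⟩
  · exact ⟨a, haY, p, hpZ, hpa.symm⟩
  · exact ⟨b, hb, z', rfl, hbz'⟩
  · exact ⟨e, rfl, z', rfl, hz'N.2⟩
  · rintro ⟨e', he', t, ht, het⟩
    rw [Set.mem_singleton_iff] at he'
    subst he'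
    exact (hZW ht).2 ⟨(hWC (hZW ht).1).1, het⟩
  · rintro ⟨y, hy, t, ht, hyt⟩
    rw [Set.mem_singleton_iff] at ht
    subst ht
    exact hYnb t hz'N ⟨hz'Y, y, hy, hyt⟩

end Pool.Agent.MPd439b2.LK
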