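import Pool.Agent.Lib.MP_d439b2_co.L4.Spec3

/-!
# MP_d439b2_co, column `C_4`: C7, the range cut
-/

set_option autoImplicit false

namespace Pool.Agent.MPd439b2.LK

open Pool.Agent.MPd439b2

namespace C7Aux

/-- connected and independent: one vertex -/
theorem conn_indep {V : Type} {G : SimpleGraph V} {N : Set V} {x : V} (hN : Conn G N) (hx : x ∈ N)
    (h : ∀ g ∈ N, ∀ g' ∈ N, ¬ G.Adj g g') : ∀ c ∈ N, c = x := by
  intro c hc
  by_contra hne
  have h1 : ({x} : Set V) ≠ N := by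
    intro h2
    rw [← h2] at hc
    exact hne hc
  obtain ⟨b, hb, a, ha, hab⟩ := hN.2 {x} (Set.singleton_subset_iff.2 hx) ⟨x, rfl⟩ h1
  exact h b ((Set.mem_singleton_iff.1 hb) ▸ hx) a ha.1 hab

end C7Aux

open C7Aux in
/-- **C7.** The range cut. -/
theorem c7 (hA1 : S_A1) (hB1 : S_B1) (hB2 : S_B2) (hB3 : S_B3) (hC6 : S_C6) : S_C7 := by
  intro V _ G A C I x hCls hA hC hAC hIC hAI hnb hI hx hxA hch
  have hfin : ∀ S : Set V, S.Finite := fun S => Set.toFinite S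
  set R : Set V := {a | a ∈ A ∧ ∃ c ∈ C, ¬ G.Adj c a} with hR
  have hdAC := Set.disjoint_left.1 hAC
  have hdIC := Set.disjoint_left.1 hIC
  -- the largest trace
  obtain ⟨y, hy, hyR⟩ : ∃ y ∈ C, Ms G A y = R := by
    obtain ⟨y, hy, hmax⟩ := Set.exists_max_image C (fun c => (Ms G A c).ncard) (hfin C) ⟨x, hx⟩
    refine ⟨y, hy, ?_⟩
    have hsub : ∀ c ∈ C, Ms G A c ⊆ Ms G A y := by
      intro c hc
      rcases hch c hc y hy with h | h
      · exact h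
      · rw [Set.eq_of_subset_of_ncard_le h (hmax c hc) (hfin _)]
    apply Set.Subset.antisymm
    · exact fun a ha => ⟨ha.1, y, hy, ha.2⟩
    · rintro a ⟨ha, c, hc, hca⟩
      exact hsub c hc ⟨ha, hca⟩
  have hMx : Ms G A x = ∅ := by
    rw [Set.eq_empty_iff_forall_notMem]
    exact fun a ha => ha.2 (hxA a ha.1)
  have hvC : ∀ v, v ∉ A → v ∉ C → v ∉ I → ∀ c ∈ C, ¬ G.Adj v c := by
    intro v h1 h2 h3 c hc hvc
    rcases hnb ⟨h2, c, hc, hvc.symm⟩ with h | h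
    · exact h1 h
    · exact h3 h
  have hb3 : ∀ v, v ∉ A → v ∉ C → v ∉ I → (Ms G A v ∩ R).ncard ≤ 1 ∨ R ⊆ Ms G A v := by
    intro v h1 h2 h3
    have h := hB3 V G A C x y v hCls hA hC hAC hx hy h1 h2 (hvC v h1 h2 h3)
    rwa [hyR, hMx, Set.sdiff_empty] at h
  set E : Set V := {e | e ∈ R ∧ ∃ v, v ∉ A ∧ v ∉ C ∧ v ∉ I ∧ Ms G A v ∩ R = {e}} with hE
  have hstar : ∀ v, v ∉ A → v ∉ C → v ∉ I → (∀ r ∈ R \ E, ¬ G.Adj v r) ∨
      ∀ r ∈ R \ E, G.Adj v r := by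
    intro v h1 h2 h3
    rcases hb3 v h1 h2 h3 with h | h
    · right
      intro r hr
      by_contra hcon
      have hrm : r ∈ Ms G A v ∩ R := ⟨⟨hr.1.1, hcon⟩, hr.1⟩
      have hEq : Ms G A v ∩ R = {r} := by
        rw [Set.ncard_le_one_iff (hfin _)] at h
        exact Set.eq_singleton_iff_unique_mem.2 ⟨hrm, fun z hz => h hz hrm⟩
      exact hr.2 ⟨hr.1, v, h1, h2, h3, hEq⟩
    · left
      intro r hr
      exact (h hr.1).2
  -- nested neighbourhoods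
  have hnest : ∀ e ∈ A, ∀ e' ∈ A, {c | c ∈ C ∧ G.Adj e c} ⊆ {c | c ∈ C ∧ G.Adj e' c} ∨
      {c | c ∈ C ∧ G.Adj e' c} ⊆ {c | c ∈ C ∧ G.Adj e c} := by
    intro e he e' he'
    by_contra hcon
    rw [not_or, Set.not_subset, Set.not_subset] at hcon
    obtain ⟨⟨c, hc, hc'⟩, ⟨d, hd, hd'⟩⟩ := hcon
    have h1 : ¬ G.Adj c e' := fun h => hc' ⟨hc.1, h.symm⟩
    have h2 : ¬ G.Adj d e := fun h => hd' ⟨hd.1, h.symm⟩
    rcases hch c hc.1 d hd.1 with h | h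
    · exact (h (show e' ∈ Ms G A c from ⟨he', h1⟩)).2 hd.2.symm
    · exact (h (show e ∈ Ms G A d from ⟨he, h2⟩)).2 hc.2.symm
  have hpair : ∀ e ∈ E, ∀ e' ∈ E, e ≠ e' →
      {c | c ∈ C ∧ G.Adj e c} ⊆ {c | c ∈ C ∧ G.Adj e' c} →
      ∀ c ∈ C, G.Adj c e → c = x := by
    rintro e ⟨heR, v, hv1, hv2, hv3, hv4⟩ e' ⟨heR', v', hv1', hv2', hv3', hv4'⟩ hne hsub
    have hem : e ∈ Ms G A v := by
      have h : e ∈ Ms G A v ∩ R := by rw [hv4]; rfl
      exact h.1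
    have hem' : e' ∈ Ms G A v' := by
      have h : e' ∈ Ms G A v' ∩ R := by rw [hv4']; rfl
      exact h.1
    have h1 : e ∉ Ms G A v' := by
      intro h
      have h2 : e ∈ Ms G A v' ∩ R := ⟨h, heR⟩
      rw [hv4'] at h2
      exact hne h2
    have h1' : e' ∉ Ms G A v := by
      intro h
      have h2 : e' ∈ Ms G A v ∩ R := ⟨h, heR'⟩
      rw [hv4] at h2
      exact hne h2.symm
    have hvv : ¬ G.Adj v v' := by
      rcases hB1 V G A v v' hCls hA hv1 hv1' with h | h | h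
      · exact absurd (h hem) h1
      · exact absurd (h hem') h1'
      · exact h.1
    have hv'e : G.Adj v' e := by
      by_contra h
      exact h1 ⟨heR.1, h⟩
    have hve' : G.Adj v e' := by
      by_contra h
      exact h1' ⟨heR'.1, h⟩
    have hconn : Conn G {c | c ∈ C ∧ G.Adj e c} :=
      hC6 V G C e hCls.1 hC ⟨hdAC heR.1, x, hx, hxA e heR.1⟩
    have hind : ∀ g ∈ {c | c ∈ C ∧ G.Adj e c}, ∀ g' ∈ {c | c ∈ C ∧ G.Adj e c},
        ¬ G.Adj g g' := by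
      intro g hg g' hg'
      exact hB2 V G v v' e e' g g' hCls (hA e heR.1 e' heR'.1 hne) hv'e hem.2 hve' hem'.2 hvv
        hg.2.symm (hsub hg).2.symm hg'.2.symm (hsub hg').2.symm
        (fun h => hvC v hv1 hv2 hv3 g hg.1 h.symm) (fun h => hvC v' hv1' hv2' hv3' g hg.1 h.symm)
        (fun h => hvC v hv1 hv2 hv3 g' hg'.1 h.symm)
        (fun h => hvC v' hv1' hv2' hv3' g' hg'.1 h.symm)
    intro c hc hce
    exact conn_indep hconn (x := x) ⟨hx, (hxA e heR.1).symm⟩ hind c ⟨hc, hce.symm⟩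
  obtain ⟨es, hes⟩ : ∃ es, ∀ e ∈ E, e ≠ es → ∀ c ∈ C, G.Adj c e → c = x := by
    rcases E.eq_empty_or_nonempty with h0 | h0
    · exact ⟨x, fun e he => absurd he (by rw [h0]; exact Set.notMem_empty e)⟩
    · obtain ⟨es, hesE, hmax⟩ := Set.exists_max_image E
        (fun e => ({c | c ∈ C ∧ G.Adj e c} : Set V).ncard) (hfin E) h0
      refine ⟨es, fun e he hne => ?_⟩
      apply hpair e he es hesE hne
      rcases hnest e he.1.1 es hesE.1.1 with h | h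
      · exact h
      · rw [Set.eq_of_subset_of_ncard_le h (hmax e he) (hfin _)]
  refine ⟨E, fun e he => he.1, fun e he => he.2, ?_⟩
  obtain ⟨hsym, hmono, hun, hcard, hone, hmany⟩ := hA1 V G
  -- the rows
  have hY1 : ∀ b, b ∈ (C ∪ (R \ E))ᶜ \ I → b ∉ C ∧ b ∉ R \ E ∧ b ∉ I := fun b hb =>
    ⟨fun h => hb.1 (Or.inl h), fun h => hb.1 (Or.inr h), hb.2⟩
  have r1 : rk G (R \ E) ((C ∪ (R \ E))ᶜ \ I) ≤ 1 := by
    refine hone _ _ {b | ∀ r ∈ R \ E, G.Adj b r} fun a ha => Or.inl fun b hb => ?_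
    obtain ⟨hb1, hb2, hb3'⟩ := hY1 b hb
    constructor
    · intro hab
      by_cases hbA : b ∈ A
      · intro r hr
        exact hA b hbA r hr.1.1 (fun h => hb2 (h ▸ hr))
      · rcases hstar b hbA hb1 hb3' with h | h
        · exact absurd hab.symm (h a ha)
        · exact h
    · intro h
      exact (h a ha).symm
  have r2 : rk G (C \ {x}) ((C ∪ (R \ E))ᶜ \ I) ≤ 2 := by
    refine (hmany _ _ {{b | b ∈ (C ∪ (R \ E))ᶜ \ I ∧ b ∈ A ∧ b ∉ R},
      {b | b ∈ (C ∪ (R \ E))ᶜ \ I ∧ ((b ∈ A ∧ b ∉ R) ∨ b = es)}} ?_).trans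
      ((Set.ncard_insert_le _ _).trans (by rw [Set.ncard_singleton]))
    intro c hc
    left
    have hcb : ∀ b ∈ (C ∪ (R \ E))ᶜ \ I, G.Adj c b → b ≠ es → b ∈ A ∧ b ∉ R := by
      intro b hb hcb hne
      obtain ⟨hb1, hb2, hb3'⟩ := hY1 b hb
      have hbA : b ∈ A := by
        rcases hnb ⟨hb1, c, hc.1, hcb⟩ with h | h
        · exact h
        · exact absurd h hb3'
      refine ⟨hbA, fun hbR => ?_⟩
      have hbE : b ∈ E := by
        by_contra h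
        exact hb2 ⟨hbR, h⟩
      exact hc.2 (hes b hbE hne c hc.1 hcb)
    have hbc : ∀ b, b ∈ A → b ∉ R → G.Adj c b := by
      intro b hbA hbR
      by_contra h
      exact hbR ⟨hbA, c, hc.1, h⟩
    by_cases hce : G.Adj c es
    · refine Or.inr ?_
      rw [Set.mem_singleton_iff]
      ext b
      constructor
      · rintro ⟨hb, h⟩
        refine ⟨hb, ?_⟩
        by_cases hbe : b = es
        · exact Or.inr hbe
        · exact Or.inl (hcb b hb h hbe)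
      · rintro ⟨hb, h | h⟩
        · exact ⟨hb, hbc b h.1 h.2⟩
        · exact ⟨hb, h ▸ hce⟩
    · refine Or.inl ?_
      ext b
      constructor
      · rintro ⟨hb, h⟩
        exact ⟨hb, hcb b hb h (fun h1 => hce (h1 ▸ h))⟩
      · rintro ⟨hb, h1, h2⟩
        exact ⟨hb, hbc b h1 h2⟩
  have r3 : rk G {x} ((C ∪ (R \ E))ᶜ \ I) ≤ 1 := (hcard _ _).trans (by rw [Set.ncard_singleton])
  have r4 : rk G C ((C ∪ (R \ E))ᶜ \ I) ≤ 3 := by
    have h1 : rk G C ((C ∪ (R \ E))ᶜ \ I) ≤ rk G (C \ {x} ∪ {x}) ((C ∪ (R \ E))ᶜ \ I) :=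
      hmono _ _ _ _ (by
        intro c hc
        by_cases h : c = x
        · exact Or.inr h
        · exact Or.inl ⟨hc, h⟩) (le_refl _)
    have h2 := hun (C \ {x}) {x} ((C ∪ (R \ E))ᶜ \ I)
    omega
  have r5 : rk G (C ∪ (R \ E)) ((C ∪ (R \ E))ᶜ \ I) ≤ 4 := by
    have h2 := hun C (R \ E) ((C ∪ (R \ E))ᶜ \ I)
    omega
  have r6 : rk G I (C ∪ (R \ E)) ≤ 2 := (hcard _ _).trans hI
  have r7 : cr G (C ∪ (R \ E)) ≤
      rk G (((C ∪ (R \ E))ᶜ \ I) ∪ I) (C ∪ (R \ E)) := by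
    unfold cr
    rw [hsym (C ∪ (R \ E))]
    refine hmono _ _ _ _ ?_ (le_refl _)
    intro b hb
    by_cases h : b ∈ I
    · exact Or.inr h
    · exact Or.inl ⟨hb, h⟩
  have r8 := hun ((C ∪ (R \ E))ᶜ \ I) I (C ∪ (R \ E))
  rw [hsym ((C ∪ (R \ E))ᶜ \ I)] at r8
  exact r7.trans (r8.trans (by omega))

end Pool.Agent.MPd439b2.LK
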