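import Pool.Agent.Lib.MP_d439b2_co.L4.Spec3

/-!
# MP_d439b2_co, column `C_4`, C8: the two sides of a clique
-/

set_option autoImplicit false

namespace Pool.Agent.MPd439b2.LK

open Pool.Agent.MPd439b2

namespace C8Aux

variable {V : Type} {G : SimpleGraph V} {A C B : Set V} {x z : V}

/-- the situation of C8 -/
structure Sit (G : SimpleGraph V) (A C B : Set V) (x z : V) : Prop where
  cls : Cls G
  cA : CompleteOn G A
  cC : Conn G C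
  cB : Conn G B
  dAC : Disjoint A C
  dAB : Disjoint A B
  dCB : Disjoint C B
  nt : ¬ Tch G C B
  hx : x ∈ C
  hxA : ∀ a ∈ A, G.Adj x a
  hz : z ∈ B
  hzA : ∀ a ∈ A, G.Adj z a

theorem Sit.swap (s : Sit G A C B x z) : Sit G A B C z x where
  cls := s.cls
  cA := s.cA
  cC := s.cB
  cB := s.cC
  dAC := s.dAB
  dAB := s.dAC
  dCB := s.dCB.symm
  nt := fun h => s.nt h.symm
  hx := s.hz
  hxA := s.hzA
  hz := s.hx
  hzA := s.hxA

theorem Sit.nadj (s : Sit G A C B x z) {c b : V} (hc : c ∈ C) (hb : b ∈ B) : ¬ G.Adj c b :=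
  fun h => s.nt ⟨c, hc, b, hb, h⟩

theorem Sit.Cz (s : Sit G A C B x z) : z ∉ A := fun h => Set.disjoint_left.mp s.dAB h s.hz

theorem Sit.Cc (s : Sit G A C B x z) {c : V} (hc : c ∈ C) : c ∉ A :=
  fun h => Set.disjoint_left.mp s.dAC h hc

theorem Sit.Cb (s : Sit G A C B x z) {b : V} (hb : b ∈ B) : b ∉ A :=
  fun h => Set.disjoint_left.mp s.dAB h hb

theorem Sit.mz (s : Sit G A C B x z) : Ms G A z = ∅ := by
  rw [Set.eq_empty_iff_forall_notMem]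
  rintro a ⟨ha, hn⟩
  exact hn (s.hzA a ha)

theorem Sit.clique (s : Sit G A C B x z) : CompleteOn G (insert z A) := by
  intro u hu v hv huv
  rcases hu with rfl | hu
  · rcases hv with rfl | hv
    · exact absurd rfl huv
    · exact s.hzA v hv
  · rcases hv with rfl | hv
    · exact (s.hzA u hu).symm
    · exact s.cA u hu v hv huv

theorem Sit.msz (s : Sit G A C B x z) {c : V} (hc : c ∈ C) :
    Ms G (insert z A) c = insert z (Ms G A c) := by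
  ext a
  constructor
  · rintro ⟨rfl | ha, hn⟩
    · exact Set.mem_insert _ _
    · exact Set.mem_insert_of_mem _ ⟨ha, hn⟩
  · rintro (rfl | ⟨ha, hn⟩)
    · exact ⟨Set.mem_insert _ _, s.nadj hc s.hz⟩
    · exact ⟨Set.mem_insert_of_mem _ ha, hn⟩

/-- (a) -/
theorem la [Finite V] (hB1 : S_B1) (s : Sit G A C B x z) {c c' : V} (hc : c ∈ C) (hc' : c' ∈ C)
    (h : ¬ Ms G A c ⊆ Ms G A c') (h' : ¬ Ms G A c' ⊆ Ms G A c) :
    Disjoint (Ms G A c) (Ms G A c') ∧ ¬ G.Adj c c' := by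
  have hz : ∀ {c : V}, c ∈ C → c ∉ insert z A := by
    rintro c hc (rfl | h)
    · exact Set.disjoint_left.mp s.dCB hc s.hz
    · exact s.Cc hc h
  have key := hB1 V G (insert z A) c c' s.cls s.clique (hz hc) (hz hc')
  rw [s.msz hc, s.msz hc'] at key
  have sub : ∀ {c c' : V}, insert z (Ms G A c) ⊆ insert z (Ms G A c') → Ms G A c ⊆ Ms G A c' := by
    intro c c' hs a ha
    rcases hs (Set.mem_insert_of_mem _ ha) with rfl | h1
    · exact absurd ha.1 s.Cz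
    · exact h1
  rcases key with h1 | h1 | ⟨h1, h2⟩
  · exact absurd (sub h1) h
  · exact absurd (sub h1) h'
  · refine ⟨?_, h1⟩
    rw [Set.disjoint_left]
    intro a ha ha'
    have haz : z ≠ a := by
      rintro rfl
      exact s.Cz ha.1
    have h3 : ({z, a} : Set V) ⊆ insert z (Ms G A c) ∩ insert z (Ms G A c') := by
      intro u hu
      rcases hu with rfl | hu
      · exact ⟨Set.mem_insert _ _, Set.mem_insert _ _⟩
      · rw [Set.mem_singleton_iff] at hu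
        subst hu
        exact ⟨Set.mem_insert_of_mem _ ha, Set.mem_insert_of_mem _ ha'⟩
    have h4 := Set.ncard_le_ncard h3 (Set.toFinite _)
    rw [Set.ncard_pair haz] at h4
    omega

/-- (b) -/
theorem lb [Finite V] (hA7 : S_A7) (hB1 : S_B1) (hB2 : S_B2) (s : Sit G A C B x z) {c₁ c₂ b : V}
    (h1 : c₁ ∈ C) (h2 : c₂ ∈ C) (hn : ¬ Ms G A c₁ ⊆ Ms G A c₂) (hn' : ¬ Ms G A c₂ ⊆ Ms G A c₁)
    (hb : b ∈ B) (hbz : b ≠ z) : Ms G A c₁ ⊆ Ms G A b ∨ Ms G A c₂ ⊆ Ms G A b := by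
  obtain ⟨hd, hna⟩ := la hB1 s h1 h2 hn hn'
  obtain ⟨W, hWB, hbW, hW, hWn⟩ := exists_comp G (A := B \ {z}) (v := b) ⟨hb, hbz⟩
  have hzW : z ∉ W := fun h => (hWB h).2 rfl
  have hWB' : W ⊆ B := fun w hw => (hWB hw).1
  have hztch : ∃ w ∈ W, G.Adj w z := by
    obtain ⟨w, hw, u, hu, hwu⟩ := s.cB.2 W hWB' ⟨b, hbW⟩ (fun h => hzW (h ▸ s.hz))
    by_cases huz : u = z
    · exact ⟨w, hw, huz ▸ hwu⟩
    · exact absurd ⟨hu.2, w, hw, hwu⟩ (hWn u ⟨hu.1, huz⟩)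
  obtain ⟨w, hwW, hw⟩ := hA7 V G (insert z (A ∩ nb G W)) W s.cls.1 hW
    (by
      intro u hu v hv huv
      refine s.clique u ?_ v ?_ huv
      · rcases hu with rfl | hu
        · exact Set.mem_insert _ _
        · exact Set.mem_insert_of_mem _ hu.1
      · rcases hv with rfl | hv
        · exact Set.mem_insert _ _
        · exact Set.mem_insert_of_mem _ hv.1)
    (by
      rw [Set.disjoint_left]
      rintro u (rfl | hu) huW
      · exact hzW huW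
      · exact s.Cb (hWB' huW) hu.1)
    (by
      rintro a (rfl | ha)
      · exact ⟨hzW, hztch⟩
      · exact ha.2)
  have hwz : G.Adj w z := hw z (Set.mem_insert _ _)
  have hsub : Ms G A w ⊆ Ms G A b := by
    rintro a ⟨ha, hnw⟩
    refine ⟨ha, fun hba => hnw (hw a (Set.mem_insert_of_mem _ ⟨ha, ?_, b, hbW, hba⟩))⟩
    exact fun haW => s.Cb (hWB' haW) ha
  by_contra hcon
  push Not at hcon
  have e1 : ¬ Ms G A c₁ ⊆ Ms G A w := fun h => hcon.1 (h.trans hsub)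
  have e2 : ¬ Ms G A c₂ ⊆ Ms G A w := fun h => hcon.2 (h.trans hsub)
  rw [Set.not_subset] at e1 e2
  obtain ⟨a, ha, haw⟩ := e1
  obtain ⟨a', ha', haw'⟩ := e2
  have hwa : G.Adj w a := by
    by_contra h
    exact haw ⟨ha.1, h⟩
  have hwa' : G.Adj w a' := by
    by_contra h
    exact haw' ⟨ha'.1, h⟩
  have h2a : G.Adj c₂ a := by
    by_contra h
    exact Set.disjoint_left.mp hd ha ⟨ha.1, h⟩
  have h1a : G.Adj c₁ a' := by
    by_contra h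
    exact Set.disjoint_left.mp hd ⟨ha'.1, h⟩ ha'
  have haa : a ≠ a' := by
    rintro rfl
    exact ha.2 h1a
  have hwB : w ∈ B := hWB' hwW
  exact hB2 V G c₁ c₂ a a' z w s.cls (s.cA a ha.1 a' ha'.1 haa) h2a ha.2 h1a ha'.2 hna
    (s.hzA a ha.1) (s.hzA a' ha'.1) hwa hwa' (fun h => s.nadj h1 s.hz h.symm)
    (fun h => s.nadj h2 s.hz h.symm) (fun h => s.nadj h1 hwB h.symm)
    (fun h => s.nadj h2 hwB h.symm) hwz.symm

theorem ne_z (s : Sit G A C B x z) {b b' : V} (hn : ¬ Ms G A b ⊆ Ms G A b') : b ≠ z := by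
  rintro rfl
  apply hn
  rw [s.mz]
  exact Set.empty_subset _

/-- (c), one half -/
theorem lc1 [Finite V] (hA7 : S_A7) (hB1 : S_B1) (hB2 : S_B2) (s : Sit G A C B x z)
    {c₁ c₂ b₁ b₂ : V} (h1 : c₁ ∈ C) (h2 : c₂ ∈ C) (k1 : b₁ ∈ B) (k2 : b₂ ∈ B)
    (hn : ¬ Ms G A c₁ ⊆ Ms G A c₂) (hn' : ¬ Ms G A c₂ ⊆ Ms G A c₁)
    (kn : ¬ Ms G A b₁ ⊆ Ms G A b₂) (kn' : ¬ Ms G A b₂ ⊆ Ms G A b₁)
    (e1 : Ms G A c₁ ⊆ Ms G A b₁) (e2 : Ms G A c₂ ⊆ Ms G A b₂) :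
    Ms G A c₁ = Ms G A b₁ ∧ Ms G A c₂ = Ms G A b₂ := by
  have s' := s.swap
  constructor
  · rcases lb hA7 hB1 hB2 s' k1 k2 kn kn' h1 (ne_z s' hn) with h | h
    · exact Set.Subset.antisymm e1 h
    · exact absurd (h.trans e1) kn'
  · rcases lb hA7 hB1 hB2 s' k1 k2 kn kn' h2 (ne_z s' hn') with h | h
    · exact absurd (h.trans e2) kn
    · exact Set.Subset.antisymm e2 h

/-- (c) -/
theorem lc [Finite V] (hA7 : S_A7) (hB1 : S_B1) (hB2 : S_B2) (s : Sit G A C B x z)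
    {c₁ c₂ b₁ b₂ : V} (h1 : c₁ ∈ C) (h2 : c₂ ∈ C) (k1 : b₁ ∈ B) (k2 : b₂ ∈ B)
    (hn : ¬ Ms G A c₁ ⊆ Ms G A c₂) (hn' : ¬ Ms G A c₂ ⊆ Ms G A c₁)
    (kn : ¬ Ms G A b₁ ⊆ Ms G A b₂) (kn' : ¬ Ms G A b₂ ⊆ Ms G A b₁) :
    (Ms G A c₁ = Ms G A b₁ ∧ Ms G A c₂ = Ms G A b₂) ∨
      (Ms G A c₁ = Ms G A b₂ ∧ Ms G A c₂ = Ms G A b₁) := by
  have s' := s.swap
  obtain ⟨kd, _⟩ := la hB1 s' k1 k2 kn kn'
  have hne : ∀ {c c' : V}, ¬ Ms G A c ⊆ Ms G A c' → (Ms G A c).Nonempty := by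
    intro c c' h
    rw [Set.not_subset] at h
    obtain ⟨a, ha, _⟩ := h
    exact ⟨a, ha⟩
  have hno : ∀ {c : V}, (Ms G A c).Nonempty → Ms G A c ⊆ Ms G A b₁ → Ms G A c ⊆ Ms G A b₂ →
      False := by
    rintro c ⟨a, ha⟩ e e'
    exact Set.disjoint_left.mp kd (e ha) (e' ha)
  rcases lb hA7 hB1 hB2 s h1 h2 hn hn' k1 (ne_z s kn) with e | e
  · rcases lb hA7 hB1 hB2 s h1 h2 hn hn' k2 (ne_z s kn') with e' | e'
    · exact absurd (hno (hne hn) e e') (fun h => h)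
    · exact Or.inl (lc1 hA7 hB1 hB2 s h1 h2 k1 k2 hn hn' kn kn' e e')
  · rcases lb hA7 hB1 hB2 s h1 h2 hn hn' k2 (ne_z s kn') with e' | e'
    · exact Or.inr (lc1 hA7 hB1 hB2 s h1 h2 k2 k1 hn hn' kn' kn e' e)
    · exact absurd (hno (hne hn') e e') (fun h => h)

/-- (d) -/
theorem ld [Finite V] (hA7 : S_A7) (hB1 : S_B1) (hB2 : S_B2) (s : Sit G A C B x z)
    {c₁ c₂ b₁ b₂ : V} (h1 : c₁ ∈ C) (h2 : c₂ ∈ C) (k1 : b₁ ∈ B) (k2 : b₂ ∈ B)
    (kn : ¬ Ms G A b₁ ⊆ Ms G A b₂) (kn' : ¬ Ms G A b₂ ⊆ Ms G A b₁)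
    (e1 : Ms G A c₁ = Ms G A b₁) (e2 : Ms G A c₂ = Ms G A b₂) {c : V} (hc : c ∈ C) :
    Ms G A c = ∅ ∨ Ms G A c = Ms G A b₁ ∨ Ms G A c = Ms G A b₂ ∨
      (Ms G A b₁ ⊆ Ms G A c ∧ Ms G A b₂ ⊆ Ms G A c) := by
  have s' := s.swap
  by_cases hcx : c = x
  · left
    rw [hcx]
    exact s'.mz
  rcases lb hA7 hB1 hB2 s' k1 k2 kn kn' hc hcx with h | h
  · by_cases n1 : Ms G A b₂ ⊆ Ms G A c
    · exact Or.inr (Or.inr (Or.inr ⟨h, n1⟩))
    · by_cases n2 : Ms G A c ⊆ Ms G A b₂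
      · exact absurd (h.trans n2) kn
      · rcases lc hA7 hB1 hB2 s hc h2 k1 k2 (by rw [e2]; exact n2) (by rw [e2]; exact n1) kn kn'
          with h3 | h3
        · exact Or.inr (Or.inl h3.1)
        · exact Or.inr (Or.inr (Or.inl h3.1))
  · by_cases n1 : Ms G A b₁ ⊆ Ms G A c
    · exact Or.inr (Or.inr (Or.inr ⟨n1, h⟩))
    · by_cases n2 : Ms G A c ⊆ Ms G A b₁
      · exact absurd (h.trans n2) kn'
      · rcases lc hA7 hB1 hB2 s hc h1 k1 k2 (by rw [e1]; exact n2) (by rw [e1]; exact n1) kn kn'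
          with h3 | h3
        · exact Or.inr (Or.inl h3.1)
        · exact Or.inr (Or.inr (Or.inl h3.1))

/-- the main part, with matched traces -/
theorem lmain [Finite V] (hA7 : S_A7) (hB1 : S_B1) (hB2 : S_B2) (hB3 : S_B3)
    (s : Sit G A C B x z)
    {c₁ c₂ b₁ b₂ : V} (h1 : c₁ ∈ C) (h2 : c₂ ∈ C) (k1 : b₁ ∈ B) (k2 : b₂ ∈ B)
    (kn : ¬ Ms G A b₁ ⊆ Ms G A b₂) (kn' : ¬ Ms G A b₂ ⊆ Ms G A b₁)
    (e1 : Ms G A c₁ = Ms G A b₁) (e2 : Ms G A c₂ = Ms G A b₂) :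
    (∃ I ⊆ A, I.ncard ≤ 2 ∧ ∀ c ∈ C, ∀ c' ∈ C, Ms G (A \ I) c ⊆ Ms G (A \ I) c' ∨
      Ms G (A \ I) c' ⊆ Ms G (A \ I) c) ∨
    ∃ Y Y' : Set V, ∀ b ∈ B, Ms G A b = ∅ ∨ Ms G A b = Y ∨ Ms G A b = Y' := by
  have s' := s.swap
  have hn : ¬ Ms G A c₁ ⊆ Ms G A c₂ := by rw [e1, e2]; exact kn
  have hn' : ¬ Ms G A c₂ ⊆ Ms G A c₁ := by rw [e1, e2]; exact kn'
  by_cases hex : ∃ b ∈ B, Ms G A b₁ ⊆ Ms G A b ∧ Ms G A b₂ ⊆ Ms G A b
  · left
    obtain ⟨b, hb, hb1, hb2⟩ := hex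
    have hmz : Ms G A b \ Ms G A z = Ms G A b := by
      rw [s.mz]
      exact Set.sdiff_empty
    have small : ∀ {c : V}, c ∈ C → Ms G A c ⊆ Ms G A b → ¬ Ms G A b ⊆ Ms G A c →
        (Ms G A c).ncard ≤ 1 := by
      intro c hc hcb hbc
      have h3 := hB3 V G A B z b c s.cls s.cA s.cB s.dAB s.hz hb (s.Cc hc)
        (fun h => Set.disjoint_left.mp s.dCB hc h) (fun b' hb' => s.nadj hc hb')
      rw [hmz, Set.inter_eq_left.2 hcb] at h3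
      rcases h3 with h3 | h3
      · exact h3
      · exact absurd h3 hbc
    have y1 : (Ms G A b₁).ncard ≤ 1 := by
      rw [← e1]
      exact small h1 (by rw [e1]; exact hb1) (fun h => kn' (by
        have h5 := hb2.trans h
        rw [e1] at h5
        exact h5))
    have y2 : (Ms G A b₂).ncard ≤ 1 := by
      rw [← e2]
      exact small h2 (by rw [e2]; exact hb2) (fun h => kn (by
        have h5 := hb1.trans h
        rw [e2] at h5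
        exact h5))
    refine ⟨Ms G A b₁ ∪ Ms G A b₂, ?_, ?_, ?_⟩
    · rintro a (ha | ha)
      · exact ha.1
      · exact ha.1
    · have := Set.ncard_union_le (Ms G A b₁) (Ms G A b₂)
      omega
    · set I := Ms G A b₁ ∪ Ms G A b₂ with hI
      have msI : ∀ c : V, Ms G (A \ I) c = Ms G A c \ I := by
        intro c
        ext a
        constructor
        · rintro ⟨⟨h3, h4⟩, h5⟩
          exact ⟨⟨h3, h5⟩, h4⟩
        · rintro ⟨⟨h3, h5⟩, h4⟩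
          exact ⟨⟨h3, h4⟩, h5⟩
      have hd : ∀ {c : V}, c ∈ C → Ms G A c \ I = ∅ ∨
          (Ms G A b₁ ⊆ Ms G A c ∧ Ms G A b₂ ⊆ Ms G A c) := by
        intro c hc
        rcases ld hA7 hB1 hB2 s h1 h2 k1 k2 kn kn' e1 e2 hc with h3 | h3 | h3 | h3
        · left
          rw [h3]
          exact Set.empty_sdiff _
        · left
          rw [h3, Set.sdiff_eq_empty]
          exact Set.subset_union_left
        · left
          rw [h3, Set.sdiff_eq_empty]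
          exact Set.subset_union_right
        · exact Or.inr h3
      intro c hc c' hc'
      rw [msI c, msI c']
      rcases hd hc with h3 | h3
      · left
        rw [h3]
        exact Set.empty_subset _
      rcases hd hc' with h4 | h4
      · right
        rw [h4]
        exact Set.empty_subset _
      by_cases n1 : Ms G A c ⊆ Ms G A c'
      · exact Or.inl (Set.sdiff_subset_sdiff_left n1)
      by_cases n2 : Ms G A c' ⊆ Ms G A c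
      · exact Or.inr (Set.sdiff_subset_sdiff_left n2)
      exfalso
      obtain ⟨hdis, _⟩ := la hB1 s hc hc' n1 n2
      rw [Set.not_subset] at kn
      obtain ⟨a, ha, _⟩ := kn
      exact Set.disjoint_left.mp hdis (h3.1 ha) (h4.1 ha)
  · right
    refine ⟨Ms G A b₁, Ms G A b₂, fun b hb => ?_⟩
    rcases ld hA7 hB1 hB2 s' k1 k2 h1 h2 hn hn' e1.symm e2.symm hb with h3 | h3 | h3 | h3
    · exact Or.inl h3
    · rw [e1] at h3
      exact Or.inr (Or.inl h3)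
    · rw [e2] at h3
      exact Or.inr (Or.inr h3)
    · rw [e1, e2] at h3
      exact absurd ⟨b, hb, h3⟩ hex

end C8Aux

open C8Aux in
theorem c8 (hA7 : S_A7) (hB1 : S_B1) (hB2 : S_B2) (hB3 : S_B3) : S_C8 := by
  intro V _ G A C B x z hcls cA cC cB dAC dAB dCB nt hx hxA hz hzA
  have s : Sit G A C B x z := ⟨hcls, cA, cC, cB, dAC, dAB, dCB, nt, hx, hxA, hz, hzA⟩
  by_cases h1 : ∀ c ∈ C, ∀ c' ∈ C, Ms G A c ⊆ Ms G A c' ∨ Ms G A c' ⊆ Ms G A c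
  · left
    refine ⟨∅, Set.empty_subset _, by rw [Set.ncard_empty]; omega, ?_⟩
    rw [Set.sdiff_empty]
    exact h1
  by_cases h2 : ∀ b ∈ B, ∀ b' ∈ B, Ms G A b ⊆ Ms G A b' ∨ Ms G A b' ⊆ Ms G A b
  · exact Or.inr (Or.inl h2)
  push Not at h1 h2
  obtain ⟨c₁, hc1, c₂, hc2, hn, hn'⟩ := h1
  obtain ⟨b₁, hb1, b₂, hb2, kn, kn'⟩ := h2
  have key : ∀ {b₁ b₂ : V}, b₁ ∈ B → b₂ ∈ B → ¬ Ms G A b₁ ⊆ Ms G A b₂ →
      ¬ Ms G A b₂ ⊆ Ms G A b₁ → Ms G A c₁ = Ms G A b₁ → Ms G A c₂ = Ms G A b₂ →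
      (∃ I ⊆ A, I.ncard ≤ 2 ∧ ∀ c ∈ C, ∀ c' ∈ C, Ms G (A \ I) c ⊆ Ms G (A \ I) c' ∨
        Ms G (A \ I) c' ⊆ Ms G (A \ I) c) ∨
      (∀ b ∈ B, ∀ b' ∈ B, Ms G A b ⊆ Ms G A b' ∨ Ms G A b' ⊆ Ms G A b) ∨
      ∃ Y Y' : Set V, ∀ b ∈ B, Ms G A b = ∅ ∨ Ms G A b = Y ∨ Ms G A b = Y' := by
    intro b₁ b₂ hb1 hb2 kn kn' e1 e2
    rcases lmain hA7 hB1 hB2 hB3 s hc1 hc2 hb1 hb2 kn kn' e1 e2 with h | h
    · exact Or.inl h
    · exact Or.inr (Or.inr h)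
  rcases lc hA7 hB1 hB2 s hc1 hc2 hb1 hb2 hn hn' kn kn' with ⟨e1, e2⟩ | ⟨e1, e2⟩
  · exact key hb1 hb2 kn kn' e1 e2
  · exact key hb2 hb1 kn' kn e1 e2

end Pool.Agent.MPd439b2.LK
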