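import Pool.Agent.Lib.MP_d439b2_co.L4.Spec3

/-!
# MP_d439b2_co, column `C_4`, row `K4:0,1`: small ranges
-/

set_option autoImplicit false

namespace Pool.Agent.MPd439b2.LK

open Pool.Agent.MPd439b2

namespace C9Aux

theorem count {V : Type} [Finite V] {G : SimpleGraph V} {S : Set V} {n : ℕ} {s : ℕ → V}
    {l : V → ℕ} (hL : Lev G S n s l) (T : Set V) (a b : ℕ) (hb : b ≤ n)
    (h : ∀ j, a < j → j ≤ b → s j ∈ T) : b - a ≤ T.ncard := by
  have hinj : Set.InjOn s (Set.Ioc a b) := by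
    rintro i ⟨hi1, hi2⟩ j ⟨hj1, hj2⟩ hij
    exact hL.2.1 i j (by omega) (by omega) (by omega) (by omega) hij
  have h1 : (s '' (Set.Ioc a b)).ncard = b - a := by
    rw [hinj.ncard_image, ← Finset.coe_Ioc, Set.ncard_coe_finset, Nat.card_Ioc]
  rw [← h1]
  refine Set.ncard_le_ncard ?_ (Set.toFinite _)
  rintro _ ⟨j, ⟨hj1, hj2⟩, rfl⟩
  exact h j hj1 hj2

/-- the situation in the proof of C9 -/
structure Sit {V : Type} (G : SimpleGraph V) (S C A B : Set V) (n m lo H : ℕ) (s : ℕ → V)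
    (l : V → ℕ) (x z y : V) : Prop where
  cls : Cls G
  cS : CompleteOn G S
  lev : Lev G S n s l
  unb : Unb G S m
  lo1 : m + 4 ≤ lo
  hH : lo + m + 4 ≤ H
  Hn : H ≤ n
  cA : CompleteOn G A
  cC : Conn G C
  cB : Conn G B
  dAC : Disjoint A C
  dAB : Disjoint A B
  dCB : Disjoint C B
  nt : ¬ Tch G C B
  hx : x ∈ C
  hxA : ∀ a ∈ A, G.Adj x a
  hz : z ∈ B
  hzA : ∀ a ∈ A, G.Adj z a
  nbC : nb G C ⊆ A
  nbB : nb G B ⊆ A
  sA : ∀ j, 1 ≤ j → j ≤ n → (s j ∈ A ↔ lo < j)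
  sB : ∀ j, 1 ≤ j → j ≤ lo → s j ∈ B
  dCS : ∀ c ∈ C, c ∉ S
  lA : ∀ a ∈ A, a ∉ S → l a ≤ lo
  lC : ∀ c ∈ C, lo ≤ l c
  hy : y ∈ C
  ly : l y = H
  lx : l x = lo

section

variable {V : Type} [Finite V] {G : SimpleGraph V} {S C A B : Set V} {n m lo H : ℕ} {s : ℕ → V}
  {l : V → ℕ} {x z y : V}

/-- a set of small cut-rank containing exactly the lower part of `S`, up to few elements -/
theorem Sit.low (t : Sit G S C A B n m lo H s l x z y) (X : Set V) (hX : cr G X ≤ 16)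
    (h1 : ∀ j, 1 ≤ j → j ≤ lo → s j ∈ X) (h2 : ∀ j, lo + 1 < j → j ≤ n → s j ∉ X) : False := by
  have := t.lo1
  have := t.hH
  have := t.Hn
  have a1 : lo - 0 ≤ (S ∩ X).ncard := by
    refine count t.lev (S ∩ X) 0 lo (by omega) ?_
    intro j hj1 hj2
    exact ⟨t.lev.1 j (by omega) (by omega), h1 j (by omega) hj2⟩
  have a2 : n - (lo + 1) ≤ (S \ X).ncard := by
    refine count t.lev (S \ X) (lo + 1) n le_rfl ?_
    intro j hj1 hj2
    exact ⟨t.lev.1 j (by omega) (by omega), h2 j hj1 hj2⟩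
  rcases t.unb X hX with h | h <;> omega

/-- third alternative of C8 -/
theorem Sit.third (h2 : S_A1) (t : Sit G S C A B n m lo H s l x z y) (Y Y' : Set V)
    (h : ∀ b ∈ B, Ms G A b = ∅ ∨ Ms G A b = Y ∨ Ms G A b = Y') : False := by
  have h0 : ∀ b ∈ B, {u | u ∈ Bᶜ ∧ G.Adj b u} = A \ Ms G A b := by
    intro b hb
    ext u
    constructor
    · rintro ⟨hu1, hu2⟩
      exact ⟨t.nbB ⟨hu1, b, hb, hu2⟩, fun h3 => h3.2 hu2⟩
    · rintro ⟨hu1, hu2⟩
      refine ⟨fun h3 => Set.disjoint_left.1 t.dAB hu1 h3, ?_⟩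
      by_contra h3
      exact hu2 ⟨hu1, h3⟩
  have hcr : cr G B ≤ 3 := by
    have h3 := (h2 V G).2.2.2.2.2 B Bᶜ {A \ ∅, A \ Y, A \ Y'} (by
      intro b hb
      left
      rw [h0 b hb]
      rcases h b hb with h4 | h4 | h4
      · rw [h4]
        exact Set.mem_insert _ _
      · rw [h4]
        exact Set.mem_insert_of_mem _ (Set.mem_insert _ _)
      · rw [h4]
        exact Set.mem_insert_of_mem _ (Set.mem_insert_of_mem _ rfl))
    refine h3.trans ?_
    have h5 := Set.ncard_insert_le (A \ ∅) {A \ Y, A \ Y'}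
    have h6 := Set.ncard_insert_le (A \ Y) {A \ Y'}
    rw [Set.ncard_singleton] at h6
    omega
  have := t.hH
  have := t.Hn
  refine t.low B (by omega) t.sB ?_
  intro j hj1 hj2 hj3
  exact Set.disjoint_left.1 t.dAB ((t.sA j (by omega) hj2).2 (by omega)) hj3

/-- first alternative of C8 -/
theorem Sit.first (h6 : S_C7) (t : Sit G S C A B n m lo H s l x z y) (I : Set V) (hI : I ⊆ A)
    (hI2 : I.ncard ≤ 2)
    (h : ∀ c ∈ C, ∀ c' ∈ C, Ms G (A \ I) c ⊆ Ms G (A \ I) c' ∨ Ms G (A \ I) c' ⊆ Ms G (A \ I) c) :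
    False := by
  have := t.lo1
  have := t.hH
  have := t.Hn
  have hdC : ∀ a ∈ A, a ∉ C := fun a ha hc => Set.disjoint_left.1 t.dAC ha hc
  obtain ⟨E, hER, hE, hcr⟩ := h6 V G (A \ I) C I x t.cls
    (fun u hu v hv huv => t.cA u hu.1 v hv.1 huv) t.cC
    (Set.disjoint_left.2 fun a ha hc => hdC a ha.1 hc)
    (Set.disjoint_left.2 fun a ha hc => hdC a (hI ha) hc)
    (Set.disjoint_left.2 fun a ha hc => ha.2 hc)
    (fun a ha => by
      by_cases h1 : a ∈ I
      · exact Or.inr h1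
      · exact Or.inl ⟨t.nbC ha, h1⟩) hI2 t.hx (fun a ha => t.hxA a ha.1) h
  set R : Set V := {a | a ∈ A \ I ∧ ∃ c ∈ C, ¬ G.Adj c a} with hR
  -- the elements of `S` in `R`
  have hRs : ∀ j, lo < j → j ≤ H → s j ∉ I → s j ∈ R := by
    intro j hj1 hj2 hj3
    refine ⟨⟨(t.sA j (by omega) (by omega)).2 hj1, hj3⟩, y, t.hy, ?_⟩
    rw [(t.lev.2.2.2 y (t.dCS y t.hy)).2 j (by omega) (by omega), t.ly]
    omega
  -- `s j ∈ E` has the smallest index in `R`
  have hmin : ∀ j, 1 ≤ j → j ≤ n → s j ∈ E → ∀ k, 1 ≤ k → s k ∈ R → k < j → False := by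
    intro j hj1 hj2 hj3 k hk1 hk2 hkj
    obtain ⟨v, hv1, hv2, hv3, hv4⟩ := hE (s j) hj3
    have hvA : v ∉ A := by
      intro h1
      by_cases h2 : v ∈ I
      · exact hv3 h2
      · exact hv1 ⟨h1, h2⟩
    have hj4 : s j ∈ Ms G (A \ I) v ∩ R := by
      rw [hv4]
      rfl
    have hvS : v ∉ S := by
      intro h1
      have h2 : v ≠ s j := by
        rintro rfl
        exact hvA hj4.1.1.1
      exact hj4.1.2 (t.cS v h1 (s j) (t.lev.1 j hj1 hj2) h2)
    have hlv : ¬ l v < j := by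
      rw [← (t.lev.2.2.2 v hvS).2 j hj1 hj2]
      exact hj4.1.2
    have hk3 : s k ∈ Ms G (A \ I) v ∩ R := by
      refine ⟨⟨hk2.1, ?_⟩, hk2⟩
      rw [(t.lev.2.2.2 v hvS).2 k hk1 (by omega)]
      omega
    rw [hv4] at hk3
    have := t.lev.2.1 k j hk1 (by omega) hj1 hj2 hk3
    omega
  have hES : (E ∩ S).ncard ≤ 1 := by
    rw [Set.ncard_le_one (Set.toFinite _)]
    rintro a ⟨ha1, ha2⟩ b ⟨hb1, hb2⟩
    obtain ⟨j, hj1, hj2, rfl⟩ := t.lev.2.2.1 a ha2
    obtain ⟨k, hk1, hk2, rfl⟩ := t.lev.2.2.1 b hb2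
    have h1 : ¬ k < j := fun h => hmin j hj1 hj2 ha1 k hk1 (hER hb1) h
    have h2 : ¬ j < k := fun h => hmin k hk1 hk2 hb1 j hj1 (hER ha1) h
    have h3 : j = k := by omega
    rw [h3]
  have a1 : H - lo ≤ ((S ∩ (C ∪ (R \ E))) ∪ (I ∪ (E ∩ S))).ncard := by
    refine count t.lev _ lo H (by omega) ?_
    intro j hj1 hj2
    have hS := t.lev.1 j (by omega) (by omega)
    by_cases h1 : s j ∈ I
    · exact Or.inr (Or.inl h1)
    · by_cases h2 : s j ∈ E
      · exact Or.inr (Or.inr ⟨h2, hS⟩)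
      · exact Or.inl ⟨hS, Or.inr ⟨hRs j hj1 hj2 h1, h2⟩⟩
  have a2 := Set.ncard_union_le (S ∩ (C ∪ (R \ E))) (I ∪ (E ∩ S))
  have a3 := Set.ncard_union_le I (E ∩ S)
  have a4 : lo - 0 ≤ (S \ (C ∪ (R \ E))).ncard := by
    refine count t.lev _ 0 lo (by omega) ?_
    intro j hj1 hj2
    have hS := t.lev.1 j (by omega) (by omega)
    refine ⟨hS, ?_⟩
    rintro (h1 | h1)
    · exact t.dCS _ h1 hS
    · have h2 := (t.sA j (by omega) (by omega)).1 h1.1.1.1
      omega
  rcases t.unb (C ∪ (R \ E)) (by omega) with h1 | h1 <;> omega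

/-- levels outside `C` -/
theorem Sit.out (h4 : S_B3) (t : Sit G S C A B n m lo H s l x z y) (v : V) (hv : v ∉ S)
    (hvC : v ∉ C) : l v ≤ lo + 1 ∨ H ≤ l v := by
  have := t.lo1
  have := t.hH
  have := t.Hn
  by_cases hvA : v ∈ A
  · have := t.lA v hvA hv
    omega
  · by_contra hcon
    push Not at hcon
    have hdCS : Disjoint S C := Set.disjoint_left.2 fun a ha hc => t.dCS a hc ha
    have hna : ∀ c ∈ C, ¬ G.Adj v c := fun c hc h => hvA (t.nbC ⟨hvC, c, hc, h.symm⟩)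
    have hm : ∀ j, lo < j → j ≤ H → s j ∈ Ms G S y \ Ms G S x := by
      intro j hj1 hj2
      have hS := t.lev.1 j (by omega) (by omega)
      refine ⟨⟨hS, ?_⟩, fun h => h.2 ?_⟩
      · rw [(t.lev.2.2.2 y (t.dCS y t.hy)).2 j (by omega) (by omega), t.ly]
        omega
      · rw [(t.lev.2.2.2 x (t.dCS x t.hx)).2 j (by omega) (by omega), t.lx]
        exact hj1
    have hmv : ∀ j, 1 ≤ j → j ≤ l v → s j ∈ Ms G S v := by
      intro j hj1 hj2
      have hlv := (t.lev.2.2.2 v hv).1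
      refine ⟨t.lev.1 j hj1 (by omega), ?_⟩
      rw [(t.lev.2.2.2 v hv).2 j hj1 (by omega)]
      omega
    rcases h4 V G S C x y v t.cls t.cS t.cC hdCS t.hx t.hy hv hvC hna with h | h
    · rw [Set.ncard_le_one (Set.toFinite _)] at h
      have h1 := h (s (lo + 1)) ⟨hmv _ (by omega) (by omega), hm _ (by omega) (by omega)⟩
        (s (lo + 2)) ⟨hmv _ (by omega) (by omega), hm _ (by omega) (by omega)⟩
      have := t.lev.2.1 _ _ (by omega) (by omega) (by omega) (by omega) h1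
      omega
    · have h1 := (h (hm H (by omega) le_rfl)).2
      rw [(t.lev.2.2.2 v hv).2 H (by omega) (by omega)] at h1
      omega

/-- levels in `B` -/
theorem Sit.lB (h4 : S_B3) (h5 : S_C5) (t : Sit G S C A B n m lo H s l x z y) (b : V) (hb : b ∈ B)
    (hbS : b ∉ S) : l b ≤ lo + 1 := by
  have := t.lo1
  have := t.hH
  have := t.Hn
  have hbC : b ∉ C := fun h => Set.disjoint_left.1 t.dCB h hb
  rcases t.out h4 b hbS hbC with h | hbH
  · exact h
  exfalso
  obtain ⟨v, hv1, hv2, hv3⟩ := h5 V G S n m s l t.cS t.lev t.unb (by omega) (lo + 1) (by omega)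
  by_cases hvC : v ∈ C
  · have hvA : v ∉ A := fun h => Set.disjoint_left.1 t.dAC h hvC
    have hvB : v ∉ B := fun h => Set.disjoint_left.1 t.dCB hvC h
    have hna : ∀ c ∈ B, ¬ G.Adj v c := fun c hc h => t.nt ⟨v, hvC, c, hc, h⟩
    have hm : ∀ j, lo < j → j ≤ l b → s j ∈ Ms G A b \ Ms G A z := by
      intro j hj1 hj2
      have hlb := (t.lev.2.2.2 b hbS).1
      have hA : s j ∈ A := (t.sA j (by omega) (by omega)).2 hj1
      refine ⟨⟨hA, ?_⟩, fun h => h.2 (t.hzA _ hA)⟩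
      rw [(t.lev.2.2.2 b hbS).2 j (by omega) (by omega)]
      omega
    have hmv : ∀ j, lo < j → j ≤ l v → s j ∈ Ms G A v := by
      intro j hj1 hj2
      have hlv := (t.lev.2.2.2 v hv1).1
      refine ⟨(t.sA j (by omega) (by omega)).2 hj1, ?_⟩
      rw [(t.lev.2.2.2 v hv1).2 j (by omega) (by omega)]
      omega
    rcases h4 V G A B z b v t.cls t.cA t.cB t.dAB t.hz hb hvA hvB hna with h | h
    · rw [Set.ncard_le_one (Set.toFinite _)] at h
      have h1 := h (s (lo + 1)) ⟨hmv _ (by omega) (by omega), hm _ (by omega) (by omega)⟩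
        (s (lo + 2)) ⟨hmv _ (by omega) (by omega), hm _ (by omega) (by omega)⟩
      have := t.lev.2.1 _ _ (by omega) (by omega) (by omega) (by omega) h1
      omega
    · have h1 := (h (hm H (by omega) hbH)).2
      rw [(t.lev.2.2.2 v hv1).2 H (by omega) (by omega)] at h1
      omega
  · rcases t.out h4 v hv1 hvC with h | h <;> omega

/-- second alternative of C8 -/
theorem Sit.second (h4 : S_B3) (h5 : S_C5) (h6 : S_C7) (t : Sit G S C A B n m lo H s l x z y)
    (h : ∀ c ∈ B, ∀ c' ∈ B, Ms G A c ⊆ Ms G A c' ∨ Ms G A c' ⊆ Ms G A c) : False := by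
  have := t.lo1
  have := t.hH
  have := t.Hn
  obtain ⟨E, hER, hE, hcr⟩ := h6 V G A B ∅ z t.cls t.cA t.cB t.dAB (Set.empty_disjoint _)
    (Set.disjoint_empty _) (fun a ha => Or.inl (t.nbB ha)) (by rw [Set.ncard_empty]; omega)
    t.hz t.hzA h
  set R : Set V := {a | a ∈ A ∧ ∃ c ∈ B, ¬ G.Adj c a} with hR
  refine t.low (B ∪ (R \ E)) (by omega) (fun j hj1 hj2 => Or.inl (t.sB j hj1 hj2)) ?_
  intro j hj1 hj2 hj3
  have hjS := t.lev.1 j (by omega) hj2
  have hjA : s j ∈ A := (t.sA j (by omega) hj2).2 (by omega)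
  rcases hj3 with hj3 | ⟨⟨-, b, hb, hj4⟩, -⟩
  · exact Set.disjoint_left.1 t.dAB hjA hj3
  · by_cases hbS : b ∈ S
    · refine hj4 (t.cS b hbS (s j) hjS ?_)
      rintro rfl
      exact Set.disjoint_left.1 t.dAB hjA hb
    · have h7 := t.lB h4 h5 b hb hbS
      rw [(t.lev.2.2.2 b hbS).2 j (by omega) hj2] at hj4
      omega

end

end C9Aux

open C9Aux in
theorem c9 (h1 : S_A0) (h2 : S_A1) (h3 : S_A7) (h4 : S_B3) (h5 : S_C5) (h6 : S_C7) (h7 : S_C8) :
    S_C9 := by
  intro V _ G S C n m i lo h s l hG hS hL hU hi hC hlo hxlo hyh hm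
  by_contra hcon
  push Not at hcon
  obtain ⟨hCsub, hCc, hCn⟩ := hC
  obtain ⟨c₀, hc₀, hlc₀⟩ := hxlo
  obtain ⟨c₁, hc₁, hlc₁⟩ := hyh
  -- the largest level
  obtain ⟨y, hy, hymax⟩ : ∃ y ∈ C, ∀ c ∈ C, l c ≤ l y :=
    Set.exists_max_image C l (Set.toFinite _) ⟨c₀, hc₀⟩
  have hdCS : ∀ c ∈ C, c ∉ S := fun c hc => (hCsub hc).1
  have hilo : i ≤ lo := by
    have := (hCsub hc₀).2
    omega
  have hHh : h ≤ l y := by
    have := hymax c₁ hc₁
    omega
  have hyn : l y ≤ n := (hL.2.2.2 y (hdCS y hy)).1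
  have hAC : Disjoint (nb G C) C := Set.disjoint_left.2 fun a ha hc => ha.1 hc
  have hsA : ∀ j, 1 ≤ j → j ≤ n → (s j ∈ nb G C ↔ lo < j) := by
    intro j hj1 hj2
    constructor
    · rintro ⟨-, c, hc, hadj⟩
      rw [(hL.2.2.2 c (hdCS c hc)).2 j hj1 hj2] at hadj
      have := hlo c hc
      omega
    · intro hj
      refine ⟨fun hc => hdCS _ hc (hL.1 j hj1 hj2), c₀, hc₀, ?_⟩
      rw [(hL.2.2.2 c₀ (hdCS c₀ hc₀)).2 j hj1 hj2]
      omega
  have hlA : ∀ a ∈ nb G C, a ∉ S → l a < i := by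
    intro a ha haS
    by_contra h8
    push Not at h8
    exact hCn a ⟨haS, h8⟩ ha
  have hsiC : ∀ c ∈ C, ∀ j, 1 ≤ j → j ≤ lo → ¬ G.Adj c (s j) := by
    intro c hc j hj1 hj2 hadj
    rw [(hL.2.2.2 c (hdCS c hc)).2 j hj1 (by omega)] at hadj
    have := hlo c hc
    omega
  have haS : ∀ a ∈ nb G C, a ∉ S → ∀ j, i ≤ j → j ≤ n → G.Adj a (s j) := by
    intro a ha haS j hj1 hj2
    rw [(hL.2.2.2 a haS).2 j (by omega) hj2]
    have := hlA a ha haS
    omega
  have hcA : CompleteOn G (nb G C) := by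
    intro a ha a' ha' hne
    by_cases haS1 : a ∈ S
    · by_cases haS2 : a' ∈ S
      · exact hS a haS1 a' haS2 hne
      · obtain ⟨j, hj1, hj2, rfl⟩ := hL.2.2.1 a haS1
        have := (hsA j hj1 hj2).1 ha
        exact (haS a' ha' haS2 j (by omega) hj2).symm
    · by_cases haS2 : a' ∈ S
      · obtain ⟨j, hj1, hj2, rfl⟩ := hL.2.2.1 a' haS2
        have := (hsA j hj1 hj2).1 ha'
        exact haS a ha haS1 j (by omega) hj2
      · by_contra hna
        have hsS : s i ∈ S := hL.1 i hi (by omega)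
        refine hG.1 (h1 V G {a} C {a'} {s i} (Conn.singleton G a) hCc (Conn.singleton G a')
          (Conn.singleton G (s i)) ?_ ?_ ?_ ?_ ?_ ?_ ?_ ?_ ?_ ?_ ?_ ?_)
        · exact Set.disjoint_singleton_left.2 ha.1
        · exact Set.disjoint_singleton.2 hne
        · refine Set.disjoint_singleton.2 ?_
          rintro rfl
          exact haS1 hsS
        · exact Set.disjoint_singleton_right.2 ha'.1
        · exact Set.disjoint_singleton_right.2 fun h => hdCS _ h hsS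
        · refine Set.disjoint_singleton.2 ?_
          rintro rfl
          exact haS2 hsS
        · obtain ⟨-, c, hc, hadj⟩ := ha
          exact ⟨a, rfl, c, hc, hadj.symm⟩
        · obtain ⟨-, c, hc, hadj⟩ := ha'
          exact ⟨c, hc, a', rfl, hadj⟩
        · exact ⟨a', rfl, s i, rfl, haS a' ha' haS2 i le_rfl (by omega)⟩
        · exact ⟨a, rfl, s i, rfl, haS a ha haS1 i le_rfl (by omega)⟩
        · rintro ⟨_, rfl, _, rfl, hadj⟩
          exact hna hadj
        · rintro ⟨c, hc, _, rfl, hadj⟩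
          exact hsiC c hc i hi hilo hadj
  obtain ⟨x, hx, hxA⟩ := h3 V G (nb G C) C hG.1 hCc hcA hAC (fun a ha => ha)
  have hlx : l x = lo := by
    have h8 := hxA (s (lo + 1)) ((hsA (lo + 1) (by omega) (by omega)).2 (by omega))
    rw [(hL.2.2.2 x (hdCS x hx)).2 (lo + 1) (by omega) (by omega)] at h8
    have := hlo x hx
    omega
  have hzA : s lo ∈ (nb G C)ᶜ := by
    intro h8
    have := (hsA lo (by omega) (by omega)).1 h8
    omega
  have hzadj : ∀ a ∈ nb G C, G.Adj (s lo) a := by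
    intro a ha
    by_cases haS1 : a ∈ S
    · refine hS _ (hL.1 lo (by omega) (by omega)) a haS1 ?_
      rintro rfl
      exact hzA ha
    · exact (haS a ha haS1 lo hilo (by omega)).symm
  obtain ⟨B, hBsub, hzB, hBc, hBn⟩ := exists_comp G hzA
  have hdAB : Disjoint (nb G C) B := Set.disjoint_left.2 fun a ha hb => hBsub hb ha
  have hdCB : Disjoint C B := by
    rw [Set.disjoint_iff_inter_eq_empty, Set.eq_empty_iff_forall_notMem]
    intro c hc
    have h8 : C ∩ B = B := by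
      refine Conn.eq_of_nb hBc Set.inter_subset_right ⟨c, hc⟩ ?_
      rintro v hv ⟨hv1, w, hw, hadj⟩
      exact hBsub hv ⟨fun hvC => hv1 ⟨hvC, hv⟩, w, hw.1, hadj⟩
    have h9 : s lo ∈ C ∩ B := by
      rw [h8]
      exact hzB
    exact hdCS _ h9.1 (hL.1 lo (by omega) (by omega))
  have t : Sit G S C (nb G C) B n m lo (l y) s l x (s lo) y :=
    { cls := hG
      cS := hS
      lev := hL
      unb := hU
      lo1 := hm
      hH := by omega
      Hn := hyn
      cA := hcA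
      cC := hCc
      cB := hBc
      dAC := hAC
      dAB := hdAB
      dCB := hdCB
      nt := by
        rintro ⟨c, hc, b, hb, hadj⟩
        exact hBsub hb ⟨fun h => Set.disjoint_left.1 hdCB h hb, c, hc, hadj⟩
      hx := hx
      hxA := hxA
      hz := hzB
      hzA := hzadj
      nbC := fun a ha => ha
      nbB := by
        intro u hu
        by_contra h8
        exact hBn u h8 hu
      sA := hsA
      sB := by
        intro j hj1 hj2
        by_contra h8
        have h9 : s j ∈ (nb G C)ᶜ := by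
          intro h10
          have := (hsA j hj1 (by omega)).1 h10
          omega
        refine hBn (s j) h9 ⟨h8, s lo, hzB, ?_⟩
        refine hS _ (hL.1 lo (by omega) (by omega)) _ (hL.1 j hj1 (by omega)) ?_
        intro h10
        exact h8 (h10 ▸ hzB)
      dCS := hdCS
      lA := fun a ha haS1 => by
        have := hlA a ha haS1
        omega
      lC := hlo
      hy := hy
      ly := rfl
      lx := hlx }
  rcases h7 V G (nb G C) C B x (s lo) hG hcA hCc hBc hAC hdAB hdCB t.nt hx hxA hzB hzadj with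
    ⟨I, hI, hI2, h8⟩ | h8 | ⟨Y, Y', h8⟩
  · exact t.first h6 I hI hI2 h8
  · exact t.second h4 h5 h6 h8
  · exact t.third h2 Y Y' h8

end Pool.Agent.MPd439b2.LK
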