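import Pool.Agent.Lib.MP_d439b2_co.L4.Spec2

/-!
# MP_d439b2_co, L4: T1, the set `tA ∪ tB ∪ tCm` is independent
-/

set_option autoImplicit false

namespace Pool.Agent.MPd439b2.LK

open Pool.Agent.MPd439b2

namespace T1aux

variable {V : Type} [Finite V] {G : SimpleGraph V} {S : Set V}

/-- two vertices with disjoint nonempty traces are not adjacent -/
lemma disj (h1 : S_B1) (hC : Cls G) (hS : CompleteOn G S) {u v : V} (hu : u ∉ S) (hv : v ∉ S)
    (hun : (Ms G S u).Nonempty) (hvn : (Ms G S v).Nonempty)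
    (hd : Disjoint (Ms G S u) (Ms G S v)) : ¬ G.Adj u v := by
  intro hadj
  obtain ⟨x, hx⟩ := hun
  obtain ⟨y, hy⟩ := hvn
  rw [Set.disjoint_left] at hd
  rcases h1 V G S u v hC hS hu hv with h | h | h
  · exact hd hx (h hx)
  · exact hd (h hy) hy
  · exact h.1 hadj

/-- adjacent vertices outside the clique have nested traces -/
lemma nest (h1 : S_B1) (hC : Cls G) (hS : CompleteOn G S) {u v : V} (hu : u ∉ S) (hv : v ∉ S)
    (hadj : G.Adj u v) : Ms G S u ⊆ Ms G S v ∨ Ms G S v ⊆ Ms G S u := by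
  rcases h1 V G S u v hC hS hu hv with h | h | h
  · exact Or.inl h
  · exact Or.inr h
  · exact absurd hadj h.1

/-- the rule PAD for four traces -/
lemma pad (h1 : S_B1) (h2 : S_B2) (hC : Cls G) (hS : CompleteOn G S) {p q u w : V}
    (hp : p ∉ S) (hq : q ∉ S) (hu : u ∉ S) (hw : w ∉ S)
    (hpn : (Ms G S p).Nonempty) (hqn : (Ms G S q).Nonempty)
    (hun : (Ms G S u).Nonempty) (hwn : (Ms G S w).Nonempty)
    (hpq : Disjoint (Ms G S p) (Ms G S q))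
    (hup : Disjoint (Ms G S u) (Ms G S p)) (huq : Disjoint (Ms G S u) (Ms G S q))
    (hwp : Disjoint (Ms G S w) (Ms G S p)) (hwq : Disjoint (Ms G S w) (Ms G S q)) :
    ¬ G.Adj u w := by
  obtain ⟨a, ha⟩ := hpn
  obtain ⟨a', ha'⟩ := hqn
  have hpn : (Ms G S p).Nonempty := ⟨a, ha⟩
  have hqn : (Ms G S q).Nonempty := ⟨a', ha'⟩
  have haq : a ∉ Ms G S q := fun h => (Set.disjoint_left.1 hpq) ha h
  have hap' : a' ∉ Ms G S p := fun h => (Set.disjoint_left.1 hpq) h ha'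
  have hne : a ≠ a' := by
    rintro rfl
    exact haq ha'
  have key : ∀ (v c : V), c ∈ S → c ∉ Ms G S v → G.Adj v c := by
    intro v c hc hcv
    by_contra hn
    exact hcv ⟨hc, hn⟩
  exact h2 V G p q a a' u w hC (hS a ha.1 a' ha'.1 hne) (key q a ha.1 haq) ha.2
    (key p a' ha'.1 hap') ha'.2 (disj h1 hC hS hp hq hpn hqn hpq)
    (key u a ha.1 fun h => (Set.disjoint_left.1 hup) h ha)
    (key u a' ha'.1 fun h => (Set.disjoint_left.1 huq) h ha')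
    (key w a ha.1 fun h => (Set.disjoint_left.1 hwp) h ha)
    (key w a' ha'.1 fun h => (Set.disjoint_left.1 hwq) h ha')
    (disj h1 hC hS hu hp hun hpn hup) (disj h1 hC hS hu hq hun hqn huq)
    (disj h1 hC hS hw hp hwn hpn hwp) (disj h1 hC hS hw hq hwn hqn hwq)

end T1aux

open T1aux in
/-- **T1.** -/
theorem t1 (h1 : S_B1) (h2 : S_B2) : S_T1 := by
  intro V _ G S N k n hT
  obtain ⟨hC, hS, -, hNS, -, hk, hn, hkd, hnd⟩ := hT
  have hNn : N.Nonempty := by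
    obtain ⟨x, hx⟩ := (hk 0).2.1
    exact ⟨x, (hk 0).2.2 hx⟩
  have hsub : ∀ {A B C D : Set V}, A ⊆ C → B ⊆ D → Disjoint C D → Disjoint A B :=
    fun h h' hd => Set.disjoint_of_subset h h' hd
  have hNd : Disjoint N (S \ N) := by
    rw [Set.disjoint_left]
    intro x hx hx'
    exact hx'.2 hx
  -- the six cases
  have hAA : ∀ u ∈ tA G S N, ∀ w ∈ tA G S N, ¬ G.Adj u w := by
    rintro u ⟨huS, hun, huN⟩ w ⟨hwS, hwn, hwN⟩
    exact pad h1 h2 hC hS (hn 0).1 (hn 1).1 huS hwS (hn 0).2.1 (hn 1).2.1 hun hwn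
      (hnd 0 1 (by decide)) (hsub huN (hn 0).2.2 hNd) (hsub huN (hn 1).2.2 hNd)
      (hsub hwN (hn 0).2.2 hNd) (hsub hwN (hn 1).2.2 hNd)
  have hBB : ∀ u ∈ tB G S N, ∀ w ∈ tB G S N, ¬ G.Adj u w := by
    rintro u ⟨huS, hun, huN⟩ w ⟨hwS, hwn, hwN⟩
    exact pad h1 h2 hC hS (hk 0).1 (hk 1).1 huS hwS (hk 0).2.1 (hk 1).2.1 hun hwn
      (hkd 0 1 (by decide)) (hsub huN (hk 0).2.2 hNd.symm) (hsub huN (hk 1).2.2 hNd.symm)
      (hsub hwN (hk 0).2.2 hNd.symm) (hsub hwN (hk 1).2.2 hNd.symm)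
  have hAB : ∀ u ∈ tA G S N, ∀ w ∈ tB G S N, ¬ G.Adj u w := by
    rintro u ⟨huS, hun, huN⟩ w ⟨hwS, hwn, hwN⟩
    exact disj h1 hC hS huS hwS hun hwn (hsub huN hwN hNd)
  have hCn : ∀ w ∈ tCm G S N n, w ∉ S ∧ (Ms G S w).Nonempty := by
    rintro w ⟨⟨hwS, hNw, hwN⟩, -⟩
    exact ⟨hwS, hNn.mono hNw⟩
  have hAC : ∀ u ∈ tA G S N, ∀ w ∈ tCm G S N n, ¬ G.Adj u w := by
    rintro u ⟨huS, hun, huN⟩ w hw
    obtain ⟨hwS, hwn⟩ := hCn w hw
    obtain ⟨-, i, j, hij, hi, hj⟩ := hw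
    exact pad h1 h2 hC hS (hn i).1 (hn j).1 huS hwS (hn i).2.1 (hn j).2.1 hun hwn
      (hnd i j hij) (hsub huN (hn i).2.2 hNd) (hsub huN (hn j).2.2 hNd) hi hj
  have hsm : ∀ u w, u ∉ S → (Ms G S u).Nonempty → w ∈ tCm G S N n → Ms G S u ⊆ Ms G S w →
      ¬ G.Adj u w := by
    intro u w huS hun hw huw
    obtain ⟨hwS, hwn⟩ := hCn w hw
    obtain ⟨-, i, j, hij, hi, hj⟩ := hw
    exact pad h1 h2 hC hS (hn i).1 (hn j).1 huS hwS (hn i).2.1 (hn j).2.1 hun hwn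
      (hnd i j hij) (hsub huw (subset_refl _) hi) (hsub huw (subset_refl _) hj) hi hj
  have hCC : ∀ u ∈ tCm G S N n, ∀ w ∈ tCm G S N n, ¬ G.Adj u w := by
    intro u hu w hw hadj
    rcases nest h1 hC hS (hCn u hu).1 (hCn w hw).1 hadj with h | h
    · exact hsm u w (hCn u hu).1 (hCn u hu).2 hw h hadj
    · exact hsm w u (hCn w hw).1 (hCn w hw).2 hu h hadj.symm
  have hBC : ∀ u ∈ tB G S N, ∀ w ∈ tCm G S N n, ¬ G.Adj u w := by
    rintro u ⟨huS, hun, huN⟩ w hw hadj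
    rcases nest h1 hC hS huS (hCn w hw).1 hadj with h | h
    · exact hsm u w huS hun hw h hadj
    · obtain ⟨x, hx⟩ := hNn
      exact (huN (h (hw.1.2.1 hx))).2 hx
  rintro u ((hu | hu) | hu) w ((hw | hw) | hw)
  · exact hAA u hu w hw
  · exact hAB u hu w hw
  · exact hAC u hu w hw
  · exact fun h => hAB w hw u hu h.symm
  · exact hBB u hu w hw
  · exact hBC u hu w hw
  · exact fun h => hAC w hw u hu h.symm
  · exact fun h => hBC w hw u hu h.symm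
  · exact hCC u hu w hw

end Pool.Agent.MPd439b2.LK
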