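import Pool.Agent.Lib.MP_d439b2_co.L4.Spec2

/-!
# MP_d439b2_co, column `C_4`: T2, the vertices with empty trace
-/

set_option autoImplicit false

namespace Pool.Agent.MPd439b2.LK

open Pool.Agent.MPd439b2

/-- an element of the clique which is not in the trace is adjacent -/
theorem t2_adj {V : Type} {G : SimpleGraph V} {S : Set V} {v s : V} (hs : s ∈ S)
    (h : s ∉ Ms G S v) : G.Adj v s := by
  by_contra h'
  exact h ⟨hs, h'⟩

/-- the rule PAD for traces -/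
theorem t2_pad (hB : S_B2) {V : Type} {G : SimpleGraph V} {S : Set V} {p q g g' a a' : V}
    (hcls : Cls G) (hS : CompleteOn G S) (hap : a ∈ Ms G S p) (haq : a ∉ Ms G S q)
    (hag : a ∉ Ms G S g) (hag' : a ∉ Ms G S g') (ha'q : a' ∈ Ms G S q) (ha'p : a' ∉ Ms G S p)
    (ha'g : a' ∉ Ms G S g) (ha'g' : a' ∉ Ms G S g') (hpq : ¬ G.Adj p q) (hgp : ¬ G.Adj g p)
    (hgq : ¬ G.Adj g q) (hgp' : ¬ G.Adj g' p) (hgq' : ¬ G.Adj g' q) : ¬ G.Adj g g' := by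
  refine hB V G p q a a' g g' hcls (hS a hap.1 a' ha'q.1 ?_) (t2_adj hap.1 haq) hap.2
    (t2_adj ha'q.1 ha'p) ha'q.2 hpq (t2_adj hap.1 hag) (t2_adj ha'q.1 ha'g) (t2_adj hap.1 hag')
    (t2_adj ha'q.1 ha'g') hgp hgq hgp' hgq'
  rintro rfl
  exact haq ha'q

/-- at most one of four disjoint sets contains a nonempty set -/
theorem t2_one {α : Type} {M : Set α} {t : Fin 4 → Set α} (hM : M.Nonempty)
    (hd : ∀ i j, i ≠ j → Disjoint (t i) (t j)) : ∃ i₀, ∀ i, M ⊆ t i → i = i₀ := by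
  by_cases h : ∃ i, M ⊆ t i
  · obtain ⟨i₀, hi₀⟩ := h
    refine ⟨i₀, fun i hi => ?_⟩
    by_contra hne
    obtain ⟨x, hx⟩ := hM
    exact Set.disjoint_left.1 (hd i i₀ hne) (hi hx) (hi₀ hx)
  · exact ⟨0, fun i hi => absurd ⟨i, hi⟩ h⟩

theorem t2_fin2 : ∀ a b : Fin 4, ∃ j j' : Fin 4, j ≠ j' ∧ j ≠ a ∧ j ≠ b ∧ j' ≠ a ∧ j' ≠ b := by
  decide

theorem t2_fin1 : ∀ a b : Fin 4, ∃ j : Fin 4, j ≠ a ∧ j ≠ b := by
  decide

section

variable {V : Type} {G : SimpleGraph V} {S N : Set V} {k n : Fin 4 → V}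

theorem t2_k (h : TSet G S N k n) (i : Fin 4) : k i ∈ tA G S N ∪ tB G S N :=
  Or.inl (h.2.2.2.2.2.1 i)

theorem t2_n (h : TSet G S N k n) (i : Fin 4) : n i ∈ tA G S N ∪ tB G S N :=
  Or.inr (h.2.2.2.2.2.2.1 i)

theorem t2_ne {w : V} (h : w ∈ tA G S N ∪ tB G S N) : (Ms G S w).Nonempty := by
  rcases h with h | h
  · exact h.2.1
  · exact h.2.1

/-- step (a) -/
theorem t2_a [Finite V] (h2 : S_B2) (h3 : S_T1) (h : TSet G S N k n) {f w w' u : V}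
    (hf : f ∈ tF G S) (hw : w ∈ tA G S N ∪ tB G S N) (hw' : w' ∈ tA G S N ∪ tB G S N)
    (hu : u ∈ tA G S N ∪ tB G S N) (hwf : ¬ G.Adj w f) (hwf' : ¬ G.Adj w' f)
    (huf : G.Adj u f) (hd : Disjoint (Ms G S w) (Ms G S w')) :
    Ms G S w ⊆ Ms G S u ∨ Ms G S w' ⊆ Ms G S u := by
  by_contra hcon
  push Not at hcon
  obtain ⟨hc1, hc2⟩ := hcon
  rw [Set.not_subset] at hc1 hc2
  obtain ⟨a, ha, hau⟩ := hc1
  obtain ⟨a', ha', hau'⟩ := hc2
  have hT := h3 V G S N k n h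
  have hfe : Ms G S f = ∅ := hf.2
  refine t2_pad h2 h.1 h.2.1 ha (fun h' => Set.disjoint_left.1 hd ha h') ?_ hau ha'
    (fun h' => Set.disjoint_left.1 hd h' ha') ?_ hau' (hT w (Or.inl hw) w' (Or.inl hw'))
    (fun h' => hwf h'.symm) (fun h' => hwf' h'.symm) (hT u (Or.inl hu) w (Or.inl hw))
    (hT u (Or.inl hu) w' (Or.inl hw')) huf.symm
  · rw [hfe]
    exact Set.notMem_empty a
  · rw [hfe]
    exact Set.notMem_empty a'

/-- two of the four vertices are not adjacent to `f` -/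
theorem t2_b [Finite V] (h2 : S_B2) (h3 : S_T1) (h : TSet G S N k n) {f w w' : V} {t : Fin 4 → V}
    (ht : ∀ i, t i ∈ tA G S N ∪ tB G S N)
    (htd : ∀ i j, i ≠ j → Disjoint (Ms G S (t i)) (Ms G S (t j)))
    (hf : f ∈ tF G S) (hw : w ∈ tA G S N ∪ tB G S N) (hw' : w' ∈ tA G S N ∪ tB G S N)
    (hwf : ¬ G.Adj w f) (hwf' : ¬ G.Adj w' f) (hd : Disjoint (Ms G S w) (Ms G S w')) :
    ∃ j j', j ≠ j' ∧ ¬ G.Adj (t j) f ∧ ¬ G.Adj (t j') f := by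
  obtain ⟨i₁, hi₁⟩ := t2_one (t := fun i => Ms G S (t i)) (t2_ne hw) htd
  obtain ⟨i₂, hi₂⟩ := t2_one (t := fun i => Ms G S (t i)) (t2_ne hw') htd
  have key : ∀ i, i ≠ i₁ → i ≠ i₂ → ¬ G.Adj (t i) f := by
    intro i h4 h5 h6
    rcases t2_a h2 h3 h hf hw hw' (ht i) hwf hwf' h6 hd with h7 | h7
    · exact h4 (hi₁ i h7)
    · exact h5 (hi₂ i h7)
  obtain ⟨j, j', hjj, hj1, hj2, hj1', hj2'⟩ := t2_fin2 i₁ i₂
  exact ⟨j, j', hjj, key j hj1 hj2, key j' hj1' hj2'⟩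

/-- step (1) -/
theorem t2_1 [Finite V] (h2 : S_B2) (h3 : S_T1) (h : TSet G S N k n) {f w w' : V}
    (hf : f ∈ tQ G S N) (hw : w ∈ tA G S N ∪ tB G S N) (hw' : w' ∈ tA G S N ∪ tB G S N)
    (hwf : ¬ G.Adj w f) (hwf' : ¬ G.Adj w' f) : ¬ Disjoint (Ms G S w) (Ms G S w') := by
  intro hd
  obtain ⟨hfF, hf0⟩ := hf
  apply hf0
  refine ⟨hfF, fun u hu huf => ?_⟩
  obtain ⟨-, hS, -, hNS, -, hk, hn, hkk, hnn⟩ := id h
  obtain ⟨j, j', hjj, hj, hj'⟩ := t2_b h2 h3 h (t2_k h) hkk hfF hw hw' hwf hwf' hd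
  obtain ⟨l, l', hll, hl, hl'⟩ := t2_b h2 h3 h (t2_n h) hnn hfF hw hw' hwf hwf' hd
  have e1 : ∃ x ∈ N, x ∈ Ms G S u := by
    rcases t2_a h2 h3 h hfF (t2_k h j) (t2_k h j') hu hj hj' huf (hkk j j' hjj) with h7 | h7
    · obtain ⟨x, hx⟩ := (hk j).2.1
      exact ⟨x, (hk j).2.2 hx, h7 hx⟩
    · obtain ⟨x, hx⟩ := (hk j').2.1
      exact ⟨x, (hk j').2.2 hx, h7 hx⟩
  have e2 : ∃ x ∈ S \ N, x ∈ Ms G S u := by
    rcases t2_a h2 h3 h hfF (t2_n h l) (t2_n h l') hu hl hl' huf (hnn l l' hll) with h7 | h7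
    · obtain ⟨x, hx⟩ := (hn l).2.1
      exact ⟨x, (hn l).2.2 hx, h7 hx⟩
    · obtain ⟨x, hx⟩ := (hn l').2.1
      exact ⟨x, (hn l').2.2 hx, h7 hx⟩
  rcases hu with hu | hu
  · obtain ⟨x, hx, hxu⟩ := e2
    exact hx.2 (hu.2.2 hxu)
  · obtain ⟨x, hx, hxu⟩ := e1
    exact (hu.2.2 hxu).2 hx

/-- `f` in `tQ` misses at most one of four vertices with disjoint traces -/
theorem t2_miss [Finite V] (h2 : S_B2) (h3 : S_T1) (h : TSet G S N k n) {f : V} {t : Fin 4 → V}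
    (ht : ∀ i, t i ∈ tA G S N ∪ tB G S N)
    (htd : ∀ i j, i ≠ j → Disjoint (Ms G S (t i)) (Ms G S (t j)))
    (hf : f ∈ tQ G S N) : ∃ i₀, ∀ i, i ≠ i₀ → G.Adj (t i) f := by
  by_cases hex : ∃ i, ¬ G.Adj (t i) f
  · obtain ⟨i₀, hi₀⟩ := hex
    refine ⟨i₀, fun i hi => ?_⟩
    by_contra hcon
    exact t2_1 h2 h3 h hf (ht i) (ht i₀) hcon hi₀ (htd i i₀ hi)
  · push Not at hex
    exact ⟨0, fun i _ => hex i⟩

end

theorem t2 (h1 : S_A0) (h2 : S_B2) (h3 : S_T1) : S_T2 := by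
  intro V _ G S N k n h
  have hT := h3 V G S N k n h
  obtain ⟨hcls, hS, -, hNS, -, hk, hn, hkk, hnn⟩ := id h
  refine ⟨fun f hf w hw w' hw' hwf hwf' => t2_1 h2 h3 h hf hw hw' hwf hwf', ?_, ?_, ?_⟩
  · intro f hf f' hf' hne
    by_contra hff
    obtain ⟨i₀, hi₀⟩ := t2_miss h2 h3 h (t2_k h) hkk hf
    obtain ⟨i₁, hi₁⟩ := t2_miss h2 h3 h (t2_k h) hkk hf'
    obtain ⟨i, hi0, hi1⟩ := t2_fin1 i₀ i₁
    obtain ⟨s, hs⟩ := (hk i).2.1
    have hfS : f ∉ S := hf.1.1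
    have hfS' : f' ∉ S := hf'.1.1
    have a1 : G.Adj (k i) f := hi₀ i hi0
    have a2 : G.Adj (k i) f' := hi₁ i hi1
    have a3 : G.Adj f s := by
      refine t2_adj hs.1 ?_
      rw [hf.1.2]
      exact Set.notMem_empty s
    have a4 : G.Adj f' s := by
      refine t2_adj hs.1 ?_
      rw [hf'.1.2]
      exact Set.notMem_empty s
    apply hcls.1
    refine h1 V G {f} {k i} {f'} {s} (Conn.singleton G _) (Conn.singleton G _)
      (Conn.singleton G _) (Conn.singleton G _) (Set.disjoint_singleton.2 a1.ne')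
      (Set.disjoint_singleton.2 hne) (Set.disjoint_singleton.2 a3.ne)
      (Set.disjoint_singleton.2 a2.ne) (Set.disjoint_singleton.2 ?_)
      (Set.disjoint_singleton.2 a4.ne) ⟨f, rfl, k i, rfl, a1.symm⟩ ⟨k i, rfl, f', rfl, a2⟩
      ⟨f', rfl, s, rfl, a4⟩ ⟨f, rfl, s, rfl, a3⟩ ?_ ?_
    · rintro rfl
      exact (hk i).1 hs.1
    · rintro ⟨b, rfl, c, rfl, hbc⟩
      exact hff hbc
    · rintro ⟨b, rfl, c, rfl, hbc⟩
      exact hs.2 hbc
  · intro e he w hw hew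
    have heF : Ms G S e = ∅ := he.1.2
    have hen : ∀ i, ¬ G.Adj e (n i) := fun i h' => he.2 (n i) (t2_n h i) h'.symm
    have emp : ∀ x, x ∉ Ms G S e := by
      intro x
      rw [heF]
      exact Set.notMem_empty x
    have key : ∀ i j, i ≠ j → Disjoint (Ms G S w) (Ms G S (n i)) →
        Disjoint (Ms G S w) (Ms G S (n j)) → (∀ l, ¬ G.Adj w (n l)) → False := by
      intro i j hij hi hj hl
      obtain ⟨a, ha⟩ := (hn i).2.1
      obtain ⟨a', ha'⟩ := (hn j).2.1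
      have hd := hnn i j hij
      exact t2_pad h2 hcls hS ha (fun h' => Set.disjoint_left.1 hd ha h') (emp a)
        (fun h' => Set.disjoint_left.1 hi h' ha) ha' (fun h' => Set.disjoint_left.1 hd h' ha')
        (emp a') (fun h' => Set.disjoint_left.1 hj h' ha')
        (hT (n i) (Or.inl (t2_n h i)) (n j) (Or.inl (t2_n h j))) (hen i) (hen j) (hl i) (hl j)
        hew
    rcases hw with hw | hw | hw
    · have hwe : Ms G S w = ∅ := hw.1.2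
      refine key 0 1 (by decide) ?_ ?_ (fun l h' => hw.2 (n l) (t2_n h l) h'.symm)
      · rw [hwe]
        exact Set.empty_disjoint _
      · rw [hwe]
        exact Set.empty_disjoint _
    · exact he.2 w hw hew.symm
    · obtain ⟨i, j, hij, hi, hj⟩ := hw.2
      exact key i j hij hi hj (fun l => hT w (Or.inr hw) (n l) (Or.inl (t2_n h l)))
  · intro f hf w hw
    obtain ⟨hfQ, u, hu, huf⟩ := hf
    by_contra hcon
    refine t2_1 h2 h3 h hfQ (Or.inl hu) (Or.inr hw) huf (fun h' => hcon h'.symm) ?_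
    rw [Set.disjoint_left]
    intro x hx hx'
    exact (hw.2.2 hx').2 (hu.2.2 hx)

end Pool.Agent.MPd439b2.LK
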