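import Pool.Agent.Lib.MP_d439b2_co.L4.Spec2

/-!
# MP_d439b2_co, column `C_4`: T3, the set `tFA`
-/

set_option autoImplicit false

namespace Pool.Agent.MPd439b2.LK

open Pool.Agent.MPd439b2

/-- B0 for six vertices: `b, c, d, p` form a clique, `x` is adjacent only to `p`, `y` only to `b` -/
theorem t3_six (h1 : S_B0) {V : Type} {G : SimpleGraph V} {p x y b c d : V} (hcls : Cls G)
    (hpb : G.Adj p b) (hpc : G.Adj p c) (hpd : G.Adj p d) (hbc : G.Adj b c) (hbd : G.Adj b d)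
    (hcd : G.Adj c d) (hxp : G.Adj x p) (hxb : ¬ G.Adj x b) (hxc : ¬ G.Adj x c)
    (hxd : ¬ G.Adj x d) (hxy : ¬ G.Adj x y) (hyb : G.Adj y b) (hyp : ¬ G.Adj y p)
    (hyc : ¬ G.Adj y c) (hyd : ¬ G.Adj y d) : False := by
  apply hcls.2
  refine h1 V G {p} {x} {y} b c d (Conn.singleton G _) (Conn.singleton G _)
    (Conn.singleton G _) (Set.disjoint_singleton.2 hxp.ne') (Set.disjoint_singleton.2 ?_)
    (Set.disjoint_singleton.2 ?_) hpb.ne' hpc.ne' hpd.ne' ?_ ?_ ?_ hyb.ne' ?_ ?_ hbc hbd hcd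
    ⟨p, rfl, hpb⟩ ⟨p, rfl, hpc⟩ ⟨p, rfl, hpd⟩ ⟨x, rfl, p, rfl, hxp⟩ ?_ ⟨y, rfl, hyb⟩ ?_ ?_ ?_
  · rintro rfl
    exact hyc hpc
  · rintro rfl
    exact hxb hyb
  · rintro rfl
    exact hxc hbc
  · rintro rfl
    exact hxb hbc.symm
  · rintro rfl
    exact hxb hbd.symm
  · rintro rfl
    exact hyd hcd
  · rintro rfl
    exact hyc hcd.symm
  · rintro z rfl
    exact ⟨hxb, hxc, hxd⟩
  · rintro z rfl
    exact ⟨hyc, hyd⟩
  · rintro ⟨z, rfl, z', rfl, hz⟩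
    exact hyp hz
  · rintro ⟨z, rfl, z', rfl, hz⟩
    exact hxy hz

/-- an element of the clique which is not in the trace is adjacent -/
theorem t3_adj {V : Type} {G : SimpleGraph V} {S : Set V} {v s : V} (hs : s ∈ S)
    (h : s ∉ Ms G S v) : G.Adj v s := by
  by_contra h'
  exact h ⟨hs, h'⟩

theorem t3 (h1 : S_B0) (h2 : S_T1) (h3 : S_T2) : S_T3 := by
  intro V _ G S N k n h
  have hT := h2 V G S N k n h
  obtain ⟨q1, q2, q3, q4⟩ := h3 V G S N k n h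
  obtain ⟨hcls, hS, -, hNS, -, hk, hn, hkk, hnn⟩ := id h
  have hnB : ∀ i, n i ∈ tB G S N := fun i => hn i
  have full : ∀ f ∈ tF G S, ∀ s ∈ S, G.Adj f s := by
    intro f hf s hs
    refine t3_adj hs ?_
    rw [hf.2]
    exact Set.notMem_empty s
  have hnN : ∀ i, ∀ s ∈ N, G.Adj (n i) s := fun i s hs =>
    t3_adj (hNS hs) fun h' => ((hn i).2.2 h').2 hs
  constructor
  · intro w hw f hf hwf
    obtain ⟨⟨hwS, hNw, hwN⟩, i, j, hij, hi, hj⟩ := id hw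
    obtain ⟨hfQ, u, hu, huf⟩ := id hf
    obtain ⟨s, hs⟩ := hu.2.1
    obtain ⟨x, hx, hxN⟩ := Set.not_subset.1 hwN
    have hsN : s ∈ N := hu.2.2 hs
    refine t3_six h1 (p := x) (x := u) (y := w) (b := f) (c := s) (d := n i) hcls
      (full f hfQ.1 x hx.1).symm (hS x hx.1 s hs.1 ?_) ?_ (full f hfQ.1 s hs.1)
      (q4 f hf (n i) (hnB i)) (hnN i s hsN).symm ?_ huf hs.2
      (hT u (Or.inl (Or.inl hu)) (n i) (Or.inl (Or.inr (hnB i))))
      (hT u (Or.inl (Or.inl hu)) w (Or.inr hw)) hwf hx.2 (hNw hsN).2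
      (hT w (Or.inr hw) (n i) (Or.inl (Or.inr (hnB i))))
    · rintro rfl
      exact hxN hsN
    · exact (t3_adj hx.1 fun h' => Set.disjoint_left.1 hi hx h').symm
    · exact t3_adj hx.1 fun h' => hxN (hu.2.2 h')
  · intro e he f' hf'
    obtain ⟨he0, f, hf, hef⟩ := he
    obtain ⟨hfQ', hfA'⟩ := hf'
    obtain ⟨hfQ, u, hu, huf⟩ := id hf
    by_contra hcon
    have huf' : G.Adj u f' := by
      by_contra h'
      exact hfA' ⟨hfQ', u, hu, h'⟩
    have hne : f ≠ f' := by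
      rintro rfl
      exact hfA' hf
    obtain ⟨s, hs⟩ := hu.2.1
    have hsN : s ∈ N := hu.2.2 hs
    obtain ⟨i, hi⟩ : ∃ i, G.Adj (n i) f' := by
      by_contra h'
      push Not at h'
      exact q1 f' hfQ' (n 0) (Or.inr (hnB 0)) (n 1) (Or.inr (hnB 1)) (h' 0) (h' 1)
        (hnn 0 1 (by decide))
    exact t3_six h1 (p := f') (x := u) (y := e) (b := s) (c := f) (d := n i) hcls
      (full f' hfQ'.1 s hs.1) (q2 f hfQ f' hfQ' hne).symm hi.symm (full f hfQ.1 s hs.1).symm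
      (hnN i s hsN).symm (q4 f hf (n i) (hnB i)) huf' hs.2 huf
      (hT u (Or.inl (Or.inl hu)) (n i) (Or.inl (Or.inr (hnB i))))
      (fun h' => q3 e he0 u (Or.inr (Or.inl (Or.inl hu))) h'.symm) (full e he0.1 s hs.1) hcon hef
      (q3 e he0 (n i) (Or.inr (Or.inl (Or.inr (hnB i)))))

end Pool.Agent.MPd439b2.LK
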