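import Pool.Agent.Lib.MP_d439b2_co.L4.Spec2

/-!
# MP_d439b2_co, column `C_4`: T4, the components of `G[tCp]`
-/

set_option autoImplicit false

namespace Pool.Agent.MPd439b2.LK

open Pool.Agent.MPd439b2

private theorem msN {V : Type} {G : SimpleGraph V} {S : Set V} {v s : V} (hs : s ∈ S)
    (h : s ∉ Ms G S v) : G.Adj v s := by
  by_contra h1
  exact h ⟨hs, h1⟩

private theorem Nne {V : Type} {G : SimpleGraph V} {S N : Set V} {k n : Fin 4 → V}
    (h : TSet G S N k n) : N.Nonempty := by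
  obtain ⟨_, _, _, _, _, h6, _⟩ := h
  exact (h6 0).2.1.mono (h6 0).2.2

private theorem fin_aux : ∀ i j : Fin 4, ∃ l : Fin 4, l ≠ i ∧ l ≠ j := by decide

private theorem part1 {V : Type} [Finite V] {G : SimpleGraph V} {S N : Set V} {k n : Fin 4 → V}
    {E : Set V} (ht : TSet G S N k n) (hE : IsComp G (tCp G S N n) E) :
    ∃ i₀, ∀ i, i ≠ i₀ → ∀ h ∈ E, Ms G S (n i) ⊆ Ms G S h := by
  obtain ⟨n0, hn0⟩ := Nne ht
  obtain ⟨_, _, hlam, hNS, _, _, hn, _⟩ := ht
  -- the smallest trace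
  obtain ⟨h₀, hh₀, hmin⟩ := Set.exists_min_image E (fun h => (Ms G S h).ncard) (Set.toFinite E)
    hE.2.1.1
  have hC : ∀ h ∈ E, h ∉ S ∧ N ⊆ Ms G S h := fun h hh => ⟨(hE.1 hh).1.1, (hE.1 hh).1.2.1⟩
  have hsub : ∀ h ∈ E, Ms G S h₀ ⊆ Ms G S h := by
    intro h hh
    rcases hlam h₀ (hC h₀ hh₀).1 h (hC h hh).1 with h1 | h1 | h1
    · exact h1
    · have h2 := Set.eq_of_subset_of_ncard_le h1 (hmin h hh) (Set.toFinite _)
      rw [h2]
    · exact absurd h1 (Set.not_disjoint_iff.mpr ⟨n0, (hC h₀ hh₀).2 hn0, (hC h hh).2 hn0⟩)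
  have hnot : ∀ i j, i ≠ j → Disjoint (Ms G S h₀) (Ms G S (n i)) →
      ¬ Disjoint (Ms G S h₀) (Ms G S (n j)) := by
    intro i j hij h1 h2
    exact (hE.1 hh₀).2 ⟨(hE.1 hh₀).1, i, j, hij, h1, h2⟩
  have hex : ∃ i₀, ∀ i, i ≠ i₀ → ¬ Disjoint (Ms G S h₀) (Ms G S (n i)) := by
    by_cases h1 : ∃ i₀, Disjoint (Ms G S h₀) (Ms G S (n i₀))
    · obtain ⟨i₀, h2⟩ := h1
      exact ⟨i₀, fun i hi => hnot i₀ i (Ne.symm hi) h2⟩
    · exact ⟨0, fun i _ h2 => h1 ⟨i, h2⟩⟩
  obtain ⟨i₀, hi₀⟩ := hex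
  refine ⟨i₀, fun i hi h hh => ?_⟩
  refine Set.Subset.trans ?_ (hsub h hh)
  rcases hlam h₀ (hC h₀ hh₀).1 (n i) (hn i).1 with h1 | h1 | h1
  · exact absurd hn0 ((hn i).2.2 (h1 ((hC h₀ hh₀).2 hn0))).2
  · exact h1
  · exact absurd h1 (hi₀ i hi)

theorem t4 (h1 : S_A0) (h2 : S_B0) (h3 : S_T1) (h4 : S_T2) : S_T4 := by
  intro V _ G S N k n E ht hE
  obtain ⟨i₀, hi₀⟩ := part1 ht hE
  refine ⟨⟨i₀, hi₀⟩, ?_⟩
  have hT1 := h3 V G S N k n ht
  obtain ⟨hT2a, hT2b, hT2c, hT2d⟩ := h4 V G S N k n ht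
  obtain ⟨n0, hn0⟩ := Nne ht
  obtain ⟨⟨hchd, hnoK⟩, hS, hlam, hNS, h5, hk, hn, hkd, hnd⟩ := ht
  have hC : ∀ h ∈ E, h ∉ S ∧ N ⊆ Ms G S h := fun h hh => ⟨(hE.1 hh).1.1, (hE.1 hh).1.2.1⟩
  have hES : ∀ h ∈ E, ∀ s ∈ S, h ≠ s := fun h hh s hs he => (hC h hh).1 (he ▸ hs)
  have hEN : ∀ h ∈ E, ∀ s ∈ N, ¬ G.Adj h s := fun h hh s hs => ((hC h hh).2 hs).2
  have hEx : ∀ i, i ≠ i₀ → ∀ x ∈ Ms G S (n i), ∀ h ∈ E, ¬ G.Adj h x :=
    fun i hi x hx h hh => (hi₀ i hi h hh hx).2
  have hnN : ∀ i, ∀ x ∈ Ms G S (n i), x ∈ S ∧ x ∉ N := fun i x hx => (hn i).2.2 hx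
  have hBE : ∀ d ∈ tB G S N, d ∉ E := by
    intro d hd hdE
    exact (hd.2.2 ((hC d hdE).2 hn0)).2 hn0
  have hAE : ∀ d ∈ tA G S N, d ∉ E := fun d hd hdE => (hE.1 hdE).1.2.2 hd.2.2
  have hFE : ∀ d ∈ tF G S, d ∉ E := by
    intro d hd hdE
    have h6 := (hC d hdE).2 hn0
    rw [hd.2] at h6
    exact h6
  constructor
  · intro c hc hcn d hd
    obtain ⟨hdn, hdS⟩ := hd
    by_contra hcon
    have hdc : d ≠ c := fun h => hcon (Or.inl h)
    have hdQ : d ∉ tQ G S N := fun h => hcon (Or.inr h)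
    have hcS : c ∉ S := by
      rcases hc with hc | hc
      · exact hc.1
      · exact hc.1.1
    have hcx : ∀ x ∈ S, x ∉ N → G.Adj c x := by
      intro x hx hxN
      rcases hc with hc | hc
      · exact msN hx (fun h => hxN (hc.2.2 h))
      · exact msN hx (fun h => by rw [hc.1.2] at h; exact h)
    -- the class of `d`
    have hdcl : d ∈ tF0 G S N ∪ (tA G S N ∪ tB G S N ∪ tCm G S N n) := by
      by_cases he : Ms G S d = ∅
      · left
        by_contra h6
        exact hdQ ⟨⟨hdS, he⟩, h6⟩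
      have hne : (Ms G S d).Nonempty := Set.nonempty_iff_ne_empty.mpr he
      right
      rcases h5 d hdS with h6 | h6 | h6
      · exact Or.inl (Or.inl ⟨hdS, hne, h6⟩)
      · exact Or.inl (Or.inr ⟨hdS, hne, h6⟩)
      · by_cases h7 : Ms G S d ⊆ N
        · exact Or.inl (Or.inl ⟨hdS, hne, h7⟩)
        · right
          by_contra h8
          exact hE.2.2 d ⟨⟨hdS, h6, h7⟩, h8⟩ hdn
    have hcd : ¬ G.Adj c d := by
      rcases hc with hc | hc
      · rcases hdcl with hd | hd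
        · exact fun h => hT2c d hd c (Or.inr (Or.inl (Or.inl hc))) h.symm
        · exact hT1 c (Or.inl (Or.inl hc)) d hd
      · exact hT2c c hc d hdcl
    -- the index
    obtain ⟨i, hi, hdi⟩ : ∃ i, i ≠ i₀ ∧ (d ∈ tCm G S N n → Disjoint (Ms G S d) (Ms G S (n i))) := by
      by_cases hm : d ∈ tCm G S N n
      · obtain ⟨_, i, j, hij, hd1, hd2⟩ := hm
        by_cases hii : i = i₀
        · exact ⟨j, fun h => hij (hii.trans h.symm), fun _ => hd2⟩
        · exact ⟨i, hii, fun _ => hd1⟩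
      · obtain ⟨i, hi, _⟩ := fin_aux i₀ i₀
        exact ⟨i, hi, fun h => absurd h hm⟩
    obtain ⟨x, hx⟩ := (hn i).2.1
    obtain ⟨hxS, hxN⟩ := hnN i x hx
    obtain ⟨T, hTc, hTS, hTd, hTcc, hTE⟩ : ∃ T : Set V, Conn G T ∧ T ⊆ S ∧ Tch G {d} T ∧
        Tch G {c} T ∧ ¬ Tch G E T := by
      by_cases hdB : d ∈ tB G S N
      · have hdn0 : G.Adj d n0 := msN (hNS hn0) (fun h => (hdB.2.2 h).2 hn0)
        refine ⟨{x, n0}, Conn.pair (hS x hxS n0 (hNS hn0) (fun h => hxN (h ▸ hn0))), ?_,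
          ⟨d, rfl, n0, Or.inr rfl, hdn0⟩, ⟨c, rfl, x, Or.inl rfl, hcx x hxS hxN⟩, ?_⟩
        · rintro y (rfl | rfl)
          · exact hxS
          · exact hNS hn0
        · rintro ⟨h, hh, y, (rfl | rfl), hadj⟩
          · exact hEx i hi _ hx h hh hadj
          · exact hEN h hh _ hn0 hadj
      · have hdx : G.Adj d x := by
          apply msN hxS
          intro hxd
          rcases hdcl with h6 | ((h6 | h6) | h6)
          · rw [h6.1.2] at hxd
            exact hxd
          · exact hxN (h6.2.2 hxd)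
          · exact hdB h6
          · exact Set.disjoint_left.mp (hdi h6) hxd hx
        refine ⟨{x}, Conn.singleton G x, ?_, ⟨d, rfl, x, rfl, hdx⟩,
          ⟨c, rfl, x, rfl, hcx x hxS hxN⟩, ?_⟩
        · rintro y rfl
          exact hxS
        · rintro ⟨h, hh, y, rfl, hadj⟩
          exact hEx i hi _ hx h hh hadj
    apply hchd
    obtain ⟨hcE, e, he, hec⟩ := hcn
    obtain ⟨hdE, e', he', hed⟩ := hdn
    apply h1 V G {c} E {d} T (Conn.singleton G c) hE.2.1 (Conn.singleton G d) hTc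
    · exact Set.disjoint_singleton_left.mpr hcE
    · exact Set.disjoint_singleton_left.mpr (fun h => hdc (h.symm))
    · exact Set.disjoint_singleton_left.mpr (fun h => hcS (hTS h))
    · exact Set.disjoint_singleton_right.mpr hdE
    · exact Set.disjoint_left.mpr (fun y hy hyT => (hC y hy).1 (hTS hyT))
    · exact Set.disjoint_singleton_left.mpr (fun h => hdS (hTS h))
    · exact ⟨c, rfl, e, he, hec.symm⟩
    · exact ⟨e', he', d, rfl, hed⟩
    · exact hTd
    · exact hTcc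
    · rintro ⟨y, rfl, z, rfl, hyz⟩
      exact hcd hyz
    · exact hTE
  · intro h hh f hf hadj
    obtain ⟨hfQ, u, hu, huf⟩ := hf
    have hfF : f ∈ tF G S := hfQ.1
    have hfS : ∀ x ∈ S, G.Adj f x := fun x hx => msN hx (fun h6 => by rw [hfF.2] at h6; exact h6)
    have hfE := hFE f hfF
    have huE := hAE u hu
    have hux : ∀ x ∈ S, x ∉ N → G.Adj u x := fun x hx hxN => msN hx (fun h6 => hxN (hu.2.2 h6))
    have hnB : ∀ i, n i ∈ tB G S N := fun i => ⟨(hn i).1, (hn i).2.1, (hn i).2.2⟩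
    by_cases hun : u ∈ nb G E
    · obtain ⟨i, hi, _⟩ := fin_aux i₀ i₀
      obtain ⟨x, hx⟩ := (hn i).2.1
      obtain ⟨hxS, hxN⟩ := hnN i x hx
      obtain ⟨_, e, he, heu⟩ := hun
      apply hchd
      apply h1 V G {u} E {f} {x} (Conn.singleton G u) hE.2.1 (Conn.singleton G f)
        (Conn.singleton G x)
      · exact Set.disjoint_singleton_left.mpr huE
      · exact Set.disjoint_singleton_left.mpr (fun h6 => by
          have h7 : u = f := h6
          have h8 := hu.2.1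
          rw [h7, hfF.2] at h8
          exact Set.not_nonempty_empty h8)
      · exact Set.disjoint_singleton_left.mpr (fun h6 => by
          have h7 : u = x := h6
          exact hu.1 (h7 ▸ hxS))
      · exact Set.disjoint_singleton_right.mpr hfE
      · exact Set.disjoint_singleton_right.mpr (fun h6 => (hC x h6).1 hxS)
      · exact Set.disjoint_singleton_left.mpr (fun h6 => by
          have h7 : f = x := h6
          exact hfF.1 (h7 ▸ hxS))
      · exact ⟨u, rfl, e, he, heu.symm⟩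
      · exact ⟨h, hh, f, rfl, hadj⟩
      · exact ⟨f, rfl, x, rfl, hfS x hxS⟩
      · exact ⟨u, rfl, x, rfl, hux x hxS hxN⟩
      · rintro ⟨y, rfl, z, rfl, hyz⟩
        exact huf hyz
      · rintro ⟨y, hy, z, rfl, hyz⟩
        exact hEx i hi _ hx y hy hyz
    · -- some `n i` is not a neighbour of `E`
      obtain ⟨i, hi⟩ : ∃ i, n i ∉ nb G E := by
        by_contra hcon
        push Not at hcon
        obtain ⟨hd0, e, he, hed⟩ := hcon 0
        obtain ⟨hd1, e', he', hed'⟩ := hcon 1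
        have hne : n 0 ≠ n 1 := by
          intro h6
          have h7 := hnd 0 1 (by decide)
          rw [h6] at h7
          obtain ⟨x, hx⟩ := (hn 1).2.1
          exact Set.disjoint_left.mp h7 hx hx
        have hnn : ∀ i, G.Adj (n i) n0 := fun i => msN (hNS hn0) (fun h6 => (hnN i n0 h6).2 hn0)
        apply hchd
        apply h1 V G {n 0} E {n 1} {n0} (Conn.singleton G _) hE.2.1 (Conn.singleton G _)
          (Conn.singleton G _)
        · exact Set.disjoint_singleton_left.mpr hd0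
        · exact Set.disjoint_singleton_left.mpr (fun h6 => hne h6)
        · exact Set.disjoint_singleton_left.mpr (fun h6 => by
            have h7 : n 0 = n0 := h6
            exact (hn 0).1 (h7 ▸ hNS hn0))
        · exact Set.disjoint_singleton_right.mpr hd1
        · exact Set.disjoint_singleton_right.mpr (fun h6 => (hC n0 h6).1 (hNS hn0))
        · exact Set.disjoint_singleton_left.mpr (fun h6 => by
            have h7 : n 1 = n0 := h6
            exact (hn 1).1 (h7 ▸ hNS hn0))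
        · exact ⟨n 0, rfl, e, he, hed.symm⟩
        · exact ⟨e', he', n 1, rfl, hed'⟩
        · exact ⟨n 1, rfl, n0, rfl, hnn 1⟩
        · exact ⟨n 0, rfl, n0, rfl, hnn 0⟩
        · rintro ⟨y, rfl, z, rfl, hyz⟩
          exact hT1 (n 0) (Or.inl (Or.inr (hnB 0))) (n 1) (Or.inl (Or.inr (hnB 1))) hyz
        · rintro ⟨y, hy, z, rfl, hyz⟩
          exact hEN y hy _ hn0 hyz
      obtain ⟨j, hji, hj0⟩ := fin_aux i i₀
      obtain ⟨x, hx⟩ := (hn j).2.1
      obtain ⟨hxS, hxN⟩ := hnN j x hx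
      obtain ⟨s, hs⟩ := hu.2.1
      have hsN : s ∈ N := hu.2.2 hs
      have hsS : s ∈ S := hNS hsN
      have hxi : x ∉ Ms G S (n i) := fun h6 => Set.disjoint_left.mp (hnd j i hji) hx h6
      have hiE : n i ∉ E := hBE _ (hnB i)
      apply hnoK
      apply h2 V G {x} {u} E f s (n i) (Conn.singleton G x) (Conn.singleton G u) hE.2.1
      · exact Set.disjoint_singleton_left.mpr (fun h6 => by
          have h7 : x = u := h6
          exact hu.1 (h7 ▸ hxS))
      · exact Set.disjoint_singleton_left.mpr (fun h6 => (hC x h6).1 hxS)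
      · exact Set.disjoint_singleton_left.mpr huE
      · exact fun h6 => by
          have h7 : f = x := h6
          exact hfF.1 (h7 ▸ hxS)
      · exact fun h6 => by
          have h7 : s = x := h6
          exact hxN (h7 ▸ hsN)
      · exact fun h6 => by
          have h7 : n i = x := h6
          exact (hn i).1 (h7 ▸ hxS)
      · exact fun h6 => by
          have h7 : f = u := h6
          have h8 := hu.2.1
          rw [← h7, hfF.2] at h8
          exact Set.not_nonempty_empty h8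
      · exact fun h6 => by
          have h7 : s = u := h6
          exact hu.1 (h7 ▸ hsS)
      · exact fun h6 => by
          have h7 : n i = u := h6
          have h8 := (hnB i).2.2 (show s ∈ Ms G S (n i) by rw [h7]; exact hs)
          exact h8.2 hsN
      · exact hfE
      · exact fun h6 => (hC s h6).1 hsS
      · exact hiE
      · exact hfS s hsS
      · exact hT2d f ⟨hfQ, u, hu, huf⟩ (n i) (hnB i)
      · exact (msN hsS (fun h6 => (hnN i s h6).2 hsN)).symm
      · exact ⟨x, rfl, (hfS x hxS).symm⟩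
      · exact ⟨x, rfl, hS x hxS s hsS (fun h6 => hxN (h6 ▸ hsN))⟩
      · exact ⟨x, rfl, (msN hxS hxi).symm⟩
      · exact ⟨u, rfl, x, rfl, hux x hxS hxN⟩
      · rintro y rfl
        exact ⟨huf, hs.2, hT1 _ (Or.inl (Or.inl hu)) _ (Or.inl (Or.inr (hnB i)))⟩
      · exact ⟨h, hh, hadj⟩
      · intro y hy
        exact ⟨hEN y hy s hsN, fun h6 => hi ⟨hiE, y, hy, h6⟩⟩
      · rintro ⟨y, hy, z, rfl, hyz⟩
        exact hEx j hj0 _ hx y hy hyz
      · rintro ⟨y, rfl, z, hz, hyz⟩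
        exact hun ⟨huE, z, hz, hyz.symm⟩

end Pool.Agent.MPd439b2.LK
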