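import Pool.Agent.Lib.MP_d439b2_co.L4.Spec2

/-!
# MP_d439b2_co, column `C_4`: T5, two components with different attachments
-/

set_option autoImplicit false

namespace Pool.Agent.MPd439b2.LK

open Pool.Agent.MPd439b2

namespace T5Aux

theorem comps {V : Type} {G : SimpleGraph V} {X E₁ E₂ : Set V} (h₁ : IsComp G X E₁)
    (h₂ : IsComp G X E₂) (hne : E₁ ≠ E₂) : Disjoint E₁ E₂ ∧ ¬ Tch G E₁ E₂ := by
  have key : ∀ A B : Set V, IsComp G X A → IsComp G X B → (A ∩ B).Nonempty → A ⊆ B := by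
    intro A B hA hB hAB
    have h := hA.2.1.eq_of_nb (C := A ∩ B) Set.inter_subset_left hAB (by
      rintro v hv ⟨hv1, u, hu, huv⟩
      exact hB.2.2 v (hA.1 hv) ⟨fun h => hv1 ⟨hv, h⟩, u, hu.2, huv⟩)
    rw [← h]
    exact Set.inter_subset_right
  have hd : Disjoint E₁ E₂ := by
    by_contra h
    rw [Set.not_disjoint_iff_nonempty_inter] at h
    exact hne (Set.Subset.antisymm (key _ _ h₁ h₂ h) (key _ _ h₂ h₁ (by rwa [Set.inter_comm])))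
  refine ⟨hd, ?_⟩
  rintro ⟨u, hu, v, hv, huv⟩
  exact h₁.2.2 v (h₂.1 hv) ⟨fun h => (Set.disjoint_left.1 hd) h hv, u, hu, huv⟩

/-- the second claim, one inclusion -/
theorem half {V : Type} {G : SimpleGraph V} (hB0 : S_B0) (hG : ¬ IMS (KA 4 2 ![{0}, {1}]) G Set.univ)
    {S E E' : Set V} {a x x' h h' : V} (hS : CompleteOn G S) (hES : ∀ v ∈ E, v ∉ S)
    (hES' : ∀ v ∈ E', v ∉ S) (haS : a ∉ S) (hE : Conn G E) (haE : a ∈ nb G E)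
    (haE' : a ∉ E') (haE'' : ∀ v ∈ E', ¬ G.Adj v a)
    (hd : Disjoint E E') (ht : ¬ Tch G E E') (hx : x ∈ S) (hx' : x' ∈ S) (hxx : x ≠ x')
    (hax : G.Adj a x) (hax' : G.Adj a x') (hh : h ∈ E) (hh' : h' ∈ E')
    (hxh : x ∈ Ms G S h) (hxh' : x' ∈ Ms G S h) (hx'h : x ∈ Ms G S h') (hx'h' : x' ∈ Ms G S h')
    (had : ∀ d ∈ S, d ∉ Ms G S h' → G.Adj a d) : Ms G S h ⊆ Ms G S h' := by
  intro d hd1
  by_contra hd2
  have hdS : d ∈ S := hd1.1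
  have hh'd : G.Adj h' d := by
    by_contra hcon
    exact hd2 ⟨hdS, hcon⟩
  have hdx : d ≠ x := fun h => hd2 (h ▸ hx'h)
  have hdx' : d ≠ x' := fun h => hd2 (h ▸ hx'h')
  have hadd : G.Adj a d := had d hdS hd2
  have hhS : h ∉ S := hES h hh
  have hh'S : h' ∉ S := hES' h' hh'
  have hhh' : h ≠ h' := fun h1 => (Set.disjoint_left.1 hd) hh (h1 ▸ hh')
  have haE0 : a ∉ E := haE.1
  -- the set `P`
  obtain ⟨P, hPc, haP, hPsub, hhP, hPh⟩ : ∃ P : Set V, Conn G P ∧ a ∈ P ∧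
      (∀ v ∈ P, v = a ∨ v ∈ E) ∧ h ∉ P ∧ ∃ v ∈ P, G.Adj h v := by
    by_cases hha : G.Adj h a
    · refine ⟨{a}, Conn.singleton G a, rfl, fun v hv => Or.inl hv, ?_, a, rfl, hha⟩
      intro h1
      exact haE0 (h1 ▸ hh)
    · obtain ⟨h₁, hh₁, hh₁a⟩ := haE.2
      have hne : h₁ ≠ h := fun h1 => hha (h1 ▸ hh₁a)
      obtain ⟨T, hT, hhT, hTc, hTn⟩ := exists_comp G (A := E \ {h}) (v := h₁) ⟨hh₁, hne⟩
      have hTE : T ≠ E := fun h1 => (hT (h1 ▸ hh)).2 rfl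
      obtain ⟨b, hb, c, hc, hbc⟩ := hE.2 T (fun v hv => (hT hv).1) ⟨h₁, hhT⟩ hTE
      have hch : c = h := by
        by_contra hcon
        exact hTn c ⟨hc.1, hcon⟩ ⟨hc.2, b, hb, hbc⟩
      subst hch
      refine ⟨insert a T, hTc.insert ⟨h₁, hhT, hh₁a⟩, Set.mem_insert _ _, ?_, ?_, b,
        Set.mem_insert_of_mem _ hb, hbc.symm⟩
      · rintro v (rfl | hv)
        · exact Or.inl rfl
        · exact Or.inr (hT hv).1
      · rintro (h1 | h1)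
        · exact haE0 (h1 ▸ hc.1)
        · exact (hT h1).2 rfl
  have hPS : ∀ v ∈ P, v ∉ S := by
    intro v hv
    rcases hPsub v hv with rfl | h1
    · exact haS
    · exact hES v h1
  have hPh' : ∀ v ∈ P, v ≠ h' ∧ ¬ G.Adj h' v := by
    intro v hv
    rcases hPsub v hv with rfl | h1
    · exact ⟨fun h1 => haE' (h1 ▸ hh'), haE'' h' hh'⟩
    · exact ⟨fun h2 => (Set.disjoint_left.1 hd) h1 (h2 ▸ hh'),
        fun h2 => ht ⟨v, h1, h', hh', h2.symm⟩⟩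
  refine hG (hB0 V G P {h} {h'} d x x' hPc (Conn.singleton G h) (Conn.singleton G h') ?_ ?_ ?_
    (fun h1 => hPS _ h1 hdS) (fun h1 => hPS _ h1 hx) (fun h1 => hPS _ h1 hx')
    (fun h1 => hhS (h1 ▸ hdS)) (fun h1 => hhS (h1 ▸ hx)) (fun h1 => hhS (h1 ▸ hx'))
    (fun h1 => hh'S (h1 ▸ hdS)) (fun h1 => hh'S (h1 ▸ hx)) (fun h1 => hh'S (h1 ▸ hx'))
    (hS d hdS x hx hdx) (hS d hdS x' hx' hdx') (hS x hx x' hx' hxx)
    ⟨a, haP, hadd⟩ ⟨a, haP, hax⟩ ⟨a, haP, hax'⟩ ?_ ?_ ⟨h', rfl, hh'd⟩ ?_ ?_ ?_)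
  · rw [Set.disjoint_left]
    intro v hv h1
    exact hhP ((Set.mem_singleton_iff.1 h1) ▸ hv)
  · rw [Set.disjoint_left]
    intro v hv h1
    exact (hPh' v hv).1 h1
  · rw [Set.disjoint_left]
    intro v hv h1
    exact hhh' ((Set.mem_singleton_iff.1 hv).symm.trans h1)
  · obtain ⟨v, hv, hhv⟩ := hPh
    exact ⟨h, rfl, v, hv, hhv⟩
  · intro y hy
    rw [Set.mem_singleton_iff.1 hy]
    exact ⟨hd1.2, hxh.2, hxh'.2⟩
  · intro y hy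
    rw [Set.mem_singleton_iff.1 hy]
    exact ⟨hx'h.2, hx'h'.2⟩
  · rintro ⟨u, hu, v, hv, huv⟩
    rw [Set.mem_singleton_iff.1 hu] at huv
    exact (hPh' v hv).2 huv
  · rintro ⟨u, hu, v, hv, huv⟩
    rw [Set.mem_singleton_iff.1 hu, Set.mem_singleton_iff.1 hv] at huv
    exact ht ⟨h, hh, h', hh', huv⟩

theorem two_idx : ∀ i₁ i₂ : Fin 4, ∃ i j : Fin 4, i ≠ j ∧ i ≠ i₁ ∧ i ≠ i₂ ∧ j ≠ i₁ ∧ j ≠ i₂ := by
  decide

end T5Aux

open T5Aux in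
/-- **T5.** Two components with different attachments. -/
theorem t5 (hB0 : S_B0) (_hT2 : S_T2) (hT3 : S_T3) (hT4 : S_T4) : S_T5 := by
  intro V _ G S N k n E₁ E₂ a₁ a₂ hT hE₁ hE₂ ha₁ ha₂ hn₁ hn₂ ha
  have hT' := hT
  obtain ⟨hCls, hS, hLam, hNS, h3, hk, hn, hkd, hnd⟩ := hT'
  have hG := hCls.2
  obtain ⟨⟨i₁, hi₁⟩, h41, h43⟩ := hT4 V G S N k n E₁ hT hE₁
  obtain ⟨⟨i₂, hi₂⟩, h42, h43'⟩ := hT4 V G S N k n E₂ hT hE₂
  have hNne : N.Nonempty := by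
    obtain ⟨v, hv⟩ := (hk 0).2.1
    exact ⟨v, (hk 0).2.2 hv⟩
  -- the two kinds of vertices
  have hC : ∀ v ∈ tCp G S N n, v ∉ S ∧ N ⊆ Ms G S v ∧ ¬ Ms G S v ⊆ N := fun v hv => hv.1
  have hF0A : ∀ a ∈ tF0A G S N, a ∈ tF0 G S N := fun a h => h.1
  have hA : ∀ a ∈ tA G S N ∪ tF0A G S N, a ∉ S ∧ Ms G S a ⊆ N ∧ a ∉ tQ G S N ∧
      a ∈ tA G S N ∪ tF0 G S N := by
    rintro a (h | h)
    · refine ⟨h.1, h.2.2, fun h1 => ?_, Or.inl h⟩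
      have h2 : Ms G S a = ∅ := h1.1.2
      exact h.2.1.ne_empty h2
    · have h2 : Ms G S a = ∅ := h.1.1.2
      refine ⟨h.1.1.1, by rw [h2]; exact Set.empty_subset _, fun h1 => h1.2 h.1, Or.inr h.1⟩
  have hAadj : ∀ a ∈ tA G S N ∪ tF0A G S N, ∀ x ∈ S, x ∉ N → G.Adj a x := by
    intro a haa x hx hxN
    by_contra hcon
    exact hxN ((hA a haa).2.1 ⟨hx, hcon⟩)
  have hAE : ∀ a ∈ tA G S N ∪ tF0A G S N, ∀ v ∈ tCp G S N n, a ≠ v := by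
    intro a haa v hv h
    exact (hC v hv).2.2 (h ▸ (hA a haa).2.1)
  have hE₁S : ∀ v ∈ E₁, v ∉ S := fun v hv => (hC v (hE₁.1 hv)).1
  have hE₂S : ∀ v ∈ E₂, v ∉ S := fun v hv => (hC v (hE₂.1 hv)).1
  have cross : ∀ (E : Set V) (a a' : V), IsComp G (tCp G S N n) E →
      (∀ c ∈ tA G S N ∪ tF0 G S N, c ∈ nb G E → nb G E \ S ⊆ insert c (tQ G S N)) →
      a ∈ tA G S N ∪ tF0A G S N → a' ∈ tA G S N ∪ tF0A G S N → a ∈ nb G E → a' ≠ a →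
      a' ∉ E ∧ ∀ v ∈ E, ¬ G.Adj v a' := by
    intro E a a' hE h4 haa haa' hnb hne
    have h1 : a' ∉ E := fun h => hAE a' haa' a' (hE.1 h) rfl
    refine ⟨h1, fun v hv hadj => ?_⟩
    have h2 : a' ∈ nb G E \ S := ⟨⟨h1, v, hv, hadj⟩, (hA a' haa').1⟩
    rcases h4 a (hA a haa).2.2.2 hnb h2 with h5 | h5
    · exact hne h5
    · exact (hA a' haa').2.2.1 h5
  obtain ⟨ha₁E₂, ha₁E₂'⟩ := cross E₂ a₂ a₁ hE₂ h42 ha₂ ha₁ hn₂ ha
  obtain ⟨ha₂E₁, ha₂E₁'⟩ := cross E₁ a₁ a₂ hE₁ h41 ha₁ ha₂ hn₁ ha.symm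
  have hEne : E₁ ≠ E₂ := by
    intro h
    obtain ⟨v, hv, hva⟩ := hn₁.2
    exact ha₁E₂' v (h ▸ hv) hva
  obtain ⟨hd, ht⟩ := comps hE₁ hE₂ hEne
  obtain ⟨i, j, hij, hi1, hi2, hj1, hj2⟩ := two_idx i₁ i₂
  obtain ⟨x, hx⟩ := (hn i).2.1
  obtain ⟨x', hx'⟩ := (hn j).2.1
  have hxx : x ≠ x' := fun h => (Set.disjoint_left.1 (hnd i j hij)) hx (h ▸ hx')
  have hxS : x ∈ S := hx.1
  have hxS' : x' ∈ S := hx'.1
  have hxN : x ∉ N := ((hn i).2.2 hx).2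
  have hxN' : x' ∉ N := ((hn j).2.2 hx').2
  refine ⟨?_, ?_⟩
  · intro h hh hha f hf hfE
    by_contra hcon
    have hfA : f ∉ tFA G S N := by
      intro h1
      obtain ⟨v, hv, hvf⟩ := hfE.2
      exact h43' v hv f h1 hvf
    have haf : G.Adj a₁ f := by
      rcases ha₁ with h1 | h1
      · by_contra h2
        exact hfA ⟨hf, a₁, h1, h2⟩
      · exact (hT3 V G S N k n hT).2 a₁ h1 f ⟨hf, hfA⟩
    have hfM : Ms G S f = ∅ := hf.1.2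
    have hfS : f ∉ S := hf.1.1
    have hfadj : ∀ y ∈ S, G.Adj f y := by
      intro y hy
      by_contra h2
      have : y ∈ Ms G S f := ⟨hy, h2⟩
      rw [hfM] at this
      exact this
    have hhC := hC h (hE₁.1 hh)
    have hfh : f ≠ h := by
      intro h1
      obtain ⟨v, hv⟩ := hNne
      have := hhC.2.1 hv
      rw [← h1, hfM] at this
      exact this
    refine hG (hB0 V G {a₁} {h} E₂ f x x' (Conn.singleton G a₁) (Conn.singleton G h) hE₂.2.1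
      ?_ ?_ ?_ (fun h1 => G.ne_of_adj haf (Set.mem_singleton_iff.1 h1).symm)
      (fun h1 => (hA a₁ ha₁).1 ((Set.mem_singleton_iff.1 h1) ▸ hxS))
      (fun h1 => (hA a₁ ha₁).1 ((Set.mem_singleton_iff.1 h1) ▸ hxS'))
      hfh (fun h1 => hhC.1 ((Set.mem_singleton_iff.1 h1) ▸ hxS))
      (fun h1 => hhC.1 ((Set.mem_singleton_iff.1 h1) ▸ hxS'))
      hfE.1 (fun h1 => hE₂S x h1 hxS) (fun h1 => hE₂S x' h1 hxS')
      (hfadj x hxS) (hfadj x' hxS') (hS x hxS x' hxS' hxx)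
      ⟨a₁, rfl, haf⟩ ⟨a₁, rfl, hAadj a₁ ha₁ x hxS hxN⟩ ⟨a₁, rfl, hAadj a₁ ha₁ x' hxS' hxN'⟩
      ⟨h, rfl, a₁, rfl, hha⟩ ?_ ?_ ?_ ?_ ?_)
    · rw [Set.disjoint_singleton_left]
      intro h1
      exact hn₁.1 ((Set.mem_singleton_iff.1 h1) ▸ hh)
    · rw [Set.disjoint_singleton_left]
      exact ha₁E₂
    · rw [Set.disjoint_singleton_left]
      exact (Set.disjoint_left.1 hd) hh
    · intro y hy
      rw [Set.mem_singleton_iff.1 hy]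
      exact ⟨hcon, (hi₁ i hi1 h hh hx).2, (hi₁ j hj1 h hh hx').2⟩
    · exact hfE.2
    · intro y hy
      exact ⟨(hi₂ i hi2 y hy hx).2, (hi₂ j hj2 y hy hx').2⟩
    · rintro ⟨u, hu, v, hv, huv⟩
      rw [Set.mem_singleton_iff.1 hv] at huv
      exact ha₁E₂' u hu huv
    · rintro ⟨u, hu, v, hv, huv⟩
      rw [Set.mem_singleton_iff.1 hu] at huv
      exact ht ⟨h, hh, v, hv, huv⟩
  · intro h hh h' hh'
    have hhC := hC h (hE₁.1 hh)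
    have hhC' := hC h' (hE₂.1 hh')
    apply Set.Subset.antisymm
    · refine half hB0 hG (E := E₁) (E' := E₂) (a := a₁) (x := x) (x' := x') hS hE₁S hE₂S
        (hA a₁ ha₁).1 hE₁.2.1 hn₁ ha₁E₂ ha₁E₂' hd ht hxS hxS' hxx
        (hAadj a₁ ha₁ x hxS hxN) (hAadj a₁ ha₁ x' hxS' hxN') hh hh'
        (hi₁ i hi1 h hh hx) (hi₁ j hj1 h hh hx') (hi₂ i hi2 h' hh' hx) (hi₂ j hj2 h' hh' hx') ?_
      intro d hdS hdM
      exact hAadj a₁ ha₁ d hdS (fun h1 => hdM (hhC'.2.1 h1))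
    · refine half hB0 hG (E := E₂) (E' := E₁) (a := a₂) (x := x) (x' := x') hS hE₂S hE₁S
        (hA a₂ ha₂).1 hE₂.2.1 hn₂ ha₂E₁ ha₂E₁' hd.symm (fun h1 => ht h1.symm) hxS hxS' hxx
        (hAadj a₂ ha₂ x hxS hxN) (hAadj a₂ ha₂ x' hxS' hxN') hh' hh
        (hi₂ i hi2 h' hh' hx) (hi₂ j hj2 h' hh' hx') (hi₁ i hi1 h hh hx) (hi₁ j hj1 h hh hx') ?_
      intro d hdS hdM
      exact hAadj a₂ ha₂ d hdS (fun h1 => hdM (hhC.2.1 h1))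

end Pool.Agent.MPd439b2.LK
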