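import Pool.Agent.Lib.MP_d439b2_co.L4.Spec2

/-!
# MP_d439b2_co, column `C_4`: T6, the traces of the components in `tE`
-/

set_option autoImplicit false

namespace Pool.Agent.MPd439b2.LK

open Pool.Agent.MPd439b2

private theorem comp_unique {V : Type} {G : SimpleGraph V} {X E E' : Set V} (h : IsComp G X E)
    (h' : IsComp G X E') {v : V} (hv : v ∈ E) (hv' : v ∈ E') : E ⊆ E' := by
  have h1 : E' ∩ E = E := h.2.1.eq_of_nb Set.inter_subset_right ⟨v, hv', hv⟩ (by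
    rintro w hw ⟨hw1, c, hc, hcw⟩
    have hwE : w ∉ E' := fun hh => hw1 ⟨hh, hw⟩
    exact h'.2.2 w (h.1 hw) ⟨hwE, c, hc.1, hcw⟩)
  rw [← h1]
  exact Set.inter_subset_left

/-- the purely combinatorial part -/
private theorem chains {V : Type} [Finite V] (𝓔 : Set (Set V)) (D : V → Set V)
    (hch : ∀ E ∈ 𝓔, ∀ h ∈ E, ∀ E' ∈ 𝓔, ∀ h' ∈ E', D h ⊆ D h' ∨ D h' ⊆ D h)
    (hj : ∀ E ∈ 𝓔, ∀ E' ∈ 𝓔, E ≠ E' → ∀ y ∈ E, ∀ v ∈ E', (D v ∩ D y).ncard ≤ 1 ∨ D y ⊆ D v) :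
    ∃ E₀ D₁ D₂ : Set V, ∀ E ∈ 𝓔, E ≠ E₀ → ∀ h ∈ E, D h = ∅ ∨ D h = D₁ ∨ D h = D₂ := by
  have heq : ∀ A B : Set V, (A ⊆ B ∨ B ⊆ A) → A.ncard = B.ncard → A = B := by
    intro A B h1 h2
    rcases h1 with h1 | h1
    · exact Set.eq_of_subset_of_ncard_le h1 (by omega) (Set.toFinite _)
    · exact (Set.eq_of_subset_of_ncard_le h1 (by omega) (Set.toFinite _)).symm
  obtain ⟨D₁, hD₁⟩ : ∃ D₁ : Set V, ∀ E ∈ 𝓔, ∀ h ∈ E, (D h).ncard = 1 → D h = D₁ := by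
    by_cases hex : ∃ E ∈ 𝓔, ∃ h ∈ E, (D h).ncard = 1
    · obtain ⟨E, hE, h, hh, h1⟩ := hex
      refine ⟨D h, fun E' hE' h' hh' h2 => heq _ _ (hch E' hE' h' hh' E hE h hh) (by omega)⟩
    · push Not at hex
      exact ⟨∅, fun E hE h hh h1 => absurd h1 (hex E hE h hh)⟩
  have hsmall : ∀ E ∈ 𝓔, ∀ h ∈ E, (D h).ncard ≤ 1 → D h = ∅ ∨ D h = D₁ := by
    intro E hE h hh h1
    rcases Nat.lt_or_ge (D h).ncard 1 with h2 | h2
    · left
      exact (Set.ncard_eq_zero (Set.toFinite _)).1 (by omega)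
    · right
      exact hD₁ E hE h hh (by omega)
  by_cases hc : ∃ E₀ : Set V, ∀ E ∈ 𝓔, E ≠ E₀ → ∀ h ∈ E, (D h).ncard ≤ 1
  · obtain ⟨E₀, hE₀⟩ := hc
    refine ⟨E₀, D₁, D₁, fun E hE hne h hh => ?_⟩
    rcases hsmall E hE h hh (hE₀ E hE hne h hh) with h1 | h1
    · exact Or.inl h1
    · exact Or.inr (Or.inl h1)
  · push Not at hc
    obtain ⟨hm, ⟨Em, hEm, hhm⟩, hmax⟩ : ∃ hm ∈ {h | ∃ E ∈ 𝓔, h ∈ E},
        ∀ h ∈ {h | ∃ E ∈ 𝓔, h ∈ E}, (D h).ncard ≤ (D hm).ncard := by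
      apply Set.exists_max_image _ _ (Set.toFinite _)
      obtain ⟨E, hE, _, h, hh, _⟩ := hc ∅
      exact ⟨h, E, hE, hh⟩
    have hle : ∀ E ∈ 𝓔, ∀ h ∈ E, D h ⊆ D hm := by
      intro E hE h hh
      rcases hch E hE h hh Em hEm hm hhm with h1 | h1
      · exact h1
      · have h2 : (D hm).ncard ≤ (D h).ncard := Set.ncard_le_ncard h1 (Set.toFinite _)
        have h3 := hmax h ⟨E, hE, hh⟩
        rw [heq (D h) (D hm) (Or.inr h1) (by omega)]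
    have hfar : ∀ E ∈ 𝓔, E ≠ Em → ∀ h ∈ E, 2 ≤ (D h).ncard → D h = D hm := by
      intro E hE hne h hh h2
      rcases hj Em hEm E hE (Ne.symm hne) hm hhm h hh with h3 | h3
      · rw [Set.inter_eq_left.2 (hle E hE h hh)] at h3
        omega
      · exact Set.Subset.antisymm (hle E hE h hh) h3
    have hall : ∀ E ∈ 𝓔, ∀ h ∈ E, 2 ≤ (D h).ncard → D h = D hm := by
      intro E hE h hh h2
      by_cases hne : E = Em
      · subst hne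
        obtain ⟨E', hE', hne', h', hh', h4⟩ := hc E
        have h5 := hfar E' hE' hne' h' hh' (by omega)
        rcases hj E' hE' E hE hne' h' hh' h hh with h3 | h3
        · rw [h5, Set.inter_eq_left.2 (hle E hE h hh)] at h3
          omega
        · rw [h5] at h3
          exact Set.Subset.antisymm (hle E hE h hh) h3
      · exact hfar E hE hne h hh h2
    refine ⟨∅, D₁, D hm, fun E hE _ h hh => ?_⟩
    rcases Nat.lt_or_ge 1 (D h).ncard with h1 | h1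
    · exact Or.inr (Or.inr (hall E hE h hh h1))
    · rcases hsmall E hE h hh h1 with h2 | h2
      · exact Or.inl h2
      · exact Or.inr (Or.inl h2)

theorem t6 (hB1 : S_B1) (hB3 : S_B3) (hT2 : S_T2) (hT4 : S_T4) (hT5 : S_T5) : S_T6 := by
  intro V _ G S N k n E₁ E₂ a₁ a₂ hT hE₁ hE₂ ha₁ ha₂ hn₁ hn₂ hne
  obtain ⟨_, hQc, _, _⟩ := hT2 V G S N k n hT
  have hT' := hT
  obtain ⟨hcls, hS, _, _, _, hk, _, hkd, _⟩ := hT
  have hNne : N.Nonempty := (hk 0).2.1.mono (hk 0).2.2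
  have hN2 : 2 ≤ N.ncard := by
    obtain ⟨x, hx⟩ := (hk 0).2.1
    obtain ⟨y, hy⟩ := (hk 1).2.1
    have hxy : x ≠ y := by
      rintro rfl
      exact Set.disjoint_left.1 (hkd 0 1 (by decide)) hx hy
    rw [← Set.ncard_pair hxy]
    refine Set.ncard_le_ncard ?_ (Set.toFinite _)
    rintro z (rfl | rfl)
    · exact (hk 0).2.2 hx
    · exact (hk 1).2.2 hy
  have hQC : ∀ f ∈ tQ G S N, f ∉ tC G S N := by
    intro f hf hfC
    obtain ⟨z, hz⟩ := hNne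
    have h1 : z ∈ Ms G S f := hfC.2.1 hz
    rw [hf.1.2] at h1
    exact h1
  have hQS : ∀ f ∈ tQ G S N, ∀ s ∈ S, G.Adj f s := by
    intro f hf s hs
    by_contra h
    have h1 : s ∈ Ms G S f := ⟨hs, h⟩
    rw [hf.1.2] at h1
    exact h1
  have hEC : ∀ E ∈ tE G S N n, ∀ h ∈ E, h ∈ tC G S N := fun E hE h hh => (hE.1.1 hh).1
  -- comparison of two components
  have hsub : ∀ E ∈ tE G S N n, ∀ E' ∈ tE G S N n, ∀ a ∈ tA G S N ∪ tF0A G S N,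
      ∀ a' ∈ tA G S N ∪ tF0A G S N, a ∈ nb G E → a' ∈ nb G E' → a ≠ a' →
      nb G E' ∩ tQ G S N ⊆ nb G E ∩ tQ G S N := by
    rintro E hE E' hE' a ha a' ha' hn hn' haa f ⟨hf, hfQ⟩
    obtain ⟨h, hh, hha⟩ := hn.2
    have h1 := (hT5 V G S N k n E E' a a' hT' hE.1 hE'.1 ha ha' hn hn' haa).1 h hh hha f hfQ hf
    exact ⟨⟨fun hfE => hQC f hfQ (hEC E hE f hfE), h, hh, h1⟩, hfQ⟩
  have hP : ∀ E ∈ tE G S N n, nb G E ∩ tQ G S N = nb G E₁ ∩ tQ G S N := by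
    intro E hE
    obtain ⟨a, ha, han⟩ := hE.2
    by_cases h1 : a = a₁
    · subst h1
      have h2 := hsub E hE E₂ hE₂ a ha a₂ ha₂ han hn₂ hne
      have h3 := hsub E₂ hE₂ E hE a₂ ha₂ a ha hn₂ han hne.symm
      have h4 := hsub E₁ hE₁ E₂ hE₂ a ha₁ a₂ ha₂ hn₁ hn₂ hne
      have h5 := hsub E₂ hE₂ E₁ hE₁ a₂ ha₂ a ha₁ hn₂ hn₁ hne.symm
      exact Set.Subset.antisymm (h3.trans h4) (h5.trans h2)
    · exact Set.Subset.antisymm (hsub E₁ hE₁ E hE a₁ ha₁ a ha hn₁ han (Ne.symm h1))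
        (hsub E hE E₁ hE₁ a ha a₁ ha₁ han hn₁ h1)
  obtain ⟨h₁, hh₁, _⟩ := hn₁.2
  obtain ⟨h₂, hh₂, _⟩ := hn₂.2
  have hM : ∀ E ∈ tE G S N n, ∀ h ∈ E, Ms G S h = Ms G S h₁ := by
    intro E hE h hh
    obtain ⟨a, ha, han⟩ := hE.2
    by_cases h1 : a = a₁
    · subst h1
      have h2 := (hT5 V G S N k n E E₂ a a₂ hT' hE.1 hE₂.1 ha ha₂ han hn₂ hne).2 h hh h₂ hh₂
      have h3 := (hT5 V G S N k n E₂ E₁ a₂ a hT' hE₂.1 hE₁.1 ha₂ ha hn₂ hn₁ hne.symm).2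
        h₂ hh₂ h₁ hh₁
      exact h2.trans h3
    · exact (hT5 V G S N k n E E₁ a a₁ hT' hE.1 hE₁.1 ha ha₁ han hn₁ h1).2 h hh h₁ hh₁
  set P : Set V := nb G E₁ ∩ tQ G S N with hPdef
  set M : Set V := Ms G S h₁ with hMdef
  have hx : ∀ E ∈ tE G S N n, ∃ x ∈ E, ∀ f ∈ P, G.Adj x f := by
    intro E hE
    obtain ⟨a, ha, han⟩ := hE.2
    obtain ⟨h, hh, hha⟩ := han.2
    refine ⟨h, hh, fun f hf => ?_⟩
    by_cases h1 : a = a₁
    · subst h1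
      have h2 : f ∈ nb G E₂ ∩ tQ G S N := by
        rw [hP E₂ hE₂]
        exact hf
      exact (hT5 V G S N k n E E₂ a a₂ hT' hE.1 hE₂.1 ha ha₂ han hn₂ hne).1 h hh hha f h2.2 h2.1
    · exact (hT5 V G S N k n E E₁ a a₁ hT' hE.1 hE₁.1 ha ha₁ han hn₁ h1).1 h hh hha f hf.2 hf.1
  have hPS : ∀ f ∈ P, f ∉ S := fun f hf => hf.2.1.1
  have hPQ : P ⊆ tQ G S N \ tFA G S N := by
    intro f hf
    refine ⟨hf.2, fun hfA => ?_⟩
    obtain ⟨h, hh, hhf⟩ := hf.1.2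
    exact (hT4 V G S N k n E₁ hT' hE₁.1).2.2 h hh f hfA hhf
  -- the clique `L`
  have hL : CompleteOn G (S ∪ P) := by
    intro u hu v hv huv
    rcases hu with hu | hu <;> rcases hv with hv | hv
    · exact hS u hu v hv huv
    · exact (hQS v hv.2 u hu).symm
    · exact hQS u hu.2 v hv
    · exact hQc u hu.2 v hv.2 huv
  have hMs : ∀ E ∈ tE G S N n, ∀ h ∈ E, Ms G (S ∪ P) h = M ∪ {f | f ∈ P ∧ ¬ G.Adj h f} := by
    intro E hE h hh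
    rw [← hM E hE h hh]
    ext y
    simp only [Ms, Set.mem_ofPred_eq, Set.mem_union]
    tauto
  have hnL : ∀ E ∈ tE G S N n, ∀ h ∈ E, h ∉ S ∪ P := by
    intro E hE h hh hL
    rcases hL with h1 | h1
    · exact (hEC E hE h hh).1 h1
    · exact hQC h h1.2 (hEC E hE h hh)
  have hMS : M ⊆ S := fun y hy => hy.1
  have hM2 : 2 ≤ M.ncard := hN2.trans
    (Set.ncard_le_ncard (hEC E₁ hE₁ h₁ hh₁).2.1 (Set.toFinite _))
  have hstrip : ∀ A B : Set V, A ⊆ P → B ⊆ P → M ∪ A ⊆ M ∪ B → A ⊆ B := by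
    intro A B hA hB h y hy
    rcases h (Or.inr hy) with h1 | h1
    · exact absurd (hMS h1) (hPS y (hA hy))
    · exact h1
  have hDP : ∀ h : V, {f | f ∈ P ∧ ¬ G.Adj h f} ⊆ P := fun h f hf => hf.1
  have hch : ∀ E ∈ tE G S N n, ∀ h ∈ E, ∀ E' ∈ tE G S N n, ∀ h' ∈ E',
      {f | f ∈ P ∧ ¬ G.Adj h f} ⊆ {f | f ∈ P ∧ ¬ G.Adj h' f} ∨
        {f | f ∈ P ∧ ¬ G.Adj h' f} ⊆ {f | f ∈ P ∧ ¬ G.Adj h f} := by
    intro E hE h hh E' hE' h' hh'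
    have h1 := hB1 V G (S ∪ P) h h' hcls hL (hnL E hE h hh) (hnL E' hE' h' hh')
    rw [hMs E hE h hh, hMs E' hE' h' hh'] at h1
    rcases h1 with h1 | h1 | h1
    · exact Or.inl (hstrip _ _ (hDP h) (hDP h') h1)
    · exact Or.inr (hstrip _ _ (hDP h') (hDP h) h1)
    · exfalso
      have h2 : M.ncard ≤ ((M ∪ {f | f ∈ P ∧ ¬ G.Adj h f}) ∩
          (M ∪ {f | f ∈ P ∧ ¬ G.Adj h' f})).ncard :=
        Set.ncard_le_ncard (fun y hy => ⟨Or.inl hy, Or.inl hy⟩) (Set.toFinite _)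
      have h3 := h1.2
      omega
  have hj : ∀ E ∈ tE G S N n, ∀ E' ∈ tE G S N n, E ≠ E' → ∀ y ∈ E, ∀ v ∈ E',
      ({f | f ∈ P ∧ ¬ G.Adj v f} ∩ {f | f ∈ P ∧ ¬ G.Adj y f}).ncard ≤ 1 ∨
        {f | f ∈ P ∧ ¬ G.Adj y f} ⊆ {f | f ∈ P ∧ ¬ G.Adj v f} := by
    intro E hE E' hE' hEE y hy v hv
    obtain ⟨x, hxE, hxP⟩ := hx E hE
    have hvE : v ∉ E := fun h => hEE (Set.Subset.antisymm (comp_unique hE.1 hE'.1 h hv)
      (comp_unique hE'.1 hE.1 hv h))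
    have hvn : ∀ c ∈ E, ¬ G.Adj v c := by
      intro c hc hvc
      exact hE.1.2.2 v (hE'.1.1 hv) ⟨hvE, c, hc, hvc.symm⟩
    have hdis : Disjoint (S ∪ P) E := by
      rw [Set.disjoint_left]
      intro z hz hzE
      exact hnL E hE z hzE hz
    have h1 := hB3 V G (S ∪ P) E x y v hcls hL hE.1.2.1 hdis hxE hy (hnL E' hE' v hv) hvE hvn
    have h2 : Ms G (S ∪ P) y \ Ms G (S ∪ P) x = {f | f ∈ P ∧ ¬ G.Adj y f} := by
      rw [hMs E hE y hy, hMs E hE x hxE]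
      ext z
      constructor
      · rintro ⟨h3 | h3, h4⟩
        · exact absurd (Or.inl h3) h4
        · exact h3
      · intro h3
        refine ⟨Or.inr h3, ?_⟩
        rintro (h4 | h4)
        · exact hPS z h3.1 (hMS h4)
        · exact h4.2 (hxP z h4.1)
    rw [h2, hMs E' hE' v hv] at h1
    rcases h1 with h1 | h1
    · left
      refine (Set.ncard_le_ncard ?_ (Set.toFinite _)).trans h1
      rintro z ⟨hz1, hz2⟩
      exact ⟨Or.inr hz1, hz2⟩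
    · right
      intro z hz
      rcases h1 hz with h3 | h3
      · exact absurd (hMS h3) (hPS z hz.1)
      · exact h3
  obtain ⟨E₀, D₁, D₂, hD⟩ := chains (tE G S N n) (fun h => {f | f ∈ P ∧ ¬ G.Adj h f}) hch hj
  exact ⟨M, P, E₀, D₁, D₂, hPQ, hM, hP, hD⟩

end Pool.Agent.MPd439b2.LK
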