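import Pool.Agent.Lib.MP_d439b2_co.L4.Spec2

/-!
# MP_d439b2_co, column `C_4`: T7, the tree lemma (assembly)
-/

set_option autoImplicit false

namespace Pool.Agent.MPd439b2.LK

open Pool.Agent.MPd439b2

private theorem class_aux {V : Type} {G : SimpleGraph V} {S N : Set V} {k n : Fin 4 → V}
    (h : TSet G S N k n) (y : V) (hy : y ∉ S) :
    y ∈ tF G S ∨ y ∈ tA G S N ∨ y ∈ tB G S N ∨ y ∈ tC G S N := by
  obtain ⟨_, _, _, _, h5, _⟩ := h
  by_cases he : Ms G S y = ∅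
  · exact Or.inl ⟨hy, he⟩
  have hne : (Ms G S y).Nonempty := Set.nonempty_iff_ne_empty.mpr he
  right
  rcases h5 y hy with h1 | h1 | h1
  · exact Or.inl ⟨hy, hne, h1⟩
  · exact Or.inr (Or.inl ⟨hy, hne, h1⟩)
  · by_cases h2 : Ms G S y ⊆ N
    · exact Or.inl ⟨hy, hne, h2⟩
    · exact Or.inr (Or.inr ⟨hy, h1, h2⟩)

private theorem msN {V : Type} {G : SimpleGraph V} {S : Set V} {v s : V} (hs : s ∈ S)
    (h : s ∉ Ms G S v) : G.Adj v s := by
  by_contra h1
  exact h ⟨hs, h1⟩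

private theorem Nne {V : Type} {G : SimpleGraph V} {S N : Set V} {k n : Fin 4 → V}
    (h : TSet G S N k n) : N.Nonempty := by
  obtain ⟨_, _, _, _, _, h6, _⟩ := h
  exact (h6 0).2.1.mono (h6 0).2.2

private theorem core_aux (h1 : S_A1) (h2 : S_T1) (h3 : S_T2) (h4 : S_T3) (h5 : S_T4)
    (V : Type) [Finite V] (G : SimpleGraph V) (S N : Set V) (k n : Fin 4 → V)
    (ht : TSet G S N k n) (Y : Set V)
    (hY : Disjoint (N ∪ tA G S N ∪ tFA G S N ∪ tF0A G S N) Y) (a : V)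
    (ha : ∀ E ∈ tE G S N n, (E ∩ Y).Nonempty → ∀ c ∈ tA G S N ∪ tF0A G S N, c ∈ nb G E → c = a) :
    rk G (N ∪ tA G S N ∪ tFA G S N ∪ tF0A G S N) Y ≤ 4 := by
  obtain ⟨_, hmono, hun, hcard, hone, _⟩ := h1 V G
  have hT1 := h2 V G S N k n ht
  obtain ⟨_, hT2b, hT2c, hT2d⟩ := h3 V G S N k n ht
  obtain ⟨hT3a, hT3b⟩ := h4 V G S N k n ht
  have hNne := Nne ht
  obtain ⟨n0, hn0⟩ := hNne
  have hcl := class_aux ht
  have hT4 := h5 V G S N k n
  have ht' := ht
  obtain ⟨_, hS, _, hNS, _, _⟩ := ht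
  have hYN : ∀ y ∈ Y, y ∉ N ∧ y ∉ tA G S N ∧ y ∉ tFA G S N ∧ y ∉ tF0A G S N := by
    intro y hy
    have h0 : y ∉ N ∪ tA G S N ∪ tFA G S N ∪ tF0A G S N :=
      fun h => Set.disjoint_left.mp hY h hy
    simp only [Set.mem_union, not_or] at h0
    exact ⟨h0.1.1.1, h0.1.1.2, h0.1.2, h0.2⟩
  -- every vertex of tCp lies in a component
  have hcomp : ∀ b ∈ tCp G S N n, ∃ E, IsComp G (tCp G S N n) E ∧ b ∈ E := by
    intro b hb
    obtain ⟨E, hE, hbE, hEc, hEn⟩ := exists_comp G hb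
    exact ⟨E, ⟨hE, hEc, hEn⟩, hbE⟩
  have hAS : ∀ c ∈ tA G S N ∪ tF0A G S N, c ∉ S ∧ c ∉ tCp G S N n := by
    intro c hc
    rcases hc with hc | hc
    · refine ⟨hc.1, fun h => h.1.2.2 hc.2.2⟩
    · have h0 := hc.1.1
      refine ⟨h0.1, fun h => ?_⟩
      have h6 := h.1.2.1 hn0
      rw [h0.2] at h6
      exact h6
  have hE1 : ∀ c ∈ tA G S N ∪ tF0A G S N, c ≠ a → ∀ b ∈ Y, b ∈ tCp G S N n → ¬ G.Adj c b := by
    intro c hc hca b hbY hb hadj
    obtain ⟨E, hE, hbE⟩ := hcomp b hb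
    have hcE : c ∈ nb G E := ⟨fun h => (hAS c hc).2 (hE.1 h), b, hbE, hadj.symm⟩
    exact hca (ha E ⟨hE, c, hc, hcE⟩ ⟨b, hbE, hbY⟩ c hc hcE)
  -- first piece
  have r1 : rk G N Y ≤ 1 := by
    apply hone N Y (S ∪ tB G S N ∪ tF G S)
    intro s hs
    left
    intro b hb
    obtain ⟨hb1, hb2, hb3, hb4⟩ := hYN b hb
    constructor
    · intro hadj
      by_cases hbS : b ∈ S
      · exact Or.inl (Or.inl hbS)
      rcases hcl b hbS with h | h | h | h
      · exact Or.inr h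
      · exact absurd h hb2
      · exact Or.inl (Or.inr h)
      · exact absurd hadj.symm (h.2.1 hs).2
    · rintro ((h | h) | h)
      · exact hS s (hNS hs) b h (fun h => hb1 (h ▸ hs))
      · exact (msN (hNS hs) (fun h6 => (h.2.2 h6).2 hs)).symm
      · exact (msN (hNS hs) (fun h6 => by rw [h.2] at h6; exact h6)).symm
  have r2 : rk G ((tA G S N ∪ tF0A G S N) \ {a}) Y ≤ 1 := by
    apply hone _ Y (S ∪ (tQ G S N \ tFA G S N))
    rintro c ⟨hc, hca⟩
    left
    intro b hb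
    obtain ⟨hb1, hb2, hb3, hb4⟩ := hYN b hb
    constructor
    · intro hadj
      by_cases hbS : b ∈ S
      · exact Or.inl hbS
      right
      rcases hcl b hbS with h | h | h | h
      · refine ⟨⟨h, fun h0 => ?_⟩, hb3⟩
        rcases hc with hc | hc
        · exact hT2c b h0 c (Or.inr (Or.inl (Or.inl hc))) hadj.symm
        · exact hT2c c hc.1 b (Or.inl h0) hadj
      · exact absurd h hb2
      · exfalso
        rcases hc with hc | hc
        · exact hT1 c (Or.inl (Or.inl hc)) b (Or.inl (Or.inr h)) hadj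
        · exact hT2c c hc.1 b (Or.inr (Or.inl (Or.inr h))) hadj
      · exfalso
        by_cases hm : b ∈ tCm G S N n
        · rcases hc with hc | hc
          · exact hT1 c (Or.inl (Or.inl hc)) b (Or.inr hm) hadj
          · exact hT2c c hc.1 b (Or.inr (Or.inr hm)) hadj
        · exact hE1 c hc hca b hb ⟨h, hm⟩ hadj
    · rintro (h | h)
      · rcases hc with hc | hc
        · exact msN h (fun h6 => hb1 (hc.2.2 h6))
        · exact msN h (fun h6 => by rw [hc.1.1.2] at h6; exact h6)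
      · rcases hc with hc | hc
        · by_contra hna
          exact h.2 ⟨h.1, c, hc, hna⟩
        · exact hT3b c hc b h
  have r3 : rk G ({a} : Set V) Y ≤ 1 := (hcard _ _).trans (by rw [Set.ncard_singleton])
  have r4 : rk G (tFA G S N) Y ≤ 1 := by
    apply hone _ Y (S ∪ tB G S N ∪ tF G S)
    intro f hf
    left
    intro b hb
    obtain ⟨hb1, hb2, hb3, hb4⟩ := hYN b hb
    constructor
    · intro hadj
      by_cases hbS : b ∈ S
      · exact Or.inl (Or.inl hbS)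
      rcases hcl b hbS with h | h | h | h
      · exact Or.inr h
      · exact absurd h hb2
      · exact Or.inl (Or.inr h)
      · exfalso
        by_cases hm : b ∈ tCm G S N n
        · exact hT3a b hm f hf hadj.symm
        · obtain ⟨E, hE, hbE⟩ := hcomp b ⟨h, hm⟩
          exact (hT4 E ht' hE).2.2 b hbE f hf hadj.symm
    · rintro ((h | h) | h)
      · exact msN h (fun h6 => by rw [hf.1.1.2] at h6; exact h6)
      · exact hT2d f hf b h
      · by_cases h0 : b ∈ tF0 G S N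
        · by_contra hna
          exact hb4 ⟨h0, f, hf, fun h7 => hna h7.symm⟩
        · exact hT2b f hf.1 b ⟨h, h0⟩ (fun h7 => hb3 (h7 ▸ hf))
  have hsub : N ∪ tA G S N ∪ tFA G S N ∪ tF0A G S N ⊆
      N ∪ ((tA G S N ∪ tF0A G S N) \ {a}) ∪ {a} ∪ tFA G S N := by
    intro x hx
    simp only [Set.mem_union, Set.mem_sdiff, Set.mem_singleton_iff] at hx ⊢
    tauto
  have e1 := hmono _ _ Y Y hsub subset_rfl
  have e2 := hun (N ∪ ((tA G S N ∪ tF0A G S N) \ {a}) ∪ {a}) (tFA G S N) Y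
  have e3 := hun (N ∪ ((tA G S N ∪ tF0A G S N) \ {a})) {a} Y
  have e4 := hun N ((tA G S N ∪ tF0A G S N) \ {a}) Y
  omega

theorem t7 (h1 : S_A1) (h2 : S_T1) (h3 : S_T2) (h4 : S_T3) (h5 : S_T4) (_h6 : S_T5)
    (h7 : S_T6) : S_T7 := by
  intro V _ G S N k n ht
  have hcore := core_aux h1 h2 h3 h4 h5 V G S N k n ht
  have hNne := Nne ht
  obtain ⟨n0, hn0⟩ := hNne
  have hNS : N ⊆ S := ht.2.2.2.1
  have hXS : (N ∪ tA G S N ∪ tFA G S N ∪ tF0A G S N) ∩ S = N := by
    apply Set.Subset.antisymm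
    · rintro x ⟨((h | h) | h) | h, hxS⟩
      · exact h
      · exact absurd hxS h.1
      · exact absurd hxS h.1.1.1
      · exact absurd hxS h.1.1.1
    · intro x hx
      exact ⟨Or.inl (Or.inl (Or.inl hx)), hNS hx⟩
  by_cases hc : ∃ a, ∀ E ∈ tE G S N n, ∀ c ∈ tA G S N ∪ tF0A G S N, c ∈ nb G E → c = a
  · obtain ⟨a, ha⟩ := hc
    refine ⟨N ∪ tA G S N ∪ tFA G S N ∪ tF0A G S N, hXS, ?_⟩
    have h := hcore (N ∪ tA G S N ∪ tFA G S N ∪ tF0A G S N)ᶜ disjoint_compl_right a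
      (fun E hE _ => ha E hE)
    have h' : cr G (N ∪ tA G S N ∪ tFA G S N ∪ tF0A G S N) ≤ 4 := h
    omega
  push Not at hc
  obtain ⟨E₁, hE₁, a₁, ha₁, hn₁, _⟩ := hc (n 0)
  obtain ⟨E₂, hE₂, a₂, ha₂, hn₂, hne⟩ := hc a₁
  obtain ⟨M, P, E₀, D₁, D₂, hP, hM, hPE, hD⟩ :=
    h7 V G S N k n E₁ E₂ a₁ a₂ ht hE₁ hE₂ ha₁ ha₂ hn₁ hn₂ (Ne.symm hne)
  -- the neighbours of a component in `tE`
  have hAQ : ∀ c ∈ tA G S N ∪ tF0A G S N, c ∉ S ∧ c ∉ tQ G S N := by
    intro c hc
    rcases hc with hc | hc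
    · refine ⟨hc.1, fun h => ?_⟩
      have h8 := hc.2.1
      rw [h.1.2] at h8
      exact Set.not_nonempty_empty h8
    · exact ⟨hc.1.1.1, fun h => h.2 hc.1⟩
  have huniq : ∀ E ∈ tE G S N n, ∃ a ∈ tA G S N ∪ tF0A G S N, a ∈ nb G E ∧
      nb G E \ S ⊆ insert a (tQ G S N) := by
    intro E hE
    obtain ⟨hE1, a, ha, han⟩ := hE
    refine ⟨a, ha, han, ?_⟩
    apply (h5 V G S N k n E ht hE1).2.1 a ?_ han
    rcases ha with ha | ha
    · exact Or.inl ha
    · exact Or.inr ha.1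
  have htCp : ∀ E ∈ tE G S N n, ∀ x ∈ E, x ∉ S ∧ n0 ∈ Ms G S x ∧ ¬ Ms G S x ⊆ N := by
    intro E hE x hx
    have h8 := (hE.1.1 hx).1
    exact ⟨h8.1, h8.2.1 hn0, h8.2.2⟩
  set X₀ : Set V := N ∪ tA G S N ∪ tFA G S N ∪ tF0A G S N with hX₀
  have hX1 : (X₀ ∪ ⋃₀ (tE G S N n \ {E₀})) ∩ S = N := by
    rw [Set.union_inter_distrib_right, hXS]
    apply Set.union_eq_self_of_subset_right
    rintro x ⟨⟨E, hE, hx⟩, hxS⟩
    exact absurd hxS (htCp E hE.1 x hx).1
  refine ⟨X₀ ∪ ⋃₀ (tE G S N n \ {E₀}), hX1, ?_⟩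
  set Y : Set V := (X₀ ∪ ⋃₀ (tE G S N n \ {E₀}))ᶜ with hY
  have hYE : ∀ E ∈ tE G S N n, (E ∩ Y).Nonempty → E = E₀ := by
    intro E hE hne'
    by_contra hEE
    obtain ⟨x, hxE, hxY⟩ := hne'
    exact hxY (Or.inr ⟨E, ⟨hE, hEE⟩, hxE⟩)
  have r1 : rk G X₀ Y ≤ 4 := by
    by_cases hE0 : E₀ ∈ tE G S N n
    · obtain ⟨a, ha, han, hasub⟩ := huniq E₀ hE0
      apply hcore Y _ a
      · intro E hE hne' c hc hcn
        have hEE := hYE E hE hne'
        rw [hEE] at hcn
        rcases hasub ⟨hcn, (hAQ c hc).1⟩ with h | h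
        · exact h
        · exact absurd h (hAQ c hc).2
      · rw [Set.disjoint_left]
        intro x hx hxY
        exact hxY (Or.inl hx)
    · apply hcore Y _ n0
      · intro E hE hne' c hc hcn
        have hEE := hYE E hE hne'
        rw [hEE] at hE
        exact absurd hE hE0
      · rw [Set.disjoint_left]
        intro x hx hxY
        exact hxY (Or.inl hx)
  obtain ⟨_, _, hun, _, _, hsix⟩ := h1 V G
  have r2 : rk G (⋃₀ (tE G S N n \ {E₀})) Y ≤ 3 := by
    have hle := hsix (⋃₀ (tE G S N n \ {E₀})) Y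
      {((S \ N) \ M) ∪ (P \ (∅ : Set V)), ((S \ N) \ M) ∪ (P \ D₁), ((S \ N) \ M) ∪ (P \ D₂)} ?_
    · refine hle.trans ?_
      refine (Set.ncard_insert_le _ _).trans ?_
      have h8 := Set.ncard_insert_le (((S \ N) \ M) ∪ (P \ D₁)) {((S \ N) \ M) ∪ (P \ D₂)}
      rw [Set.ncard_singleton] at h8
      omega
    · rintro h ⟨E, ⟨hE, hEE⟩, hh⟩
      left
      have hkey : {b | b ∈ Y ∧ G.Adj h b} =
          ((S \ N) \ M) ∪ (P \ {f | f ∈ P ∧ ¬ G.Adj h f}) := by
        obtain ⟨a, ha, han, hasub⟩ := huniq E hE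
        have hMh := hM E hE h hh
        apply Set.Subset.antisymm
        · rintro b ⟨hbY, hadj⟩
          by_cases hbS : b ∈ S
          · left
            refine ⟨⟨hbS, fun hbN => hbY (Or.inl (Or.inl (Or.inl (Or.inl hbN))))⟩, fun hbM => ?_⟩
            rw [← hMh] at hbM
            exact hbM.2 hadj
          · right
            have hbE : b ∉ E := fun h9 => hbY (Or.inr ⟨E, ⟨hE, hEE⟩, h9⟩)
            have hbn : b ∈ nb G E := ⟨hbE, h, hh, hadj⟩
            have hbQ : b ∈ tQ G S N := by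
              rcases hasub ⟨hbn, hbS⟩ with h9 | h9
              · exfalso
                apply hbY
                rw [h9]
                left
                rcases ha with ha | ha
                · exact Or.inl (Or.inl (Or.inr ha))
                · exact Or.inr ha
              · exact h9
            refine ⟨?_, fun h9 => h9.2 hadj⟩
            rw [← hPE E hE]
            exact ⟨hbn, hbQ⟩
        · rintro b (⟨⟨hbS, hbN⟩, hbM⟩ | ⟨hbP, hbD⟩)
          · refine ⟨fun hbX => hbN ?_, ?_⟩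
            · rw [← hX1]
              exact ⟨hbX, hbS⟩
            · rw [← hMh] at hbM
              exact msN hbS hbM
          · have hbQ := hP hbP
            have hbF := hbQ.1.1
            refine ⟨?_, ?_⟩
            · rintro ((((h9 | h9) | h9) | h9) | ⟨E', hE', hbE'⟩)
              · exact hbF.1 (hNS h9)
              · exact (hAQ b (Or.inl h9)).2 hbQ.1
              · exact hbQ.2 h9
              · exact (hAQ b (Or.inr h9)).2 hbQ.1
              · have h10 := (htCp E' hE'.1 b hbE').2.1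
                rw [hbF.2] at h10
                exact h10
            · by_contra h9
              exact hbD ⟨hbP, h9⟩
      rw [hkey]
      rcases hD E hE hEE h hh with h9 | h9 | h9
      · rw [h9]
        exact Or.inl rfl
      · rw [h9]
        exact Or.inr (Or.inl rfl)
      · rw [h9]
        exact Or.inr (Or.inr rfl)
  have r3 := hun X₀ (⋃₀ (tE G S N n \ {E₀})) Y
  have r4 : cr G (X₀ ∪ ⋃₀ (tE G S N n \ {E₀})) = rk G (X₀ ∪ ⋃₀ (tE G S N n \ {E₀})) Y := rfl
  omega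

end Pool.Agent.MPd439b2.LK
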