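import Pool.Agent.Lib.MP_d439b2_co.LayCW
import Pool.Agent.Lib.MP_d439b2_co.L4.A0
import Pool.Agent.Lib.MP_d439b2_co.L4.A1
import Pool.Agent.Lib.MP_d439b2_co.L4.A2
import Pool.Agent.Lib.MP_d439b2_co.L4.A3
import Pool.Agent.Lib.MP_d439b2_co.L4.A4
import Pool.Agent.Lib.MP_d439b2_co.L4.A5
import Pool.Agent.Lib.MP_d439b2_co.L4.A6
import Pool.Agent.Lib.MP_d439b2_co.L4.A7
import Pool.Agent.Lib.MP_d439b2_co.L4.A8
import Pool.Agent.Lib.MP_d439b2_co.L4.A9
import Pool.Agent.Lib.MP_d439b2_co.L4.A10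
import Pool.Agent.Lib.MP_d439b2_co.L4.A11
import Pool.Agent.Lib.MP_d439b2_co.L4.A12
import Pool.Agent.Lib.MP_d439b2_co.L4.B0
import Pool.Agent.Lib.MP_d439b2_co.L4.B1
import Pool.Agent.Lib.MP_d439b2_co.L4.B2
import Pool.Agent.Lib.MP_d439b2_co.L4.B3
import Pool.Agent.Lib.MP_d439b2_co.L4.B4
import Pool.Agent.Lib.MP_d439b2_co.L4.B5
import Pool.Agent.Lib.MP_d439b2_co.L4.B6
import Pool.Agent.Lib.MP_d439b2_co.L4.B7
import Pool.Agent.Lib.MP_d439b2_co.L4.B8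
import Pool.Agent.Lib.MP_d439b2_co.L4.T1
import Pool.Agent.Lib.MP_d439b2_co.L4.T2
import Pool.Agent.Lib.MP_d439b2_co.L4.T3
import Pool.Agent.Lib.MP_d439b2_co.L4.T4
import Pool.Agent.Lib.MP_d439b2_co.L4.T5
import Pool.Agent.Lib.MP_d439b2_co.L4.T6
import Pool.Agent.Lib.MP_d439b2_co.L4.T7
import Pool.Agent.Lib.MP_d439b2_co.L4.C1
import Pool.Agent.Lib.MP_d439b2_co.L4.C2
import Pool.Agent.Lib.MP_d439b2_co.L4.C3
import Pool.Agent.Lib.MP_d439b2_co.L4.C4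
import Pool.Agent.Lib.MP_d439b2_co.L4.C5
import Pool.Agent.Lib.MP_d439b2_co.L4.C6
import Pool.Agent.Lib.MP_d439b2_co.L4.C7
import Pool.Agent.Lib.MP_d439b2_co.L4.C8
import Pool.Agent.Lib.MP_d439b2_co.L4.C9
import Pool.Agent.Lib.MP_d439b2_co.L4.C10
import Pool.Agent.Lib.MP_d439b2_co.L4.C11
import Pool.Agent.Lib.MP_d439b2_co.L4.C12
import Pool.Agent.Lib.MP_d439b2_co.L4.C13
import Pool.Agent.Lib.MP_d439b2_co.L4.C14
import Pool.Agent.Lib.MP_d439b2_co.L4.C15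

/-!
# MP_d439b2_co, column `C_4`, assembly

`cliquesSuffice` (S_A12) for all base problems of the column `C_4`, and the theorem `c15F`: chordal graphs
without the induced minor `K4:0,1` have layouts of bounded width, so the pair `(C_4, K4:0,1)` has bounded
clique-width.
-/

set_option autoImplicit false

namespace Pool.Agent.MPd439b2.LK

open Pool.Agent.MPd439b2

theorem a2F : S_A2 := a2 a1
theorem a5F : S_A5 := a5 a4
theorem a6F : S_A6 := a6 a2F a3 a5F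
theorem a7F : S_A7 := a7 a0
theorem a8F : S_A8 := a8 a7F
theorem a9F : S_A9 := a9 a1 a2F
theorem a10F : S_A10 := a10 a2F a9F
theorem a11F : S_A11 := a11 a1

/-- cliques suffice -/
theorem cliquesSuffice : S_A12 := a12 a5F a6F a8F a9F a10F a11F

theorem b1F : S_B1 := b1 a0 b0
theorem b2F : S_B2 := b2 b0
theorem b3F : S_B3 := b3 b0
theorem b7F : S_B7 := b7 b4 b5 b6
theorem b8F : S_B8 := b8 b1F b2F b7F

theorem t1F : S_T1 := t1 b1F b2F
theorem t2F : S_T2 := t2 a0 b2F t1F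
theorem t3F : S_T3 := t3 b0 t1F t2F
theorem t4F : S_T4 := t4 a0 b0 t1F t2F
theorem t5F : S_T5 := t5 b0 t2F t3F t4F
theorem t6F : S_T6 := t6 b1F b3F t2F t4F t5F
theorem t7F : S_T7 := t7 a1 t1F t2F t3F t4F t5F t6F

theorem c2F : S_C2 := c2 a1
theorem c3F : S_C3 := c3 b8F c1 c2F t7F
theorem c4F : S_C4 := c4
theorem c5F : S_C5 := c5 a1
theorem c6F : S_C6 := c6 a0
theorem c7F : S_C7 := c7 a1 b1F b2F b3F c6F
theorem c8F : S_C8 := c8 a7F b1F b2F b3F
theorem c9F : S_C9 := c9 a0 a1 a7F b3F c5F c7F c8F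
theorem c10F : S_C10 := c10 a0 b0 b1F c5F c9F
theorem c11F : S_C11 := c11 a7F b3F c10F
theorem c12F : S_C12 := c12 a1 c10F c11F
theorem c13F : S_C13 := c13 b8F c4F c10F c12F t7F
theorem c14F : S_C14 := c14 c3F c13F

/-- chordal graphs without `K4:0,1` have layouts of bounded width; the pair `(C_4, K4:0,1)` has bounded
clique-width -/
theorem c15F : S_C15 := c15 cliquesSuffice c14F layCW

end Pool.Agent.MPd439b2.LK
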