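import Pool.Agent.Lib.MP_d439b2_co.L4.Spec1

/-!
# MP_d439b2_co, column `C_4`, A10: a big set of small cut-rank which misses `K`
-/

set_option autoImplicit false

namespace Pool.Agent.MPd439b2.LK

open Pool.Agent.MPd439b2

namespace A10Aux

variable {V : Type}

theorem cr_compl {G : SimpleGraph V} (h : CF Set.univ (cr G)) (X : Set V) :
    cr G Xᶜ = cr G X := by
  have := h.2.1 X (Set.subset_univ X)
  rwa [← Set.compl_eq_univ_sdiff] at this

theorem cr_union {G : SimpleGraph V} (h : CF Set.univ (cr G)) (X Y : Set V) :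
    cr G (X ∪ Y) ≤ cr G X + cr G Y := by
  have := h.2.2.1 X (Set.subset_univ X) Y (Set.subset_univ Y)
  omega

theorem cr_sdiff {G : SimpleGraph V} (h : CF Set.univ (cr G)) (X Y : Set V) :
    cr G (X \ Y) ≤ cr G X + cr G Y := by
  have h1 : X \ Y = (Xᶜ ∪ Y)ᶜ := by
    ext x
    simp
  have h2 := cr_union h Xᶜ Y
  rw [cr_compl h X] at h2
  rw [h1, cr_compl h]
  exact h2

/-- all nodes of a layout have value at most `n` -/
theorem lay_le {f : Set V → ℕ} {n : ℕ} (h0 : f ∅ = 0) {U : Set V} (h : ALay f n U) : f U ≤ n := by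
  cases h with
  | empty => rw [h0]; exact Nat.zero_le _
  | single v hv => exact hv
  | union _ _ _ h4 => exact h4

theorem big_of {B X : Set V} [Finite V] {c m : ℕ} {G : SimpleGraph V}
    (hB : ∀ P, cr G P ≤ c → (B ∩ P).ncard ≤ 2 * c ∨ (B \ P).ncard ≤ 2 * c)
    (hc : cr G X ≤ c) (hm : (B \ X).ncard ≤ m) (hb : m + 2 * c + 1 ≤ B.ncard) :
    (B \ X).ncard ≤ 2 * c := by
  rcases hB X hc with h | h
  · exfalso
    have := Set.ncard_inter_add_ncard_sdiff_eq_ncard B X (Set.toFinite B)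
    omega
  · exact h

theorem claim [Finite V] (G : SimpleGraph V) (K B : Set V) (n c : ℕ)
    (h1 : CF Set.univ (cr G)) (h2 : CF K (lam G K))
    (h3 : ∀ P ⊆ K, ∃ X, X ∩ K = P ∧ cr G X = lam G K P)
    (hn : 3 * n + 1 ≤ c) (hBc : 8 * c + 1 ≤ B.ncard)
    (hB : ∀ P, cr G P ≤ c → (B ∩ P).ncard ≤ 2 * c ∨ (B \ P).ncard ≤ 2 * c)
    {U : Set V} (hU : ALay (lam G K) n U) :
    U ⊆ K → ∀ X : Set V, X ∩ K = U → cr G X ≤ n → (B \ X).ncard ≤ 2 * c →
      ∃ V', Disjoint V' K ∧ cr G V' ≤ c ∧ (B \ V').ncard ≤ 2 * c := by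
  induction hU with
  | empty =>
    intro _ X hX hcr hb
    exact ⟨X, Set.disjoint_iff_inter_eq_empty.2 hX, by omega, hb⟩
  | single v hv =>
    intro hvK X hX hcr hb
    refine ⟨X \ {v}, ?_, ?_, ?_⟩
    · rw [Set.disjoint_left]
      intro a ha haK
      have : a ∈ X ∩ K := ⟨ha.1, haK⟩
      rw [hX] at this
      exact ha.2 this
    · have e1 := cr_sdiff h1 X {v}
      have e2 := h1.2.2.2 v (Set.mem_univ v)
      omega
    · refine big_of (m := 2 * c + 1) hB ?_ ?_ (by omega)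
      · have e1 := cr_sdiff h1 X {v}
        have e2 := h1.2.2.2 v (Set.mem_univ v)
        omega
      · have e3 : B \ (X \ {v}) ⊆ (B \ X) ∪ {v} := by
          intro a ha
          by_cases hax : a ∈ X
          · right
            by_contra hav
            exact ha.2 ⟨hax, hav⟩
          · left
            exact ⟨ha.1, hax⟩
        have e4 := Set.ncard_le_ncard e3 (Set.toFinite _)
        have e5 := Set.ncard_union_le (B \ X) {v}
        rw [Set.ncard_singleton] at e5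
        omega
  | @union U₁ U₂ hU₁ hU₂ hd hle ih₁ ih₂ =>
    intro hUK X hX hcr hb
    have hK₁ : U₁ ⊆ K := Set.subset_union_left.trans hUK
    have hK₂ : U₂ ⊆ K := Set.subset_union_right.trans hUK
    obtain ⟨X₁, hX₁, hc₁⟩ := h3 U₁ hK₁
    obtain ⟨X₂, hX₂, hc₂⟩ := h3 U₂ hK₂
    have hl₁ := lay_le h2.1 hU₁
    have hl₂ := lay_le h2.1 hU₂
    by_cases b₁ : (B \ X₁).ncard ≤ 2 * c
    · exact ih₁ hK₁ X₁ hX₁ (by omega) b₁
    by_cases b₂ : (B \ X₂).ncard ≤ 2 * c
    · exact ih₂ hK₂ X₂ hX₂ (by omega) b₂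
    have s₁ : (B ∩ X₁).ncard ≤ 2 * c := (hB X₁ (by omega)).resolve_right b₁
    have s₂ : (B ∩ X₂).ncard ≤ 2 * c := (hB X₂ (by omega)).resolve_right b₂
    have hcr' : cr G (X \ (X₁ ∪ X₂)) ≤ c := by
      have e1 := cr_sdiff h1 X (X₁ ∪ X₂)
      have e2 := cr_union h1 X₁ X₂
      omega
    refine ⟨X \ (X₁ ∪ X₂), ?_, hcr', ?_⟩
    · rw [Set.disjoint_left]
      intro a ha haK
      have h4 : a ∈ X ∩ K := ⟨ha.1, haK⟩
      rw [hX] at h4
      rcases h4 with h4 | h4
      · rw [← hX₁] at h4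
        exact ha.2 (Or.inl h4.1)
      · rw [← hX₂] at h4
        exact ha.2 (Or.inr h4.1)
    · refine big_of (m := 6 * c) hB hcr' ?_ (by omega)
      have e3 : B \ (X \ (X₁ ∪ X₂)) ⊆ (B \ X) ∪ ((B ∩ X₁) ∪ (B ∩ X₂)) := by
        intro a ha
        by_cases hax : a ∈ X
        · right
          by_cases ha1 : a ∈ X₁
          · exact Or.inl ⟨ha.1, ha1⟩
          · right
            refine ⟨ha.1, ?_⟩
            by_contra ha2
            exact ha.2 ⟨hax, fun h => h.elim ha1 ha2⟩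
        · left
          exact ⟨ha.1, hax⟩
      have e4 := Set.ncard_le_ncard e3 (Set.toFinite _)
      have e5 := Set.ncard_union_le (B \ X) ((B ∩ X₁) ∪ (B ∩ X₂))
      have e6 := Set.ncard_union_le (B ∩ X₁) (B ∩ X₂)
      omega

end A10Aux

theorem a10 (h1 : S_A2) (h2 : S_A9) : S_A10 := by
  intro V _ G K B n c hK hn hBc hB
  obtain ⟨h3, h4, -⟩ := h2 V G K
  refine A10Aux.claim G K B n c (h1 V G) h3 h4 hn hBc hB hK subset_rfl Set.univ
    (Set.univ_inter K) ?_ ?_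
  · have e1 := A10Aux.cr_compl (h1 V G) ∅
    rw [Set.compl_empty, (h1 V G).1] at e1
    omega
  · rw [Set.sdiff_univ, Set.ncard_empty]
    exact Nat.zero_le _

end Pool.Agent.MPd439b2.LK
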