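import Pool.Agent.Lib.MP_d439b2_co.L4.Spec2

/-!
# MP_d439b2_co, L4: B8, the laminar theorem for the traces on a clique
-/

set_option autoImplicit false

namespace Pool.Agent.MPd439b2.LK

open Pool.Agent.MPd439b2

namespace B8aux

variable {V : Type} [Finite V] {G : SimpleGraph V} {S : Set V}

/-- the traces satisfy the two rules -/
lemma lf (h1 : S_B1) (h2 : S_B2) (hC : Cls G) (hS : CompleteOn G S) :
    LF {A : Set V | ∃ v, v ∉ S ∧ A = Ms G S v} := by
  have key : ∀ (v c : V), c ∈ S → c ∉ Ms G S v → G.Adj v c := by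
    intro v c hc hcv
    by_contra hn
    exact hcv ⟨hc, hn⟩
  constructor
  · rintro A ⟨u, hu, rfl⟩ B ⟨v, hv, rfl⟩
    rcases h1 V G S u v hC hS hu hv with h | h | h
    · exact Or.inl h
    · exact Or.inr (Or.inl h)
    · exact Or.inr (Or.inr h.2)
  · rintro A ⟨u, hu, rfl⟩ B ⟨v, hv, rfl⟩ k hAB hBA hk M ⟨g, hg, rfl⟩ hkM
    have hkk : k ∈ Ms G S u ∩ Ms G S v := by
      rw [hk]
      rfl
    have honly : ∀ x, x ∈ Ms G S u → x ∈ Ms G S v → x = k := by
      intro x hx hx'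
      have : x ∈ Ms G S u ∩ Ms G S v := ⟨hx, hx'⟩
      rw [hk] at this
      exact this
    have huv : ¬ G.Adj u v := by
      rcases h1 V G S u v hC hS hu hv with h | h | h
      · exact absurd h hAB
      · exact absurd h hBA
      · exact h.1
    have hgk : G.Adj g k := key g k hkk.1.1 hkM
    -- adjacency gives containment
    have hin : ∀ w, w ∉ S → k ∈ Ms G S w → G.Adj g w → Ms G S g ⊆ Ms G S w \ {k} := by
      intro w hw hkw hgw
      rcases h1 V G S g w hC hS hg hw with h | h | h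
      · intro x hx
        refine ⟨h hx, ?_⟩
        rintro rfl
        exact hkM hx
      · exact absurd (h hkw) hkM
      · exact absurd hgw h.1
    by_cases hgu : G.Adj g u
    · exact Or.inl (hin u hu hkk.1 hgu)
    by_cases hgv : G.Adj g v
    · exact Or.inr (Or.inl (hin v hv hkk.2 hgv))
    by_cases hA : Ms G S u \ {k} ⊆ Ms G S g
    · exact Or.inr (Or.inr (Or.inl hA))
    by_cases hB : Ms G S v \ {k} ⊆ Ms G S g
    · exact Or.inr (Or.inr (Or.inr hB))
    exfalso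
    obtain ⟨a, ⟨ha, hak⟩, hag⟩ := Set.not_subset.1 hA
    obtain ⟨a', ⟨ha', hak'⟩, hag'⟩ := Set.not_subset.1 hB
    have hak : a ≠ k := hak
    have hak' : a' ≠ k := hak'
    have hav : a ∉ Ms G S v := fun h => hak (honly a ha h)
    have hau' : a' ∉ Ms G S u := fun h => hak' (honly a' h ha')
    have hne : a ≠ a' := by
      rintro rfl
      exact hav ha'
    have hku : ¬ G.Adj k u := fun h => hkk.1.2 h.symm
    have hkv : ¬ G.Adj k v := fun h => hkk.2.2 h.symm
    exact h2 V G u v a a' k g hC (hS a ha.1 a' ha'.1 hne) (key v a ha.1 hav) ha.2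
      (key u a' ha'.1 hau') ha'.2 huv (hS k hkk.1.1 a ha.1 hak.symm)
      (hS k hkk.1.1 a' ha'.1 hak'.symm) (key g a ha.1 hag) (key g a' ha'.1 hag')
      hku hkv hgu hgv hgk.symm

end B8aux

open B8aux in
/-- **B8.** The laminar theorem. -/
theorem b8 (h1 : S_B1) (h2 : S_B2) (h3 : S_B7) : S_B8 := by
  intro V _ G S hC hS
  obtain ⟨Z, hZ, hL⟩ := h3 V _ (lf h1 h2 hC hS)
  refine ⟨Z, hZ, ?_⟩
  have hout : ∀ u, u ∉ S → Ms G (S \ Z) u = Ms G S u \ Z := by
    intro u _
    ext c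
    constructor
    · rintro ⟨⟨hc, hcZ⟩, hn⟩
      exact ⟨⟨hc, hn⟩, hcZ⟩
    · rintro ⟨⟨hc, hn⟩, hcZ⟩
      exact ⟨⟨hc, hcZ⟩, hn⟩
  have hin : ∀ u, u ∈ S → u ∉ S \ Z → Ms G (S \ Z) u = ∅ := by
    intro u hu huZ
    rw [Set.eq_empty_iff_forall_notMem]
    rintro c ⟨hc, hn⟩
    apply hn
    apply hS u hu c hc.1
    rintro rfl
    exact huZ hc
  intro u hu v hv
  by_cases huS : u ∈ S
  · rw [hin u huS hu]
    exact Or.inl (Set.empty_subset _)
  by_cases hvS : v ∈ S
  · rw [hin v hvS hv]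
    exact Or.inr (Or.inl (Set.empty_subset _))
  rw [hout u huS, hout v hvS]
  exact hL _ ⟨u, huS, rfl⟩ _ ⟨v, hvS, rfl⟩

end Pool.Agent.MPd439b2.LK
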