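import Pool.Agent.Lib.MP_d439b2_co.L4.Spec3

/-!
# MP_d439b2_co, L4/C4: levels of a chain
-/

set_option autoImplicit false

namespace Pool.Agent.MPd439b2.LK

open Pool.Agent.MPd439b2

namespace C4aux

variable {V : Type} [Finite V] {G : SimpleGraph V} {S : Set V}

/-- the number of the neighbours outside `S` -/
private noncomputable def dg (G : SimpleGraph V) (S : Set V) (a : V) : ℕ :=
  {v | v ∉ S ∧ G.Adj v a}.ncard

private theorem dg_lt (hc : ChainOn G S) {v a b : V} (hv : v ∉ S) (ha : a ∈ Ms G S v) (hb : b ∈ S)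
    (hb' : b ∉ Ms G S v) : dg G S a < dg G S b := by
  have hvb : G.Adj v b := by
    by_contra h
    exact hb' ⟨hb, h⟩
  refine Set.ncard_lt_ncard ⟨?_, ?_⟩ (Set.toFinite _)
  · rintro w ⟨hw, hwa⟩
    refine ⟨hw, ?_⟩
    rcases hc w hw v hv with h | h
    · by_contra hn
      exact hb' (h ⟨hb, hn⟩)
    · exact absurd hwa (h ha).2
  · intro h
    exact ha.2 (h ⟨hv, hvb⟩).2

/-- an initial segment of `1, ..., n` with `m` elements -/
private theorem init_seg (n m : ℕ) (p : ℕ → Prop) [DecidablePred p]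
    (hd : ∀ i j, 1 ≤ i → i ≤ j → j ≤ n → p j → p i)
    (hm : ((Finset.Icc 1 n).filter p).card = m) (i : ℕ) (h1 : 1 ≤ i) (h2 : i ≤ n) :
    p i ↔ i ≤ m := by
  constructor
  · intro hp
    have : Finset.Icc 1 i ⊆ (Finset.Icc 1 n).filter p := by
      intro j hj
      rw [Finset.mem_Icc] at hj
      rw [Finset.mem_filter, Finset.mem_Icc]
      exact ⟨⟨hj.1, hj.2.trans h2⟩, hd j i hj.1 hj.2 h2 hp⟩
    have h3 := Finset.card_le_card this
    rw [Nat.card_Icc, hm] at h3
    omega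
  · intro hi
    by_contra hp
    have : (Finset.Icc 1 n).filter p ⊆ Finset.Icc 1 (i - 1) := by
      intro j hj
      rw [Finset.mem_filter, Finset.mem_Icc] at hj
      rw [Finset.mem_Icc]
      refine ⟨hj.1.1, ?_⟩
      by_contra hn
      exact hp (hd i j h1 (by omega) hj.1.2 hj.2)
    have h3 := Finset.card_le_card this
    rw [Nat.card_Icc, hm] at h3
    omega

open Classical in
theorem main (hc : ChainOn G S) (hne : S.Nonempty) :
    ∃ (s : ℕ → V) (l : V → ℕ), Lev G S S.ncard s l := by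
  obtain ⟨a₀, ha₀⟩ := hne
  set n := S.ncard with hn
  have hcard : Nat.card S = n := Nat.card_coe_set_eq S
  obtain ⟨e⟩ : Nonempty (Fin n ≃ S) := ⟨(Finite.equivFinOfCardEq hcard).symm⟩
  set f : Fin n → ℕ := fun i => dg G S (e i) with hf
  set σ := Tuple.sort f with hσ
  have hmono : Monotone (f ∘ σ) := Tuple.monotone_sort f
  set s : ℕ → V := fun i => if h : 1 ≤ i ∧ i ≤ n then (e (σ ⟨i - 1, by omega⟩) : V) else a₀ with hs
  have hsv : ∀ i (h1 : 1 ≤ i) (h2 : i ≤ n), s i = e (σ ⟨i - 1, by omega⟩) := by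
    intro i h1 h2
    simp only [hs]
    rw [dif_pos ⟨h1, h2⟩]
  have hsS : ∀ i, 1 ≤ i → i ≤ n → s i ∈ S := by
    intro i h1 h2
    rw [hsv i h1 h2]
    exact (e _).2
  have hinj : ∀ i j, 1 ≤ i → i ≤ n → 1 ≤ j → j ≤ n → s i = s j → i = j := by
    intro i j h1 h2 h3 h4 h
    rw [hsv i h1 h2, hsv j h3 h4] at h
    have h5 := σ.injective (e.injective (Subtype.ext h))
    rw [Fin.mk.injEq] at h5
    omega
  have hsur : ∀ v ∈ S, ∃ i, 1 ≤ i ∧ i ≤ n ∧ v = s i := by
    intro v hv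
    obtain ⟨k, hk⟩ := e.surjective ⟨v, hv⟩
    obtain ⟨j, hj⟩ := σ.surjective k
    have hjn := j.2
    refine ⟨j + 1, by omega, by omega, ?_⟩
    rw [hsv (j + 1) (by omega) (by omega)]
    have : (⟨(j : ℕ) + 1 - 1, by omega⟩ : Fin n) = j := by
      apply Fin.ext
      simp
    rw [this, hj, hk]
  have hmon : ∀ i j, 1 ≤ i → i ≤ j → j ≤ n → dg G S (s i) ≤ dg G S (s j) := by
    intro i j h1 h2 h3
    rw [hsv i h1 (by omega), hsv j (by omega) h3]
    exact hmono (a := ⟨i - 1, by omega⟩) (b := ⟨j - 1, by omega⟩) (by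
      rw [Fin.mk_le_mk]
      omega)
  refine ⟨s, fun v => (Ms G S v).ncard, hsS, hinj, hsur, fun v hv => ⟨?_, ?_⟩⟩
  · exact Set.ncard_le_ncard (fun x hx => hx.1) (Set.toFinite _)
  · intro i h1 h2
    have hm : ((Finset.Icc 1 n).filter fun i => s i ∈ Ms G S v).card = (Ms G S v).ncard := by
      rw [← Set.ncard_coe_finset]
      refine Set.ncard_congr (fun i _ => s i) ?_ ?_ ?_
      · intro i hi
        rw [Finset.mem_coe, Finset.mem_filter] at hi
        exact hi.2
      · intro i j hi hj h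
        rw [Finset.mem_coe, Finset.mem_filter, Finset.mem_Icc] at hi hj
        exact hinj i j hi.1.1 hi.1.2 hj.1.1 hj.1.2 h
      · intro b hb
        obtain ⟨i, h1, h2, rfl⟩ := hsur b hb.1
        refine ⟨i, ?_, rfl⟩
        rw [Finset.mem_coe, Finset.mem_filter, Finset.mem_Icc]
        exact ⟨⟨h1, h2⟩, hb⟩
    have h3 := init_seg n (Ms G S v).ncard (fun i => s i ∈ Ms G S v) (by
      intro i j h1 h2 h3 hj
      by_contra hi
      have h4 := dg_lt hc hv hj (hsS i h1 (by omega)) hi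
      have h5 := hmon i j h1 h2 h3
      omega) hm i h1 h2
    have h4 : s i ∈ Ms G S v ↔ ¬ G.Adj v (s i) := ⟨fun h => h.2, fun h => ⟨hsS i h1 h2, h⟩⟩
    rw [h4] at h3
    change G.Adj v (s i) ↔ (Ms G S v).ncard < i
    constructor
    · intro h
      by_contra h5
      exact h3.mpr (by omega) h
    · intro h
      by_contra h5
      have := h3.mp h5
      omega

end C4aux

theorem c4 : ∀ (V : Type) [Finite V] (G : SimpleGraph V) (S : Set V), CompleteOn G S → S.Nonempty →
    ChainOn G S → ∃ (s : ℕ → V) (l : V → ℕ), Lev G S S.ncard s l :=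
  fun _ _ _ _ _ hne hc => C4aux.main hc hne

end Pool.Agent.MPd439b2.LK
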