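import Pool.Agent.Lib.MP_d439b2_co.Basic
import Pool.Agent.Lib.MP_d439b2_co.B.SpecG
import Pool.Agent.Lib.MP_d439b2_co.R.Defs

/-!
# MP_d439b2_co, column `C_4` (chordal graphs), Spec 1: cut-rank, and cliques suffice

If every clique with `n` vertices of the chordal graph `G` is split in a balanced way by a cut of bounded
rank then `G` has a layout of bounded width (S_A12).  This is used for every row of the column `C_4`.

Every `S_...` is a statement to be proved in its own file; the docstring contains the complete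
proof.  `a ~ b` means `G.Adj a b`.
-/

set_option autoImplicit false

namespace Pool.Agent.MPd439b2.LK

open Pool.Agent.MPd439b2

/-- `G` is chordal: no induced minor `C_4` -/
def Chd {V : Type} (G : SimpleGraph V) : Prop := ¬ IMS cyc4 G Set.univ

open Classical in
/-- the row of `x` restricted to the columns in `B` -/
noncomputable def row {V : Type} (G : SimpleGraph V) (B : Set V) (x : V) : V → ZMod 2 :=
  fun y => if y ∈ B ∧ G.Adj x y then 1 else 0

/-- the rank over the field with two elements of the adjacency matrix with rows `A`, columns `B` -/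
noncomputable def rk {V : Type} (G : SimpleGraph V) (A B : Set V) : ℕ :=
  Module.finrank (ZMod 2) (Submodule.span (ZMod 2) (row G B '' A))

/-- the cut-rank of `X` -/
noncomputable def cr {V : Type} (G : SimpleGraph V) (X : Set V) : ℕ := rk G X Xᶜ

/-- `f` is a connectivity function on the subsets of `E` -/
def CF {α : Type} (E : Set α) (f : Set α → ℕ) : Prop :=
  f ∅ = 0 ∧ (∀ P ⊆ E, f (E \ P) = f P) ∧
    (∀ P ⊆ E, ∀ Q ⊆ E, f (P ∩ Q) + f (P ∪ Q) ≤ f P + f Q) ∧ ∀ v ∈ E, f {v} ≤ 1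

/-- the set has a binary layout all nodes of which have value at most `q` -/
inductive ALay {α : Type} (f : Set α → ℕ) (q : ℕ) : Set α → Prop
  | empty : ALay f q ∅
  | single (v : α) : f {v} ≤ q → ALay f q {v}
  | union {A B : Set α} : ALay f q A → ALay f q B → Disjoint A B → f (A ∪ B) ≤ q →
      ALay f q (A ∪ B)

/-- the smallest cut-rank of a set with trace `P` on `K` -/
noncomputable def lam {V : Type} (G : SimpleGraph V) (K P : Set V) : ℕ :=
  sInf {r | ∃ X : Set V, X ∩ K = P ∧ cr G X = r}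

/-- **A1.** Rules for the rank.

Proof. (1) Symmetry: `rk G A B` is the rank of the matrix `Matrix.of (fun (x : A) (y : B) => if x ~ y then 1 else 0)`
(extend or restrict the rows by zeros: the linear map `(V → ZMod 2) → (B → ZMod 2)`, restriction, is injective
on the span; `Matrix.rank_eq_finrank_span_row`), and `rk G B A` is the rank of its transpose (`G.Adj` is
symmetric; `Matrix.rank_transpose`).
(2) Monotone: in `A` since the span becomes larger; in `B` by (1).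
(3) The span of the union is the sum of the spans (`Submodule.span_union`, `finrank_sup ≤`).
(4) The span of at most `|A|` vectors.
(5) All rows are zero or equal to one fixed vector `r` (`r y = 1` iff `y ∈ B ∩ T`), the span is contained in
the span of `{r}`.
(6) More generally: if the rows belong to a set of at most `n` vectors or zero.  Here: the traces
`{y ∈ B | x ~ y}` of the vertices `x ∈ A` belong to the finite set `𝒯` (the empty trace gives the zero row and is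
not counted); there is an injection (support) from the nonzero rows to `𝒯`. -/
def S_A1 : Prop := ∀ (V : Type) [Finite V] (G : SimpleGraph V),
  (∀ A B : Set V, rk G A B = rk G B A) ∧
  (∀ A A' B B' : Set V, A ⊆ A' → B ⊆ B' → rk G A B ≤ rk G A' B') ∧
  (∀ A A' B : Set V, rk G (A ∪ A') B ≤ rk G A B + rk G A' B) ∧
  (∀ A B : Set V, rk G A B ≤ A.ncard) ∧
  (∀ A B T : Set V, (∀ a ∈ A, (∀ b ∈ B, (G.Adj a b ↔ b ∈ T)) ∨ ∀ b ∈ B, ¬ G.Adj a b) →
    rk G A B ≤ 1) ∧
  ∀ (A B : Set V) (𝒯 : Set (Set V)), (∀ a ∈ A, {b | b ∈ B ∧ G.Adj a b} ∈ 𝒯 ∨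
    ∀ b ∈ B, ¬ G.Adj a b) → rk G A B ≤ 𝒯.ncard

/-- **A2.** The cut-rank is a connectivity function.  (Uses `S_A1`.)

Proof. `cr G ∅ = 0`; `cr G Xᶜ = rk G Xᶜ X = rk G X Xᶜ` (A1 (1), `Xᶜᶜ = X`); `cr G {v} ≤ 1` (A1 (4)).
Submodularity.  Let `F = ZMod 2`; for `X : Set V` let `W X` be the span in `V → F` of the full rows `r x`
(`r x y = 1` iff `x ~ y`) of the elements `x ∈ X`, and for `Y : Set V` let `Z Y` be the subspace of the vectors
which vanish on `Y`.  The restriction to `Y` (setting the coordinates outside `Y` to zero) has kernel `Z Y` and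
maps `W X` onto the span of `row G Y '' X`, so `rk G X Y + finrank (Z Y) = finrank (W X ⊔ Z Y)` (rank-nullity for
the restriction on `W X ⊔ Z Y`).  Let `U = W P ⊔ Z Pᶜ`, `U' = W Q ⊔ Z Qᶜ`.  `W (P ∪ Q) ⊔ Z (Pᶜ ∩ Qᶜ) ≤ U ⊔ U'`
(`Z (Y ∩ Y') ≤ Z Y ⊔ Z Y'`) and `W (P ∩ Q) ⊔ Z (Pᶜ ∪ Qᶜ) ≤ U ⊓ U'`.  With
`finrank (U ⊔ U') + finrank (U ⊓ U') = finrank U + finrank U'` and
`finrank (Z Y) + finrank (Z Y') = finrank (Z (Y ∩ Y')) + finrank (Z (Y ∪ Y'))` (`finrank (Z Y) = |Yᶜ|`, or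
`Z Y ⊔ Z Y' = Z (Y ∩ Y')`, `Z Y ⊓ Z Y' = Z (Y ∪ Y')`) the claim follows. -/
def S_A2 : Prop := ∀ (V : Type) [Finite V] (G : SimpleGraph V), CF Set.univ (cr G)

/-- **A3.** Few types if the cut-rank is small.

Proof. A nonempty type `T = N(a) \ X` is the support of the row `row G Xᶜ a`, which is one of the
`2 ^ (cr G X)` vectors of the span (`Module.card_eq_pow_finrank`, the span is a finite vector space).
Different types have different rows. -/
def S_A3 : Prop := ∀ (V : Type) [Finite V] (G : SimpleGraph V) (X : Set V),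
  (Types G X).encard ≤ ((2 ^ cr G X : ℕ) : ℕ∞)

/-- **A4.** Splitting a set of large value.

Proof. Call `B ⊆ U` independent if `|B ∩ W| ≤ f W` for all `W ⊆ U`.  `∅` is independent; let `B` be an
independent set of maximal size.  Call `W ⊆ U` tight if `f W = |B ∩ W|`.  `∅` is tight.  Unions of two tight
sets are tight: `f (W ∪ W') ≤ f W + f W' - f (W ∩ W') ≤ |B ∩ W| + |B ∩ W'| - |B ∩ W ∩ W'| = |B ∩ (W ∪ W')|`.  For
`b ∈ B` the set `{b}` is tight (`1 = |B ∩ {b}| ≤ f {b} ≤ 1`).  For `e ∈ U \ B` the set `B ∪ {e}` is not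
independent: there is `W ⊆ U` with `f W < |(B ∪ {e}) ∩ W|`, and `|B ∩ W| ≤ f W`; so `e ∈ W` and `W` is tight.  So
`U` is a finite union of tight sets, hence tight: `f U = |B|`.
Now let `P` be given, `Q = E \ P`, `f Q = f P ≤ c`.  (i) `|B \ P| ≤ f (U \ P)` (independence for `W = U \ P`), the same
for `U ∩ P`.  (ii) Let `T = E \ (U ∪ P)`, `f T = f (U ∪ P)`.  `U \ P = E \ (P ∪ T)`, so
`|B \ P| ≤ f (U \ P) = f (P ∪ T) ≤ f P + f T ≤ c + f (U ∪ P)`.  (iii) `f (U ∩ P) ≤ f U + f P - f (U ∪ P) ≤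
f U + c - (|B \ P| - c) < f U`.  The same with `Q` instead of `P` (`U \ P = U ∩ Q`, `B \ Q = B ∩ P`). -/
def S_A4 : Prop := ∀ (α : Type) [Finite α] (E : Set α) (f : Set α → ℕ), CF E f → ∀ U ⊆ E,
  ∃ B ⊆ U, B.ncard = f U ∧ ∀ (P : Set α) (c : ℕ), P ⊆ E → f P ≤ c → 2 * c < (B ∩ P).ncard →
    2 * c < (B \ P).ncard → f (U ∩ P) < f U ∧ f (U \ P) < f U

/-- **A5.** The abstract layout.  (Uses `S_A4`.)

Proof. Strong induction on `|U|`.  `U = ∅`, `U = {v}`: `ALay.empty`, `ALay.single`.  Let `|U| ≥ 2`.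
If `f U = q` take `B` (`|B| = q`) from A4 and `P` from the hypothesis: `f (U ∩ P), f (U \ P) < q`, so both sets are
different from `U`, hence both are smaller; `ALay.union`.
If `f U < q` take `v ∈ U`: `U \ {v} = E \ ((E \ U) ∪ {v})`, so `f (U \ {v}) ≤ f (E \ U) + f {v} ≤ f U + 1 ≤ q`;
`ALay.union` with `{v}`. -/
def S_A5 : Prop := ∀ (α : Type) [Finite α] (E : Set α) (f : Set α → ℕ) (q c : ℕ), CF E f → 1 ≤ q →
  (∀ B ⊆ E, B.ncard = q → ∃ P ⊆ E, f P ≤ c ∧ 2 * c < (B ∩ P).ncard ∧ 2 * c < (B \ P).ncard) →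
    ∀ U ⊆ E, f U ≤ q → ALay f q U

/-- **A6.** Layouts from balanced cuts.  (Uses `S_A2`, `S_A3`, `S_A5`.)

Proof. A5 with `E = univ`, `f = cr G`, `U = univ` (`cr G univ = cr G ∅ = 0`) gives `ALay (cr G) q univ`.
`ALay (cr G) q X` implies `Lay G (2 ^ q) X` by induction (A3 for the sets `{v}`, `A ∪ B`, whose value is at most
`q`). -/
def S_A6 : Prop := ∀ (V : Type) [Finite V] (G : SimpleGraph V) (q c : ℕ), 1 ≤ q →
  (∀ B : Set V, B.ncard = q → ∃ P, cr G P ≤ c ∧ 2 * c < (B ∩ P).ncard ∧ 2 * c < (B \ P).ncard) →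
    Lay G (2 ^ q) Set.univ

/-- **A0.** Four sets give `C_4`.

Proof. The model `![T0, T1, T2, T3]`. -/
def S_A0 : Prop := ∀ (V : Type) (G : SimpleGraph V) (T0 T1 T2 T3 : Set V),
  Conn G T0 → Conn G T1 → Conn G T2 → Conn G T3 → Disjoint T0 T1 → Disjoint T0 T2 →
  Disjoint T0 T3 → Disjoint T1 T2 → Disjoint T1 T3 → Disjoint T2 T3 → Tch G T0 T1 →
  Tch G T1 T2 → Tch G T2 T3 → Tch G T0 T3 → ¬ Tch G T0 T2 → ¬ Tch G T1 T3 → IMS cyc4 G Set.univ

/-- **A7.** Gates.  (Uses `S_A0`.)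

Proof. Choose `x ∈ C` with the maximal number of neighbours in `A`.  Suppose that `a ∈ A` is not adjacent to
`x`.  Let `Y` be the set of the vertices of `C` adjacent to `a` (nonempty), `x ∉ Y`, and `Z` the component of `x`
in `G[C \ Y]`.  `Z ≠ C`, so there is `p ∈ C \ Z` adjacent to `Z` (`C` is connected), and `p ∈ Y` (otherwise
`p ∈ Z`).  Every neighbour `a' ∈ A` of `x` is adjacent to `p`: otherwise `{a'}, {a}, {p}, Z` is a four-cycle:
`a' ~ a` (`A` is a clique, `a' ≠ a`), `a ~ p`, `p` touches `Z`, `Z` touches `a'` (by `x`), `a` does not touch `Z`,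
`a'` is not adjacent to `p`.  So `p` has more neighbours in `A` than `x`: contradiction. -/
def S_A7 : Prop := ∀ (V : Type) [Finite V] (G : SimpleGraph V) (A C : Set V), Chd G → Conn G C →
  CompleteOn G A → Disjoint A C → (∀ a ∈ A, a ∈ nb G C) → ∃ x ∈ C, ∀ a ∈ A, G.Adj x a

/-- **A8.** A centroid clique.  (Uses `S_A7`.)

Proof. Suppose not.  Among all pairs `(K, C)`, `K` a clique, `C` a component of `G[Kᶜ]` with `|B| < 2 |B ∩ C|`,
choose one with `|C|` minimal (there is one, take `K = ∅`).  `A = nb G C ⊆ K` is a clique; `x ∈ C` complete to `A`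
by A7; `K' = insert x A` is a clique.  There is a component `C'` of `G[K'ᶜ]` with `|B| < 2 |B ∩ C'|`.  `C` and `C'`
meet.  `C' ∩ C` is closed in `C'`: a neighbour of an element of `C` outside `C` is in `A ⊆ K'`; so `C' ⊆ C`
(`Conn.eq_of_nb`), and `x ∉ C'`: `|C'| < |C|`, contradiction. -/
def S_A8 : Prop := ∀ (V : Type) [Finite V] (G : SimpleGraph V) (B : Set V), Chd G →
  ∃ K, CompleteOn G K ∧ ∀ C, IsComp G Kᶜ C → 2 * (B ∩ C).ncard ≤ B.ncard

/-- **A9.** The connectivity function on a set `K`.  (Uses `S_A1`, `S_A2`.)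

Proof. The set in the definition of `lam` is nonempty for `P ⊆ K` (`X = P`), so the infimum is attained
(`Nat.sInf_mem`): second part; third part: `Nat.sInf_le`.  First part: `lam ∅ = 0` by `X = ∅`;
`lam (K \ P) = lam P`: if `X ∩ K = P` then `Xᶜ ∩ K = K \ P`, `cr G Xᶜ = cr G X`; submodular: take `X, Y` for `P, Q`,
`(X ∩ Y) ∩ K = P ∩ Q`, `(X ∪ Y) ∩ K = P ∪ Q`; `lam {v} ≤ cr G {v} ≤ 1`. -/
def S_A9 : Prop := ∀ (V : Type) [Finite V] (G : SimpleGraph V) (K : Set V), CF K (lam G K) ∧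
  (∀ P ⊆ K, ∃ X, X ∩ K = P ∧ cr G X = lam G K P) ∧ ∀ X, lam G K (X ∩ K) ≤ cr G X

/-- **A10.** A big set of small cut-rank which misses `K`.  (Uses `S_A2`, `S_A9`.)

Proof. Call `X` big if `|B \ X| ≤ 2 c`.  If `cr G X ≤ c` then `X` is big or `|B ∩ X| ≤ 2 c` (hypothesis).
All nodes `U` of a layout have `lam G K U ≤ n`.  CLAIM: if `ALay (lam G K) n U`, `U ⊆ K`, `X ∩ K = U`, `cr G X ≤ n`, `X`
big, then the required set `V'` exists.  Induction on the layout.
`U = ∅`: `V' = X`.  `U = {v}`: `V' = X \ {v}`, `cr G V' ≤ n + 1 ≤ c` and `|B \ V'| ≤ 2 c + 1`, so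
`|B ∩ V'| ≥ |B| - 2 c - 1 > 2 c` and `V'` is big.
`U = U₁ ∪ U₂`: take `X₁, X₂` with `X_i ∩ K = U_i`, `cr G X_i = lam G K U_i ≤ n` (A9).  If one of them is big use the
induction.  Otherwise `|B ∩ X_i| ≤ 2 c`.  `V' = X \ (X₁ ∪ X₂)` misses `K`, `cr G V' ≤ 3 n` (complement of
`Xᶜ ∪ X₁ ∪ X₂`; submodularity and `cr G Xᶜ = cr G X`), `|B \ V'| ≤ 6 c`, so `|B ∩ V'| ≥ |B| - 6 c > 2 c`: `V'` is big.
Apply the claim to `U = K`, `X = univ`. -/
def S_A10 : Prop := ∀ (V : Type) [Finite V] (G : SimpleGraph V) (K B : Set V) (n c : ℕ),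
  ALay (lam G K) n K → 3 * n + 1 ≤ c → 8 * c + 1 ≤ B.ncard →
    (∀ P, cr G P ≤ c → (B ∩ P).ncard ≤ 2 * c ∨ (B \ P).ncard ≤ 2 * c) →
    ∃ V', Disjoint V' K ∧ cr G V' ≤ c ∧ (B \ V').ncard ≤ 2 * c

/-- **A11.** Splitting it by components.  (Uses `S_A1`.)

Proof. For a set `𝒞` of components of `G[Kᶜ]` put `P 𝒞 = V' ∩ ⋃₀ 𝒞`.  `cr G (P 𝒞) ≤ cr G V'`: there are no edges
between `P 𝒞` and `V' \ P 𝒞` (both are outside `K`, in different components), so
`row G (P 𝒞)ᶜ x = row G V'ᶜ x` for `x ∈ P 𝒞`, and `P 𝒞 ⊆ V'`.  Let `𝒞` be a set of components with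
`|B ∩ P 𝒞| ≤ 2 c` of maximal size (`∅` is one).  It does not contain all components: otherwise `P 𝒞 = V'`
and `|B| ≤ 4 c`.  Let `C ∉ 𝒞` be a component (`exists_comp`); `P = P (𝒞 ∪ {C})` has `|B ∩ P| > 2 c`, and
`|B ∩ P| ≤ 2 c + |B ∩ C|`, so `2 |B \ P| ≥ 2 |B| - 4 c - |B| > 4 c`. -/
def S_A11 : Prop := ∀ (V : Type) [Finite V] (G : SimpleGraph V) (K B V' : Set V) (c : ℕ),
  (∀ C, IsComp G Kᶜ C → 2 * (B ∩ C).ncard ≤ B.ncard) → 8 * c + 1 ≤ B.ncard → Disjoint V' K →
    cr G V' ≤ c → (B \ V').ncard ≤ 2 * c →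
    ∃ P, cr G P ≤ c ∧ 2 * c < (B ∩ P).ncard ∧ 2 * c < (B \ P).ncard

/-- **A12.** Cliques suffice.  (Uses `S_A5`, `S_A6`, `S_A8`, `S_A9`, `S_A10`, `S_A11`.)

Proof. If `n = 0` the hypothesis is contradictory (`S = ∅`).  Let `n ≥ 1`, `c' = 3 n + 1`, `q = 8 c' + 1`, `k = 2 ^ q`.
By A6 (with `c'`) it is enough to find a cut for every `B` with `|B| = q`.  `K` from A8.  A5 for `E = K`,
`f = lam G K`, `q := n`: for `B' ⊆ K`, `|B'| = n`, take `X` from the hypothesis and `P = X ∩ K` (`lam G K P ≤ cr G X`,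
`B' ∩ P = B' ∩ X`, `B' \ P = B' \ X`); `lam G K K = lam G K ∅ = 0`.  So `ALay (lam G K) n K`.  If there were no cut for `B`
then A10 gives `V'` and A11 gives a cut. -/
def S_A12 : Prop := ∀ c n : ℕ, ∃ k : ℕ, ∀ (V : Type) [Finite V] (G : SimpleGraph V), Chd G →
  (∀ S, CompleteOn G S → S.ncard = n → ∃ X, cr G X ≤ c ∧ 2 * c < (S ∩ X).ncard ∧
    2 * c < (S \ X).ncard) → Lay G k Set.univ

end Pool.Agent.MPd439b2.LK
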