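import Pool.Agent.Lib.MP_d439b2_co.L4.Spec1

/-!
# MP_d439b2_co, column `C_4`, Spec 2: `K_4` with two pendant vertices (`K4:0,1`), local rules

`Cls G`: `G` is chordal and does not contain `K4:0,1`.  `Ms G S v` is the set of the non-neighbours of
`v` in the clique `S` (its trace).  Spec 2 contains the local rules, the laminar theorem (S_B8: up to nine
elements the traces on a clique are laminar) and the tree lemma (S_T7).  `a ~ b` means `G.Adj a b`.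
-/

set_option autoImplicit false

namespace Pool.Agent.MPd439b2.LK

open Pool.Agent.MPd439b2

/-- chordal graphs without `K_4` with pendant vertices at two different vertices -/
def Cls {V : Type} (G : SimpleGraph V) : Prop :=
  Chd G ∧ ¬ IMS (KA 4 2 ![{0}, {1}]) G Set.univ

/-- the traces on `S` of the vertices outside `S` are laminar -/
def LamOn {V : Type} (G : SimpleGraph V) (S : Set V) : Prop := ∀ u, u ∉ S → ∀ v, v ∉ S →
  Ms G S u ⊆ Ms G S v ∨ Ms G S v ⊆ Ms G S u ∨ Disjoint (Ms G S u) (Ms G S v)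

/-- the traces on `S` of the vertices outside `S` form a chain -/
def ChainOn {V : Type} (G : SimpleGraph V) (S : Set V) : Prop := ∀ u, u ∉ S → ∀ v, v ∉ S →
  Ms G S u ⊆ Ms G S v ∨ Ms G S v ⊆ Ms G S u

/-- **B0.** The model of `K4:0,1`: the four mutually touching sets are `P, {b}, {c}, {d}`, the set `X` touches
only `P`, the set `Y` only `{b}`.

Proof. `Sum.inl 0, 1, 2, 3 ↦ P, {b}, {c}, {d}`, `Sum.inr 0, 1 ↦ X, Y`. -/
def S_B0 : Prop := ∀ (V : Type) (G : SimpleGraph V) (P X Y : Set V) (b c d : V), Conn G P →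
  Conn G X → Conn G Y → Disjoint P X → Disjoint P Y → Disjoint X Y → b ∉ P → c ∉ P → d ∉ P →
  b ∉ X → c ∉ X → d ∉ X → b ∉ Y → c ∉ Y → d ∉ Y → G.Adj b c → G.Adj b d → G.Adj c d →
  (∃ p ∈ P, G.Adj p b) → (∃ p ∈ P, G.Adj p c) → (∃ p ∈ P, G.Adj p d) → Tch G X P →
  (∀ x ∈ X, ¬ G.Adj x b ∧ ¬ G.Adj x c ∧ ¬ G.Adj x d) → (∃ y ∈ Y, G.Adj y b) →
  (∀ y ∈ Y, ¬ G.Adj y c ∧ ¬ G.Adj y d) → ¬ Tch G Y P → ¬ Tch G X Y →
  IMS (KA 4 2 ![{0}, {1}]) G Set.univ

/-- **B1.** Two traces.  (Uses `S_A0`, `S_B0`.)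

Proof. Suppose that the traces are not nested: `s ∈ Ms u \ Ms v`, `s' ∈ Ms v \ Ms u`; `v ~ s`, `u ~ s'`, `s ~ s'`.
If `u ~ v` then `{u}, {v}, {s}, {s'}` is a four-cycle (A0).  If `u` and `v` are not adjacent and `a, b` are two
different elements of both traces: B0 with `P = {s}`, `X = {v}`, `b := s'`, `Y = {u}`, `c, d := a, b`. -/
def S_B1 : Prop := ∀ (V : Type) [Finite V] (G : SimpleGraph V) (S : Set V) (u v : V), Cls G →
  CompleteOn G S → u ∉ S → v ∉ S → Ms G S u ⊆ Ms G S v ∨ Ms G S v ⊆ Ms G S u ∨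
    (¬ G.Adj u v ∧ (Ms G S u ∩ Ms G S v).ncard ≤ 1)

/-- **B2.** The rule PAD.  (Uses `S_B0`.)

Proof. B0 with `P = {a}`, `b := a'`, `c, d := g, g'`, `X = {q}`, `Y = {p}`.  (All six vertices are different:
e.g. `p ≠ a` because `q ~ a` and `q` is not adjacent to `p`; `g ≠ p` because `g ~ a`.) -/
def S_B2 : Prop := ∀ (V : Type) (G : SimpleGraph V) (p q a a' g g' : V), Cls G → G.Adj a a' →
  G.Adj q a → ¬ G.Adj p a → G.Adj p a' → ¬ G.Adj q a' → ¬ G.Adj p q → G.Adj g a → G.Adj g a' →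
  G.Adj g' a → G.Adj g' a' → ¬ G.Adj g p → ¬ G.Adj g q → ¬ G.Adj g' p → ¬ G.Adj g' q →
  ¬ G.Adj g g'

/-- **B3.** The jump rule.  (Uses `S_B0`.)

Proof. Suppose that `s₁ ≠ s₂` are in `Ms v ∩ (Ms y \ Ms x)` and `t ∈ (Ms y \ Ms x) \ Ms v`.  `x ≠ y`.  Let `P` be
the component of `x` in `G[C \ {y}]`; it touches `y` since `C` is connected.  B0 with `P`, `b := t`,
`c, d := s₁, s₂`, `X = {y}`, `Y = {v}`: `x ∈ P` is adjacent to `t, s₁, s₂`, `y` is not adjacent to `t, s₁, s₂`; `v ~ t`,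
`v` is not adjacent to `s₁, s₂` and to `C`. -/
def S_B3 : Prop := ∀ (V : Type) [Finite V] (G : SimpleGraph V) (S C : Set V) (x y v : V), Cls G →
  CompleteOn G S → Conn G C → Disjoint S C → x ∈ C → y ∈ C → v ∉ S → v ∉ C →
  (∀ c ∈ C, ¬ G.Adj v c) → (Ms G S v ∩ (Ms G S y \ Ms G S x)).ncard ≤ 1 ∨
    Ms G S y \ Ms G S x ⊆ Ms G S v

/-! ## set systems -/

/-- the two rules for the traces on a clique -/
def LF {α : Type} (F : Set (Set α)) : Prop :=
  (∀ A ∈ F, ∀ B ∈ F, A ⊆ B ∨ B ⊆ A ∨ (A ∩ B).ncard ≤ 1) ∧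
  ∀ A ∈ F, ∀ B ∈ F, ∀ k, ¬ A ⊆ B → ¬ B ⊆ A → A ∩ B = {k} → ∀ M ∈ F, k ∉ M →
    M ⊆ A \ {k} ∨ M ⊆ B \ {k} ∨ A \ {k} ⊆ M ∨ B \ {k} ⊆ M

/-- `A, B` is a kernel pair at `k` -/
def KP {α : Type} (F : Set (Set α)) (k : α) (A B : Set α) : Prop :=
  A ∈ F ∧ B ∈ F ∧ ¬ A ⊆ B ∧ ¬ B ⊆ A ∧ A ∩ B = {k}

/-- `F` becomes laminar if the elements of `Z` are removed -/
def Lam {α : Type} (F : Set (Set α)) (Z : Set α) : Prop :=
  ∀ A ∈ F, ∀ B ∈ F, A \ Z ⊆ B \ Z ∨ B \ Z ⊆ A \ Z ∨ Disjoint (A \ Z) (B \ Z)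

/-- **B4.** There is at most one kernel with a pair of large sets.

Proof. Let `A° = A \ {k}` etc.  (1) Every `N ∈ F` with `k ∉ N` is contained in `A°` or in `B°`: by the second rule
otherwise (say) `A° ⊆ N`, so `|A ∩ N| ≥ 2`, so `A` and `N` are nested by the first rule; `A ⊆ N` is impossible
(`k`), so `N ⊆ A°`.  The same for `k'`, `A'`, `B'`.
(2) Suppose `k ≠ k'`.  CLAIM `k ∈ A'`.  Otherwise `A' ⊆ A°` or `A' ⊆ B°`; by symmetry let `A' ⊆ A°`.  So `k' ∈ A°`,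
`k' ∉ B`, hence by (1) for `k'` `B ⊆ A'°` or `B ⊆ B'°`; since `k ∈ B`, `k ∉ A'`: `B ⊆ B'°`, `k ∈ B'`.  `A ∩ B'` contains
`k, k'`, so `A` and `B'` are nested.  `B' ⊆ A` gives `B ⊆ A`, `A ⊆ B'` gives `A' ⊆ B'`: contradictions.
In the same way `k ∈ B'`.  So `k ∈ A' ∩ B' = {k'}`: contradiction. -/
def S_B4 : Prop := ∀ (α : Type) [Finite α] (F : Set (Set α)) (k k' : α) (A B A' B' : Set α), LF F →
  KP F k A B → KP F k' A' B' → 3 ≤ A.ncard → 3 ≤ B.ncard → 3 ≤ A'.ncard → 3 ≤ B'.ncard → k = k'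

/-- **B5.** Four two-element members `{o, k i}`.

Proof. (1) A nonempty `N ∈ F` with `o ∉ N` contains all `k i` but at most one: for `i ≠ j` the sets `{o, k i}`,
`{o, k j}` are a kernel pair at `o`; the second rule says `N ⊆ {k i}` or `N ⊆ {k j}` or `k i ∈ N` or `k j ∈ N`.
(2) Let `M, M' ∈ F`.  Both contain `o`: nested, or `M ∩ M' = {o}` by the first rule and `M \ {o}`, `M' \ {o}` are
disjoint.  Both do not contain `o`: one is empty, or `|M ∩ M'| ≥ 2` by (1) and they are nested.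
(3) `o ∈ M`, `o ∉ M'`.  Suppose that `M \ {o}` and `M'` are not nested and meet.  Then `M`, `M'` are not nested and
`M ∩ M' = {m}`, `m ≠ o`.  Let `k i ≠ m`.  The second rule for the kernel `m` and the member `{o, k i}`:
`{o, k i} ⊆ M` gives `k i ∈ M`; `{o, k i} ⊆ M'` is impossible; `M' \ {m} ⊆ {o, k i}` is impossible because `M'`
contains three of the four `k j`, so `M' \ {m}` contains two of them; `M \ {m} ⊆ {o, k i}`: if `k i ∉ M` then
`M \ {o} ⊆ {m} ⊆ M'`, nested, contradiction.  So always `k i ∈ M`.  `M'` contains three of the four `k j`, at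
least two of them are `≠ m`, so they are in `M ∩ M'`: contradiction. -/
def S_B5 : Prop := ∀ (α : Type) [Finite α] (F : Set (Set α)) (o : α) (k : Fin 4 → α), LF F →
  Function.Injective k → (∀ i, k i ≠ o) → (∀ i, {o, k i} ∈ F) → Lam F {o}

/-- **B6.** Disjoint two-element members.

Proof. Rule 2 for the kernel pair `{k, y}, M` at `k` and the member `{k', y'}` (it does not contain `k`):
`{k', y'} ⊆ {y}` is impossible, `y ∈ {k', y'}` is impossible, `{k', y'} ⊆ M` or `M \ {k} ⊆ {k', y'}`; in the last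
case `M \ {k}` is not empty (`M` is not a subset of `{k, y}`); if `{k', y'}` is not contained in `M` then
`M = {k, z}` with `z ∈ {k', y'}` is a two-element member which meets `{k, y}`, so it is equal to it: `z = y`,
contradiction.  So `{k', y'} ⊆ M`.  In the same way `{k, y} ⊆ M'`.  `k, k' ∈ M ∩ M'`, so `M`, `M'` are nested.
`M ⊆ M'`: `y' ∈ M' ∩ {k', y'} = {k'}`, contradiction.  `M' ⊆ M`: `y ∈ M ∩ {k, y} = {k}`, contradiction. -/
def S_B6 : Prop := ∀ (α : Type) [Finite α] (F : Set (Set α)) (k y k' y' : α) (M M' : Set α), LF F →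
  (∀ A ∈ F, ∀ B ∈ F, A.ncard = 2 → B.ncard = 2 → A = B ∨ Disjoint A B) → k ≠ y → k' ≠ y' →
  Disjoint ({k, y} : Set α) {k', y'} → KP F k {k, y} M → ¬ KP F k' {k', y'} M'

/-- **B7.** Nine elements suffice.  (Uses `S_B4`, `S_B5`, `S_B6`.)

Proof. If `Z` contains all kernels (`k` with some `KP F k A B`) then `Lam F Z`: non-nested `A, B` are disjoint or
`A ∩ B = {k}` with a kernel `k ∈ Z`.  By B4 there is at most one kernel with a pair `|A|, |B| ≥ 3`; let `Z₀` be the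
set of this kernel (or `∅`).  Every other kernel `k` has only pairs in which one set has exactly two elements
(the sets of a kernel pair have at least two elements).  Let `E` be the set of the two-element members.
CASE 1: some `o` is in four members of `E`: B5.
CASE 2: no such `o`, and some `o` is in two members `{o, y}, {o, y'}` of `E`, `y ≠ y'`.  They are a kernel pair at
`o`, so by rule 2 every `N ∈ E` with `o ∉ N` contains `y` or `y'`.  Every vertex is in at most three members of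
`E`.  So `⋃₀ E` has at most eight elements: `o`, its at most three partners (two are `y, y'`), at most two further
partners of `y`, at most two further partners of `y'`.  `Z = Z₀ ∪ ⋃₀ E`.
CASE 3: the members of `E` are pairwise disjoint.  By B6 at most one member `e` of `E` is in a kernel pair;
`Z = Z₀ ∪ e` (or `Z₀`). -/
def S_B7 : Prop := ∀ (α : Type) [Finite α] (F : Set (Set α)), LF F → ∃ Z : Set α, Z.ncard ≤ 9 ∧
  Lam F Z

/-- **B8.** The laminar theorem.  (Uses `S_B1`, `S_B2`, `S_B7`.)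

Proof. `F = {Ms G S v | v ∉ S}`.  Rule 1 of `LF F`: B1.  Rule 2: `A = Ms u`, `B = Ms v` not nested, `A ∩ B = {k}`,
`M = Ms g`, `k ∉ M`.  By B1 `u, v` are not adjacent.  `g ~ k`.  If `g ~ u` then B1 says that `Ms g`, `Ms u` are nested,
and `k ∈ Ms u \ Ms g`, so `M ⊆ A \ {k}`.  The same for `g ~ v`.  Otherwise, if `a ∈ (A \ {k}) \ M` and
`a' ∈ (B \ {k}) \ M`, the rule B2 with `p = u`, `q = v`, `g := k`, `g' := g` gives a contradiction (`k ~ g`;
`a ∉ B`, `a' ∉ A`).  B7 gives `Z`.  For `u ∉ S` `Ms G (S \ Z) u = Ms G S u \ Z`; for `u ∈ S ∩ Z` the set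
`Ms G (S \ Z) u` is empty. -/
def S_B8 : Prop := ∀ (V : Type) [Finite V] (G : SimpleGraph V) (S : Set V), Cls G →
  CompleteOn G S → ∃ Z : Set V, Z.ncard ≤ 9 ∧ LamOn G (S \ Z)

/-! ## the tree lemma -/

/-- the setting of the tree lemma: `N` is a block of the clique `S` with laminar traces, there are four
vertices with disjoint nonempty traces inside `N` and four with disjoint nonempty traces in `S \ N` -/
def TSet {V : Type} (G : SimpleGraph V) (S N : Set V) (k n : Fin 4 → V) : Prop :=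
  Cls G ∧ CompleteOn G S ∧ LamOn G S ∧ N ⊆ S ∧
  (∀ v, v ∉ S → Ms G S v ⊆ N ∨ Ms G S v ⊆ S \ N ∨ N ⊆ Ms G S v) ∧
  (∀ i, k i ∉ S ∧ (Ms G S (k i)).Nonempty ∧ Ms G S (k i) ⊆ N) ∧
  (∀ i, n i ∉ S ∧ (Ms G S (n i)).Nonempty ∧ Ms G S (n i) ⊆ S \ N) ∧
  (∀ i j, i ≠ j → Disjoint (Ms G S (k i)) (Ms G S (k j))) ∧
  ∀ i j, i ≠ j → Disjoint (Ms G S (n i)) (Ms G S (n j))

section

variable {V : Type} (G : SimpleGraph V) (S N : Set V) (n : Fin 4 → V)

/-- empty trace -/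
def tF : Set V := {v | v ∉ S ∧ Ms G S v = ∅}

/-- nonempty trace inside `N` -/
def tA : Set V := {v | v ∉ S ∧ (Ms G S v).Nonempty ∧ Ms G S v ⊆ N}

/-- nonempty trace inside `S \ N` -/
def tB : Set V := {v | v ∉ S ∧ (Ms G S v).Nonempty ∧ Ms G S v ⊆ S \ N}

/-- trace properly containing `N` -/
def tC : Set V := {v | v ∉ S ∧ N ⊆ Ms G S v ∧ ¬ Ms G S v ⊆ N}

/-- ... and disjoint from the traces of two of the `n i` -/
def tCm : Set V := {v | v ∈ tC G S N ∧ ∃ i j, i ≠ j ∧ Disjoint (Ms G S v) (Ms G S (n i)) ∧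
  Disjoint (Ms G S v) (Ms G S (n j))}

/-- the rest of `tC` -/
def tCp : Set V := tC G S N \ tCm G S N n

/-- the vertices of `tF` without neighbours in `tA ∪ tB` -/
def tF0 : Set V := {f | f ∈ tF G S ∧ ∀ w ∈ tA G S N ∪ tB G S N, ¬ G.Adj w f}

/-- the other vertices of `tF` -/
def tQ : Set V := tF G S \ tF0 G S N

/-- the vertices of `tQ` with a non-neighbour in `tA` -/
def tFA : Set V := {f | f ∈ tQ G S N ∧ ∃ u ∈ tA G S N, ¬ G.Adj u f}

/-- the vertices of `tF0` with a non-neighbour in `tFA` -/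
def tF0A : Set V := {e | e ∈ tF0 G S N ∧ ∃ f ∈ tFA G S N, ¬ G.Adj e f}

/-- the components of `G[tCp]` with a neighbour in `tA ∪ tF0A` -/
def tE : Set (Set V) := {E | IsComp G (tCp G S N n) E ∧ ∃ a ∈ tA G S N ∪ tF0A G S N, a ∈ nb G E}

end

/-- **T1.** `tA ∪ tB ∪ tCm` is independent.  (Uses `S_B1`, `S_B2`.)

Proof. Adjacent vertices outside `S` have nested traces (B1).  Write `m v = Ms G S v`.  Note `k i ∈ tA`,
`n i ∈ tB`, and vertices with disjoint nonempty traces are not adjacent; `S \ N` is seen by `tA`, `N` by `tB`.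
Let `u ~ w`.
`u, w ∈ tA`: B2 with `p = n 0`, `q = n 1`, `a ∈ m (n 0)`, `a' ∈ m (n 1)`, `g = u`, `g' = w`.  `u, w ∈ tB`: the same with
`k 0`, `k 1`.  `u ∈ tA`, `w ∈ tB`: disjoint traces.  `u ∈ tA`, `w ∈ tCm` with `n i`, `n j`: B2 with `p = n i`, `q = n j`.
`u, w ∈ tCm`: the traces are nested, `m u ⊆ m w`, take `n i`, `n j` for `w`: `m u` is also disjoint from `m (n i)`,
`m (n j)`; B2.  `u ∈ tB`, `w ∈ tCm` with `n i`, `n j`: nested, `m w` meets `N` (`N` is not empty), so `m u ⊆ m w` is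
disjoint from `m (n i)`, `m (n j)`: B2 with `p = n i`, `q = n j`. -/
def S_T1 : Prop := ∀ (V : Type) [Finite V] (G : SimpleGraph V) (S N : Set V) (k n : Fin 4 → V),
  TSet G S N k n → ∀ u ∈ tA G S N ∪ tB G S N ∪ tCm G S N n,
    ∀ w ∈ tA G S N ∪ tB G S N ∪ tCm G S N n, ¬ G.Adj u w

/-- **T2.** The vertices with empty trace.  (Uses `S_A0`, `S_B2`, `S_T1`.)

Proof. (1) Let `f ∈ tF`, `w₁, w₂ ∈ tA ∪ tB` not adjacent to `f`, with disjoint traces.  Show that `f` has no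
neighbour in `tA ∪ tB`, i.e. `f ∈ tF0`.  (a) If `w, w' ∈ tA ∪ tB` are not adjacent to `f`, with disjoint traces,
and `u ∈ tA ∪ tB`, `u ~ f`, then `m w ⊆ m u` or `m w' ⊆ m u`: otherwise `a ∈ m w \ m u`, `a' ∈ m w' \ m u`, and B2 with
`p = w`, `q = w'`, `g = f`, `g' = u` (T1: `u` is not adjacent to `w, w'`).  (b) The eight vertices `k i`, `n i` have
pairwise disjoint traces; by (a) (for `w₁, w₂`) at most two of them are adjacent to `f` (each of `m w₁`, `m w₂` is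
contained in at most one of eight disjoint sets).  So at least two `k i`, say `k 0`, `k 1` up to names, and two
`n i` are not adjacent to `f`.  If `u ∈ tA ∪ tB`, `u ~ f`, then by (a) for the pairs of these four vertices `m u`
contains at least three of the four disjoint nonempty traces, so one in `N` and one in `S \ N`; but `m u ⊆ N` or
`m u ⊆ S \ N`: contradiction.
(2) Let `f ≠ f'` be in `tQ`, not adjacent.  By (1) each of them misses at most one of `k 0, ..., k 3`, so some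
`k i` is adjacent to both; `s ∈ m (k i)`: `{f}, {k i}, {f'}, {s}` is a four-cycle.
(3) `e ∈ tF0` is not adjacent to `tA ∪ tB` by definition.  `e, e' ∈ tF0`, `e ~ e'`: B2 with `p = n 0`, `q = n 1`.
`e ∈ tF0`, `w ∈ tCm` with `n i`, `n j`, `e ~ w`: B2 with `p = n i`, `q = n j`, `g = e`, `g' = w`.
(4) `f ∈ tFA` misses some `u ∈ tA`; if it missed `w ∈ tB` the traces would be disjoint, contradiction to (1). -/
def S_T2 : Prop := ∀ (V : Type) [Finite V] (G : SimpleGraph V) (S N : Set V) (k n : Fin 4 → V),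
  TSet G S N k n →
  (∀ f ∈ tQ G S N, ∀ w ∈ tA G S N ∪ tB G S N, ∀ w' ∈ tA G S N ∪ tB G S N, ¬ G.Adj w f →
    ¬ G.Adj w' f → ¬ Disjoint (Ms G S w) (Ms G S w')) ∧
  CompleteOn G (tQ G S N) ∧
  (∀ e ∈ tF0 G S N, ∀ w ∈ tF0 G S N ∪ (tA G S N ∪ tB G S N ∪ tCm G S N n), ¬ G.Adj e w) ∧
  ∀ f ∈ tFA G S N, ∀ w ∈ tB G S N, G.Adj f w

/-- **T3.** The set `tFA`.  (Uses `S_B0`, `S_T1`, `S_T2`.)

Proof. (1) Suppose `w ∈ tCm` (with `n i`, `n j`), `f ∈ tFA`, `w ~ f`; let `u ∈ tA` be not adjacent to `f`, `s ∈ m u`,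
`x ∈ m w \ N`.  B0 with `P = {x}`, `X = {u}`, `b := f`, `Y = {w}`, `c, d := s, n i`: `x ~ f, s`, `x ~ n i`
(`x ∈ m w` is not in `m (n i)`), `f ~ s`, `f ~ n i` (T2 (4)), `s ~ n i` (`s ∈ N`); `u ~ x`, `u` is not adjacent to `f`, `s`,
`n i` (T1), `w`; `w ~ f`, `w` is not adjacent to `x`, `s` (`N ⊆ m w`), `n i`.
(2) Let `e ∈ tF0`, `f ∈ tFA` not adjacent, `u ∈ tA` not adjacent to `f`, and let `f' ∈ tQ` be not adjacent to `e`.
Show `f' ∈ tFA`.  Suppose not, then `f' ~ u`; `f ≠ f'`, `f ~ f'` (T2).  Let `s ∈ m u` and `i` such that `n i ~ f'` (by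
T2 (1) at most one of the `n i` is not adjacent to `f'`).  B0 with `P = {f'}`, `X = {u}`, `b := s`, `Y = {e}`,
`c, d := f, n i`: `u ~ f'`, `u` is not adjacent to `s, f, n i, e`; `e ~ s`, `e` is not adjacent to `f', f, n i`. -/
def S_T3 : Prop := ∀ (V : Type) [Finite V] (G : SimpleGraph V) (S N : Set V) (k n : Fin 4 → V),
  TSet G S N k n → (∀ w ∈ tCm G S N n, ∀ f ∈ tFA G S N, ¬ G.Adj w f) ∧
    ∀ e ∈ tF0A G S N, ∀ f ∈ tQ G S N \ tFA G S N, G.Adj e f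

/-- **T4.** The components of `G[tCp]`.  (Uses `S_A0`, `S_B0`, `S_T1`, `S_T2`.)

Proof. (1) The traces of the vertices of `tC` contain `N ≠ ∅`, so by laminarity they form a chain; let `h₀ ∈ E`
have the smallest trace.  By the definition of `tCp` there is `i₀` such that `m h₀` meets `m (n i)` for all `i ≠ i₀`;
these sets are nested and `m h₀` is not contained in `m (n i)` (`N`), so `m (n i) ⊆ m h₀ ⊆ m h`.
(2) By T1 and T2 (3) the set `tA ∪ tB ∪ tCm ∪ tF0` is independent, and a vertex of `nb G E` outside `S` is in this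
set or in `tQ` (it is not in `tCp` since `E` is a component).  Suppose `d ∈ nb G E`, `d ≠ c`, `d` in the independent
set.  We find a connected set `T ⊆ S` which is touched by `c` and by `d` but not by `E`: then `{c}, E, {d}, T` is a
four-cycle (A0).  By (1) and `|Fin 4| = 4` there is an `i ≠ i₀` such that, if `d ∈ tCm`, `m (n i)` is disjoint from
`m d` (two such indices exist, one is `≠ i₀`).  Let `x ∈ m (n i)`, it is in `S \ N` and not adjacent to `E`; `c ~ x`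
(`c ∈ tA ∪ tF0`).  If `d ∈ tA ∪ tF0 ∪ tCm` then `d ~ x`: `T = {x}`.  If `d ∈ tB` let `y ∈ N`: `d ~ y`, `E` is not adjacent
to `y`: `T = {x, y}`.
(3) Suppose `h ∈ E`, `f ∈ tFA`, `h ~ f`; `u ∈ tA` not adjacent to `f`.  At most one element of `tB` is in `nb G E`: two
elements `d, d'` and `y ∈ N` would give the four-cycle `{d}, E, {d'}, {y}`.  If `u ∈ nb G E`: let `x ∈ m (n i)`,
`i ≠ i₀`; `{u}, E, {f}, {x}` is a four-cycle.  Otherwise choose `i` with `n i ∉ nb G E` and `j ≠ i`, `j ≠ i₀`,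
`x ∈ m (n j)`, `s ∈ m u`.  B0 with `P = {x}`, `X = {u}`, `b := f`, `Y = E`, `c, d := s, n i`: `x ~ f, s, n i`
(`x ∉ m (n i)`), `f ~ s`, `f ~ n i` (T2 (4)), `s ~ n i`; `u ~ x`, `u` is not adjacent to `f, s, n i` and `E`; `E` touches
`f` and not `x`, `s` (`N ⊆ m h`), `n i`. -/
def S_T4 : Prop := ∀ (V : Type) [Finite V] (G : SimpleGraph V) (S N : Set V) (k n : Fin 4 → V)
  (E : Set V), TSet G S N k n → IsComp G (tCp G S N n) E →
  (∃ i₀, ∀ i, i ≠ i₀ → ∀ h ∈ E, Ms G S (n i) ⊆ Ms G S h) ∧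
  (∀ c ∈ tA G S N ∪ tF0 G S N, c ∈ nb G E → nb G E \ S ⊆ insert c (tQ G S N)) ∧
  ∀ h ∈ E, ∀ f ∈ tFA G S N, ¬ G.Adj h f

/-- **T5.** Two components with different attachments.  (Uses `S_B0`, `S_T2`, `S_T3`, `S_T4`.)

Proof. By T4 (2) `a₁ ∉ nb G E₂`, `a₂ ∉ nb G E₁` (`a₁`, `a₂` are not in `S ∪ tQ`).  By T4 (1) there are `i ≠ j` such that
`m (n i)`, `m (n j)` are contained in all `m h`, `h ∈ E₁ ∪ E₂`; let `x ∈ m (n i)`, `x' ∈ m (n j)`, `x ≠ x'`; they are in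
`S \ N`, adjacent to `a₁`, `a₂` and to `tF`.
(1) Let `h ∈ E₁`, `h ~ a₁`, `f ∈ tQ ∩ nb G E₂`, and suppose that `h`, `f` are not adjacent.  By T4 (3) `f ∉ tFA`, so
`f ~ a₁` (definition of `tFA` if `a₁ ∈ tA`, T3 (2) if `a₁ ∈ tF0A`).  B0 with `P = {a₁}`, `X = {h}`, `b := f`, `Y = E₂`,
`c, d := x, x'` (`h` and `E₂` are in different components).
(2) Let `d ∈ m h \ m h'`, `h ∈ E₁`, `h' ∈ E₂`.  `d ∉ N`, so `a₁ ~ d`; `d ≠ x, x'`.  If `h ~ a₁` let `P = {a₁}`, otherwise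
`P = {a₁} ∪ T'`, where `T'` is the component of `h₁` in `G[E₁ \ {h}]`, `h₁ ∈ E₁` a neighbour of `a₁` (`T'` touches `h`
since `E₁` is connected).  B0 with `P`, `X = {h}`, `b := d`, `Y = {h'}`, `c, d := x, x'`: contradiction.  So
`m h ⊆ m h'`; the other inclusion by symmetry. -/
def S_T5 : Prop := ∀ (V : Type) [Finite V] (G : SimpleGraph V) (S N : Set V) (k n : Fin 4 → V)
  (E₁ E₂ : Set V) (a₁ a₂ : V), TSet G S N k n → IsComp G (tCp G S N n) E₁ →
  IsComp G (tCp G S N n) E₂ → a₁ ∈ tA G S N ∪ tF0A G S N → a₂ ∈ tA G S N ∪ tF0A G S N →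
  a₁ ∈ nb G E₁ → a₂ ∈ nb G E₂ → a₁ ≠ a₂ →
  (∀ h ∈ E₁, G.Adj h a₁ → ∀ f ∈ tQ G S N, f ∈ nb G E₂ → G.Adj h f) ∧
    ∀ h ∈ E₁, ∀ h' ∈ E₂, Ms G S h = Ms G S h'

/-- **T6.** The traces of the components in `tE`.  (Uses `S_B1`, `S_B3`, `S_T2`, `S_T4`, `S_T5`.)

Proof. For `E ∈ tE` there is exactly one `a_E ∈ (tA ∪ tF0A) ∩ nb G E` (T4 (2)).  For every `E ∈ tE` there is
`E' ∈ tE` with `a_E' ≠ a_E` (`E₁` or `E₂`).  If `a_E ≠ a_E'` then T5 (1) (with `h ∈ E`, `h ~ a_E`, and also with the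
roles exchanged) gives `nb G E ∩ tQ = nb G E' ∩ tQ`, and T5 (2) `m h = m h'` for `h ∈ E`, `h' ∈ E'`; if `a_E = a_E''`
compare both with an `E'` with `a_E' ≠ a_E`.  So all `nb G E ∩ tQ` are one set `P` and all traces one set `M`.
`P ⊆ tQ \ tFA` by T4 (3).  For `h ∈ E ∈ tE` let `D h = {f ∈ P | h, f not adjacent}`.  If `h ~ a_E` then `D h = ∅`
(T5 (1) with `E'`): call such an element `x_E`.
`L = S ∪ P` is a clique (`P ⊆ tF`, T2 (2)), and `Ms G L h = M ∪ D h`, `|M| ≥ |N| ≥ 2` (`N` contains four disjoint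
nonempty sets).  B1 for `L`: the `D h` (`h ∈ ⋃₀ tE`) form a chain.  B3 for `L`, `C = E`, `x = x_E`, `y ∈ E`,
`v ∈ E' ≠ E`: `|D v ∩ D y| ≤ 1` or `D y ⊆ D v`.
CASE 1: at most one `E₀ ∈ tE` contains an `h` with `|D h| ≥ 2` (if there is none, `E₀ = ∅`, which is not a
component).  The nonempty `D h`, `h ∈ E ≠ E₀`, have one element, and they are equal (chain): `D₁ = D₂`.
CASE 2: two different members of `tE` contain such `h`.  `E₀ = ∅`.  Let `D₂ = D h_m`, `h_m ∈ E_m`, be the largest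
`D h`.  If `|D h| ≥ 2`, `h ∈ E ≠ E_m`: `|D h ∩ D₂| ≥ 2`, so `D₂ ⊆ D h`, `D h = D₂`.  If `h ∈ E_m`, `|D h| ≥ 2`: let
`h'' ∈ E'' ≠ E_m` with `|D h''| ≥ 2`, so `D h'' = D₂`, and B3 for `C = E''`, `y = h''`, `v = h` gives `D₂ ⊆ D h`.  The
`D h` with one element are equal: `D₁`. -/
def S_T6 : Prop := ∀ (V : Type) [Finite V] (G : SimpleGraph V) (S N : Set V) (k n : Fin 4 → V)
  (E₁ E₂ : Set V) (a₁ a₂ : V), TSet G S N k n → E₁ ∈ tE G S N n → E₂ ∈ tE G S N n →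
  a₁ ∈ tA G S N ∪ tF0A G S N → a₂ ∈ tA G S N ∪ tF0A G S N → a₁ ∈ nb G E₁ → a₂ ∈ nb G E₂ →
  a₁ ≠ a₂ → ∃ M P E₀ D₁ D₂ : Set V, P ⊆ tQ G S N \ tFA G S N ∧
    (∀ E ∈ tE G S N n, ∀ h ∈ E, Ms G S h = M) ∧ (∀ E ∈ tE G S N n, nb G E ∩ tQ G S N = P) ∧
    ∀ E ∈ tE G S N n, E ≠ E₀ → ∀ h ∈ E, {f | f ∈ P ∧ ¬ G.Adj h f} = ∅ ∨
      {f | f ∈ P ∧ ¬ G.Adj h f} = D₁ ∨ {f | f ∈ P ∧ ¬ G.Adj h f} = D₂

/-- **T7.** The tree lemma.  (Uses `S_A1`, `S_T1`, ..., `S_T6`.)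

Proof. A vertex outside `S` is in `tF`, `tA`, `tB` or `tC`; `tF = tF0 ∪ tQ`, `tC = tCm ∪ tCp`.  Let
`X₀ = N ∪ tA ∪ tFA ∪ tF0A`.
CASE 1: there is `a` such that for all `E ∈ tE` every element of `(tA ∪ tF0A) ∩ nb G E` is `a` (for instance
`tE = ∅`).  `X = X₀`, `Xᶜ = (S \ N) ∪ tB ∪ tCm ∪ tCp ∪ (tQ \ tFA) ∪ (tF0 \ tF0A)`.  With A1:
`rk N Xᶜ ≤ 1` (`N` is complete to `S \ N`, `tB`, `tF`, and has no neighbours in `tC`);
`rk ((tA ∪ tF0A) \ {a}) Xᶜ ≤ 1` (complete to `S \ N` and to `tQ \ tFA` (definition of `tFA`, T3 (2)); no neighbours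
in `tB`, `tCm`, `tF0` (T1, T2 (3)), and in `tCp`: a neighbour would be in a component `E ∈ tE`);
`rk {a} Xᶜ ≤ 1`; `rk tFA Xᶜ ≤ 1` (complete to `S \ N`, `tB` (T2 (4)), `tQ \ tFA` (T2 (2)), `tF0 \ tF0A`
(definition); no neighbours in `tCm` (T3 (1)), `tCp` (T4 (3))).  Sum: 4.
CASE 2: otherwise T6 applies (two members of `tE` with different elements, or one member with two different
ones, which is impossible by T4 (2)).  `X = X₀ ∪ ⋃₀ (tE \ {E₀})`.  Let `a₀` be the element of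
`(tA ∪ tF0A) ∩ nb G E₀` if `E₀ ∈ tE` (otherwise take any vertex).  As before `rk N Xᶜ`, `rk ((tA ∪ tF0A) \ {a₀}) Xᶜ`,
`rk {a₀} Xᶜ`, `rk tFA Xᶜ` are at most 1 (the part of `tCp` in `Xᶜ` consists of `E₀` and the components which are
not in `tE`).  Let `h ∈ E ∈ tE`, `E ≠ E₀`: its neighbours in `Xᶜ` are in `(S \ N) ∪ (tQ \ tFA)` (T4 (2), `a_E ∈ X`;
different components are not adjacent), they are `((S \ N) \ M) ∪ (P \ D)` with `D ∈ {∅, D₁, D₂}`: by A1 (6)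
`rk (⋃₀ (tE \ {E₀})) Xᶜ ≤ 3`.  Sum: 7. -/
def S_T7 : Prop := ∀ (V : Type) [Finite V] (G : SimpleGraph V) (S N : Set V) (k n : Fin 4 → V),
  TSet G S N k n → ∃ X : Set V, X ∩ S = N ∧ cr G X ≤ 8

end Pool.Agent.MPd439b2.LK
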