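import Pool.Agent.Lib.MP_d439b2_co.L4.Spec2

/-!
# MP_d439b2_co, column `C_4`, Spec 3: `K4:0,1`, from laminar traces to a chain; chains; the theorem

`Unb G S m`: no cut of rank at most 16 has more than `m` vertices of `S` on both sides.  S_C14: this is
impossible for large cliques `S` of a graph in the class `Cls`.  `a ~ b` means `G.Adj a b`.
-/

set_option autoImplicit false

namespace Pool.Agent.MPd439b2.LK

open Pool.Agent.MPd439b2

/-- no cut of rank at most 16 splits `S` into two parts with more than `m` elements -/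
def Unb {V : Type} (G : SimpleGraph V) (S : Set V) (m : ℕ) : Prop :=
  ∀ X : Set V, cr G X ≤ 16 → (S ∩ X).ncard ≤ m ∨ (S \ X).ncard ≤ m

/-- **C1.** Chains in laminar families.

Proof. Induction on `k`.  If there are no two disjoint nonempty members then `F` is a chain: `W' = W` (this
covers `k ≤ 1`).  Otherwise `k ≥ 2`; let `m₀` be inclusion-maximal among the nonempty members which are disjoint
from some nonempty member `B₀`.  Let `F₁ = {A ∩ m₀ | A ∈ F}`, `F₂ = {A \ m₀ | A ∈ F}`; both are laminar.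
`F₁` does not have `k` pairwise disjoint nonempty members `g i`: `g i = A ∩ m₀` nonempty is `A` (if `A ⊆ m₀`) or `m₀`,
so it is in `F`, and together with `B₀` there would be `k + 1`.
`F₂` does not have `k` pairwise disjoint nonempty members `g i = A i \ m₀`: if all `A i` are disjoint from `m₀` then
`g i = A i` and with `m₀` there are `k + 1`.  Otherwise some `A i₀` contains `m₀` properly; only one, because
two members which contain `m₀ ≠ ∅` are nested.  For `j ≠ i₀` the member `A j = g j` is disjoint from `m₀` and from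
`A i₀ \ m₀`, so `A i₀` has a disjoint nonempty member and is larger than `m₀`: contradiction.
Apply the induction to the larger one of `m₀`, `W \ m₀` (with `F₁` resp. `F₂`, `k - 1`): `|W| ≤ 2 · 2 ^ (k - 1) |W'|`;
for `W' ⊆ m₀` we have `A ∩ W' = (A ∩ m₀) ∩ W'`, for `W' ⊆ W \ m₀` `A ∩ W' = (A \ m₀) ∩ W'`. -/
def S_C1 : Prop := ∀ (α : Type) [Finite α] (k : ℕ) (W : Set α) (F : Set (Set α)),
  (∀ A ∈ F, A ⊆ W) → (∀ A ∈ F, ∀ B ∈ F, A ⊆ B ∨ B ⊆ A ∨ Disjoint A B) →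
  (¬ ∃ g : Fin (k + 1) → Set α, (∀ i, g i ∈ F ∧ (g i).Nonempty) ∧
    ∀ i j, i ≠ j → Disjoint (g i) (g j)) →
  ∃ W' ⊆ W, W.ncard ≤ 2 ^ k * W'.ncard ∧ ∀ A ∈ F, ∀ B ∈ F, A ∩ W' ⊆ B ∩ W' ∨ B ∩ W' ⊆ A ∩ W'

/-- **C2.** A balanced block.  (Uses `S_A1`.)

Proof. Let `ℱ` consist of `S` and all traces `Ms G S v`, `v ∉ S`; laminar.  Let `M ∈ ℱ` be inclusion-minimal with
`|M| ≥ |S| - m'` (`S` is one).  Let `M_1, M_2, ...` be the maximal elements of the nonempty proper subsets of `M`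
in `ℱ`; they are disjoint.  If some `|M_i| > m'`: `|M_i| < |S| - m'` (minimality of `M`), `N = M_i`; the last
property is laminarity.  Otherwise let `R = M \ ⋃ M_i`.  Every `v ∉ S` is adjacent to all or to none of the
elements of `R`: its trace contains `M`, or is disjoint from `M`, or is a proper subset of `M`, hence empty or
inside some `M_i`.  So every `R' ⊆ R` has `cr G R' ≤ 1` (A1 (5)); `|R'| = m + 1` would contradict `Unb`
(`|S \ R'| ≥ |S| - m - 1 > m`), so `|R| ≤ m` and `|⋃ M_i| ≥ |S| - m' - m > m'`.  Add the `M_i` one after the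
other until the union `N` has more than `m'` elements; `|N| ≤ 2 m'`, `|S \ N| ≥ |S| - 2 m' > m'`.  A trace contains
`M ⊇ N`, or is disjoint from `M`, or is equal to `M`, or is inside one `M_i`, which is inside `N` or disjoint from
`N`. -/
def S_C2 : Prop := ∀ (V : Type) [Finite V] (G : SimpleGraph V) (S : Set V) (m m' : ℕ),
  CompleteOn G S → LamOn G S → Unb G S m → m ≤ m' → 4 * m' + 2 ≤ S.ncard →
  ∃ N ⊆ S, m' < N.ncard ∧ m' < (S \ N).ncard ∧
    ∀ v, v ∉ S → Ms G S v ⊆ N ∨ Ms G S v ⊆ S \ N ∨ N ⊆ Ms G S v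

/-- **C3.** From cliques to cliques with chain traces.  (Uses `S_B8`, `S_C1`, `S_C2`, `S_T7`.)

Proof. `m' = max m (16 n₂)`, `n₁ = 4 m' + 11`.  Let `Z` be from B8, `S₁ = S \ Z`: laminar traces, `Unb G S₁ m`,
`|S₁| ≥ 4 m' + 2`.  C2 gives `N` (for `S₁`).  There are not both four vertices outside `S₁` with disjoint nonempty
traces inside `N` and four with disjoint nonempty traces inside `S₁ \ N`: otherwise `TSet`, and T7 gives `X` with
`X ∩ S₁ = N`, `cr G X ≤ 8`, `|S₁ ∩ X| = |N| > m`, `|S₁ \ X| = |S₁ \ N| > m`.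
Let `W` be the one of the two sets `N`, `S₁ \ N` which does not contain four disjoint nonempty traces, and
`F = {Ms G S₁ v ∩ W | v ∉ S₁}`; laminar.  `F` has no five pairwise disjoint nonempty members.  `W = N`: the
members are `∅`, `N` or traces inside `N`; at least two disjoint nonempty ones are all traces inside `N`.
`W = S₁ \ N`: a nonempty member is a trace inside `W` or `Ms v \ N` with `N ⊆ Ms v`; at most one of pairwise
disjoint nonempty members is of the second kind, since traces which contain `N ≠ ∅` are nested.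
C1 (`k = 4`) gives `W'` with `16 |W'| ≥ |W| > 16 n₂`; `S' = W'`.  For `v ∉ S₁` `Ms G W' v = Ms G S₁ v ∩ W'`, for
`v ∈ S₁ \ W'` `Ms G W' v = ∅`. -/
def S_C3 : Prop := ∀ m n₂ : ℕ, ∃ n₁ : ℕ, ∀ (V : Type) [Finite V] (G : SimpleGraph V) (S : Set V),
  Cls G → CompleteOn G S → n₁ ≤ S.ncard → Unb G S m → ∃ S' ⊆ S, n₂ ≤ S'.ncard ∧ ChainOn G S'

/-- the elements of `S` are `s 1, ..., s n`, and a vertex `v ∉ S` is adjacent exactly to the `s i` with
`l v < i` (`l v` is the level of `v`) -/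
def Lev {V : Type} (G : SimpleGraph V) (S : Set V) (n : ℕ) (s : ℕ → V) (l : V → ℕ) : Prop :=
  (∀ i, 1 ≤ i → i ≤ n → s i ∈ S) ∧
  (∀ i j, 1 ≤ i → i ≤ n → 1 ≤ j → j ≤ n → s i = s j → i = j) ∧
  (∀ v ∈ S, ∃ i, 1 ≤ i ∧ i ≤ n ∧ v = s i) ∧
  ∀ v, v ∉ S → l v ≤ n ∧ ∀ i, 1 ≤ i → i ≤ n → (G.Adj v (s i) ↔ l v < i)

/-- **C4.** Levels.

Proof. `F = {Ms G S v | v ∉ S}` is a finite chain; for `a ∈ S` let `r a = |{T ∈ F | a ∉ T}|`.  Enumerate `S` as
`s 1, ..., s n` with nondecreasing `r` (for instance sort a list of the elements of `S`).  If `a ∈ Ms v`,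
`b ∈ S \ Ms v` then `r a < r b`: if `T ∈ F` does not contain `a` then `T ⊆ Ms v` (nested), so `b ∉ T`; and `T = Ms v`
is counted for `b` but not for `a`.  So `Ms v` is an initial segment `{s i | i ≤ l v}`, `l v = |Ms G S v|`. -/
def S_C4 : Prop := ∀ (V : Type) [Finite V] (G : SimpleGraph V) (S : Set V), CompleteOn G S →
  S.Nonempty → ChainOn G S → ∃ (s : ℕ → V) (l : V → ℕ), Lev G S S.ncard s l

/-- **C5.** There are vertices in every window of levels.  (Uses `S_A1`.)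

Proof. Otherwise `R = {s i | a < i ≤ a + m + 1}` is seen completely or not at all by every vertex outside `R`
(`l v ≤ a` or `l v ≥ a + m + 1`), `cr G R ≤ 1` (A1 (5)), `|S ∩ R| = m + 1`, `|S \ R| = n - m - 1 > m`. -/
def S_C5 : Prop := ∀ (V : Type) [Finite V] (G : SimpleGraph V) (S : Set V) (n m : ℕ) (s : ℕ → V)
  (l : V → ℕ), CompleteOn G S → Lev G S n s l → Unb G S m → 2 * m + 2 ≤ n → ∀ a, a + m + 1 ≤ n →
    ∃ v, v ∉ S ∧ a < l v ∧ l v < a + m + 1

/-- **C6.** Neighbourhoods in connected sets are connected.  (Uses `S_A0`.)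

Proof. Suppose that `N = {c ∈ C | e ~ c}` is not connected, `Y` a component of `G[N]`, `z ∈ N \ Y`.  Let `W` be the
component of `z` in `G[C \ Y]`; it touches `Y` (`C` is connected), so some `p ∈ W` is adjacent to `Y`, and
`p ∉ N` (`Y` is a component of `G[N]`).  Let `Z` be the component of `p` in `G[W \ N]`; `Z ≠ W` (`z ∈ W`), so there is
`z' ∈ W \ Z` adjacent to `Z`, `z' ∈ N`, and `z'` is not adjacent to `Y`.  `{e}, Y, Z, {z'}` is a four-cycle. -/
def S_C6 : Prop := ∀ (V : Type) [Finite V] (G : SimpleGraph V) (C : Set V) (e : V), Chd G →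
  Conn G C → e ∈ nb G C → Conn G {c | c ∈ C ∧ G.Adj e c}

/-- **C7.** The range cut.  (Uses `S_A1`, `S_B1`, `S_B2`, `S_B3`, `S_C6`.)

Proof. Let `R` be the set in the statement; `R = Ms G A y` for some `y ∈ C` (chain, `C` is finite and nonempty).
Let `v ∉ A ∪ C ∪ I`; `v` is not adjacent to `C`.  B3 for the clique `A`, `C`, `x`, `y`, `v` (`Ms G A x = ∅`):
`|Ms G A v ∩ R| ≤ 1` or `R ⊆ Ms G A v`.  Let `E₁` be the set of the `e ∈ R` such that `Ms G A v ∩ R = {e}` for some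
`v ∉ A ∪ C ∪ I`.  So (★): every such `v` is adjacent to all or to no elements of `R \ E₁`.
CASE 1: `|E₁| ≤ 1`: `E = ∅`, `X = C ∪ R`.  By A1: `rk X Xᶜ ≤ rk X (Xᶜ \ I) + rk X I`, the last is at most 2 (symmetry);
`rk (R \ E₁) (Xᶜ \ I) ≤ 1` (★), `rk E₁ _ ≤ 1`, `rk C (Xᶜ \ I) ≤ 1` (`C` is complete to `A \ R` and has no other
neighbours in `Xᶜ \ I`).  Sum: 5.
CASE 2: `E₁` has at least two elements; `E = E₁`, `X = C ∪ (R \ E₁)`.  Let `e ≠ e'` be in `E₁`, with `v`, `v'`.  `v`, `v'`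
are not adjacent (B1 for `A`: the traces are not nested).  The sets `N(e) ∩ C`, `N(e') ∩ C` are nested (chain);
let `N(e) ∩ C ⊆ N(e') ∩ C`.  By B2 (`p = v`, `q = v'`, `a = e`, `a' = e'`) the set of the `c ∈ C` adjacent to `e` and
`e'`, which is `N(e) ∩ C`, is independent; it is connected (C6) and contains `x`, so `N(e) ∩ C = {x}`.  Let
`e* ∈ E₁` have the largest `N(e*) ∩ C`; then `N(e) ∩ C = {x}` for all `e ∈ E₁`, `e ≠ e*`.  So the neighbours in
`Xᶜ \ I` of `c ∈ C \ {x}` are `A \ R` or `(A \ R) ∪ {e*}`: rank at most 2 (A1 (6)); `rk {x} _ ≤ 1`;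
`rk (R \ E₁) (Xᶜ \ I) ≤ 1` (★); `rk X I ≤ 2`.  Sum: 6. -/
def S_C7 : Prop := ∀ (V : Type) [Finite V] (G : SimpleGraph V) (A C I : Set V) (x : V), Cls G →
  CompleteOn G A → Conn G C → Disjoint A C → Disjoint I C → Disjoint A I → nb G C ⊆ A ∪ I →
  I.ncard ≤ 2 → x ∈ C → (∀ a ∈ A, G.Adj x a) →
  (∀ c ∈ C, ∀ c' ∈ C, Ms G A c ⊆ Ms G A c' ∨ Ms G A c' ⊆ Ms G A c) →
  ∃ E ⊆ {a | a ∈ A ∧ ∃ c ∈ C, ¬ G.Adj c a},
    (∀ e ∈ E, ∃ v, v ∉ A ∧ v ∉ C ∧ v ∉ I ∧
      Ms G A v ∩ {a | a ∈ A ∧ ∃ c ∈ C, ¬ G.Adj c a} = {e}) ∧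
    cr G (C ∪ ({a | a ∈ A ∧ ∃ c ∈ C, ¬ G.Adj c a} \ E)) ≤ 6

/-- **C8.** The two sides of a clique.  (Uses `S_A7`, `S_B1`, `S_B2`, `S_B3`.)

Proof. Write `m v = Ms G A v`.  (a) If `c, c' ∈ C` and `m c`, `m c'` are not nested then they are disjoint (and
nonempty) and `c, c'` are not adjacent: B1 for the clique `insert z A` (`Ms G (insert z A) c = insert z (m c)`).
The same for `B` (with `x`).
(b) Let `c₁, c₂ ∈ C` have non-nested traces, `b ∈ B`, `b ≠ z`.  Then `m c₁ ⊆ m b` or `m c₂ ⊆ m b`.  Let `W` be the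
component of `b` in `G[B \ {z}]`, it touches `z`.  `A_W = insert z (A ∩ nb G W)` is a clique; by A7 there is `w ∈ W`
complete to `A_W`, so `w ~ z`.  B2 with `p = c₁`, `q = c₂`, `g = z`, `g' = w` shows that there are no
`a ∈ m c₁ \ m w`, `a' ∈ m c₂ \ m w`; so `m c₁ ⊆ m w` or `m c₂ ⊆ m w`.  `m w ⊆ m b`: `a ∈ m w` is not in `A_W`, so it
is not adjacent to `W`.  The same with `C` and `B` exchanged.
(c) Suppose that the first alternative (with `I = ∅`) and the second one fail: `c₁, c₂ ∈ C` and `b₁, b₂ ∈ B` with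
non-nested traces.  `m b₁`, `m b₂` are disjoint, so by (b) they contain different ones of the nonempty sets
`m c₁`, `m c₂`; rename such that `m c₁ ⊆ m b₁`, `m c₂ ⊆ m b₂`; by (b) exchanged `m c₁` contains `m b₁` or `m b₂`, so
`m c₁ = m b₁ =: Y`, in the same way `m c₂ = m b₂ =: Y'`.  This argument works for every non-nested pair in `C`
(with `b₁, b₂`) and in `B` (with `c₁, c₂`): the two traces are always `Y`, `Y'` (in some order).
(d) For `c ∈ C`: `m c = ∅` or `m c = Y` or `m c = Y'` or `Y ∪ Y' ⊆ m c`.  Let `c ≠ x`; by (b) exchanged say `Y ⊆ m c`.  If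
`m c`, `Y'` are not nested then by (c) `m c = Y`; otherwise `Y' ⊆ m c`.  The same for `B`.
(e) If no `b ∈ B` satisfies `Y ∪ Y' ⊆ m b`: third alternative.  Otherwise B3 for the clique `A`, the connected set
`B`, `x := z`, `y := b`, `v := c₁`: `|m c₁ ∩ m b| ≤ 1` or `m b ⊆ m c₁`; so `|Y| ≤ 1`; in the same way `|Y'| ≤ 1`.
`I = Y ∪ Y'`; the traces of `C` on `A \ I` are empty or of the form `m c \ I` with `Y ∪ Y' ⊆ m c`; two such `m c` are
not disjoint, so they are nested by (a). -/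
def S_C8 : Prop := ∀ (V : Type) [Finite V] (G : SimpleGraph V) (A C B : Set V) (x z : V), Cls G →
  CompleteOn G A → Conn G C → Conn G B → Disjoint A C → Disjoint A B → Disjoint C B →
  ¬ Tch G C B → x ∈ C → (∀ a ∈ A, G.Adj x a) → z ∈ B → (∀ a ∈ A, G.Adj z a) →
  (∃ I ⊆ A, I.ncard ≤ 2 ∧ ∀ c ∈ C, ∀ c' ∈ C, Ms G (A \ I) c ⊆ Ms G (A \ I) c' ∨
    Ms G (A \ I) c' ⊆ Ms G (A \ I) c) ∨
  (∀ b ∈ B, ∀ b' ∈ B, Ms G A b ⊆ Ms G A b' ∨ Ms G A b' ⊆ Ms G A b) ∨
  ∃ Y Y' : Set V, ∀ b ∈ B, Ms G A b = ∅ ∨ Ms G A b = Y ∨ Ms G A b = Y'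

/-- **C9.** Small ranges.  (Uses `S_A0`, `S_A1`, `S_A7`, `S_B3`, `S_C5`, `S_C7`, `S_C8`.)

Proof. Suppose `h ≥ λ + m + 4`; we may assume that `h` is the maximal level in `C` (`λ ≥ i` is the minimal one).
`n ≥ h ≥ 2 m + 8`.  Let `A = nb G C`.
(1) `s j ∈ A` iff `λ < j`.  If `a ∈ A \ S` then `l a < i` (otherwise `a ∈ C`), so `a ~ s j` for `j ≥ i`.  `A` is a clique:
if `a, a' ∈ A \ S` are not adjacent then `{a}, C, {a'}, {s i}` is a four-cycle (A0).  `z = s λ` is not in `A` and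
not adjacent to `C`; it is complete to `A`.  A7: `x ∈ C` complete to `A`, `l x = λ`.  Let `B` be the component of `z` in
`G[Aᶜ]`; it contains `s 1, ..., s λ`; `C` is a component of `G[Aᶜ]` different from `B`, so `C`, `B` are disjoint and do
not touch; `nb G B ⊆ A`.
(2) C8.  THIRD ALTERNATIVE: `X = B`: `nb G B ⊆ A`, the traces on `A` are `A \ Y''`, `Y'' ∈ {∅, Y, Y'}`: `cr G X ≤ 3` (A1 (6)).
`S ∩ X = {s j | j ≤ λ}`: both parts of `S` have more than `m` elements: contradiction to `Unb`.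
(3) FIRST ALTERNATIVE: C7 for `A \ I`, `C`, `I`, `x`: `R = {a ∈ A \ I | some c ∈ C is not adjacent to a}`,
`X = C ∪ (R \ E)`, `R ∩ S = {s j | λ < j ≤ h} \ I`.  If `s j ∈ E` then there is `v ∉ (A \ I) ∪ C ∪ I` with
`Ms G (A \ I) v ∩ R = {s j}`; `v ∉ S` (an element of `S` is complete to `A ∩ S`), so `s j` is the first element of
`R ∩ S`: `E ∩ S` has at most one element.  So `|S ∩ X| ≥ h - λ - 3 > m` and `|S \ X| ≥ λ > m` (`X ∩ S ⊆ R`):
contradiction.
(4) SECOND ALTERNATIVE.  (i) Let `v ∉ S`, `v ∉ C`.  If `v ∈ A` then `l v < i ≤ λ`; otherwise `v` is not adjacent to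
`C`, and B3 for the clique `S`, `C`, `x` and an element of level `h` gives `l v ≤ λ + 1` or `l v ≥ h`.
(ii) Suppose that some `b ∈ B \ S` has `l b ≥ h`.  B3 for the clique `A`, `B`, `z`, `b`, `v := c ∈ C` (`Ms G A z = ∅`,
`Ms G A b ∩ S = {s j | λ < j ≤ l b}`): `l c ≤ λ + 1` or `l c ≥ h`.  So no vertex has a level between `λ + 1` and `h`:
contradiction to C5 with `a = λ + 1`.  So `l b ≤ λ + 1` for all `b ∈ B \ S` by (i).
(iii) C7 for `A`, `C := B`, `I = ∅`, `x := z`: `R ∩ S ⊆ {s (λ + 1)}` (elements of `B ∩ S` are complete to `A ∩ S`),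
`X = B ∪ (R \ E)`: `{s j | j ≤ λ} ⊆ S ∩ X ⊆ {s j | j ≤ λ + 1}`: contradiction to `Unb`. -/
def S_C9 : Prop := ∀ (V : Type) [Finite V] (G : SimpleGraph V) (S C : Set V) (n m i lo h : ℕ)
  (s : ℕ → V) (l : V → ℕ), Cls G → CompleteOn G S → Lev G S n s l → Unb G S m → 1 ≤ i →
  IsComp G {v | v ∉ S ∧ i ≤ l v} C → (∀ c ∈ C, lo ≤ l c) → (∃ c ∈ C, l c = lo) →
  (∃ c ∈ C, l c = h) → m + 4 ≤ lo → h < lo + m + 4

/-- the deep pieces: components of the graph of the vertices of level at least `a`, all levels of which are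
at least `a + L` -/
def Dp {V : Type} (G : SimpleGraph V) (S : Set V) (l : V → ℕ) (a L : ℕ) : Set (Set V) :=
  {D | IsComp G {v | v ∉ S ∧ a ≤ l v} D ∧ ∀ v ∈ D, a + L ≤ l v}

/-- the clique formed by `s a, ..., s n` and the neighbours of the deep pieces outside `S` -/
def QQ {V : Type} (G : SimpleGraph V) (S : Set V) (n : ℕ) (s : ℕ → V) (l : V → ℕ) (a L : ℕ) :
    Set V :=
  {v | (∃ i, a ≤ i ∧ i ≤ n ∧ v = s i) ∨ (v ∉ S ∧ l v < a ∧ ∃ D ∈ Dp G S l a L, v ∈ nb G D)}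

/-- the standing assumptions of the last part, with `a = L = m + 4` -/
def Fr7 {V : Type} (G : SimpleGraph V) (S : Set V) (n m : ℕ) (s : ℕ → V) (l : V → ℕ) : Prop :=
  Cls G ∧ CompleteOn G S ∧ Lev G S n s l ∧ Unb G S m ∧ 20 * m + 200 ≤ n

/-- `y` is in the deep piece `D` and its trace is the largest one in `D` -/
def Top {V : Type} (G : SimpleGraph V) (S : Set V) (n m : ℕ) (s : ℕ → V) (l : V → ℕ) (D : Set V)
    (y : V) : Prop :=
  D ∈ Dp G S l (m + 4) (m + 4) ∧ y ∈ D ∧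
    ∀ v ∈ D, Ms G (QQ G S n s l (m + 4) (m + 4)) v ⊆ Ms G (QQ G S n s l (m + 4) (m + 4)) y

/-- **C10.** The clique `QQ` and the deep pieces.  (Uses `S_A0`, `S_B0`, `S_B1`, `S_C5`, `S_C9`.)

Proof. Let `a = L = m + 4`.  By C9 (for `i = a`) every component of the graph of the vertices of level at least
`a` with smallest level `lo` has all levels `< lo + L`.
(1) C5 gives `u₀ ∉ S` with `a < l u₀ < a + m + 1`; it is not in a deep piece.  Let `q ∈ QQ \ S`, `q ~ v`, `v ∈ D` deep;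
`l q < a`.  CLAIM `u₀ ~ q`.  Otherwise B0 with `P = {q}`, `X = {v}`, `b := s (l v)`, `Y = {u₀}`,
`c, d := s a, s (a + 1)`: `q` is adjacent to all `s j`, `j ≥ a`; `v ~ q` and `v` is not adjacent to `s (l v)`, `s a`,
`s (a + 1)` (`l v ≥ a + L`); `u₀ ~ s (l v)`, `u₀` is not adjacent to `s a`, `s (a + 1)`, `q`, and not to `v` (otherwise
`u₀ ∈ D`).  Two elements `q, q'` of `QQ \ S` are adjacent: otherwise `{u₀}, {q}, {s a}, {q'}` is a four-cycle.
(2) `D` is connected, disjoint from `QQ` (levels), and `nb G D ⊆ QQ`: `u ∈ nb G D \ S` has `l u < a` (otherwise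
`u ∈ D`), `u = s i ∈ nb G D` has `i > a`.
(3) Both traces contain `s a`, `s (a + 1)`: B1 for the clique `QQ`.
(4) If `a ≤ l v` then `v` is in a component which is not deep, so its smallest level is `< a + L`.
(5) C5 gives `v` with `t < l v < t + m + 1`; its component `D` has `lo > l v - L ≥ a + L`: deep.  Let `y ∈ D` have the
largest trace (chain by (3)).  `l v ≤ l y` (`Ms G QQ v ∩ S = {s j | a ≤ j ≤ l v}`), `l y < lo + L ≤ l v + L`. -/
def S_C10 : Prop := ∀ (V : Type) [Finite V] (G : SimpleGraph V) (S : Set V) (n m : ℕ) (s : ℕ → V)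
  (l : V → ℕ), Fr7 G S n m s l →
  CompleteOn G (QQ G S n s l (m + 4) (m + 4)) ∧
  (∀ D ∈ Dp G S l (m + 4) (m + 4), IsComp G (QQ G S n s l (m + 4) (m + 4))ᶜ D) ∧
  (∀ D ∈ Dp G S l (m + 4) (m + 4), ∀ D' ∈ Dp G S l (m + 4) (m + 4), ∀ v ∈ D, ∀ w ∈ D',
    Ms G (QQ G S n s l (m + 4) (m + 4)) v ⊆ Ms G (QQ G S n s l (m + 4) (m + 4)) w ∨
    Ms G (QQ G S n s l (m + 4) (m + 4)) w ⊆ Ms G (QQ G S n s l (m + 4) (m + 4)) v) ∧
  (∀ v, v ∉ S → (∀ D ∈ Dp G S l (m + 4) (m + 4), v ∉ D) → l v < 3 * (m + 4)) ∧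
  ∀ t, 3 * (m + 4) ≤ t → t + m + 1 ≤ n → ∃ D y, Top G S n m s l D y ∧ t < l y ∧
    l y < t + 2 * (m + 4)

/-- **C11.** Low and high pieces.  (Uses `S_A7`, `S_B3`, `S_C10`.)

Proof. `M v = Ms G QQ v`.  If `D' = D`: first alternative.  Let `D' ≠ D`; `y` is not adjacent to `D'`.  `nb G D' ⊆ QQ` is a
clique; A7 gives `x' ∈ D'` complete to it, so `M x' ⊆ M v` for all `v ∈ D'`.  Let `y' ∈ D'` have the largest trace.
If `M y ⊆ M x'` the second alternative holds; otherwise `M x' ⊆ M y` (C10 (3)).  If `M y' ⊆ M y`: first alternative;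
otherwise `M y ⊆ M y'`.  B3 for the clique `QQ`, `C := D'`, `x := x'`, `y := y'`, `v := y`:
`|M y ∩ (M y' \ M x')| ≤ 1`, and then `M y \ M v ⊆ M y \ M x' = M y ∩ (M y' \ M x')`; or `M y' \ M x' ⊆ M y`, so
`M y' ⊆ M y`. -/
def S_C11 : Prop := ∀ (V : Type) [Finite V] (G : SimpleGraph V) (S : Set V) (n m : ℕ) (s : ℕ → V)
  (l : V → ℕ) (D : Set V) (y : V), Fr7 G S n m s l → Top G S n m s l D y →
  ∀ D' ∈ Dp G S l (m + 4) (m + 4),
    (∀ v ∈ D', Ms G (QQ G S n s l (m + 4) (m + 4)) v ⊆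
      Ms G (QQ G S n s l (m + 4) (m + 4)) y) ∨
    ∀ v ∈ D', (Ms G (QQ G S n s l (m + 4) (m + 4)) y \
      Ms G (QQ G S n s l (m + 4) (m + 4)) v).ncard ≤ 1

/-- **C12.** The window between two tops.  (Uses `S_A1`, `S_C10`, `S_C11`.)

Proof. `M v = Ms G QQ v`, `a = m + 4`; `M v ∩ S = {s j | a ≤ j ≤ l v}` for `v ∉ S` (empty if `l v < a`).  `M y₀ ⊆ M y₁`
(C10 (3), levels).  `W = (M y₁ \ M y₀) \ Z`.  Let `V_1, ..., V_r` be the maximal sets among the nonempty sets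
`M g \ Z ⊆ W` with `g ∉ QQ`, `g` in no deep piece; they are pairwise disjoint (`M g \ Z = Ms G (QQ \ Z) g`).  If
`r ≥ 4` we are done.  Suppose `r ≤ 3`; we construct a balanced cut.  `W° = W \ ⋃ V_i`.
(1) Every `g ∉ QQ` which is in no deep piece is adjacent to all elements of `W°`.  Suppose `w ∈ M g ∩ W°`.  `g ∈ S`
(then `M g ∩ S = ∅`) or `l g < 3 a`.  `M g \ Z`, `M y₁ \ Z` meet, so they are nested; among the at least ten indices
`j` with `3 a ≤ j ≤ l y₀` there is one with `s j ∉ Z`, it is in `M y₀`, `M y₁`, not in `M g`.  So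
`M g \ Z ⊆ M y₁`.  `M g \ Z`, `M y₀ \ Z` are nested or disjoint; `M y₀ \ Z ⊆ M g` is impossible, `M g \ Z ⊆ M y₀` is
impossible (`w`); so they are disjoint, `M g \ Z ⊆ W`, it is contained in some `V_i`, and `w ∈ V_i`: contradiction.
(2) There are `e₀`, `e₁` such that for `v` in a deep piece `|M y₀ \ M v| ≤ 1` implies `M y₀ \ {e₀} ⊆ M v`, and the same for
`y₁`, `e₁`: by the chain property C10 (3) the one-element sets `M y₀ \ M v` are all equal.  Call a deep piece `D`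
high for `y` if `|M y \ M v| ≤ 1` for all `v ∈ D`; by C11 otherwise `M v ⊆ M y` for all `v ∈ D`.
Let `𝒟` be the set of the deep pieces which are high for `y₀` and not for `y₁`, `X = W° ∪ ⋃₀ 𝒟`.
(3) `rk (W° \ {e₁}) Xᶜ ≤ 1`: an element `r ≠ e₁` of `W°` is adjacent to all elements of `QQ \ W°`, to all `g` as in
(1), to all elements of deep pieces which are not high for `y₀` (`M v ⊆ M y₀`), and to no element of a deep piece
which is high for `y₁` (`M y₁ \ {e₁} ⊆ M v`); the deep pieces outside `𝒟` are of the last two kinds.  `rk {e₁} Xᶜ ≤ 1`.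
(4) `rk (⋃₀ 𝒟) Xᶜ ≤ 14`: the neighbours in `Xᶜ` of `v ∈ D ∈ 𝒟` are the elements of `(QQ \ W°) \ M v` (C10 (2)), so it is
enough to show that `M v \ W°` takes at most 14 values (A1 (6)).  `M y₀ \ {e₀} ⊆ M v ⊆ M y₁`.  For every `i` `V_i ⊆ M v` or
`V_i ∩ M v = ∅`: `M v \ Z` and `V_i` are nested or disjoint, and `M v \ Z ⊆ V_i` is impossible (`M y₀ \ {e₀} \ Z` is not
empty and disjoint from `V_i`).  So `M v \ W°` is determined by the truth of `e₀ ∈ M v`, the set of the `i` with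
`V_i ⊆ M v`, and `M v ∩ Z` (an element of `M v \ W°` is in `M y₀`, in `Z` or in some `V_i`).  The `M v` form a chain, so it is
determined by the number `φ v = [e₀ ∈ M v] + |{i | V_i ⊆ M v}| + |M v ∩ Z| ≤ 1 + 3 + 9`.
(5) `cr G X ≤ 16`.  `X ∩ S`: `s j ∈ W` iff `l y₀ < j ≤ l y₁` and `s j ∉ Z`; `V_i ∩ S = ∅` (`V_i = M g \ Z`, `g ∈ S` or
`l g < 3 a ≤ l y₀`).  So `|S ∩ X| ≥ l y₁ - l y₀ - 9 > m`, `|S \ X| ≥ l y₀ > m`: contradiction to `Unb`. -/
def S_C12 : Prop := ∀ (V : Type) [Finite V] (G : SimpleGraph V) (S Z : Set V) (n m : ℕ)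
  (s : ℕ → V) (l : V → ℕ) (D₀ D₁ : Set V) (y₀ y₁ : V), Fr7 G S n m s l →
  Top G S n m s l D₀ y₀ → Top G S n m s l D₁ y₁ → Z.ncard ≤ 9 →
  LamOn G (QQ G S n s l (m + 4) (m + 4) \ Z) → 3 * (m + 4) + 10 ≤ l y₀ → l y₀ + m + 10 ≤ l y₁ →
  ∃ g : Fin 4 → V, (∀ i, g i ∉ QQ G S n s l (m + 4) (m + 4) ∧
    (Ms G (QQ G S n s l (m + 4) (m + 4) \ Z) (g i)).Nonempty ∧
    Ms G (QQ G S n s l (m + 4) (m + 4) \ Z) (g i) ⊆
      Ms G (QQ G S n s l (m + 4) (m + 4)) y₁ \ Ms G (QQ G S n s l (m + 4) (m + 4)) y₀) ∧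
    ∀ i j, i ≠ j → Disjoint (Ms G (QQ G S n s l (m + 4) (m + 4) \ Z) (g i))
      (Ms G (QQ G S n s l (m + 4) (m + 4) \ Z) (g j))

/-- **C13.** Cliques with chain traces.  (Uses `S_B8`, `S_C4`, `S_C10`, `S_C12`, `S_T7`.)

Proof. Suppose `Unb G S m`.  C4 gives `s`, `l`, so `Fr7`.  `QQ` is a clique (C10 (1)), B8 gives `Z` with
`LamOn G (QQ \ Z)`.  `L = m + 4`, `t₀ = 3 L + 10`, `t₁ = t₀ + 4 L + 10`, `t₂ = t₁ + 4 L + 10`
(`t₂ + m + 1 ≤ 12 L + 30 ≤ n`).  C10 (5) gives tops `y₀, y₁, y₂` with `t_i < l y_i < t_i + 2 L`.  C12 for `y₀, y₁` gives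
`k`, and C12 for `y₁, y₂` gives `g'`.  Let `S* = QQ \ Z`, `N = M y₁ \ Z = Ms G S* y₁` (`M v = Ms G QQ v`).  `TSet G S* N k g'`:
the block property is laminarity (`y₁ ∉ S*`); the traces of the `k i` are inside `M y₁ \ M y₀ \ Z ⊆ N`, those of the
`g' i` inside `M y₂ \ M y₁ \ Z ⊆ S* \ N`.  T7 gives `X` with `X ∩ S* = N`, `cr G X ≤ 8`.  `S ∩ X` contains the `s j` with
`L ≤ j ≤ l y₁` outside `Z` (more than `m` elements) and `S \ X` contains the `s j` with `j > l y₁` outside `Z`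
(`n - l y₁ ≥ l y₂ - l y₁ ≥ 2 L + 10`): contradiction to `Unb`. -/
def S_C13 : Prop := ∀ (V : Type) [Finite V] (G : SimpleGraph V) (S : Set V) (m : ℕ), Cls G →
  CompleteOn G S → ChainOn G S → 20 * m + 200 ≤ S.ncard → ¬ Unb G S m

/-- **C14.** Large cliques have balanced cuts.  (Uses `S_C3`, `S_C13`.)

Proof. `n₁` from C3 for `m`, `n₂ = 20 m + 200`; `S' ⊆ S` inherits `Unb`; C13. -/
def S_C14 : Prop := ∀ m : ℕ, ∃ n : ℕ, ∀ (V : Type) [Finite V] (G : SimpleGraph V) (S : Set V),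
  Cls G → CompleteOn G S → n ≤ S.ncard → ¬ Unb G S m

/-- **C15.** The theorem: chordal graphs without `K4:0,1` have layouts of bounded width, so the pair
`(C_4, K4:0,1)` has bounded clique-width.  (Uses `S_A12`, `S_C14`, `S_LayCW`.)

Proof. `n` from C14 for `m = 32`; A12 for `c = 16`, `n`.  For the second part `IsIndMinor` is `IMS` (`ims_univ_iff`),
and `S_LayCW`. -/
def S_C15 : Prop := (∃ k : ℕ, ∀ (V : Type) [Finite V] (G : SimpleGraph V), Cls G →
    Lay G k Set.univ) ∧ BoundedCW cyc4 (KA 4 2 ![{0}, {1}])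

end Pool.Agent.MPd439b2.LK
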